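import Pool.Agent.TH919.HS.Gen6

namespace Pool.Agent.TH919.HS

open Polynomial Finset NumberField IsDedekindDomain WithZero Pool.Agent.W318

section

variable {K : Type} [Field K] [NumberField K]

theorem two_lower (v : HeightOneSpectrum (𝓞 K)) {M : Type} [Field M] [NumberField M]
    [Algebra K M] (V : HeightOneSpectrum (𝓞 M)) [V.asIdeal.LiesOver v.asIdeal] {D : ℕ}
    (hD : ordAbs v ((2 : ℕ) : K) ≤ D) :
    (2 : ℝ) ^ (-((D * v.asIdeal.ramificationIdx' V.asIdeal : ℕ) : ℤ)) ≤ absW V (2 : M) := by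
  have hc := compat_of_liesOver v V
  have h20 : ((2 : ℕ) : K) ≠ 0 := by norm_num
  obtain ⟨k, hk⟩ := exists_exp v h20
  have h1 := hc.2 _ _ hk
  rw [map_natCast, Nat.cast_ofNat] at h1
  rw [h1, zpow_le_zpow_iff_right₀ (by norm_num)]
  rw [ordAbs_of_exp hk] at hD
  have h2 : -(D : ℤ) ≤ k := by omega
  push_cast
  nlinarith [Int.natCast_nonneg (v.asIdeal.ramificationIdx' V.asIdeal)]

/-- The lower bound, for the families which contain the points of order `6`. -/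
theorem caseB {g n : ℕ} (hg : 2 ≤ g) (hn : n = g + 1 + (g + 1))
    {Q : WeierstrassCurve K → K[X]} (hQ : GF n Q)
    (hdvd : ∀ W, P6 W ∣ Q W) {W : WeierstrassCurve K} (hΔ : W.Δ ≠ 0)
    (v : HeightOneSpectrum (𝓞 K)) :
    nj v (W.c₄ ^ 3 / W.Δ) ≤
      4 * (10 * (minExp g (Q W) v + (4 * g + 4) * ordAbs v ((2 : ℕ) : K))) := by
  have hF := hQ.isHyp hn hΔ
  subst hn
  have h30 := W.Ψ₃_ne_zero three_ne_zero
  have h40 := W.preΨ₄_ne_zero two_ne_zero
  obtain ⟨M, _, _, _, e₀, hsp, he₀⟩ := exists_field (Q W * (W.Ψ₃ * W.preΨ₄)) W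
    (mul_ne_zero (hQ.ne0 W) (mul_ne_zero h30 h40))
  have hm0 : (Q W * (W.Ψ₃ * W.preΨ₄)).map (algebraMap K M) ≠ 0 := by
    rw [Ne, Polynomial.map_eq_zero]
    exact mul_ne_zero (hQ.ne0 W) (mul_ne_zero h30 h40)
  rw [Polynomial.map_mul, Polynomial.map_mul] at hsp hm0
  have hs1 := hsp.of_dvd hm0 (dvd_mul_right _ _)
  have hs3 := hsp.of_dvd hm0 ((dvd_mul_right _ _).trans (dvd_mul_left _ _))
  have hs4 := hsp.of_dvd hm0 ((dvd_mul_left _ _).trans (dvd_mul_left _ _))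
  obtain ⟨V, hV⟩ := exists_prime_over (M := M) v
  have hna := absW_na V
  set D := minExp g (Q W) v + (4 * g + 4) * ordAbs v ((2 : ℕ) : K) with hD
  have h2D : ordAbs v ((2 : ℕ) : K) ≤ D := by
    rw [hD]
    nlinarith [Nat.zero_le (ordAbs v ((2 : ℕ) : K)), Nat.zero_le (minExp g (Q W) v)]
  have h2low := two_lower v (M := M) V h2D
  set E := v.asIdeal.ramificationIdx' V.asIdeal with hE
  refine nj_le_of_hlow hΔ v V he₀ (10 * D) ?_
  intro a b c₀ hab hac hbc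
  obtain ⟨e, he, ha, hb, hcc⟩ : ∃ e : Fin 3 → M, TT W e ∧ e 0 = e₀ a ∧ e 1 = e₀ b ∧ e 2 = e₀ c₀ :=
    ⟨_, he₀.perm3 hab hac hbc, rfl, rfl, rfl⟩
  rw [← ha, ← hb, ← hcc]
  obtain ⟨c, t, hc0, hfac, hinj, -⟩ := hQ.fac hΔ hs1 he
  obtain ⟨c', w, hc'0, hfac', hwinj, hew⟩ := gf_psi3.fac hΔ hs3 he
  have hc'3 : c' = 3 := by
    have h1 := congrArg Polynomial.leadingCoeff hfac'
    rw [leadingCoeff_mul, leadingCoeff_C,
      (monic_prod_of_monic _ _ fun i _ => monic_X_sub_C _).leadingCoeff, mul_one,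
      leadingCoeff_map, W.leadingCoeff_Ψ₃ three_ne_zero, map_ofNat] at h1
    exact h1.symm
  rw [hc'3] at hfac'
  have hee : ∀ i j, i ≠ j → e i - e j ≠ 0 := fun i j hij => sub_ne_zero.mpr (he.ne hΔ hij)
  have hw0 : ∀ j, (W.Ψ₃.map (algebraMap K M)).eval (w j) = 0 := by
    intro j
    rw [hfac']
    simp only [eval_mul, eval_C, eval_prod, eval_sub, eval_X]
    rw [Finset.prod_eq_zero (mem_univ j) (sub_self _), mul_zero]
  have hwe : ∀ j i, w j - e i ≠ 0 := fun j i => sub_ne_zero.mpr (hew i j).symm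
  have hN : ∀ j, NN e 0 (w j) ≠ 0 := fun j => (root_p6 he hΔ (hw0 j) (hwe j) 0).1
  have hroot : ∀ j i, ((Q W).map (algebraMap K M)).eval (sg e i (w j)) = 0 := by
    intro j i
    obtain ⟨R, hR⟩ := hdvd W
    rw [hR, Polynomial.map_mul, eval_mul, (root_p6 he hΔ (hw0 j) (hwe j) i).2, zero_mul]
  set ε := (2 : ℝ) ^ (-((D * E : ℕ) : ℤ)) with hε
  have hε0 : 0 < ε := by positivity
  have hε1 : ε ≤ 1 := by
    rw [hε]
    apply zpow_le_one_of_nonpos₀ (by norm_num)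
    omega
  have key : ∀ j, ∀ l ∈ univ.erase j,
      ε ≤ absW V (-AA e 0 * (w j - w l) ^ 2 / (NN e 0 (w j) * NN e 0 (w l))) := by
    intro j l hl
    have hjl : w j ≠ w l := fun h => (Finset.ne_of_mem_erase hl) (hwinj h).symm
    obtain ⟨n1, n2, n3, n4⟩ := cr6_ne he hΔ (hwe j) (hwe l) (hN j) (hN l) hjl
    have h := cr_lower_roots hg hF v V hc0 hinj hfac (hroot j 1) (hroot l 1) (hroot j 2)
      (hroot l 2) n1 n2 n3 n4
    rwa [cr6 e (hwe j) (hwe l) (hN j) (hN l) (hee 1 2 (by decide)), ← hD, ← hE, ← hε] at h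
  have hprod : ε ^ 12 ≤ absW V (∏ j, ∏ l ∈ univ.erase j,
      (-AA e 0 * (w j - w l) ^ 2 / (NN e 0 (w j) * NN e 0 (w l)))) := by
    rw [map_prod]
    have h1 : ε ^ 12 = ∏ _j : Fin 4, ε ^ 3 := by
      rw [Finset.prod_const, Finset.card_univ, Fintype.card_fin, ← pow_mul]
    rw [h1]
    refine Finset.prod_le_prod (fun _ _ => by positivity) fun j _ => ?_
    rw [map_prod]
    have hc3 : (univ.erase j : Finset (Fin 4)).card = 3 := by
      rw [Finset.card_erase_of_mem (mem_univ j)]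
      simp
    have h2 : ε ^ 3 = ∏ _l ∈ univ.erase j, ε := by
      rw [Finset.prod_const, hc3]
    rw [h2]
    exact Finset.prod_le_prod (fun _ _ => hε0.le) (key j)
  have hcr := congrArg (absW V) (prod_cr6 he hΔ hfac' hs4 hN)
  rw [map_mul, map_mul, map_pow, map_pow, map_pow] at hcr
  set X := absW V (AA e 0 / (e 1 - e 2) ^ 2) with hX
  have hX0 : 0 ≤ X := (absW V).nonneg _
  have h3le : absW V (3 : M) ≤ 1 := by
    have := nat_le1 (M := M) hna 3
    rwa [Nat.cast_ofNat] at this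
  have hX2 : (ε ^ 10) ^ 2 ≤ X ^ 2 := by
    calc (ε ^ 10) ^ 2 = ε ^ 8 * ε ^ 12 := by ring
      _ ≤ absW V (2 : M) ^ 8 * absW V (∏ j, ∏ l ∈ univ.erase j,
          (-AA e 0 * (w j - w l) ^ 2 / (NN e 0 (w j) * NN e 0 (w l)))) :=
          mul_le_mul (pow_le_pow_left₀ hε0.le h2low 8) hprod (by positivity)
            (pow_nonneg ((absW V).nonneg _) _)
      _ = absW V (3 : M) ^ 6 * X ^ 2 := hcr
      _ ≤ 1 * X ^ 2 := mul_le_mul_of_nonneg_right
          (pow_le_one₀ ((absW V).nonneg _) h3le) (by positivity)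
      _ = X ^ 2 := one_mul _
  have hX1 : ε ^ 10 ≤ X := (pow_le_pow_iff_left₀ (by positivity) hX0 two_ne_zero).mp hX2
  have hfin : ε ^ 10 ≤ absW V ((e 0 - e 1) / (e 0 - e 2)) := by
    rw [map_div₀]
    have hy : 0 < absW V (e 0 - e 2) := (absW V).pos (hee 0 2 (by decide))
    have hx : 0 < absW V (e 0 - e 1) := (absW V).pos (hee 0 1 (by decide))
    rcases le_or_gt (absW V (e 0 - e 2)) (absW V (e 0 - e 1)) with hle | hlt
    · refine (pow_le_one₀ hε0.le hε1).trans ?_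
      rwa [one_le_div hy]
    · have hz : absW V (e 1 - e 2) = absW V (e 0 - e 2) := by
        have h1 : e 1 - e 2 = (e 0 - e 2) - (e 0 - e 1) := by ring
        rw [h1]
        exact na_sub_eq hna hlt
      have e1 : (0 + 1 : Fin 3) = 1 := rfl
      have e2 : (0 + 2 : Fin 3) = 2 := rfl
      have h2 : X = absW V (e 0 - e 1) / absW V (e 0 - e 2) := by
        rw [hX, AA, e1, e2, map_div₀, map_mul, map_pow, hz]
        field_simp
      rwa [← h2]
  refine le_trans (le_of_eq ?_) hfin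
  rw [hε, ← zpow_natCast, ← zpow_mul]
  congr 1
  push_cast
  ring

/-- **Szpiro's conjecture over `K` from the hyperelliptic one in any genus `g ≥ 3`.** -/
theorem ell_of_szp3 {g : ℕ} (hg : 3 ≤ g) (hs : SzpiroOver K g) : SzpiroEllOver K := by
  by_cases h : g % 3 = 2
  · obtain ⟨P, hP, -, -, hA, hB⟩ := exists_gf2 (K := K) ((g + 1) / 3)
    have hn : 6 * ((g + 1) / 3) = g + 1 + (g + 1) := by omega
    rcases le_or_gt 4 ((g + 1) / 3) with hm | hm
    · obtain ⟨q, P', hq, hP', hv', hd⟩ := hA hm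
      exact ell_of_fam (a := 8) (b := 8 * (4 * g + 4)) (fun W hΔ => hP.isHyp hn hΔ)
        (fun W hΔ v h2 h3 h0 => hP.good (by omega) hn hΔ v h2 h3 h0)
        (fun W hΔ v => (caseA (by omega) hn hq hP' hv' hP hd hΔ v).trans
          (le_of_eq (by ring))) hs
    · exact ell_of_fam (a := 40) (b := 40 * (4 * g + 4)) (fun W hΔ => hP.isHyp hn hΔ)
        (fun W hΔ v h2 h3 h0 => hP.good (by omega) hn hΔ v h2 h3 h0)
        (fun W hΔ v => (caseB (by omega) hn hP (hB (by omega)) hΔ v).trans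
          (le_of_eq (by ring))) hs
  · exact ell_of_szp01 hg h hs

end

end Pool.Agent.TH919.HS
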