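import Pool.Agent.TH919.HS.Glob

namespace Pool.Agent.TH919.HS

open Polynomial Finset NumberField IsDedekindDomain WithZero Pool.Agent.W318

/-- The primes up to `N`. -/
def smallPrimes (N : ℕ) : Finset ℕ := (Finset.range (N + 1)).filter Nat.Prime

theorem prime_of_mem_small {N p : ℕ} (h : p ∈ smallPrimes N) : p.Prime := (Finset.mem_filter.mp h).2

theorem mem_small {N p : ℕ} (hp : p.Prime) (h : p ≤ N) : p ∈ smallPrimes N :=
  Finset.mem_filter.mpr ⟨Finset.mem_range.mpr (by omega), hp⟩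

theorem union_prime {S : Finset ℕ} (hS : ∀ p ∈ S, p.Prime) (N : ℕ) :
    ∀ p ∈ S ∪ smallPrimes N, p.Prime := by
  intro p hp
  rcases Finset.mem_union.mp hp with h | h
  · exact hS p h
  · exact prime_of_mem_small h

theorem prod_union_le {S : Finset ℕ} (hS : ∀ p ∈ S, p.Prime) (N : ℕ) :
    ∏ p ∈ S ∪ smallPrimes N, p ≤ (∏ p ∈ S, p) * ∏ p ∈ smallPrimes N, p := by
  rw [← Finset.prod_union_inter]
  apply Nat.le_mul_of_pos_right
  apply Finset.prod_pos
  intro p hp
  exact (hS p (Finset.mem_inter.mp hp).1).pos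

theorem above_mono {K : Type} [Field K] [NumberField K] {S S' : Finset ℕ} (h : S ⊆ S')
    {v : HeightOneSpectrum (𝓞 K)} (hv : Above S v) : Above S' v := by
  obtain ⟨p, hp, h1⟩ := hv
  exact ⟨p, h hp, h1⟩

section

variable {K L : Type} [Field K] [NumberField K] [Field L] [NumberField L] [Algebra K L]

theorem above_of_under {S : Finset ℕ} (v : HeightOneSpectrum (𝓞 K))
    (w : HeightOneSpectrum (𝓞 L)) [w.asIdeal.LiesOver v.asIdeal] (hv : Above S v) :
    Above S w := by
  obtain ⟨p, hp, h1⟩ := hv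
  refine ⟨p, hp, ?_⟩
  by_cases hp0 : p = 0
  · rw [hp0]; simp
  obtain ⟨k, hk⟩ := exists_exp v (Nat.cast_ne_zero.mpr hp0 : (p : K) ≠ 0)
  have h2 := absW_liesOver v w hk
  rw [map_natCast] at h2
  rw [h2]
  rw [hk, ← exp_zero, exp_lt_exp] at h1
  rw [← exp_zero, exp_lt_exp]
  have h3 : (1 : ℤ) ≤ (v.asIdeal.ramificationIdx' w.asIdeal : ℤ) := by
    exact_mod_cast ram_pos v w
  nlinarith

theorem val_two_of_not_above {K : Type} [Field K] [NumberField K] {S : Finset ℕ}
    (h2 : 2 ∈ S) {v : HeightOneSpectrum (𝓞 K)} (hv : ¬ Above S v) :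
    v.valuation K ((2 : ℕ) : K) = 1 := by
  by_contra hne
  exact hv ⟨2, h2, lt_of_le_of_ne (val_nat_le_one v 2) hne⟩

/-- The bound for the discriminant over the splitting field. -/
theorem disc_split_le {g D c₁ κ₁ : ℕ} (hg : 2 ≤ g) {S S' : Finset ℕ} (hSS' : S ⊆ S')
    (hS' : ∀ p ∈ S', p.Prime) (h2 : 2 ∈ S')
    (hD : Module.finrank ℚ L ≤ D) {F : K[X]} (hF : IsHyp g F)
    (hgood : ∀ v : HeightOneSpectrum (𝓞 K), ¬ Above S v → minExp g F v = 0)
    {u : L} {α β : Fin (g + 1 + (g + 1)) → L} (hu : u ≠ 0)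
    (hne : ∀ i j, i ≠ j → br α β i j ≠ 0)
    (hfac : F.map (algebraMap K L) = C u * ∏ i, (C (α i) * X + C (β i)))
    (habc : ∀ x : L, x ≠ 0 → x ≠ 1 →
        (∀ w : HeightOneSpectrum (𝓞 L), ¬ Above S' w →
          w.valuation L x = 1 ∧ w.valuation L (1 - x) = 1) →
        phi x ≤ c₁ * (∏ p ∈ S', p) ^ κ₁) :
    discNorm g (F.map (algebraMap K L)) ≤ (2 ^ D) ^ (4 * g) *
      (((∏ p ∈ S', p) ^ D) ^ (2 * (g + 1 + (g + 1) - 1)) *
        ((c₁ * (∏ p ∈ S', p) ^ κ₁) ^ (quads (g + 1 + (g + 1))).card) ^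
          ((g + 1 + (g + 1)) * (g + 1 + (g + 1) - 1))) := by
  classical
  have hFL := isHyp_map (L := L) hF
  set B := (finite_bad hFL).toFinset with hB
  have hBmem : ∀ w, w ∈ B ↔ minExp g (F.map (algebraMap K L)) w ≠ 0 := fun w => by simp [hB]
  have hR1 : 1 ≤ ∏ p ∈ S', p := Nat.pos_of_ne_zero (prod_primes_ne_zero hS')
  -- places not above S'
  have hgoodw : ∀ w : HeightOneSpectrum (𝓞 L), ¬ Above S' w →
      ∃ v : HeightOneSpectrum (𝓞 K), w.asIdeal.LiesOver v.asIdeal ∧
        v.valuation K ((2 : ℕ) : K) = 1 ∧ minExp g F v = 0 := by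
    intro w hw
    obtain ⟨v, hvw⟩ := exists_under (K := K) w
    have hv : ¬ Above S' v := fun h => hw (above_of_under v w h)
    exact ⟨v, hvw, val_two_of_not_above h2 hv, hgood v fun h => hv (above_mono hSS' h)⟩
  have hBab : ∀ w ∈ B, Above S' w := by
    intro w hw
    by_contra hcon
    obtain ⟨v, hvw, h3, h4⟩ := hgoodw w hcon
    exact (hBmem w).mp hw (minExp_map_eq_zero hg hF v w h3 h4)
  have hphi : ∀ q ∈ quads (g + 1 + (g + 1)), phi (crq α β q) ≤ c₁ * (∏ p ∈ S', p) ^ κ₁ := by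
    intro q hq
    apply habc _ (crq_ne_zero hne hq) (crq_ne_one hne hq)
    intro w hw
    obtain ⟨v, hvw, h3, h4⟩ := hgoodw w hw
    exact crq_unit hg hF v w h3 h4 hu hne hfac hq
  rw [discNorm_eq B (fun w hw => (hBmem w).mpr hw)]
  calc ∏ w ∈ B, Ideal.absNorm w.asIdeal ^ minExp g (F.map (algebraMap K L)) w
      ≤ ∏ w ∈ B, (Ideal.absNorm w.asIdeal ^ ordAbs w ((2 : ℕ) : L)) ^ (4 * g) *
          (Ideal.absNorm w.asIdeal ^ (2 * (g + 1 + (g + 1) - 1)) *
          (∏ q ∈ quads (g + 1 + (g + 1)), Ideal.absNorm w.asIdeal ^ ordAbs w (crq α β q)) ^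
            ((g + 1 + (g + 1)) * (g + 1 + (g + 1) - 1))) := by
        apply Finset.prod_le_prod' fun w _ => ?_
        rw [Finset.prod_pow_eq_pow_sum, ← pow_mul, ← pow_mul, ← pow_add, ← pow_add]
        apply Nat.pow_le_pow_right (one_le_absNorm w)
        have := local_upper (by omega : 1 ≤ g) hFL hu hne hfac w
        refine this.trans (le_of_eq ?_)
        ring
    _ = (∏ w ∈ B, Ideal.absNorm w.asIdeal ^ ordAbs w ((2 : ℕ) : L)) ^ (4 * g) *
          ((∏ w ∈ B, Ideal.absNorm w.asIdeal) ^ (2 * (g + 1 + (g + 1) - 1)) *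
          (∏ q ∈ quads (g + 1 + (g + 1)), ∏ w ∈ B, Ideal.absNorm w.asIdeal ^
            ordAbs w (crq α β q)) ^ ((g + 1 + (g + 1)) * (g + 1 + (g + 1) - 1))) := by
        rw [Finset.prod_mul_distrib, Finset.prod_mul_distrib, Finset.prod_pow, Finset.prod_pow,
          Finset.prod_pow, Finset.prod_comm]
    _ ≤ _ := by
        refine Nat.mul_le_mul ?_ (Nat.mul_le_mul ?_ ?_)
        · refine Nat.pow_le_pow_left ?_ _
          exact (prod_norm_nat_le B (by norm_num)).trans (Nat.pow_le_pow_right (by norm_num) hD)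
        · refine Nat.pow_le_pow_left ?_ _
          exact (prod_above_le hS' B hBab).trans (Nat.pow_le_pow_right hR1 hD)
        · refine Nat.pow_le_pow_left ?_ _
          refine (Finset.prod_le_pow_card _ _ _ fun q hq => ?_)
          exact (prod_le_phi (crq_ne_zero hne hq) (crq_ne_one hne hq) B).trans (hphi q hq)

end

theorem szpiro_of_abc (h : UniformABC) {g : ℕ} (hg : 2 ≤ g) : UniformSzpiro g := by
  classical
  intro d
  set m := (2 * g + 2).factorial with hm
  obtain ⟨c₁, κ₁, habc⟩ := h (d * m)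
  set P0 := ∏ p ∈ smallPrimes (2 * g + 2), p with hP0
  set n := g + 1 + (g + 1) with hn
  set Q := (quads n).card with hQ
  set D := d * m with hD
  refine ⟨(2 ^ D) ^ (4 * g) * ((P0 ^ D) ^ (2 * (n - 1)) *
      ((c₁ * P0 ^ κ₁) ^ Q) ^ (n * (n - 1))),
    d * bcConst g d * m + (D * (2 * (n - 1)) + κ₁ * Q * (n * (n - 1))), ?_⟩
  intro K _ _ hK S hS hunr F hF hgood
  have hSS' : S ⊆ S ∪ smallPrimes (2 * g + 2) := Finset.subset_union_left
  have hS' := union_prime hS (2 * g + 2)
  have h2 : 2 ∈ S ∪ smallPrimes (2 * g + 2) :=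
    Finset.mem_union_right _ (mem_small Nat.prime_two (by omega))
  have hR1 : 1 ≤ ∏ p ∈ S, p := Nat.pos_of_ne_zero (prod_primes_ne_zero hS)
  obtain ⟨L, _, _, _, _, hsplit, hdeg, hfix⟩ := exists_split hF.1
  obtain ⟨u, α, β, hu, huni, hne, hfac⟩ := exists_factor_form (M := L)
    AbsoluteValue.trivial (by omega : 1 ≤ g + 1) hF.good.2 hF.1 hsplit
  have hne' : ∀ i j, i ≠ j → br α β i j ≠ 0 := fun i j hij => hne i j hij
  have hgen : ∀ σ : L ≃ₐ[K] L, (∀ i, σ (α i) * β i = σ (β i) * α i) → σ = 1 := by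
    intro σ hσ
    apply hfix
    intro r hr
    have h1 : (F.map (algebraMap K L)).eval r = 0 := by rw [eval_map_algebraMap]; exact hr
    rw [hfac, eval_mul, eval_C, mul_eq_zero, eval_prod, Finset.prod_eq_zero_iff] at h1
    obtain ⟨i, _, hi⟩ := h1.resolve_left hu
    simp only [eval_add, eval_mul, eval_C, eval_X] at hi
    have hα : α i ≠ 0 := by
      intro h0
      rw [h0, zero_mul, zero_add] at hi
      have := huni i
      rw [h0, hi, map_zero, max_self] at this
      exact zero_ne_one this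
    have hr' : r = -β i / α i := by
      field_simp
      linear_combination hi
    have hσα : σ (α i) ≠ 0 := by simpa using hα
    rw [hr', map_div₀, map_neg, div_eq_div_iff hσα hα]
    linear_combination hσ i
  have hm1 : Module.finrank K L ≤ m :=
    hdeg.trans (Nat.factorial_le (by have := hF.2; omega))
  have hfin : Module.finrank ℚ L ≤ D := by
    have : IsScalarTower ℚ K L := IsScalarTower.of_algebraMap_eq fun x => by simp
    rw [← Module.finrank_mul_finrank ℚ K L]
    exact Nat.mul_le_mul hK hm1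
  have hunrL : UnramOutside L (S ∪ smallPrimes (2 * g + 2)) := by
    intro w hw p hp
    obtain ⟨v, hvw⟩ := exists_under (K := K) w
    have hv' : ¬ Above (S ∪ smallPrimes (2 * g + 2)) v := fun h => hw (above_of_under v w h)
    have hv : ¬ Above S v := fun h => hv' (above_mono hSS' h)
    have hram := ram_eq_one hg hF v w (val_two_of_not_above h2 hv') (hgood v hv) hu hne' hfac hgen
    rcases hunr v hv p hp with h | h
    · left
      have := absW_liesOver v w (k := 0) (x := (p : K)) (by rw [h, exp_zero])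
      rw [map_natCast, mul_zero, exp_zero] at this
      exact this
    · right
      have := absW_liesOver v w h
      rw [map_natCast, hram] at this
      simpa using this
  have hsp := disc_split_le (D := D) hg hSS' hS' h2 hfin hF hgood hu hne' hfac
    (habc L hfin (S ∪ smallPrimes (2 * g + 2)) hS' hunrL)
  have hbc := global_bc (L := L) hg hK hF hS hgood
  have hDC := one_le_discNorm hF
  have hfr : 1 ≤ Module.finrank K L := by
    have : FiniteDimensional K L := by
      have : IsScalarTower ℚ K L := IsScalarTower.of_algebraMap_eq fun x => by simp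
      exact Module.Finite.of_restrictScalars_finite ℚ K L
    exact Nat.succ_le_of_lt Module.finrank_pos
  have hun := prod_union_le hS (2 * g + 2)
  rw [← hP0] at hun
  set R := ∏ p ∈ S, p with hR
  set R' := ∏ p ∈ S ∪ smallPrimes (2 * g + 2), p with hR'
  calc discNorm g F = discNorm g F ^ 1 := (pow_one _).symm
    _ ≤ discNorm g F ^ Module.finrank K L := Nat.pow_le_pow_right hDC hfr
    _ ≤ (R ^ (d * bcConst g d)) ^ Module.finrank K L * discNorm g (F.map (algebraMap K L)) := hbc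
    _ ≤ (R ^ (d * bcConst g d)) ^ m * ((2 ^ D) ^ (4 * g) * ((R' ^ D) ^ (2 * (n - 1)) *
        ((c₁ * R' ^ κ₁) ^ Q) ^ (n * (n - 1)))) := by
        refine Nat.mul_le_mul ?_ hsp
        exact Nat.pow_le_pow_right (Nat.one_le_pow _ _ hR1) hm1
    _ ≤ (R ^ (d * bcConst g d)) ^ m * ((2 ^ D) ^ (4 * g) * (((R * P0) ^ D) ^ (2 * (n - 1)) *
        ((c₁ * (R * P0) ^ κ₁) ^ Q) ^ (n * (n - 1)))) := by
        gcongr
    _ = _ := by
        simp only [mul_pow, pow_add, ← pow_mul]
        ring

end Pool.Agent.TH919.HS
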