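import Pool.Agent.TH919.HS.FamLower
import Pool.Agent.TH919.HS.Forward

namespace Pool.Agent.TH919.HS

open Polynomial Finset NumberField IsDedekindDomain WithZero Pool.Agent.W318

section

variable {K : Type} [Field K] [NumberField K]

open Classical in
/-- The positive part of `v(1 - x)`. -/
noncomputable def oo (v : HeightOneSpectrum (𝓞 K)) (x : K) : ℕ :=
  if v.valuation K (1 - x) < 1 then ordAbs v (1 - x) else 0

theorem ordAbs_inv (v : HeightOneSpectrum (𝓞 K)) (x : K) : ordAbs v x⁻¹ = ordAbs v x := by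
  rcases eq_or_ne x 0 with rfl | hx
  · rw [inv_zero]
  · obtain ⟨k, hk⟩ := exists_exp v hx
    have h1 : v.valuation K x⁻¹ = exp (-k) := by rw [map_inv₀, hk, exp_neg]
    rw [ordAbs_of_exp hk, ordAbs_of_exp h1, Int.natAbs_neg]

theorem three_le (v : HeightOneSpectrum (𝓞 K)) {x : K} (h0 : x ≠ 0) (h1 : x ≠ 1) :
    ordAbs v x + ordAbs v (1 - x) ≤ 2 * (oo v x + oo v (1 - x) + oo v ((x - 1) / x)) := by
  classical
  have h1x : (1 : K) - x ≠ 0 := sub_ne_zero.mpr h1.symm
  obtain ⟨k, hk⟩ := exists_exp v h0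
  obtain ⟨l, hl⟩ := exists_exp v h1x
  have hna := absW_na v
  have hAx := absW_exp v hk
  have hA1x := absW_exp v hl
  have e2 : (1 : K) - (1 - x) = x := by ring
  have e3 : (1 : K) - (x - 1) / x = x⁻¹ := by
    field_simp
    ring
  have hinv : v.valuation K x⁻¹ = exp (-k) := by rw [map_inv₀, hk, exp_neg]
  unfold oo
  rw [e2, e3, ordAbs_inv, hinv, hk, hl, ordAbs_of_exp hk, ordAbs_of_exp hl]
  simp only [← exp_zero, exp_lt_exp]
  rcases lt_trichotomy k 0 with hk0 | hk0 | hk0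
  · have hlt : absW v x < absW v 1 := by
      rw [hAx, map_one]
      exact zpow_lt_one_of_neg₀ (by norm_num) hk0
    have h3 := na_sub_eq hna hlt
    rw [hA1x, map_one, ← zpow_zero (2 : ℝ), zpow_right_inj₀ (by norm_num) (by norm_num)] at h3
    rw [if_pos hk0]
    have : l.natAbs = 0 := by omega
    omega
  · have hle : absW v (1 - x) ≤ 1 := by
      refine (na_sub_le hna _ _).trans (max_le (by rw [map_one]) ?_)
      rw [hAx, hk0, zpow_zero]
    rw [hA1x, ← zpow_zero (2 : ℝ), zpow_le_zpow_iff_right₀ (by norm_num)] at hle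
    rcases hle.lt_or_eq with h4 | h4
    · rw [if_pos h4]
      have : k.natAbs = 0 := by omega
      omega
    · have h5 : k.natAbs = 0 := by omega
      have h6 : l.natAbs = 0 := by omega
      omega
  · have hlt : absW v 1 < absW v x := by
      rw [hAx, map_one]
      exact one_lt_zpow₀ (by norm_num) hk0
    have h3 := na_sub_eq hna hlt
    rw [map_sub_rev, hA1x, hAx, zpow_right_inj₀ (by norm_num) (by norm_num)] at h3
    rw [if_pos (by omega : -k < 0)]
    have : l.natAbs = k.natAbs := by omega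
    omega

theorem oo_le {g : ℕ} (hg : 2 ≤ g) (v : HeightOneSpectrum (𝓞 K)) {x : K} (h0 : x ≠ 0)
    (h1 : x ≠ 1) : oo v x ≤ (g + 1) * (minExp g (fam g x) v +
      ((4 * g + 4) * ordAbs v ((2 : ℕ) : K) + 2 * ordAbs v ((g + 1 : ℕ) : K))) := by
  unfold oo
  split_ifs with h
  · refine (fam_lower hg h0 h1 v h).trans (le_of_eq ?_)
    ring
  · exact Nat.zero_le _

theorem prod_oo_le {g : ℕ} (hg : 2 ≤ g) {x : K} (h0 : x ≠ 0) (h1 : x ≠ 1)
    (T : Finset (HeightOneSpectrum (𝓞 K))) :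
    ∏ v ∈ T, Ideal.absNorm v.asIdeal ^ oo v x ≤
      (discNorm g (fam g x) * ((2 ^ Module.finrank ℚ K) ^ (4 * g + 4) *
        ((g + 1) ^ Module.finrank ℚ K) ^ 2)) ^ (g + 1) := by
  classical
  have hF := fam_isHyp g h0 h1
  have hdisc : ∏ v ∈ T, Ideal.absNorm v.asIdeal ^ minExp g (fam g x) v ≤
      discNorm g (fam g x) := by
    rw [discNorm_eq (T ∪ (finite_bad hF).toFinset) (fun v hv => by
      rw [Finset.mem_union]; right; simpa using hv)]
    apply Finset.prod_le_prod_of_subset_of_one_le' Finset.subset_union_left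
    intro v _ _
    exact Nat.one_le_pow _ _ (one_le_absNorm v)
  calc ∏ v ∈ T, Ideal.absNorm v.asIdeal ^ oo v x
      ≤ ∏ v ∈ T, (Ideal.absNorm v.asIdeal ^ minExp g (fam g x) v *
          ((Ideal.absNorm v.asIdeal ^ ordAbs v ((2 : ℕ) : K)) ^ (4 * g + 4) *
          (Ideal.absNorm v.asIdeal ^ ordAbs v ((g + 1 : ℕ) : K)) ^ 2)) ^ (g + 1) := by
        apply Finset.prod_le_prod' fun v _ => ?_
        rw [← pow_mul, ← pow_mul, ← pow_add, ← pow_add, ← pow_mul]
        apply Nat.pow_le_pow_right (one_le_absNorm v)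
        refine (oo_le hg v h0 h1).trans (le_of_eq ?_)
        ring
    _ = ((∏ v ∈ T, Ideal.absNorm v.asIdeal ^ minExp g (fam g x) v) *
          ((∏ v ∈ T, Ideal.absNorm v.asIdeal ^ ordAbs v ((2 : ℕ) : K)) ^ (4 * g + 4) *
          (∏ v ∈ T, Ideal.absNorm v.asIdeal ^ ordAbs v ((g + 1 : ℕ) : K)) ^ 2)) ^ (g + 1) := by
        rw [Finset.prod_pow, Finset.prod_mul_distrib, Finset.prod_mul_distrib, Finset.prod_pow,
          Finset.prod_pow]
    _ ≤ _ := by
        refine Nat.pow_le_pow_left (Nat.mul_le_mul hdisc (Nat.mul_le_mul ?_ ?_)) _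
        · exact Nat.pow_le_pow_left (prod_norm_nat_le T (by norm_num)) _
        · exact Nat.pow_le_pow_left (prod_norm_nat_le T (by omega)) _

/-- `Φ_K(x)` is bounded by the discriminants of three curves of genus `g`. -/
theorem phi_le {g : ℕ} (hg : 2 ≤ g) {x : K} (h0 : x ≠ 0) (h1 : x ≠ 1) {C D : ℕ}
    (hC : (2 ^ Module.finrank ℚ K) ^ (4 * g + 4) * ((g + 1) ^ Module.finrank ℚ K) ^ 2 ≤ C)
    (hD1 : discNorm g (fam g x) ≤ D) (hD2 : discNorm g (fam g (1 - x)) ≤ D)
    (hD3 : discNorm g (fam g ((x - 1) / x)) ≤ D) :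
    phi x ≤ (D * C) ^ (6 * (g + 1)) := by
  classical
  have h1x : (1 : K) - x ≠ 0 := sub_ne_zero.mpr h1.symm
  have h1x' : (1 : K) - x ≠ 1 := by
    intro h
    apply h0
    linear_combination -h
  have hq0 : (x - 1) / x ≠ 0 := div_ne_zero (sub_ne_zero.mpr h1) h0
  have hq1 : (x - 1) / x ≠ 1 := by
    intro h
    rw [div_eq_one_iff_eq h0] at h
    exact one_ne_zero (by linear_combination -h : (1 : K) = 0)
  set T := (finite_phi h0 h1).toFinset with hT
  rw [phi_eq T (fun v hv => by simpa [hT] using hv)]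
  have hb : ∀ {y : K}, y ≠ 0 → y ≠ 1 → discNorm g (fam g y) ≤ D →
      ∏ v ∈ T, Ideal.absNorm v.asIdeal ^ oo v y ≤ (D * C) ^ (g + 1) := by
    intro y hy0 hy1 hy
    exact (prod_oo_le hg hy0 hy1 T).trans (Nat.pow_le_pow_left (Nat.mul_le_mul hy hC) _)
  calc ∏ v ∈ T, Ideal.absNorm v.asIdeal ^ (ordAbs v x + ordAbs v (1 - x))
      ≤ ∏ v ∈ T, (Ideal.absNorm v.asIdeal ^ oo v x * Ideal.absNorm v.asIdeal ^ oo v (1 - x) *
          Ideal.absNorm v.asIdeal ^ oo v ((x - 1) / x)) ^ 2 := by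
        apply Finset.prod_le_prod' fun v _ => ?_
        rw [← pow_add, ← pow_add, ← pow_mul]
        apply Nat.pow_le_pow_right (one_le_absNorm v)
        rw [mul_comm _ 2]
        exact three_le v h0 h1
    _ = ((∏ v ∈ T, Ideal.absNorm v.asIdeal ^ oo v x) *
          (∏ v ∈ T, Ideal.absNorm v.asIdeal ^ oo v (1 - x)) *
          (∏ v ∈ T, Ideal.absNorm v.asIdeal ^ oo v ((x - 1) / x))) ^ 2 := by
        rw [Finset.prod_pow, Finset.prod_mul_distrib, Finset.prod_mul_distrib]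
    _ ≤ ((D * C) ^ (g + 1) * (D * C) ^ (g + 1) * (D * C) ^ (g + 1)) ^ 2 := by
        refine Nat.pow_le_pow_left (Nat.mul_le_mul (Nat.mul_le_mul ?_ ?_) ?_) _
        · exact hb h0 h1 hD1
        · exact hb h1x h1x' hD2
        · exact hb hq0 hq1 hD3
    _ = _ := by ring

theorem val_prime_of_lt (v : HeightOneSpectrum (𝓞 K)) : ∀ {n : ℕ}, n ≠ 0 →
    v.valuation K (n : K) < 1 → ∃ p : ℕ, p.Prime ∧ p ∣ n ∧ v.valuation K (p : K) < 1 := by
  intro n
  induction n using Nat.strong_induction_on with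
  | _ n ih =>
    intro hn hv
    by_cases h1 : n = 1
    · rw [h1] at hv; simp at hv
    have hp := Nat.minFac_prime h1
    by_cases hvp : v.valuation K (n.minFac : K) < 1
    · exact ⟨n.minFac, hp, n.minFac_dvd, hvp⟩
    · have hvp1 : v.valuation K (n.minFac : K) = 1 :=
        le_antisymm (val_nat_le_one v _) (not_lt.mp hvp)
      have hmul : n.minFac * (n / n.minFac) = n := Nat.mul_div_cancel' n.minFac_dvd
      have hlt : n / n.minFac < n := Nat.div_lt_self (Nat.pos_of_ne_zero hn) hp.one_lt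
      have hne : n / n.minFac ≠ 0 := by
        intro h
        rw [h, mul_zero] at hmul
        exact hn hmul.symm
      have hv' : v.valuation K ((n / n.minFac : ℕ) : K) < 1 := by
        rw [← hmul, Nat.cast_mul, map_mul, hvp1, one_mul] at hv
        exact hv
      obtain ⟨p, h3, h4, h5⟩ := ih _ hlt hne hv'
      exact ⟨p, h3, h4.trans (Nat.div_dvd_of_dvd n.minFac_dvd), h5⟩

theorem val_nat_eq_one_of_not_above {S : Finset ℕ} {v : HeightOneSpectrum (𝓞 K)}
    (hv : ¬ Above S v) {n : ℕ} (hn : n ≠ 0) (hS : ∀ p : ℕ, p.Prime → p ∣ n → p ∈ S) :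
    v.valuation K (n : K) = 1 := by
  by_contra hne
  obtain ⟨p, h1, h2, h3⟩ := val_prime_of_lt v hn (lt_of_le_of_ne (val_nat_le_one v n) hne)
  exact hv ⟨p, hS p h1 h2, h3⟩

/-- The three arguments are `S`-units together. -/
theorem val_three {v : HeightOneSpectrum (𝓞 K)} {x : K} (hx : v.valuation K x = 1)
    (hx1 : v.valuation K (1 - x) = 1) :
    (v.valuation K (1 - x) = 1 ∧ v.valuation K (1 - (1 - x)) = 1) ∧
      (v.valuation K ((x - 1) / x) = 1 ∧ v.valuation K (1 - (x - 1) / x) = 1) := by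
  have h0 : x ≠ 0 := by
    rintro rfl
    simp at hx
  refine ⟨⟨hx1, ?_⟩, ?_, ?_⟩
  · rw [sub_sub_cancel]; exact hx
  · rw [map_div₀, hx, Valuation.map_sub_swap, hx1, div_one]
  · have e3 : (1 : K) - (x - 1) / x = x⁻¹ := by
      field_simp
      ring
    rw [e3, map_inv₀, hx, inv_one]

end

theorem abc_of_szpiro {g : ℕ} (hg : 2 ≤ g) (h : UniformSzpiro g) : UniformABC := by
  classical
  intro d
  obtain ⟨c, κ, hs⟩ := h d
  set P0 := ∏ p ∈ smallPrimes (2 * g + 2), p with hP0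
  set C := (2 ^ d) ^ (4 * g + 4) * ((g + 1) ^ d) ^ 2 with hC
  refine ⟨(c * P0 ^ κ * C) ^ (6 * (g + 1)), κ * (6 * (g + 1)), ?_⟩
  intro K _ _ hK S hS hunr x h0 h1 hunit
  have hSS' : S ⊆ S ∪ smallPrimes (2 * g + 2) := Finset.subset_union_left
  have hS' := union_prime hS (2 * g + 2)
  have hunr' : UnramOutside K (S ∪ smallPrimes (2 * g + 2)) := fun v hv =>
    hunr v fun h => hv (above_mono hSS' h)
  have h2 : 2 ∈ S ∪ smallPrimes (2 * g + 2) :=
    Finset.mem_union_right _ (mem_small Nat.prime_two (by omega))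
  have hR1 : 1 ≤ ∏ p ∈ S, p := Nat.pos_of_ne_zero (prod_primes_ne_zero hS)
  have hun := prod_union_le hS (2 * g + 2)
  rw [← hP0] at hun
  have hgood : ∀ y : K, y ≠ 0 → y ≠ 1 → (∀ v : HeightOneSpectrum (𝓞 K), ¬ Above S v →
      v.valuation K y = 1 ∧ v.valuation K (1 - y) = 1) →
      discNorm g (fam g y) ≤ c * P0 ^ κ * (∏ p ∈ S, p) ^ κ := by
    intro y hy0 hy1 hy
    refine (hs K hK _ hS' hunr' (fam g y) (fam_isHyp g hy0 hy1) ?_).trans ?_
    · intro v hv
      have hv' : ¬ Above S v := fun h => hv (above_mono hSS' h)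
      apply fam_good (by omega) hy0 hy1 v (val_two_of_not_above h2 hv) ?_ (hy v hv').1 (hy v hv').2
      apply val_nat_eq_one_of_not_above hv (by omega)
      intro p hp hpd
      exact Finset.mem_union_right _ (mem_small hp ((Nat.le_of_dvd (by omega) hpd).trans (by omega)))
    · calc c * (∏ p ∈ S ∪ smallPrimes (2 * g + 2), p) ^ κ
          ≤ c * ((∏ p ∈ S, p) * P0) ^ κ := Nat.mul_le_mul_left _ (Nat.pow_le_pow_left hun _)
        _ = _ := by rw [mul_pow]; ring
  have h1x : (1 : K) - x ≠ 0 := sub_ne_zero.mpr h1.symm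
  have h1x' : (1 : K) - x ≠ 1 := by
    intro h
    apply h0
    linear_combination -h
  have hq0 : (x - 1) / x ≠ 0 := div_ne_zero (sub_ne_zero.mpr h1) h0
  have hq1 : (x - 1) / x ≠ 1 := by
    intro h
    rw [div_eq_one_iff_eq h0] at h
    exact one_ne_zero (by linear_combination -h : (1 : K) = 0)
  have hCC : (2 ^ Module.finrank ℚ K) ^ (4 * g + 4) * ((g + 1) ^ Module.finrank ℚ K) ^ 2 ≤ C := by
    refine Nat.mul_le_mul (Nat.pow_le_pow_left ?_ _) (Nat.pow_le_pow_left ?_ _)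
    · exact Nat.pow_le_pow_right (by norm_num) hK
    · exact Nat.pow_le_pow_right (by omega) hK
  refine (phi_le hg h0 h1 hCC (hgood x h0 h1 hunit)
    (hgood _ h1x h1x' fun v hv => (val_three (hunit v hv).1 (hunit v hv).2).1)
    (hgood _ hq0 hq1 fun v hv => (val_three (hunit v hv).1 (hunit v hv).2).2)).trans ?_
  apply le_of_eq
  rw [mul_right_comm, mul_pow, ← pow_mul]

end Pool.Agent.TH919.HS
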