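import Pool.Agent.W318.Compare

namespace Pool.Agent.TH919.HS

open Polynomial Finset Pool.Agent.W318

section

variable {M : Type*} [Field M] {ι : Type*}

/-- The bracket of two vectors. -/
def br (α β : ι → M) (i j : ι) : M := α i * β j - α j * β i

/-- The cross ratio. -/
noncomputable def cr (α β : ι → M) (i j a b : ι) : M :=
  br α β i j * br α β a b / (br α β i a * br α β j b)

theorem br_comm (α β : ι → M) (i j : ι) : br α β j i = -br α β i j := by
  unfold br; ring

theorem one_sub_cr {α β : ι → M} {i j a b : ι} (h1 : br α β i a ≠ 0) (h2 : br α β j b ≠ 0) :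
    1 - cr α β i j a b = br α β i b * br α β j a / (br α β i a * br α β j b) := by
  unfold cr
  rw [eq_div_iff (mul_ne_zero h1 h2), sub_mul, div_mul_cancel₀ _ (mul_ne_zero h1 h2)]
  unfold br
  ring

theorem br_act (α β : ι → M) (a b c d : M) (i j : ι) :
    br (fun i => α i * a + β i * c) (fun i => α i * b + β i * d) i j =
      (a * d - b * c) * br α β i j := by
  unfold br; ring

theorem cr_act (α β : ι → M) {a b c d : M} (hdet : a * d - b * c ≠ 0) (i j s t : ι) :
    cr (fun i => α i * a + β i * c) (fun i => α i * b + β i * d) i j s t = cr α β i j s t := by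
  unfold cr
  simp only [br_act]
  rw [mul_mul_mul_comm, mul_mul_mul_comm (a * d - b * c) (br α β i s)]
  exact mul_div_mul_left _ _ (mul_ne_zero hdet hdet)

/-- max of the absolute values -/
noncomputable def mx (A : AbsoluteValue M ℝ) (α β : ι → M) (i : ι) : ℝ := max (A (α i)) (A (β i))

variable {A : AbsoluteValue M ℝ} {α β : ι → M}

theorem mx_nonneg (i : ι) : 0 ≤ mx A α β i := le_max_of_le_left (A.nonneg _)

theorem br_le (hna : IsNonarchimedean A) (i j : ι) :
    A (br α β i j) ≤ mx A α β i * mx A α β j := by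
  unfold br
  refine (na_sub_le hna _ _).trans (max_le ?_ ?_)
  · rw [map_mul]
    exact mul_le_mul (le_max_left _ _) (le_max_right _ _) (A.nonneg _) (mx_nonneg _)
  · rw [map_mul, mul_comm]
    exact mul_le_mul (le_max_right _ _) (le_max_left _ _) (A.nonneg _) (mx_nonneg _)

theorem mx_pos (hna : IsNonarchimedean A) {i j : ι} (h : br α β i j ≠ 0) : 0 < mx A α β i := by
  by_contra hcon
  have h0 : mx A α β i = 0 := le_antisymm (not_lt.mp hcon) (mx_nonneg _)
  have := br_le (α := α) (β := β) hna i j
  rw [h0, zero_mul] at this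
  exact absurd this (not_le.mpr (A.pos h))

theorem br_ultra (hna : IsNonarchimedean A) (i j k : ι) :
    mx A α β j * A (br α β i k) ≤
      max (mx A α β k * A (br α β i j)) (mx A α β i * A (br α β j k)) := by
  have key1 : A (α j) * A (br α β i k) ≤
      max (mx A α β k * A (br α β i j)) (mx A α β i * A (br α β j k)) := by
    rw [← map_mul]
    have : α j * br α β i k = α k * br α β i j + α i * br α β j k := by unfold br; ring
    rw [this]
    refine (hna _ _).trans (max_le_max ?_ ?_)
    · rw [map_mul]; exact mul_le_mul_of_nonneg_right (le_max_left _ _) (A.nonneg _)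
    · rw [map_mul]; exact mul_le_mul_of_nonneg_right (le_max_left _ _) (A.nonneg _)
  have key2 : A (β j) * A (br α β i k) ≤
      max (mx A α β k * A (br α β i j)) (mx A α β i * A (br α β j k)) := by
    rw [← map_mul]
    have : β j * br α β i k = β k * br α β i j + β i * br α β j k := by unfold br; ring
    rw [this]
    refine (hna _ _).trans (max_le_max ?_ ?_)
    · rw [map_mul]; exact mul_le_mul_of_nonneg_right (le_max_right _ _) (A.nonneg _)
    · rw [map_mul]; exact mul_le_mul_of_nonneg_right (le_max_right _ _) (A.nonneg _)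
  rcases le_total (A (α j)) (A (β j)) with h | h
  · rw [show mx A α β j = A (β j) from max_eq_right h]; exact key2
  · rw [show mx A α β j = A (α j) from max_eq_left h]; exact key1

theorem near_trans (hna : IsNonarchimedean A) (hpos : ∀ i, 0 < mx A α β i) {i j k : ι}
    (h1 : A (br α β i j) < mx A α β i * mx A α β j)
    (h2 : A (br α β j k) < mx A α β j * mx A α β k) :
    A (br α β i k) < mx A α β i * mx A α β k := by
  have h3 := br_ultra (α := α) (β := β) hna i j k
  have h4 : mx A α β j * A (br α β i k) < mx A α β j * (mx A α β i * mx A α β k) := by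
    refine h3.trans_lt (max_lt ?_ ?_)
    · calc mx A α β k * A (br α β i j) < mx A α β k * (mx A α β i * mx A α β j) :=
            mul_lt_mul_of_pos_left h1 (hpos k)
        _ = _ := by ring
    · calc mx A α β i * A (br α β j k) < mx A α β i * (mx A α β j * mx A α β k) :=
            mul_lt_mul_of_pos_left h2 (hpos i)
        _ = _ := by ring
  exact lt_of_mul_lt_mul_left h4 (hpos j).le

theorem exists_two_aux : ∀ p0 p1 p2 q0 q1 q2 : Bool, ¬ (p0 = true ∧ p1 = true) →
    ¬ (p0 = true ∧ p2 = true) → ¬ (p1 = true ∧ p2 = true) → ¬ (q0 = true ∧ q1 = true) →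
    ¬ (q0 = true ∧ q2 = true) → ¬ (q1 = true ∧ q2 = true) →
    ∃ s t : Fin 3, s ≠ t ∧ (![p0, p1, p2] : Fin 3 → Bool) s = false ∧
      (![q0, q1, q2] : Fin 3 → Bool) s = false ∧ (![q0, q1, q2] : Fin 3 → Bool) t = false := by
  decide

theorem exists_two (P Q : Fin 3 → Prop) (hP : ∀ s t, P s → P t → s = t)
    (hQ : ∀ s t, Q s → Q t → s = t) : ∃ s t, s ≠ t ∧ ¬ P s ∧ ¬ Q s ∧ ¬ Q t := by
  classical
  have key : ∀ (R : Fin 3 → Prop) (s : Fin 3),
      (![decide (R 0), decide (R 1), decide (R 2)] : Fin 3 → Bool) s = false → ¬ R s := by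
    intro R s
    fin_cases s <;> simp
  obtain ⟨s, t, h1, h2, h3, h4⟩ := exists_two_aux (decide (P 0)) (decide (P 1)) (decide (P 2))
    (decide (Q 0)) (decide (Q 1)) (decide (Q 2))
    (by
      rintro ⟨h1, h2⟩
      have := hP 0 1 (by simpa using h1) (by simpa using h2)
      simp at this)
    (by
      rintro ⟨h1, h2⟩
      have := hP 0 2 (by simpa using h1) (by simpa using h2)
      simp at this)
    (by
      rintro ⟨h1, h2⟩
      have := hP 1 2 (by simpa using h1) (by simpa using h2)
      simp at this)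
    (by
      rintro ⟨h1, h2⟩
      have := hQ 0 1 (by simpa using h1) (by simpa using h2)
      simp at this)
    (by
      rintro ⟨h1, h2⟩
      have := hQ 0 2 (by simpa using h1) (by simpa using h2)
      simp at this)
    (by
      rintro ⟨h1, h2⟩
      have := hQ 1 2 (by simpa using h1) (by simpa using h2)
      simp at this)
  exact ⟨s, t, h1, key P s h2, key Q s h3, key Q t h4⟩

/-- The chordal distance of two points is `1` or a cross ratio, once there are three points far
from each other. -/
theorem exists_cr (hna : IsNonarchimedean A) (hpos : ∀ i, 0 < mx A α β i) (p : Fin 3 → ι)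
    (hp : ∀ s t, s ≠ t → A (br α β (p s) (p t)) = mx A α β (p s) * mx A α β (p t))
    {i j : ι} :
    A (br α β i j) = mx A α β i * mx A α β j ∨
      ∃ a b, i ≠ a ∧ i ≠ b ∧ j ≠ a ∧ j ≠ b ∧ a ≠ b ∧
        A (br α β i j) = mx A α β i * mx A α β j * A (cr α β i j a b) := by
  by_cases hfar : A (br α β i j) = mx A α β i * mx A α β j
  · exact Or.inl hfar
  right
  have hnear : A (br α β i j) < mx A α β i * mx A α β j := lt_of_le_of_ne (br_le hna i j) hfar
  have hsymm : ∀ x y, A (br α β x y) = A (br α β y x) := by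
    intro x y
    rw [br_comm, map_neg_eq_map]
  have hone : ∀ x s t, A (br α β x (p s)) < mx A α β x * mx A α β (p s) →
      A (br α β x (p t)) < mx A α β x * mx A α β (p t) → s = t := by
    intro x s t h1 h2
    by_contra hst
    have h3 : A (br α β (p s) x) < mx A α β (p s) * mx A α β x := by
      rw [hsymm, mul_comm]; exact h1
    have h4 := near_trans hna hpos h3 h2
    rw [hp s t hst] at h4
    exact lt_irrefl _ h4
  obtain ⟨s, t, hst, h1, h2, h3⟩ := exists_two
    (fun s => A (br α β i (p s)) < mx A α β i * mx A α β (p s))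
    (fun s => A (br α β j (p s)) < mx A α β j * mx A α β (p s)) (hone i) (hone j)
  have e1 : A (br α β i (p s)) = mx A α β i * mx A α β (p s) :=
    le_antisymm (br_le hna _ _) (not_lt.mp h1)
  have e2 : A (br α β j (p s)) = mx A α β j * mx A α β (p s) :=
    le_antisymm (br_le hna _ _) (not_lt.mp h2)
  have e3 : A (br α β j (p t)) = mx A α β j * mx A α β (p t) :=
    le_antisymm (br_le hna _ _) (not_lt.mp h3)
  have hself : ∀ x, A (br α β x x) = 0 := by
    intro x
    have : br α β x x = 0 := by unfold br; ring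
    rw [this, map_zero]
  have hne : ∀ x y, A (br α β x y) = mx A α β x * mx A α β y → x ≠ y := by
    rintro x y h rfl
    rw [hself] at h
    exact (mul_pos (hpos x) (hpos x)).ne h
  refine ⟨p s, p t, hne _ _ e1, ?_, hne _ _ e2, hne _ _ e3, hne _ _ (hp s t hst), ?_⟩
  · rintro h
    rw [← h, hsymm, mul_comm] at e3
    exact hfar e3
  · unfold cr
    rw [map_div₀, map_mul, map_mul, e1, e3, hp s t hst]
    have := (hpos i).ne'
    have := (hpos j).ne'
    have := (hpos (p s)).ne'
    have := (hpos (p t)).ne'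
    field_simp

end

section fin

variable {M : Type*} [Field M] {A : AbsoluteValue M ℝ} {n : ℕ} {α β : Fin n → M}

theorem prod_mx (m : Fin n → ℝ) :
    ∏ i, ∏ j ∈ univ.erase i, (m i * m j) = (∏ i, m i) ^ (2 * (n - 1)) := by
  classical
  simp only [Finset.prod_mul_distrib, Finset.prod_const, Finset.card_erase_of_mem (mem_univ _),
      Finset.card_univ, Fintype.card_fin]
  have h1 : ∏ i, ∏ j ∈ univ.erase i, m j = ∏ j, ∏ i ∈ univ.erase j, m j := by
    apply Finset.prod_comm'
    intro x y
    simp [eq_comm]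
  rw [h1]
  simp only [Finset.prod_const, Finset.card_erase_of_mem (mem_univ _),
      Finset.card_univ, Fintype.card_fin]
  rw [Finset.prod_pow, two_mul, pow_add]

/-- At a place of good reduction all points are far from each other. -/
theorem far_of_good (hna : IsNonarchimedean A) {u : M} (hu : u ≠ 0)
    (hne : ∀ i j, i ≠ j → br α β i j ≠ 0)
    (hint : A u * ∏ i, mx A α β i ≤ 1)
    (hdisc : 1 ≤ A u ^ (2 * (n - 1)) * ∏ i, ∏ j ∈ univ.erase i, A (br α β i j)) :
    ∀ i j, i ≠ j → A (br α β i j) = mx A α β i * mx A α β j := by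
  classical
  intro i₀ j₀ hij
  by_contra hcon
  have hlt : A (br α β i₀ j₀) < mx A α β i₀ * mx A α β j₀ := lt_of_le_of_ne (br_le hna _ _) hcon
  have h1 : ∏ i, ∏ j ∈ univ.erase i, A (br α β i j) <
      ∏ i, ∏ j ∈ univ.erase i, (mx A α β i * mx A α β j) := by
    apply Finset.prod_lt_prod
    · intro i _
      apply Finset.prod_pos
      intro j hj
      exact A.pos (hne i j (Finset.ne_of_mem_erase hj).symm)
    · intro i _
      apply Finset.prod_le_prod
      · intro j _; exact A.nonneg _
      · intro j _; exact br_le hna _ _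
    · refine ⟨i₀, mem_univ _, ?_⟩
      apply Finset.prod_lt_prod
      · intro j hj
        exact A.pos (hne i₀ j (Finset.ne_of_mem_erase hj).symm)
      · intro j _; exact br_le hna _ _
      · exact ⟨j₀, Finset.mem_erase.mpr ⟨hij.symm, mem_univ _⟩, hlt⟩
  rw [prod_mx] at h1
  have hu' : 0 < A u ^ (2 * (n - 1)) := pow_pos (A.pos hu) _
  have h2 := mul_lt_mul_of_pos_left h1 hu'
  rw [← mul_pow] at h2
  have h3 : (A u * ∏ i, mx A α β i) ^ (2 * (n - 1)) ≤ 1 :=
    pow_le_one₀ (mul_nonneg (A.nonneg _) (Finset.prod_nonneg fun i _ => mx_nonneg _)) hint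
  linarith

/-- Lower bound for the discriminant. -/
theorem disc_lower {E : ℝ} (hE : 0 ≤ E)
    (h : ∀ i j, i ≠ j → mx A α β i * mx A α β j * E ≤ A (br α β i j)) :
    (∏ i, mx A α β i) ^ (2 * (n - 1)) * E ^ (n * (n - 1)) ≤
      ∏ i, ∏ j ∈ univ.erase i, A (br α β i j) := by
  classical
  have h1 : E ^ (n * (n - 1)) = ∏ i : Fin n, ∏ j ∈ univ.erase i, E := by
    simp only [Finset.prod_const, Finset.card_erase_of_mem (mem_univ _),
      Finset.card_univ, Fintype.card_fin]
    rw [← pow_mul, mul_comm]
  rw [← prod_mx, h1, ← Finset.prod_mul_distrib]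
  apply Finset.prod_le_prod
  · intro i _
    exact mul_nonneg (Finset.prod_nonneg fun j _ => mul_nonneg (mx_nonneg _) (mx_nonneg _))
      (Finset.prod_nonneg fun j _ => hE)
  · intro i _
    rw [← Finset.prod_mul_distrib]
    apply Finset.prod_le_prod
    · intro j _
      exact mul_nonneg (mul_nonneg (mx_nonneg _) (mx_nonneg _)) hE
    · intro j hj
      exact h i j (Finset.ne_of_mem_erase hj).symm

/-- Upper bound for the discriminant of an integral form by two pairs. -/
theorem disc_upper {u : M}
    (hint : A u * ∏ i, mx A α β i ≤ 1)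
    (f : Fin n → Fin n → ℝ) (hf0 : ∀ i j, 0 ≤ f i j)
    (hf : ∀ i j, i ≠ j → A (br α β i j) ≤ mx A α β i * mx A α β j * f i j) :
    A u ^ (2 * (n - 1)) * ∏ i, ∏ j ∈ univ.erase i, A (br α β i j) ≤
      ∏ i, ∏ j ∈ univ.erase i, f i j := by
  classical
  have h1 : ∏ i, ∏ j ∈ univ.erase i, A (br α β i j) ≤
      (∏ i, mx A α β i) ^ (2 * (n - 1)) * ∏ i, ∏ j ∈ univ.erase i, f i j := by
    rw [← prod_mx, ← Finset.prod_mul_distrib]
    apply Finset.prod_le_prod
    · intro i _
      exact Finset.prod_nonneg fun j _ => A.nonneg _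
    · intro i _
      rw [← Finset.prod_mul_distrib]
      apply Finset.prod_le_prod
      · intro j _; exact A.nonneg _
      · intro j hj
        exact hf i j (Finset.ne_of_mem_erase hj).symm
  have h2 : (A u * ∏ i, mx A α β i) ^ (2 * (n - 1)) ≤ 1 :=
    pow_le_one₀ (mul_nonneg (A.nonneg _) (Finset.prod_nonneg fun i _ => mx_nonneg _)) hint
  have hF : 0 ≤ ∏ i, ∏ j ∈ univ.erase i, f i j :=
    Finset.prod_nonneg fun i _ => Finset.prod_nonneg fun j _ => hf0 i j
  calc _ ≤ A u ^ (2 * (n - 1)) * ((∏ i, mx A α β i) ^ (2 * (n - 1)) *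
        ∏ i, ∏ j ∈ univ.erase i, f i j) :=
        mul_le_mul_of_nonneg_left h1 (pow_nonneg (A.nonneg _) _)
    _ = (A u * ∏ i, mx A α β i) ^ (2 * (n - 1)) * ∏ i, ∏ j ∈ univ.erase i, f i j := by
        rw [mul_pow]; ring
    _ ≤ 1 * ∏ i, ∏ j ∈ univ.erase i, f i j := mul_le_mul_of_nonneg_right h2 hF
    _ = _ := one_mul _

end fin

end Pool.Agent.TH919.HS
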