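import Pool.Agent.TH919.HS.Tors6

namespace Pool.Agent.TH919.HS

open Polynomial Finset NumberField IsDedekindDomain WithZero Pool.Agent.W318

section hc

variable {k : Type*} [Field k]

/-- The binary form of degree `n` attached to `p`, evaluated at `(a, b)`. -/
noncomputable def hc (n : ℕ) (p a b : k[X]) : k[X] :=
  ∑ i ∈ range (n + 1), C (p.coeff i) * a ^ i * b ^ (n - i)

noncomputable def hc1 (n : ℕ) (p a b : k[X]) : k[X] :=
  ∑ i ∈ range (n + 1), C (p.coeff i * i) * a ^ (i - 1) * b ^ (n - i)

theorem hc_map {k' : Type*} [Field k'] (f : k →+* k') (n : ℕ) (p a b : k[X]) :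
    (hc n p a b).map f = hc n (p.map f) (a.map f) (b.map f) := by
  simp [hc, Polynomial.map_sum, Polynomial.map_mul, Polynomial.map_pow]

theorem hc_eval {n : ℕ} {p a b : k[X]} (hp : p.natDegree ≤ n) {z : k} (hb : b.eval z ≠ 0) :
    (hc n p a b).eval z = b.eval z ^ n * p.eval (a.eval z / b.eval z) := by
  have hF' : p.eval (a.eval z / b.eval z) =
      ∑ i ∈ range (n + 1), p.coeff i * (a.eval z / b.eval z) ^ i :=
    eval_eq_sum_range' (by omega) _
  rw [hF', hc, eval_finsetSum, Finset.mul_sum]
  refine Finset.sum_congr rfl fun i hi => ?_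
  rw [mem_range] at hi
  simp only [eval_mul, eval_C, eval_pow]
  have : b.eval z ^ n = b.eval z ^ i * b.eval z ^ (n - i) := by
    rw [← pow_add]; congr 1; omega
  rw [this, div_pow]
  generalize b.eval z = D at hb
  have hD := pow_ne_zero i hb
  field_simp

theorem hc1_eval {n : ℕ} {p a b : k[X]} (hp : p.natDegree ≤ n) {z : k} (hb : b.eval z ≠ 0) :
    b.eval z * (hc1 n p a b).eval z =
      b.eval z ^ n * p.derivative.eval (a.eval z / b.eval z) := by
  have hF' : p.derivative.eval (a.eval z / b.eval z) =
      ∑ i ∈ range (n + 1), p.coeff i * i * (a.eval z / b.eval z) ^ (i - 1) := by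
    rw [derivative_eval]
    exact sum_over_range' _ (by simp) _ (by omega)
  rw [hF', hc1, eval_finsetSum, Finset.mul_sum, Finset.mul_sum]
  refine Finset.sum_congr rfl fun i hi => ?_
  rw [mem_range] at hi
  simp only [eval_mul, eval_C, eval_pow]
  rcases Nat.eq_zero_or_pos i with rfl | hi0
  · simp
  · have : b.eval z ^ n = b.eval z ^ (i - 1) * (b.eval z * b.eval z ^ (n - i)) := by
      rw [← pow_succ', ← pow_add]; congr 1; omega
    rw [this, div_pow]
    generalize b.eval z = D at hb
    have hD := pow_ne_zero (i - 1) hb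
    field_simp

theorem hc_der (n : ℕ) (p a b : k[X]) :
    b * (hc n p a b).derivative = (a.derivative * b - a * b.derivative) * hc1 n p a b +
      (n : k[X]) * b.derivative * hc n p a b := by
  rw [hc, hc1, derivative_sum, Finset.mul_sum, Finset.mul_sum, Finset.mul_sum,
    ← Finset.sum_add_distrib]
  refine Finset.sum_congr rfl fun i hi => ?_
  rw [mem_range] at hi
  obtain ⟨m, rfl⟩ : ∃ m, n = i + m := ⟨n - i, by omega⟩
  rw [Nat.add_sub_cancel_left]
  simp only [derivative_mul, derivative_C, zero_mul, zero_add, derivative_pow, C_mul,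
    map_natCast]
  rcases i with _ | i <;> rcases m with _ | m
  · simp
  · simp only [Nat.cast_zero, pow_zero, Nat.cast_add, Nat.cast_one, Nat.add_sub_cancel]
    ring
  · simp only [Nat.cast_zero, pow_zero, Nat.cast_add, Nat.cast_one, Nat.add_sub_cancel]
    ring
  · simp only [Nat.cast_add, Nat.cast_one, Nat.add_sub_cancel]
    ring

end hc

section pred

variable {M : Type*} [Field M] {A : AbsoluteValue M ℝ}

/-- No common zero in the closed unit disc modulo the maximal ideal. -/
def Cop (A : AbsoluteValue M ℝ) (p q : M[X]) : Prop :=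
  ∀ z, A z ≤ 1 → A (p.eval z) = 1 ∨ A (q.eval z) = 1

theorem Cop.symm {p q : M[X]} (h : Cop A p q) : Cop A q p := fun z hz => (h z hz).symm

theorem nat_le1 (hna : IsNonarchimedean A) (n : ℕ) : A (n : M) ≤ 1 := by
  induction n with
  | zero => simp
  | succ n ih =>
    rw [Nat.cast_add, Nat.cast_one]
    exact add_le1 hna ih (map_one A).le

theorem IntP.eval_le (hna : IsNonarchimedean A) {p : M[X]} (hp : IntP A p) {z : M}
    (hz : A z ≤ 1) : A (p.eval z) ≤ 1 := by
  rw [eval_eq_sum_range]
  refine na_sum_le hna _ _ zero_le_one fun i _ => ?_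
  exact mul_le1 (hp i) (by rw [map_pow]; exact pow_le_one₀ (A.nonneg _) hz)

theorem IntP.der (hna : IsNonarchimedean A) {p : M[X]} (hp : IntP A p) :
    IntP A p.derivative := by
  intro i
  rw [coeff_derivative]
  refine mul_le1 (hp _) ?_
  have := nat_le1 hna (i + 1)
  rwa [Nat.cast_add, Nat.cast_one] at this

theorem IntP.pow (hna : IsNonarchimedean A) {p : M[X]} (hp : IntP A p) (n : ℕ) :
    IntP A (p ^ n) := by
  induction n with
  | zero =>
    rw [pow_zero]
    have := IntP.X_pow (A := A) 0
    rwa [pow_zero] at this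
  | succ n ih => rw [pow_succ]; exact ih.mul hna hp

theorem IntP.hc (hna : IsNonarchimedean A) {p a b : M[X]} (hp : IntP A p) (ha : IntP A a)
    (hb : IntP A b) (n : ℕ) : IntP A (hc n p a b) := by
  unfold Pool.Agent.TH919.HS.hc
  refine Finset.sum_induction _ (IntP A) (fun _ _ h h' => h.add hna h') ?_ fun i _ => ?_
  · intro i; simp
  · exact ((IntP.C (hp i)).mul hna (ha.pow hna i)).mul hna (hb.pow hna _)

theorem pow_sub_le (hna : IsNonarchimedean A) {z w : M} (hz : A z ≤ 1) (hw : A w ≤ 1) (i : ℕ) :
    A (z ^ i - w ^ i) ≤ A (z - w) := by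
  induction i with
  | zero => simp
  | succ i ih =>
    have : z ^ (i + 1) - w ^ (i + 1) = z * (z ^ i - w ^ i) + (z - w) * w ^ i := by ring
    rw [this]
    refine (hna _ _).trans (max_le ?_ ?_)
    · rw [map_mul]; exact (mul_le_of_le_one_left (A.nonneg _) hz).trans ih
    · rw [map_mul, map_pow]
      exact mul_le_of_le_one_right (A.nonneg _) (pow_le_one₀ (A.nonneg _) hw)

theorem IntP.sub_le (hna : IsNonarchimedean A) {p : M[X]} (hp : IntP A p) {z w : M}
    (hz : A z ≤ 1) (hw : A w ≤ 1) : A (p.eval z - p.eval w) ≤ A (z - w) := by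
  rw [eval_eq_sum_range, eval_eq_sum_range, ← Finset.sum_sub_distrib]
  refine na_sum_le hna _ _ (A.nonneg _) fun i _ => ?_
  rw [← mul_sub, map_mul]
  exact (mul_le_of_le_one_left (A.nonneg _) (hp i)).trans (pow_sub_le hna hz hw i)

theorem mul_one_of {x y : M} (hx : A x ≤ 1) (hy : A y ≤ 1) (h : A (x * y) = 1) :
    A x = 1 ∧ A y = 1 := by
  rw [map_mul] at h
  have h1 := A.nonneg x
  have h2 := A.nonneg y
  constructor <;> nlinarith

theorem add_one_of (hna : IsNonarchimedean A) {x y : M} (hx : A x = 1) (hy : A y < 1) :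
    A (x + y) = 1 := by
  apply le_antisymm (add_le1 hna hx.le hy.le)
  by_contra h
  push Not at h
  have h1 : A x ≤ max (A (x + y)) (A y) := by
    have := na_sub_le hna (x + y) y
    rwa [add_sub_cancel_right] at this
  rw [hx] at h1
  exact absurd h1 (not_le.mpr (max_lt h hy))

theorem Cop.of_mul_left (hna : IsNonarchimedean A) {p q r : M[X]} (hp : IntP A p)
    (hq : IntP A q) (h : Cop A (p * q) r) : Cop A p r ∧ Cop A q r := by
  constructor <;> intro z hz <;> rcases h z hz with h1 | h1
  · rw [eval_mul] at h1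
    exact Or.inl (mul_one_of (hp.eval_le hna hz) (hq.eval_le hna hz) h1).1
  · exact Or.inr h1
  · rw [eval_mul] at h1
    exact Or.inl (mul_one_of (hp.eval_le hna hz) (hq.eval_le hna hz) h1).2
  · exact Or.inr h1

theorem Cop.mul_left {p q r : M[X]} (h1 : Cop A p r) (h2 : Cop A q r) : Cop A (p * q) r := by
  intro z hz
  rcases h1 z hz with h | h
  · rcases h2 z hz with h' | h'
    · left; rw [eval_mul, map_mul, h, h', one_mul]
    · exact Or.inr h'
  · exact Or.inr h

/-- The derivative of a product of coprime separable polynomials. -/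
theorem Cop.sep_mul (hna : IsNonarchimedean A) {p q : M[X]} (hp : IntP A p) (hq : IntP A q)
    (hsp : Cop A p p.derivative) (hsq : Cop A q q.derivative) (h : Cop A p q) :
    Cop A (p * q) (p * q).derivative := by
  intro z hz
  rw [derivative_mul, eval_add, eval_mul, eval_mul, eval_mul]
  have hp1 := hp.eval_le hna hz
  have hq1 := hq.eval_le hna hz
  have hp2 := (hp.der hna).eval_le hna hz
  have hq2 := (hq.der hna).eval_le hna hz
  rcases lt_or_eq_of_le hp1 with h1 | h1
  · right
    have e1 : A (q.eval z) = 1 := (h z hz).resolve_left h1.ne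
    have e2 : A (p.derivative.eval z) = 1 := (hsp z hz).resolve_left h1.ne
    apply add_one_of hna
    · rw [map_mul, e1, e2, one_mul]
    · rw [map_mul]
      exact (mul_le_of_le_one_right (A.nonneg _) hq2).trans_lt h1
  · rcases lt_or_eq_of_le hq1 with h2 | h2
    · right
      have e2 : A (q.derivative.eval z) = 1 := (hsq z hz).resolve_left h2.ne
      rw [add_comm]
      apply add_one_of hna
      · rw [map_mul, h1, e2, one_mul]
      · rw [map_mul]
        exact (mul_le_of_le_one_left (A.nonneg _) hp2).trans_lt h2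
    · left
      rw [map_mul, h1, h2, one_mul]

/-- Factors of a separable polynomial. -/
theorem Cop.of_sep_mul (hna : IsNonarchimedean A) {p q : M[X]} (hp : IntP A p) (hq : IntP A q)
    (hs : Cop A (p * q) (p * q).derivative) : Cop A q q.derivative ∧ Cop A p q := by
  have main : ∀ z, A z ≤ 1 → A (q.eval z) < 1 →
      A (q.derivative.eval z) = 1 ∧ A (p.eval z) = 1 := by
    intro z hz hlt
    have hp1 := hp.eval_le hna hz
    have hp2 := (hp.der hna).eval_le hna hz
    have hq2 := (hq.der hna).eval_le hna hz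
    have h1 : A ((p * q).eval z) < 1 := by
      rw [eval_mul, map_mul]
      exact (mul_le_of_le_one_left (A.nonneg _) hp1).trans_lt hlt
    have h2 := (hs z hz).resolve_left h1.ne
    rw [derivative_mul, eval_add, eval_mul, eval_mul] at h2
    have h3 : A (p.derivative.eval z * q.eval z) < 1 := by
      rw [map_mul]
      exact (mul_le_of_le_one_left (A.nonneg _) hp2).trans_lt hlt
    have h4 : A (p.eval z * q.derivative.eval z) = 1 := by
      apply le_antisymm (mul_le1 hp1 hq2)
      by_contra h5
      push Not at h5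
      exact absurd h2 ((hna _ _).trans_lt (max_lt h3 h5)).ne
    exact (mul_one_of hp1 hq2 h4).symm
  constructor
  · intro z hz
    rcases lt_or_eq_of_le (hq.eval_le hna hz) with h | h
    · exact Or.inr (main z hz h).1
    · exact Or.inl h
  · intro z hz
    rcases lt_or_eq_of_le (hq.eval_le hna hz) with h | h
    · exact Or.inl (main z hz h).2
    · exact Or.inr h

end pred

end Pool.Agent.TH919.HS
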