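import Pool.Agent.TH919.HS.Dbl1

namespace Pool.Agent.TH919.HS

open Polynomial Finset NumberField IsDedekindDomain WithZero Pool.Agent.W318

section

variable {K : Type} [Field K]

/-- The numerator of the duplication map on `x`-coordinates. -/
noncomputable def Ph (W : WeierstrassCurve K) : K[X] :=
  X ^ 4 - C W.b₄ * X ^ 2 - C (2 * W.b₆) * X - C W.b₈

/-- A curve with good reduction and integral `2`-torsion, away from `2` and `3`. -/
structure Ctx (W : WeierstrassCurve K) {M : Type} [Field M] [Algebra K M]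
    (A : AbsoluteValue M ℝ) (e : Fin 3 → M) : Prop where
  na : IsNonarchimedean A
  h2 : A 2 = 1
  h3 : A 3 = 1
  tt : TT W e
  hei : ∀ i, A (e i) ≤ 1
  hee : ∀ i j, i ≠ j → A (e i - e j) = 1

variable {M : Type} [Field M] [CharZero M] [Algebra K M] {W : WeierstrassCurve K}
  {e : Fin 3 → M} {A : AbsoluteValue M ℝ}

theorem TT.psi2_eval (h : TT W e) (z : M) : (W.Ψ₂Sq.map (algebraMap K M)).eval z =
    4 * ((z - e 0) * (z - e 1) * (z - e 2)) := by
  simp only [WeierstrassCurve.Ψ₂Sq, Polynomial.map_add, Polynomial.map_mul, Polynomial.map_C,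
    Polynomial.map_pow, Polynomial.map_X, map_mul, h.b2, h.b4, h.b6, map_ofNat,
    eval_add, eval_mul, eval_C, eval_pow, eval_X]
  simp
  ring

/-- The factors of the fourth division polynomial. -/
def NN (e : Fin 3 → M) (i : Fin 3) (z : M) : M :=
  (z - e i) ^ 2 - (e i - e (i + 1)) * (e i - e (i + 2))

theorem TT.ph_eval (h : TT W e) (i : Fin 3) (z : M) : ((Ph W).map (algebraMap K M)).eval z =
    NN e i z ^ 2 + e i * (W.Ψ₂Sq.map (algebraMap K M)).eval z := by
  rw [h.psi2_eval]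
  simp only [Ph, Polynomial.map_sub, Polynomial.map_mul, Polynomial.map_C,
    Polynomial.map_pow, Polynomial.map_X, map_mul, h.b4, h.b6, h.b8, map_ofNat,
    eval_sub, eval_mul, eval_C, eval_pow, eval_X]
  fin_cases i
  · have h1 : (0 + 1 : Fin 3) = 1 := rfl
    have h2 : (0 + 2 : Fin 3) = 2 := rfl
    simp only [NN, Fin.zero_eta, h1, h2]
    simp
    ring
  · have h1 : (1 + 1 : Fin 3) = 2 := rfl
    have h2 : (1 + 2 : Fin 3) = 0 := rfl
    simp only [NN, Fin.mk_one, h1, h2]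
    simp
    ring
  · have h1 : (2 + 1 : Fin 3) = 0 := rfl
    have h2 : (2 + 2 : Fin 3) = 1 := rfl
    simp only [NN, Fin.reduceFinMk, h1, h2]
    simp
    ring

theorem TT.psi4_NN (h : TT W e) (z : M) : (W.preΨ₄.map (algebraMap K M)).eval z =
    2 * (NN e 0 z * NN e 1 z * NN e 2 z) := by
  rw [h.psi4_map]
  simp only [eval_add, eval_sub, eval_mul, eval_C, eval_pow, eval_X]
  have h1 : (0 + 1 : Fin 3) = 1 := rfl
  have h2 : (0 + 2 : Fin 3) = 2 := rfl
  have h3 : (1 + 1 : Fin 3) = 2 := rfl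
  have h4 : (1 + 2 : Fin 3) = 0 := rfl
  have h5 : (2 + 1 : Fin 3) = 0 := rfl
  have h6 : (2 + 2 : Fin 3) = 1 := rfl
  simp only [NN, h1, h2, h3, h4, h5, h6]
  ring

/-- The Wronskian of the duplication map. -/
theorem TT.wron (h : TT W e) (z : M) :
    (((Ph W).map (algebraMap K M)).derivative * W.Ψ₂Sq.map (algebraMap K M) -
      (Ph W).map (algebraMap K M) * (W.Ψ₂Sq.map (algebraMap K M)).derivative).eval z =
      2 * (W.preΨ₄.map (algebraMap K M)).eval z := by
  rw [h.psi4_map]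
  simp only [WeierstrassCurve.Ψ₂Sq, Ph, Polynomial.map_add, Polynomial.map_sub,
    Polynomial.map_mul, Polynomial.map_C,
    Polynomial.map_pow, Polynomial.map_X, map_mul, h.b2, h.b4, h.b6, h.b8, map_ofNat]
  simp only [derivative_add, derivative_sub, derivative_mul, derivative_C, derivative_X_pow,
    derivative_X, eval_add, eval_sub, eval_mul, eval_C, eval_pow, eval_X, eval_ofNat,
    zero_mul, zero_add, mul_one, Nat.cast_ofNat, add_zero, eval_zero, derivative_ofNat]
  simp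
  ring

/-- The `b`-invariants are integral. -/
structure BInt (W : WeierstrassCurve K) (A : AbsoluteValue M ℝ) : Prop where
  b2 : A (algebraMap K M W.b₂) ≤ 1
  b4 : A (algebraMap K M W.b₄) ≤ 1
  b6 : A (algebraMap K M W.b₆) ≤ 1
  b8 : A (algebraMap K M W.b₈) ≤ 1

theorem Ctx.bint (hc : Ctx W A e) : BInt W A := by
  have hs1 : A (e 0 + e 1 + e 2) ≤ 1 :=
    add_le1 hc.na (add_le1 hc.na (hc.hei 0) (hc.hei 1)) (hc.hei 2)
  have hs3 : A (e 0 * e 1 * e 2) ≤ 1 := mul_le1 (mul_le1 (hc.hei 0) (hc.hei 1)) (hc.hei 2)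
  have hs2 : A (e 0 * e 1 + e 0 * e 2 + e 1 * e 2) ≤ 1 :=
    add_le1 hc.na (add_le1 hc.na (mul_le1 (hc.hei 0) (hc.hei 1)) (mul_le1 (hc.hei 0) (hc.hei 2)))
      (mul_le1 (hc.hei 1) (hc.hei 2))
  have h4 : A (-4 : M) ≤ 1 := by rw [map_neg_eq_map, A4 hc.h2]
  refine ⟨?_, ?_, ?_, ?_⟩
  · rw [hc.tt.b2]; exact mul_le1 h4 hs1
  · rw [hc.tt.b4]; exact mul_le1 hc.h2.le hs2
  · rw [hc.tt.b6]; exact mul_le1 h4 hs3
  · rw [hc.tt.b8]
    refine sub_le1 hc.na (mul_le1 (mul_le1 (A4 hc.h2).le hs1) hs3) ?_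
    rw [pow_two]
    exact mul_le1 hs2 hs2

theorem IntP.ofNat (hna : IsNonarchimedean A) (n : ℕ) [n.AtLeastTwo] :
    IntP A (OfNat.ofNat n : M[X]) := by
  have := IntP.C (A := A) (z := (OfNat.ofNat n : M)) (nat_le1 hna n)
  rwa [map_ofNat] at this

theorem BInt.psi2 (hna : IsNonarchimedean A) (h : BInt W A) :
    IntP A (W.Ψ₂Sq.map (algebraMap K M)) := by
  have e : W.Ψ₂Sq.map (algebraMap K M) = 4 * X ^ 3 + C (algebraMap K M W.b₂) * X ^ 2 +
      2 * C (algebraMap K M W.b₄) * X + C (algebraMap K M W.b₆) := by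
    simp only [WeierstrassCurve.Ψ₂Sq, Polynomial.map_add, Polynomial.map_mul, Polynomial.map_C,
      Polynomial.map_pow, Polynomial.map_X, map_mul, map_ofNat, Polynomial.map_ofNat]
  rw [e]
  exact .add hna (.add hna (.add hna (.mul hna (.ofNat hna 4) (.X_pow 3))
    (.mul hna (.C h.b2) (.X_pow 2))) (.mul hna (.mul hna (.ofNat hna 2) (.C h.b4)) .X)) (.C h.b6)

theorem BInt.ph (hna : IsNonarchimedean A) (h : BInt W A) :
    IntP A ((Ph W).map (algebraMap K M)) := by
  have e : (Ph W).map (algebraMap K M) = X ^ 4 - C (algebraMap K M W.b₄) * X ^ 2 -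
      2 * C (algebraMap K M W.b₆) * X - C (algebraMap K M W.b₈) := by
    simp only [Ph, Polynomial.map_sub, Polynomial.map_mul, Polynomial.map_C,
      Polynomial.map_pow, Polynomial.map_X, map_mul, map_ofNat, Polynomial.map_ofNat]
  rw [e]
  exact .sub hna (.sub hna (.sub hna (.X_pow 4) (.mul hna (.C h.b4) (.X_pow 2)))
    (.mul hna (.mul hna (.ofNat hna 2) (.C h.b6)) .X)) (.C h.b8)

theorem BInt.psi3 (hna : IsNonarchimedean A) (h : BInt W A) :
    IntP A (W.Ψ₃.map (algebraMap K M)) := by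
  have e : W.Ψ₃.map (algebraMap K M) = 3 * X ^ 4 + C (algebraMap K M W.b₂) * X ^ 3 +
      3 * C (algebraMap K M W.b₄) * X ^ 2 + 3 * C (algebraMap K M W.b₆) * X +
      C (algebraMap K M W.b₈) := by
    simp [WeierstrassCurve.Ψ₃]
  rw [e]
  exact .add hna (.add hna (.add hna (.add hna (.mul hna (.ofNat hna 3) (.X_pow 4))
    (.mul hna (.C h.b2) (.X_pow 3))) (.mul hna (.mul hna (.ofNat hna 3) (.C h.b4)) (.X_pow 2)))
    (.mul hna (.mul hna (.ofNat hna 3) (.C h.b6)) .X)) (.C h.b8)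

theorem BInt.psi4 (hna : IsNonarchimedean A) (h : BInt W A) :
    IntP A (W.preΨ₄.map (algebraMap K M)) := by
  have e : W.preΨ₄.map (algebraMap K M) = 2 * X ^ 6 + C (algebraMap K M W.b₂) * X ^ 5 +
      5 * C (algebraMap K M W.b₄) * X ^ 4 + 10 * C (algebraMap K M W.b₆) * X ^ 3 +
      10 * C (algebraMap K M W.b₈) * X ^ 2 +
      C (algebraMap K M W.b₂ * algebraMap K M W.b₈ - algebraMap K M W.b₄ * algebraMap K M W.b₆) *
        X + C (algebraMap K M W.b₄ * algebraMap K M W.b₈ -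
          algebraMap K M W.b₆ * algebraMap K M W.b₆) := by
    simp [WeierstrassCurve.preΨ₄]
    ring
  rw [e]
  exact .add hna (.add hna (.add hna (.add hna (.add hna (.add hna
    (.mul hna (.ofNat hna 2) (.X_pow 6)) (.mul hna (.C h.b2) (.X_pow 5)))
    (.mul hna (.mul hna (.ofNat hna 5) (.C h.b4)) (.X_pow 4)))
    (.mul hna (.mul hna (.ofNat hna 10) (.C h.b6)) (.X_pow 3)))
    (.mul hna (.mul hna (.ofNat hna 10) (.C h.b8)) (.X_pow 2)))
    (.mul hna (.C (sub_le1 hna (mul_le1 h.b2 h.b8) (mul_le1 h.b4 h.b6))) .X))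
    (.C (sub_le1 hna (mul_le1 h.b4 h.b8) (mul_le1 h.b6 h.b6)))

/-- Coprimality to `Ψ₂Sq` from the values at the `2`-torsion. -/
theorem cop_psi2 (hc : Ctx W A e) {p : M[X]} (hp : IntP A p)
    (h : ∀ i, A (p.eval (e i)) = 1) : Cop A p (W.Ψ₂Sq.map (algebraMap K M)) := by
  intro z hz
  by_cases h2 : A ((W.Ψ₂Sq.map (algebraMap K M)).eval z) = 1
  · exact Or.inr h2
  left
  have hi : ∃ i, A (z - e i) < 1 := by
    by_contra hcon
    push Not at hcon
    have hle : ∀ i, A (z - e i) = 1 := fun i =>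
      le_antisymm (sub_le1 hc.na hz (hc.hei i)) (hcon i)
    apply h2
    rw [hc.tt.psi2_eval, map_mul, map_mul, map_mul, A4 hc.h2, hle 0, hle 1, hle 2]
    norm_num
  obtain ⟨i, hi⟩ := hi
  have h3 : p.eval z = p.eval (e i) + (p.eval z - p.eval (e i)) := by ring
  rw [h3]
  exact add_one_of hc.na (h i) ((hp.sub_le hc.na hz (hc.hei i)).trans_lt hi)

theorem NN_one (hc : Ctx W A e) {z : M} (i : Fin 3) (hi : A (z - e i) < 1) :
    A (NN e i z) = 1 := by
  have h1 : NN e i z = -((e i - e (i + 1)) * (e i - e (i + 2))) + (z - e i) ^ 2 := by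
    unfold NN; ring
  rw [h1]
  apply add_one_of hc.na
  · rw [map_neg_eq_map, map_mul, hc.hee _ _ (by fin_cases i <;> decide),
      hc.hee _ _ (by fin_cases i <;> decide), one_mul]
  · rw [map_pow]
    exact pow_lt_one₀ (A.nonneg _) hi (by norm_num)

theorem psi2_small (hc : Ctx W A e) {z : M} (hz : A z ≤ 1)
    (hlt : A ((W.Ψ₂Sq.map (algebraMap K M)).eval z) < 1) : ∃ i, A (z - e i) < 1 := by
  by_contra hcon
  push Not at hcon
  have hle : ∀ i, A (z - e i) = 1 := fun i =>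
    le_antisymm (sub_le1 hc.na hz (hc.hei i)) (hcon i)
  apply hlt.ne
  rw [hc.tt.psi2_eval, map_mul, map_mul, map_mul, A4 hc.h2, hle 0, hle 1, hle 2]
  norm_num

theorem ph_one (hc : Ctx W A e) {z : M} (hz : A z ≤ 1)
    (hlt : A ((W.Ψ₂Sq.map (algebraMap K M)).eval z) < 1) :
    A (((Ph W).map (algebraMap K M)).eval z) = 1 := by
  obtain ⟨i, hi⟩ := psi2_small hc hz hlt
  rw [hc.tt.ph_eval i z]
  apply add_one_of hc.na
  · rw [map_pow, NN_one hc i hi, one_pow]
  · rw [map_mul]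
    exact (mul_le_of_le_one_left (A.nonneg _) (hc.hei i)).trans_lt hlt

/-- The pull-back under duplication, at the points above infinity. -/
theorem dbl_D1 (hc : Ctx W A e) {p : M[X]} {n : ℕ} (hp : IntP A p) (hlc : A (p.coeff n) = 1)
    {z : M} (hz : A z ≤ 1) (hlt : A ((W.Ψ₂Sq.map (algebraMap K M)).eval z) < 1) :
    A ((Pool.Agent.TH919.HS.hc n p ((Ph W).map (algebraMap K M))
      (W.Ψ₂Sq.map (algebraMap K M))).eval z) = 1 := by
  rw [Pool.Agent.TH919.HS.hc, eval_finsetSum, sum_range_succ, add_comm]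
  apply add_one_of hc.na
  · simp only [Nat.sub_self, pow_zero, mul_one, eval_mul, eval_C, eval_pow, map_mul, map_pow,
      hlc, ph_one hc hz hlt, one_pow]
  · refine Finset.sum_induction _ (fun x => A x < 1)
      (fun _ _ h h' => (hc.na _ _).trans_lt (max_lt h h')) (by simp) fun i hi => ?_
    rw [mem_range] at hi
    simp only [eval_mul, eval_C, eval_pow]
    rw [map_mul]
    have h1 : A (p.coeff i * ((Ph W).map (algebraMap K M)).eval z ^ i) ≤ 1 := by
      refine mul_le1 (hp i) ?_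
      rw [map_pow, ph_one hc hz hlt, one_pow]
    refine (mul_le_of_le_one_left (A.nonneg _) h1).trans_lt ?_
    rw [map_pow]
    exact pow_lt_one₀ (A.nonneg _) hlt (by omega)

/-- The pull-back under duplication, at the other points. -/
theorem dbl_D2 (hc : Ctx W A e) {z : M} (hz : A z ≤ 1)
    (hu : A ((W.Ψ₂Sq.map (algebraMap K M)).eval z) = 1) :
    (W.Ψ₂Sq.map (algebraMap K M)).eval z ≠ 0 ∧
    A (((Ph W).map (algebraMap K M)).eval z / (W.Ψ₂Sq.map (algebraMap K M)).eval z) ≤ 1 ∧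
    ∀ (n : ℕ) (p : M[X]), p.natDegree ≤ n →
      A ((Pool.Agent.TH919.HS.hc n p ((Ph W).map (algebraMap K M))
        (W.Ψ₂Sq.map (algebraMap K M))).eval z) =
      A (p.eval (((Ph W).map (algebraMap K M)).eval z /
        (W.Ψ₂Sq.map (algebraMap K M)).eval z)) := by
  have h0 : (W.Ψ₂Sq.map (algebraMap K M)).eval z ≠ 0 := by
    intro h
    rw [h, map_zero] at hu
    exact zero_ne_one hu
  refine ⟨h0, ?_, ?_⟩
  · rw [map_div₀, hu, div_one]
    exact (hc.bint.ph hc.na).eval_le hc.na hz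
  · intro n p hp
    rw [hc_eval hp h0, map_mul, map_pow, hu, one_pow, one_mul]

/-- Duplication and the `4`-torsion. -/
theorem psi4_one (hc : Ctx W A e) {z : M}
    (hu : A ((W.Ψ₂Sq.map (algebraMap K M)).eval z) = 1)
    (hs : A ((W.Ψ₂Sq.map (algebraMap K M)).eval (((Ph W).map (algebraMap K M)).eval z /
      (W.Ψ₂Sq.map (algebraMap K M)).eval z)) = 1) :
    A ((W.preΨ₄.map (algebraMap K M)).eval z) = 1 := by
  set b := (W.Ψ₂Sq.map (algebraMap K M)).eval z with hb
  set a := ((Ph W).map (algebraMap K M)).eval z with ha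
  have h0 : b ≠ 0 := by
    intro h
    rw [h, map_zero] at hu
    exact zero_ne_one hu
  have hN : ∀ i, b * (a / b - e i) = NN e i z ^ 2 := by
    intro i
    have := hc.tt.ph_eval i z
    rw [← ha, ← hb] at this
    field_simp
    linear_combination this
  have h4 : (W.preΨ₄.map (algebraMap K M)).eval z ^ 2 =
      b ^ 3 * (W.Ψ₂Sq.map (algebraMap K M)).eval (a / b) := by
    rw [hc.tt.psi4_NN, hc.tt.psi2_eval]
    linear_combination (4 * NN e 0 z ^ 2 * NN e 1 z ^ 2) * (- hN 2) +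
      (4 * NN e 0 z ^ 2 * (b * (a / b - e 2))) * (- hN 1) +
      (4 * (b * (a / b - e 1)) * (b * (a / b - e 2))) * (- hN 0)
  have h5 : A ((W.preΨ₄.map (algebraMap K M)).eval z) ^ 2 = 1 := by
    rw [← map_pow, h4, map_mul, map_pow, hu, hs]
    norm_num
  have h6 := A.nonneg ((W.preΨ₄.map (algebraMap K M)).eval z)
  nlinarith

theorem dbl_cop2 (hc : Ctx W A e) {p : M[X]} {n : ℕ} (hp : IntP A p)
    (hlc : A (p.coeff n) = 1) :
    Cop A (Pool.Agent.TH919.HS.hc n p ((Ph W).map (algebraMap K M))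
      (W.Ψ₂Sq.map (algebraMap K M))) (W.Ψ₂Sq.map (algebraMap K M)) := by
  intro z hz
  rcases lt_or_eq_of_le ((hc.bint.psi2 hc.na).eval_le hc.na hz) with h | h
  · exact Or.inl (dbl_D1 hc hp hlc hz h)
  · exact Or.inr h

theorem dbl_cop4 (hc : Ctx W A e) {p : M[X]} {n : ℕ} (hp : IntP A p)
    (hlc : A (p.coeff n) = 1) (hdeg : p.natDegree ≤ n)
    (hcop : Cop A p (W.Ψ₂Sq.map (algebraMap K M))) :
    Cop A (Pool.Agent.TH919.HS.hc n p ((Ph W).map (algebraMap K M))
      (W.Ψ₂Sq.map (algebraMap K M))) (W.preΨ₄.map (algebraMap K M)) := by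
  intro z hz
  rcases lt_or_eq_of_le ((hc.bint.psi2 hc.na).eval_le hc.na hz) with h | h
  · exact Or.inl (dbl_D1 hc hp hlc hz h)
  · obtain ⟨h0, hs, hD⟩ := dbl_D2 hc hz h
    rw [hD n p hdeg]
    rcases hcop _ hs with h1 | h1
    · exact Or.inl h1
    · exact Or.inr (psi4_one hc h h1)

theorem dbl_cop (hc : Ctx W A e) {p q : M[X]} {n m : ℕ} (hp : IntP A p)
    (hlc : A (p.coeff n) = 1) (hdeg : p.natDegree ≤ n) (hdegq : q.natDegree ≤ m)
    (hcop : Cop A p q) :
    Cop A (Pool.Agent.TH919.HS.hc n p ((Ph W).map (algebraMap K M))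
      (W.Ψ₂Sq.map (algebraMap K M))) (Pool.Agent.TH919.HS.hc m q ((Ph W).map (algebraMap K M))
      (W.Ψ₂Sq.map (algebraMap K M))) := by
  intro z hz
  rcases lt_or_eq_of_le ((hc.bint.psi2 hc.na).eval_le hc.na hz) with h | h
  · exact Or.inl (dbl_D1 hc hp hlc hz h)
  · obtain ⟨h0, hs, hD⟩ := dbl_D2 hc hz h
    rw [hD n p hdeg, hD m q hdegq]
    exact hcop _ hs

theorem dbl_sep (hc : Ctx W A e) {p : M[X]} {n : ℕ} (hp : IntP A p)
    (hlc : A (p.coeff n) = 1) (hdeg : p.natDegree ≤ n)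
    (hcop : Cop A p (W.Ψ₂Sq.map (algebraMap K M))) (hsep : Cop A p p.derivative) :
    Cop A (Pool.Agent.TH919.HS.hc n p ((Ph W).map (algebraMap K M))
      (W.Ψ₂Sq.map (algebraMap K M))) (Pool.Agent.TH919.HS.hc n p ((Ph W).map (algebraMap K M))
      (W.Ψ₂Sq.map (algebraMap K M))).derivative := by
  intro z hz
  rcases lt_or_eq_of_le ((hc.bint.psi2 hc.na).eval_le hc.na hz) with h | h
  · exact Or.inl (dbl_D1 hc hp hlc hz h)
  · obtain ⟨h0, hs, hD⟩ := dbl_D2 hc hz h
    have hint := hp.hc hc.na (hc.bint.ph hc.na) (hc.bint.psi2 hc.na) n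
    rcases lt_or_eq_of_le (hint.eval_le hc.na hz) with h1 | h1
    · right
      have h2 := h1
      rw [hD n p hdeg] at h2
      have h3 := (hcop _ hs).resolve_left h2.ne
      have h4 := (hsep _ hs).resolve_left h2.ne
      have h5 := psi4_one hc h h3
      have h6 := hc1_eval (a := (Ph W).map (algebraMap K M)) hdeg h0
      have h7 := congrArg (fun f => A (eval z f)) (hc_der n p ((Ph W).map (algebraMap K M))
        (W.Ψ₂Sq.map (algebraMap K M)))
      simp only [eval_add, eval_mul] at h7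
      rw [map_mul, h, one_mul] at h7
      rw [h7]
      apply add_one_of hc.na
      · have h8 := hc.tt.wron z
        rw [h8, map_mul, map_mul, hc.h2, h5]
        have h9 := congrArg A h6
        rw [map_mul, map_mul, map_pow, h, h4] at h9
        rw [one_mul, one_pow, one_mul] at h9
        rw [h9]
        norm_num
      · rw [map_mul]
        refine (mul_le_of_le_one_left (A.nonneg _) ?_).trans_lt h1
        refine mul_le1 ?_ (((hc.bint.psi2 hc.na).der hc.na).eval_le hc.na hz)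
        have := nat_le1 (M := M) hc.na n
        simpa using this
    · exact Or.inl h1

end

end Pool.Agent.TH919.HS
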