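import Pool.Agent.TH919.HS.Dbl2

namespace Pool.Agent.TH919.HS

open Polynomial Finset NumberField IsDedekindDomain WithZero Pool.Agent.W318

section

variable {K : Type} [Field K]

theorem ph_natDegree (W : WeierstrassCurve K) : (Ph W).natDegree = 4 ∧ (Ph W).Monic := by
  have h1 : (Ph W).natDegree ≤ 4 := by
    unfold Ph
    compute_degree
  have h2 : (Ph W).coeff 4 = 1 := by
    unfold Ph
    simp [coeff_X, coeff_C]
  have h3 : (Ph W).natDegree = 4 :=
    natDegree_eq_of_le_of_coeff_ne_zero h1 (by rw [h2]; exact one_ne_zero)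
  refine ⟨h3, ?_⟩
  rw [Monic, leadingCoeff, h3, h2]

theorem hc_natDegree (n : ℕ) (p : K[X]) (W : WeierstrassCurve K) :
    (hc n p (Ph W) W.Ψ₂Sq).natDegree ≤ 4 * n := by
  unfold hc
  refine natDegree_sum_le_of_forall_le _ _ fun i hi => ?_
  rw [mem_range] at hi
  refine natDegree_mul_le.trans ?_
  have h1 : (C (p.coeff i) * Ph W ^ i : K[X]).natDegree ≤ 4 * i := by
    refine natDegree_mul_le.trans ?_
    rw [natDegree_C, zero_add, natDegree_pow, (ph_natDegree W).1]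
    omega
  have h2 : (W.Ψ₂Sq ^ (n - i)).natDegree ≤ 3 * (n - i) := by
    refine natDegree_pow_le.trans ?_
    have := W.natDegree_Ψ₂Sq_le
    nlinarith
  omega

theorem hc_coeff (n : ℕ) (p : K[X]) (W : WeierstrassCurve K) :
    (hc n p (Ph W) W.Ψ₂Sq).coeff (4 * n) = p.coeff n := by
  unfold hc
  rw [finsetSum_coeff, sum_range_succ, Finset.sum_eq_zero, zero_add, Nat.sub_self, pow_zero,
    mul_one, coeff_C_mul]
  · have h1 : ((Ph W) ^ n).natDegree = 4 * n := by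
      rw [natDegree_pow, (ph_natDegree W).1, mul_comm]
    have h2 := ((ph_natDegree W).2.pow n).coeff_natDegree
    rw [h1] at h2
    rw [h2, mul_one]
  · intro i hi
    rw [mem_range] at hi
    apply coeff_eq_zero_of_natDegree_lt
    refine lt_of_le_of_lt natDegree_mul_le ?_
    have h1 : (C (p.coeff i) * Ph W ^ i : K[X]).natDegree ≤ 4 * i := by
      refine natDegree_mul_le.trans ?_
      rw [natDegree_C, zero_add, natDegree_pow, (ph_natDegree W).1]
      omega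
    have h2 : (W.Ψ₂Sq ^ (n - i)).natDegree ≤ 3 * (n - i) := by
      refine natDegree_pow_le.trans ?_
      have := W.natDegree_Ψ₂Sq_le
      nlinarith
    omega

theorem psi2_var (W : WeierstrassCurve K) (D : WeierstrassCurve.VariableChange K) (x : K) :
    (D • W).Ψ₂Sq.eval x =
      ((D.u⁻¹ : Kˣ) : K) ^ 6 * W.Ψ₂Sq.eval ((D.u : K) ^ 2 * x + D.r) :=
  tors_tt_eval W D x

theorem ph_var (W : WeierstrassCurve K) (D : WeierstrassCurve.VariableChange K) (x : K) :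
    (Ph (D • W)).eval x =
      ((D.u⁻¹ : Kˣ) : K) ^ 8 * ((Ph W).eval ((D.u : K) ^ 2 * x + D.r) -
        D.r * W.Ψ₂Sq.eval ((D.u : K) ^ 2 * x + D.r)) := by
  have key : ∀ y : K, (Ph (D • W)).eval (((D.u⁻¹ : Kˣ) : K) ^ 2 * y) =
      ((D.u⁻¹ : Kˣ) : K) ^ 8 * ((Ph W).eval (y + D.r) - D.r * W.Ψ₂Sq.eval (y + D.r)) := by
    intro y
    simp only [Ph, WeierstrassCurve.Ψ₂Sq, eval_add, eval_sub, eval_mul, eval_C,
      eval_pow, eval_X, WeierstrassCurve.variableChange_b₂, WeierstrassCurve.variableChange_b₄,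
      WeierstrassCurve.variableChange_b₆, WeierstrassCurve.variableChange_b₈]
    ring
  have hx : ((D.u⁻¹ : Kˣ) : K) ^ 2 * ((D.u : K) ^ 2 * x) = x := by
    rw [← mul_assoc, ← mul_pow, Units.inv_mul, one_pow, one_mul]
  rw [← key, hx]

theorem psi2_ne [CharZero K] (W : WeierstrassCurve K) : W.Ψ₂Sq ≠ 0 :=
  W.Ψ₂Sq_ne_zero (by norm_num)

theorem dbl_var [CharZero K] {n : ℕ} {P : WeierstrassCurve K → K[X]}
    (hdeg : ∀ W, (P W).natDegree ≤ n)
    (hP : ∀ (W : WeierstrassCurve K) (D : WeierstrassCurve.VariableChange K) (x : K),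
      (P (D • W)).eval x = ((D.u⁻¹ : Kˣ) : K) ^ (2 * n) *
        (P W).eval ((D.u : K) ^ 2 * x + D.r))
    (W : WeierstrassCurve K) (D : WeierstrassCurve.VariableChange K) (x : K) :
    (hc n (P (D • W)) (Ph (D • W)) (D • W).Ψ₂Sq).eval x =
      ((D.u⁻¹ : Kˣ) : K) ^ (2 * (4 * n)) *
        (hc n (P W) (Ph W) W.Ψ₂Sq).eval ((D.u : K) ^ 2 * x + D.r) := by
  set ui := ((D.u⁻¹ : Kˣ) : K) with hui
  have huu : ui * (D.u : K) = 1 := Units.inv_mul _
  have hui0 : ui ≠ 0 := Units.ne_zero _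
  have hu0 : (D.u : K) ≠ 0 := Units.ne_zero _
  have key : hc n (P (D • W)) (Ph (D • W)) (D • W).Ψ₂Sq = C (ui ^ (2 * (4 * n))) *
      (hc n (P W) (Ph W) W.Ψ₂Sq).comp (C ((D.u : K) ^ 2) * X + C D.r) := by
    apply mul_left_cancel₀ (psi2_ne (D • W))
    apply Polynomial.funext
    intro x
    simp only [eval_mul, eval_C, eval_comp, eval_add, eval_X]
    by_cases h0 : (D • W).Ψ₂Sq.eval x = 0
    · rw [h0, zero_mul, zero_mul]
    congr 1
    rw [hc_eval (hdeg _) h0, hP, psi2_var, ph_var]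
    set y := (D.u : K) ^ 2 * x + D.r with hy
    have h1 : W.Ψ₂Sq.eval y ≠ 0 := by
      intro h
      apply h0
      rw [psi2_var, ← hy, h, mul_zero]
    rw [hc_eval (hdeg _) h1, ← hui]
    have h2 : (D.u : K) ^ 2 * (ui ^ 8 * (eval y (Ph W) - D.r * eval y W.Ψ₂Sq) /
        (ui ^ 6 * eval y W.Ψ₂Sq)) + D.r = eval y (Ph W) / eval y W.Ψ₂Sq := by
      have h3 : (D.u : K) = ui⁻¹ := by
        field_simp
        linear_combination huu
      rw [h3]
      field_simp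
      ring
    rw [h2, mul_pow]
    ring
  rw [key]
  simp only [eval_mul, eval_C, eval_comp, eval_add, eval_X]

/-- The polynomial of the points of exact order `6`. -/
noncomputable def P6 (W : WeierstrassCurve K) : K[X] :=
  W.preΨ₄ * W.Ψ₂Sq ^ 2 - W.Ψ₃ ^ 3 - W.preΨ₄ ^ 2

theorem coeff_P6 (W : WeierstrassCurve K) : (P6 W).natDegree ≤ 12 ∧ (P6 W).coeff 12 = 1 := by
  have h2 := W.natDegree_Ψ₂Sq_le
  have h3 := W.natDegree_Ψ₃_le
  have h4 := W.natDegree_preΨ₄_le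
  have h22 : (W.Ψ₂Sq ^ 2).natDegree ≤ 6 := natDegree_pow_le.trans (by omega)
  have ha : (W.preΨ₄ * W.Ψ₂Sq ^ 2).natDegree ≤ 12 := natDegree_mul_le.trans (by omega)
  have hb : (W.Ψ₃ ^ 3).natDegree ≤ 12 := natDegree_pow_le.trans (by omega)
  have hd : (W.preΨ₄ ^ 2).natDegree ≤ 12 := natDegree_pow_le.trans (by omega)
  constructor
  · unfold P6
    exact (natDegree_sub_le _ _).trans (max_le ((natDegree_sub_le _ _).trans (max_le ha hb)) hd)
  · unfold P6
    rw [coeff_sub, coeff_sub]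
    have e1 : (W.preΨ₄ * W.Ψ₂Sq ^ 2).coeff 12 = 2 * 4 ^ 2 := by
      have := coeff_mul_add_eq_of_natDegree_le (f := W.preΨ₄) (g := W.Ψ₂Sq ^ 2) h4 h22
      have h5 := coeff_pow_of_natDegree_le (m := 2) h2
      rw [W.coeff_Ψ₂Sq] at h5
      rw [this, W.coeff_preΨ₄, ← h5]
    have e2 : (W.Ψ₃ ^ 3).coeff 12 = 3 ^ 3 := by
      have h5 := coeff_pow_of_natDegree_le (m := 3) h3
      rw [W.coeff_Ψ₃] at h5
      rw [← h5]
    have e3 : (W.preΨ₄ ^ 2).coeff 12 = 2 ^ 2 := by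
      have h5 := coeff_pow_of_natDegree_le (m := 2) h4
      rw [W.coeff_preΨ₄] at h5
      rw [← h5]
    rw [e1, e2, e3]
    norm_num

theorem P6_var (W : WeierstrassCurve K) (D : WeierstrassCurve.VariableChange K) (x : K) :
    (P6 (D • W)).eval x = ((D.u⁻¹ : Kˣ) : K) ^ (2 * 12) *
      (P6 W).eval ((D.u : K) ^ 2 * x + D.r) := by
  unfold P6
  simp only [eval_sub, eval_mul, eval_pow, psi2_var, psi3_eval, psi4_eval]
  ring

theorem psi3_coeffs (W : WeierstrassCurve K) : W.Ψ₃.coeff 0 = W.b₈ ∧ W.Ψ₃.coeff 1 = 3 * W.b₆ ∧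
    W.Ψ₃.coeff 2 = 3 * W.b₄ ∧ W.Ψ₃.coeff 3 = W.b₂ ∧ W.Ψ₃.coeff 4 = 3 := by
  have e : W.Ψ₃ = C 3 * X ^ 4 + C W.b₂ * X ^ 3 + C (3 * W.b₄) * X ^ 2 + C (3 * W.b₆) * X +
      C W.b₈ := by
    simp only [WeierstrassCurve.Ψ₃, C_mul, map_ofNat]
  refine ⟨?_, ?_, ?_, ?_, W.coeff_Ψ₃⟩ <;> rw [e] <;>
    simp only [coeff_add, coeff_C_mul, coeff_X_pow, coeff_X, coeff_C] <;> norm_num

/-- Duplicating the `3`-torsion. -/
theorem dbl_psi3 [CharZero K] (W : WeierstrassCurve K) :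
    hc 4 W.Ψ₃ (Ph W) W.Ψ₂Sq = W.Ψ₃ * P6 W := by
  obtain ⟨h0, h1, h2, h3, h4⟩ := psi3_coeffs W
  have hb8 : W.b₈ = (W.b₂ * W.b₆ - W.b₄ ^ 2) / 4 := by
    have := W.b_relation
    field_simp
    linear_combination this
  apply Polynomial.funext
  intro x
  unfold hc P6
  simp only [Finset.sum_range_succ, Finset.sum_range_zero, h0, h1, h2, h3, h4, zero_add, pow_zero,
    mul_one, eval_add, eval_sub, eval_mul, eval_C, eval_pow]
  simp only [Ph, WeierstrassCurve.Ψ₂Sq, WeierstrassCurve.Ψ₃, WeierstrassCurve.preΨ₄, eval_add,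
    eval_sub, eval_mul, eval_C, eval_pow, eval_X, eval_ofNat]
  rw [hb8]
  generalize W.b₂ = b2
  generalize W.b₄ = b4
  generalize W.b₆ = b6
  ring

end

end Pool.Agent.TH919.HS
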