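import Pool.Agent.TH919.HS.Dbl3

namespace Pool.Agent.TH919.HS

open Polynomial Finset NumberField IsDedekindDomain WithZero Pool.Agent.W318

section

variable {K : Type} [Field K] {M : Type} [Field M] [CharZero M] [Algebra K M]
  {W : WeierstrassCurve K} {e : Fin 3 → M} {A : AbsoluteValue M ℝ}

theorem psi2_far (hc : Ctx W A e) {z : M} (hz : A z ≤ 1)
    (h : A ((W.Ψ₂Sq.map (algebraMap K M)).eval z) = 1) (i : Fin 3) : A (z - e i) = 1 := by
  have hle : ∀ i, A (z - e i) ≤ 1 := fun i => sub_le1 hc.na hz (hc.hei i)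
  rw [hc.tt.psi2_eval] at h
  have h1 := (mul_one_of (A4 hc.h2).le (mul_le1 (mul_le1 (hle 0) (hle 1)) (hle 2)) h).2
  have h2 := mul_one_of (mul_le1 (hle 0) (hle 1)) (hle 2) h1
  have h3 := mul_one_of (hle 0) (hle 1) h2.1
  fin_cases i
  · exact h3.1
  · exact h3.2
  · exact h2.2

theorem psi3_cop2 (hc : Ctx W A e) :
    Cop A (W.Ψ₃.map (algebraMap K M)) (W.Ψ₂Sq.map (algebraMap K M)) :=
  cop_psi2 hc (hc.bint.psi3 hc.na) (psi3_e hc.tt hc.hee)

theorem psi3_sep (hc : Ctx W A e) :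
    Cop A (W.Ψ₃.map (algebraMap K M)) (W.Ψ₃.map (algebraMap K M)).derivative := by
  intro z hz
  rcases psi3_cop2 hc z hz with h | h
  · exact Or.inl h
  · exact Or.inr (psi3_der hc.h2 hc.h3 hc.tt (psi2_far hc hz h))

theorem psi4_cop2 (hc : Ctx W A e) :
    Cop A (W.preΨ₄.map (algebraMap K M)) (W.Ψ₂Sq.map (algebraMap K M)) :=
  cop_psi2 hc (hc.bint.psi4 hc.na) (psi4_e hc.h2 hc.tt hc.hee)

theorem psi34_cop (hc : Ctx W A e) :
    Cop A (W.Ψ₃.map (algebraMap K M)) (W.preΨ₄.map (algebraMap K M)) := by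
  intro z hz
  rcases lt_or_eq_of_le ((hc.bint.psi3 hc.na).eval_le hc.na hz) with h | h
  · right
    have h1 := (psi3_cop2 hc z hz).resolve_left h.ne
    have h2 := psi2_far hc hz h1
    have hu := unit_sq (e := e) hc.h2 h2
    rw [psi_rel hc.tt z, ← neg_sub, map_neg_eq_map, sub_eq_add_neg]
    apply add_one_of hc.na hu
    rw [map_neg_eq_map, map_mul]
    refine (mul_le_of_le_one_left (A.nonneg _) ?_).trans_lt h
    have h6 : A (6 : M) ≤ 1 := (A6 hc.h2 hc.h3).le
    refine add_le1 hc.na (add_le1 hc.na (mul_le1 h6 ?_) (mul_le1 hc.bint.b2 hz)) hc.bint.b4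
    rw [map_pow]
    exact pow_le_one₀ (A.nonneg _) hz
  · exact Or.inl h

theorem NN_le (hc : Ctx W A e) {z : M} (hz : A z ≤ 1) (i : Fin 3) : A (NN e i z) ≤ 1 := by
  unfold NN
  refine sub_le1 hc.na ?_ (mul_le1 (sub_le1 hc.na (hc.hei _) (hc.hei _))
    (sub_le1 hc.na (hc.hei _) (hc.hei _)))
  rw [map_pow]
  exact pow_le_one₀ (A.nonneg _) (sub_le1 hc.na hz (hc.hei i))

theorem psi4_der_NN (h : TT W e) (z : M) :
    (W.preΨ₄.map (algebraMap K M)).derivative.eval z =
      2 * ((2 * (z - e 0)) * NN e 1 z * NN e 2 z + NN e 0 z * (2 * (z - e 1)) * NN e 2 z +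
        NN e 0 z * NN e 1 z * (2 * (z - e 2))) := by
  rw [h.psi4_map]
  have h1 : (0 + 1 : Fin 3) = 1 := rfl
  have h2 : (0 + 2 : Fin 3) = 2 := rfl
  have h3 : (1 + 1 : Fin 3) = 2 := rfl
  have h4 : (1 + 2 : Fin 3) = 0 := rfl
  have h5 : (2 + 1 : Fin 3) = 0 := rfl
  have h6 : (2 + 2 : Fin 3) = 1 := rfl
  simp only [NN, h1, h2, h3, h4, h5, h6]
  simp only [derivative_add, derivative_sub, derivative_mul, derivative_C, derivative_X_pow,
      derivative_X, eval_add, eval_sub, eval_mul, eval_C, eval_pow, eval_X, zero_mul, zero_add,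
      mul_one, Nat.cast_ofNat, add_zero]
  norm_num
  ring

theorem three_one (hna : IsNonarchimedean A) (h2 : A 2 = 1) {x y w a b c : M} (hx : A x < 1)
    (hy : A y = 1) (hw : A w = 1) (ha : A a = 1) (hb : A b ≤ 1) (hcc : A c ≤ 1) :
    A (2 * ((2 * a) * y * w + (x * (2 * b) * w + x * y * (2 * c)))) = 1 := by
  rw [map_mul, h2, one_mul]
  apply add_one_of hna
  · simp only [map_mul, h2, hy, hw, ha, mul_one]
  · have e1 : x * (2 * b) * w + x * y * (2 * c) = x * (2 * b * w + y * (2 * c)) := by ring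
    rw [e1, map_mul]
    refine (mul_le_of_le_one_right (A.nonneg _) ?_).trans_lt hx
    exact add_le1 hna (mul_le1 (mul_le1 h2.le hb) hw.le) (mul_le1 hy.le (mul_le1 h2.le hcc))

theorem psi4_sep (hc : Ctx W A e) :
    Cop A (W.preΨ₄.map (algebraMap K M)) (W.preΨ₄.map (algebraMap K M)).derivative := by
  intro z hz
  rcases lt_or_eq_of_le ((hc.bint.psi4 hc.na).eval_le hc.na hz) with h | h
  · right
    have h1 := (psi4_cop2 hc z hz).resolve_left h.ne
    have h2 := psi2_far hc hz h1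
    have hN := NN_le hc hz
    rw [psi4_der_NN hc.tt z]
    have e1 : (0 + 1 : Fin 3) = 1 := rfl
    have e2 : (0 + 2 : Fin 3) = 2 := rfl
    have e3 : (1 + 1 : Fin 3) = 2 := rfl
    have e4 : (1 + 2 : Fin 3) = 0 := rfl
    have e5 : (2 + 1 : Fin 3) = 0 := rfl
    have e6 : (2 + 2 : Fin 3) = 1 := rfl
    -- moving between the factors
    have hstep : ∀ i j k : Fin 3, i ≠ j → A (NN e i z) < 1 →
        NN e j z = 2 * (e i - e j) * (z - e k) + NN e i z → A (NN e j z) = 1 := by
      intro i j k hij hi heq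
      rw [heq]
      apply add_one_of hc.na _ hi
      rw [map_mul, map_mul, hc.h2, hc.hee i j hij, h2 k]
      norm_num
    have h01 : NN e 1 z = 2 * (e 0 - e 1) * (z - e 2) + NN e 0 z := by
      simp only [NN, e1, e2, e3, e4, e5, e6]; ring
    have h02 : NN e 2 z = 2 * (e 0 - e 2) * (z - e 1) + NN e 0 z := by
      simp only [NN, e1, e2, e3, e4, e5, e6]; ring
    have h10 : NN e 0 z = 2 * (e 1 - e 0) * (z - e 2) + NN e 1 z := by
      simp only [NN, e1, e2, e3, e4, e5, e6]; ring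
    have h12 : NN e 2 z = 2 * (e 1 - e 2) * (z - e 0) + NN e 1 z := by
      simp only [NN, e1, e2, e3, e4, e5, e6]; ring
    have h20 : NN e 0 z = 2 * (e 2 - e 0) * (z - e 1) + NN e 2 z := by
      simp only [NN, e1, e2, e3, e4, e5, e6]; ring
    have h21 : NN e 1 z = 2 * (e 2 - e 1) * (z - e 0) + NN e 2 z := by
      simp only [NN, e1, e2, e3, e4, e5, e6]; ring
    have hex : A (NN e 0 z) < 1 ∨ A (NN e 1 z) < 1 ∨ A (NN e 2 z) < 1 := by
      by_contra hcon
      push Not at hcon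
      obtain ⟨c0, c1, c2⟩ := hcon
      apply h.ne
      rw [hc.tt.psi4_NN, map_mul, map_mul, map_mul, hc.h2, le_antisymm (hN 0) c0,
        le_antisymm (hN 1) c1, le_antisymm (hN 2) c2]
      norm_num
    rcases hex with hx | hx | hx
    · have hy := hstep 0 1 2 (by decide) hx h01
      have hw := hstep 0 2 1 (by decide) hx h02
      have := three_one hc.na hc.h2 hx hy hw (h2 0) (h2 1).le (h2 2).le
      rw [← this]
      congr 1
      ring
    · have hy := hstep 1 0 2 (by decide) hx h10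
      have hw := hstep 1 2 0 (by decide) hx h12
      have := three_one hc.na hc.h2 hx hy hw (h2 1) (h2 0).le (h2 2).le
      rw [← this]
      congr 1
      ring
    · have hy := hstep 2 0 1 (by decide) hx h20
      have hw := hstep 2 1 0 (by decide) hx h21
      have := three_one hc.na hc.h2 hx hy hw (h2 2) (h2 0).le (h2 1).le
      rw [← this]
      congr 1
      ring
  · exact Or.inl h

theorem BInt.p6 (hna : IsNonarchimedean A) (h : BInt W A) :
    IntP A ((P6 W).map (algebraMap K M)) := by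
  unfold P6
  rw [Polynomial.map_sub, Polynomial.map_sub, Polynomial.map_mul, Polynomial.map_pow,
    Polynomial.map_pow, Polynomial.map_pow]
  exact .sub hna (.sub hna (.mul hna (h.psi4 hna) ((h.psi2 hna).pow hna 2))
    ((h.psi3 hna).pow hna 3)) ((h.psi4 hna).pow hna 2)

theorem dbl_psi3_map [CharZero K] : Pool.Agent.TH919.HS.hc 4 (W.Ψ₃.map (algebraMap K M))
    ((Ph W).map (algebraMap K M)) (W.Ψ₂Sq.map (algebraMap K M)) =
      W.Ψ₃.map (algebraMap K M) * (P6 W).map (algebraMap K M) := by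
  rw [← hc_map, dbl_psi3, Polynomial.map_mul]

theorem psi3_lc (hc : Ctx W A e) : A ((W.Ψ₃.map (algebraMap K M)).coeff 4) = 1 := by
  rw [coeff_map, W.coeff_Ψ₃, map_ofNat, hc.h3]

theorem psi3_deg : (W.Ψ₃.map (algebraMap K M)).natDegree ≤ 4 :=
  natDegree_map_le.trans W.natDegree_Ψ₃_le

theorem p6_sep [CharZero K] (hc : Ctx W A e) :
    Cop A ((P6 W).map (algebraMap K M)) ((P6 W).map (algebraMap K M)).derivative ∧
      Cop A (W.Ψ₃.map (algebraMap K M)) ((P6 W).map (algebraMap K M)) := by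
  have h1 := dbl_sep hc (hc.bint.psi3 hc.na) (psi3_lc hc) psi3_deg (psi3_cop2 hc) (psi3_sep hc)
  rw [dbl_psi3_map] at h1
  exact Cop.of_sep_mul hc.na (hc.bint.psi3 hc.na) (hc.bint.p6 hc.na) h1

theorem p6_cop2 [CharZero K] (hc : Ctx W A e) :
    Cop A ((P6 W).map (algebraMap K M)) (W.Ψ₂Sq.map (algebraMap K M)) := by
  have h1 := dbl_cop2 hc (hc.bint.psi3 hc.na) (psi3_lc hc)
  rw [dbl_psi3_map] at h1
  exact (Cop.of_mul_left hc.na (hc.bint.psi3 hc.na) (hc.bint.p6 hc.na) h1).2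

theorem p6_cop4 [CharZero K] (hc : Ctx W A e) :
    Cop A ((P6 W).map (algebraMap K M)) (W.preΨ₄.map (algebraMap K M)) := by
  have h1 := dbl_cop4 hc (hc.bint.psi3 hc.na) (psi3_lc hc) psi3_deg (psi3_cop2 hc)
  rw [dbl_psi3_map] at h1
  exact (Cop.of_mul_left hc.na (hc.bint.psi3 hc.na) (hc.bint.p6 hc.na) h1).2

end

section

variable {K : Type} [Field K] [NumberField K]

/-- A family of polynomials, attached to the Weierstrass equations over `K`, whose roots are
distinct and away from the `2`-torsion modulo all places of good reduction prime to `6`. -/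
structure GF (n : ℕ) (P : WeierstrassCurve K → K[X]) : Prop where
  deg : ∀ W, (P W).natDegree ≤ n
  lc : ∃ a b : ℕ, ∀ W, (P W).coeff n = 2 ^ a * 3 ^ b
  int : ∀ (W : WeierstrassCurve K) (M : Type) [Field M] [NumberField M] [Algebra K M]
    (A : AbsoluteValue M ℝ), IsNonarchimedean A → BInt W A →
      IntP A ((P W).map (algebraMap K M))
  sep : ∀ (W : WeierstrassCurve K) (M : Type) [Field M] [NumberField M] [Algebra K M]
    (A : AbsoluteValue M ℝ) (e : Fin 3 → M), Ctx W A e →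
      Cop A ((P W).map (algebraMap K M)) ((P W).map (algebraMap K M)).derivative
  cop : ∀ (W : WeierstrassCurve K) (M : Type) [Field M] [NumberField M] [Algebra K M]
    (A : AbsoluteValue M ℝ) (e : Fin 3 → M), Ctx W A e →
      Cop A ((P W).map (algebraMap K M)) (W.Ψ₂Sq.map (algebraMap K M))
  var : ∀ (W : WeierstrassCurve K) (D : WeierstrassCurve.VariableChange K) (x : K),
    (P (D • W)).eval x = ((D.u⁻¹ : Kˣ) : K) ^ (2 * n) * (P W).eval ((D.u : K) ^ 2 * x + D.r)

/-- Coprimality of two families. -/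
def CopF (P Q : WeierstrassCurve K → K[X]) : Prop :=
  ∀ (W : WeierstrassCurve K) (M : Type) [Field M] [NumberField M] [Algebra K M]
    (A : AbsoluteValue M ℝ) (e : Fin 3 → M), Ctx W A e →
      Cop A ((P W).map (algebraMap K M)) ((Q W).map (algebraMap K M))

theorem GF.lc' {n : ℕ} {P : WeierstrassCurve K → K[X]} (h : GF n P) (W : WeierstrassCurve K)
    {M : Type} [Field M] [NumberField M] [Algebra K M] {A : AbsoluteValue M ℝ} (h2 : A 2 = 1)
    (h3 : A 3 = 1) : A (((P W).map (algebraMap K M)).coeff n) = 1 := by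
  obtain ⟨a, b, hab⟩ := h.lc
  rw [coeff_map, hab, map_mul, map_pow, map_pow, map_ofNat, map_ofNat, map_mul, map_pow, map_pow,
    h2, h3, one_pow, one_pow, one_mul]

theorem GF.mul {n m : ℕ} {P Q : WeierstrassCurve K → K[X]} (hP : GF n P) (hQ : GF m Q)
    (h : CopF P Q) : GF (n + m) (fun W => P W * Q W) where
  deg W := natDegree_mul_le.trans (add_le_add (hP.deg W) (hQ.deg W))
  lc := by
    obtain ⟨a, b, hab⟩ := hP.lc
    obtain ⟨a', b', hab'⟩ := hQ.lc
    refine ⟨a + a', b + b', fun W => ?_⟩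
    rw [coeff_mul_add_eq_of_natDegree_le (hP.deg W) (hQ.deg W), hab, hab']
    ring
  int W M _ _ _ A hna hb := by
    rw [Polynomial.map_mul]
    exact (hP.int W M A hna hb).mul hna (hQ.int W M A hna hb)
  sep W M _ _ _ A e hc := by
    rw [Polynomial.map_mul]
    exact Cop.sep_mul hc.na (hP.int W M A hc.na hc.bint) (hQ.int W M A hc.na hc.bint)
      (hP.sep W M A e hc) (hQ.sep W M A e hc) (h W M A e hc)
  cop W M _ _ _ A e hc := by
    rw [Polynomial.map_mul]
    exact (hP.cop W M A e hc).mul_left (hQ.cop W M A e hc)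
  var W D x := by
    rw [eval_mul, eval_mul, hP.var, hQ.var]
    ring

theorem GF.dbl {n : ℕ} {P : WeierstrassCurve K → K[X]} (hP : GF n P) :
    GF (4 * n) (fun W => hc n (P W) (Ph W) W.Ψ₂Sq) where
  deg W := hc_natDegree n (P W) W
  lc := by
    obtain ⟨a, b, hab⟩ := hP.lc
    exact ⟨a, b, fun W => by rw [hc_coeff, hab]⟩
  int W M _ _ _ A hna hb := by
    rw [hc_map]
    exact (hP.int W M A hna hb).hc hna (hb.ph hna) (hb.psi2 hna) n
  sep W M _ _ _ A e hc := by
    rw [hc_map]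
    exact dbl_sep hc (hP.int W M A hc.na hc.bint) (hP.lc' W hc.h2 hc.h3)
      (natDegree_map_le.trans (hP.deg W)) (hP.cop W M A e hc) (hP.sep W M A e hc)
  cop W M _ _ _ A e hc := by
    rw [hc_map]
    exact dbl_cop2 hc (hP.int W M A hc.na hc.bint) (hP.lc' W hc.h2 hc.h3)
  var W D x := dbl_var hP.deg hP.var W D x

theorem gf_one : GF (K := K) 0 (fun _ => 1) where
  deg W := by simp
  lc := ⟨0, 0, fun W => by simp⟩
  int W M _ _ _ A hna hb := by
    rw [Polynomial.map_one]
    have := IntP.X_pow (A := A) 0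
    rwa [pow_zero] at this
  sep W M _ _ _ A e hc := fun z _ => Or.inl (by simp)
  cop W M _ _ _ A e hc := fun z _ => Or.inl (by simp)
  var W D x := by simp

theorem gf_psi3 : GF (K := K) 4 (fun W => W.Ψ₃) where
  deg W := W.natDegree_Ψ₃_le
  lc := ⟨0, 1, fun W => by rw [W.coeff_Ψ₃]; norm_num⟩
  int W M _ _ _ A hna hb := hb.psi3 hna
  sep W M _ _ _ A e hc := psi3_sep hc
  cop W M _ _ _ A e hc := psi3_cop2 hc
  var W D x := psi3_eval W D x

theorem gf_psi4 : GF (K := K) 6 (fun W => W.preΨ₄) where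
  deg W := W.natDegree_preΨ₄_le
  lc := ⟨1, 0, fun W => by rw [W.coeff_preΨ₄]; norm_num⟩
  int W M _ _ _ A hna hb := hb.psi4 hna
  sep W M _ _ _ A e hc := psi4_sep hc
  cop W M _ _ _ A e hc := psi4_cop2 hc
  var W D x := psi4_eval W D x

theorem gf_p6 : GF (K := K) 12 P6 where
  deg W := (coeff_P6 W).1
  lc := ⟨0, 0, fun W => by rw [(coeff_P6 W).2]; norm_num⟩
  int W M _ _ _ A hna hb := hb.p6 hna
  sep W M _ _ _ A e hc := (p6_sep hc).1
  cop W M _ _ _ A e hc := p6_cop2 hc
  var W D x := P6_var W D x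

end

end Pool.Agent.TH919.HS
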