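import Pool.Agent.TH919.HS.Dbl4

namespace Pool.Agent.TH919.HS

open Polynomial Finset NumberField IsDedekindDomain WithZero Pool.Agent.W318

section

variable {K : Type} [Field K] [NumberField K]

theorem copF_step {n : ℕ} {P : WeierstrassCurve K → K[X]} (hP : GF n P)
    (h3 : CopF P (fun W => W.Ψ₃)) :
    CopF (fun W => hc n (P W) (Ph W) W.Ψ₂Sq) (fun W => W.Ψ₃) ∧
    CopF (fun W => hc n (P W) (Ph W) W.Ψ₂Sq) P6 ∧
    CopF (fun W => hc n (P W) (Ph W) W.Ψ₂Sq) (fun W => W.preΨ₄) := by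
  refine ⟨?_, ?_, ?_⟩ <;> intro W M _ _ _ A e hcx <;> rw [hc_map]
  · have h1 := dbl_cop hcx (hP.int W M A hcx.na hcx.bint) (hP.lc' W hcx.h2 hcx.h3)
      (natDegree_map_le.trans (hP.deg W)) psi3_deg (h3 W M A e hcx)
    rw [dbl_psi3_map] at h1
    exact (Cop.of_mul_left hcx.na (hcx.bint.psi3 hcx.na) (hcx.bint.p6 hcx.na) h1.symm).1.symm
  · have h1 := dbl_cop hcx (hP.int W M A hcx.na hcx.bint) (hP.lc' W hcx.h2 hcx.h3)
      (natDegree_map_le.trans (hP.deg W)) psi3_deg (h3 W M A e hcx)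
    rw [dbl_psi3_map] at h1
    exact (Cop.of_mul_left hcx.na (hcx.bint.psi3 hcx.na) (hcx.bint.p6 hcx.na) h1.symm).2.symm
  · exact dbl_cop4 hcx (hP.int W M A hcx.na hcx.bint) (hP.lc' W hcx.h2 hcx.h3)
      (natDegree_map_le.trans (hP.deg W)) (hP.cop W M A e hcx)

theorem CopF.mul {P Q R : WeierstrassCurve K → K[X]} (h1 : CopF P R) (h2 : CopF Q R) :
    CopF (fun W => P W * Q W) R := by
  intro W M _ _ _ A e hcx
  rw [Polynomial.map_mul]
  exact (h1 W M A e hcx).mul_left (h2 W M A e hcx)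

theorem CopF.symm {P Q : WeierstrassCurve K → K[X]} (h : CopF P Q) : CopF Q P :=
  fun W M _ _ _ A e hcx => (h W M A e hcx).symm

theorem copF_43 : CopF (K := K) (fun W => W.preΨ₄) (fun W => W.Ψ₃) :=
  fun _ _ _ _ _ _ _ hcx => (psi34_cop hcx).symm

theorem copF_63 : CopF (K := K) P6 (fun W => W.Ψ₃) :=
  fun _ _ _ _ _ _ _ hcx => (p6_sep hcx).2.symm

theorem copF_64 : CopF (K := K) P6 (fun W => W.preΨ₄) :=
  fun _ _ _ _ _ _ _ hcx => p6_cop4 hcx

/-- Good families of every degree divisible by `6`. -/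
theorem exists_gf (m : ℕ) : ∃ P : WeierstrassCurve K → K[X], GF (6 * m) P ∧
    CopF P (fun W => W.Ψ₃) := by
  induction m using Nat.strong_induction_on with
  | _ m ih =>
    rcases Nat.eq_zero_or_pos m with rfl | hm
    · exact ⟨fun _ => 1, gf_one, fun W M _ _ _ A e _ z _ => Or.inl (by simp)⟩
    obtain ⟨P, hP, h3⟩ := ih (m / 4) (by omega)
    obtain ⟨s3, s6, s4⟩ := copF_step hP h3
    have hr : m % 4 = 0 ∨ m % 4 = 1 ∨ m % 4 = 2 ∨ m % 4 = 3 := by omega
    rcases hr with hr | hr | hr | hr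
    · refine ⟨_, ?_, s3⟩
      have h := hP.dbl
      rwa [show 4 * (6 * (m / 4)) = 6 * m by omega] at h
    · refine ⟨_, ?_, s3.mul copF_43⟩
      have h := hP.dbl.mul gf_psi4 s4
      rwa [show 4 * (6 * (m / 4)) + 6 = 6 * m by omega] at h
    · refine ⟨_, ?_, s3.mul copF_63⟩
      have h := hP.dbl.mul gf_p6 s6
      rwa [show 4 * (6 * (m / 4)) + 12 = 6 * m by omega] at h
    · refine ⟨_, ?_, (s3.mul copF_63).mul copF_43⟩
      have h := (hP.dbl.mul gf_p6 s6).mul gf_psi4 (s4.mul copF_64)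
      rwa [show 4 * (6 * (m / 4)) + 12 + 6 = 6 * m by omega] at h

theorem GF.ne {n : ℕ} {P : WeierstrassCurve K → K[X]} (h : GF n P) (W : WeierstrassCurve K) :
    (P W).coeff n ≠ 0 := by
  obtain ⟨a, b, hab⟩ := h.lc
  rw [hab]
  exact mul_ne_zero (pow_ne_zero _ two_ne_zero) (pow_ne_zero _ three_ne_zero)

theorem GF.natDegree {n : ℕ} {P : WeierstrassCurve K → K[X]} (h : GF n P)
    (W : WeierstrassCurve K) : (P W).natDegree = n :=
  natDegree_eq_of_le_of_coeff_ne_zero (h.deg W) (h.ne W)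

theorem GF.rootsOK {n : ℕ} {P : WeierstrassCurve K → K[X]} (h : GF n P) : RootsOK n P := by
  intro W M _ _ _ A hna h2 h3 e he hei hee hs
  have hcx : Ctx W A e := ⟨hna, h2, h3, he, hei, hee⟩
  have hn : ((P W).map (algebraMap K M)).natDegree = n := by
    rw [natDegree_map, h.natDegree]
  refine roots_ok hna hs hn ?_ (h.int W M A hna hcx.bint) hei ?_ ?_
  · rw [leadingCoeff, hn]
    exact h.lc' W h2 h3
  · intro i
    refine (h.cop W M A e hcx (e i) (hei i)).resolve_right ?_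
    rw [he.psi2_eval]
    have : (e i - e 0) * (e i - e 1) * (e i - e 2) = 0 := by
      fin_cases i <;> simp
    rw [this, mul_zero, map_zero]
    exact zero_ne_one
  · intro z hz0 hz
    refine (h.sep W M A e hcx z (z_le hna hei hz)).resolve_left ?_
    rw [hz0, map_zero]
    exact zero_ne_one

theorem IntAt.bint {v : HeightOneSpectrum (𝓞 K)} {W : WeierstrassCurve K} (h : IntAt v W) :
    BInt W (absW v) := by
  obtain ⟨h2, h4, h6⟩ := h.b
  have h8 : v.valuation K W.b₈ ≤ 1 := by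
    obtain ⟨W0, hW⟩ := h.lift
    rw [← hW, WeierstrassCurve.map_b₈]
    exact W0.b₈.2
  exact ⟨(absW_le_one_iff _ _).mpr h2, (absW_le_one_iff _ _).mpr h4,
    (absW_le_one_iff _ _).mpr h6, (absW_le_one_iff _ _).mpr h8⟩

theorem GF.hint {n : ℕ} {P : WeierstrassCurve K → K[X]} (h : GF n P)
    (v : HeightOneSpectrum (𝓞 K)) (W : WeierstrassCurve K) (hW : IntAt v W) (i : ℕ) :
    v.valuation K ((P W).coeff i) ≤ 1 := by
  have h1 := h.int W K (absW v) (absW_na v) hW.bint i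
  rw [coeff_map] at h1
  exact (absW_le_one_iff _ _).mp h1

theorem GF.eqv {n g : ℕ} (hn : 4 + n = g + 1 + (g + 1)) {P : WeierstrassCurve K → K[X]}
    (h : GF n P) (W : WeierstrassCurve K) (D : WeierstrassCurve.VariableChange K) :
    Eqv (g + 1) (tF P W) (tF P (D • W)) := by
  apply eqv_of_eval (u := (D.u : K) ^ 2) (r := D.r) (l := ((D.u⁻¹ : Kˣ) : K) ^ (n + 3))
    ((tF_deg h.deg W).trans (by omega)) (pow_ne_zero _ D.u.ne_zero) (ui_ne D _)
  intro x
  simp only [tF, eval_mul, tors_tt_eval, h.var]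
  ring

theorem GF.szp {n g : ℕ} (hg : 2 ≤ g) (hn : 4 + n = g + 1 + (g + 1))
    {P : WeierstrassCurve K → K[X]} (h : GF n P) (hs : SzpiroOver K g) : SzpiroEllOver K :=
  ell_of_szp hg hn h.rootsOK (fun W h0 => h.ne W (by rw [h0, coeff_zero])) (fun W D => h.eqv hn W D)
    h.hint hs

/-- Szpiro's conjecture over `K` from the hyperelliptic one in genus `g ≥ 3`, `g ≢ 2 mod 3`. -/
theorem ell_of_szp01 {g : ℕ} (hg : 3 ≤ g) (hg3 : g % 3 ≠ 2) (hs : SzpiroOver K g) :
    SzpiroEllOver K := by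
  have hr : g % 3 = 0 ∨ g % 3 = 1 := by omega
  rcases hr with hr | hr
  · obtain ⟨P, hP, h3⟩ := exists_gf (K := K) ((g - 3) / 3)
    exact (hP.mul gf_psi3 h3).szp (g := g) (by omega) (by omega) hs
  · obtain ⟨P, hP, _⟩ := exists_gf (K := K) ((g - 1) / 3)
    exact hP.szp (g := g) (by omega) (by omega) hs

end

end Pool.Agent.TH919.HS
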