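import Pool.Agent.W318.SzpDefs

namespace Pool.Agent.TH919.HS

open Polynomial NumberField IsDedekindDomain WithZero Pool.Agent.W318

section

variable {K : Type} [Field K] [NumberField K]

/-- `|v(x)|`, the absolute value of the normalized additive valuation at `v` (and `0` at
`x = 0`). -/
noncomputable def ordAbs (v : HeightOneSpectrum (𝓞 K)) (x : K) : ℕ :=
  (WithZero.log (v.valuation K x)).natAbs

/-- The finite part of the height of the triple `(x, 1 - x, 1)`:
`Φ_K(x) = ∏ N_v ^ (|v(x)| + |v(1 - x)|)` over all finite places `v` of `K`. -/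
noncomputable def phi (x : K) : ℕ :=
  ∏ᶠ v : HeightOneSpectrum (𝓞 K), Ideal.absNorm v.asIdeal ^ (ordAbs v x + ordAbs v (1 - x))

/-- The radical `∏ N_v` over the finite places `v` of `K` with `v(x) ≠ 0` or `v(1 - x) ≠ 0`. -/
noncomputable def radK (x : K) : ℕ :=
  ∏ᶠ v : HeightOneSpectrum (𝓞 K),
    if ordAbs v x = 0 ∧ ordAbs v (1 - x) = 0 then 1 else Ideal.absNorm v.asIdeal

/-- The place `v` of `K` lies above a prime in `S`. -/
def Above (S : Finset ℕ) (v : HeightOneSpectrum (𝓞 K)) : Prop :=
  ∃ p ∈ S, v.valuation K (p : K) < 1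

end

/-- The number field `K` is unramified outside the set `S` of primes: `v(p) = 1` for all places
`v` of `K` not above `S` and the prime `p` below `v`. -/
def UnramOutside (K : Type) [Field K] [NumberField K] (S : Finset ℕ) : Prop :=
  ∀ v : HeightOneSpectrum (𝓞 K), ¬ Above S v → ∀ p : ℕ, p.Prime →
    v.valuation K (p : K) = 1 ∨ v.valuation K (p : K) = exp (-1)

/-- **The uniform (weak, finite) `abc` bound.** For each `d` there are `c, κ` such that, for
every finite set `S` of primes, every number field `K` of degree at most `d` unramified outside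
`S`, and every `x ∈ K ∖ {0, 1}` such that `x` and `1 - x` are `S`-units,
`Φ_K(x) ≤ c (∏_{p ∈ S} p) ^ κ`. -/
def UniformABC : Prop :=
  ∀ d : ℕ, ∃ c κ : ℕ, ∀ (K : Type) [Field K] [NumberField K], Module.finrank ℚ K ≤ d →
    ∀ S : Finset ℕ, (∀ p ∈ S, p.Prime) → UnramOutside K S →
      ∀ x : K, x ≠ 0 → x ≠ 1 →
        (∀ v : HeightOneSpectrum (𝓞 K), ¬ Above S v →
          v.valuation K x = 1 ∧ v.valuation K (1 - x) = 1) →
        phi x ≤ c * (∏ p ∈ S, p) ^ κ

/-- **The uniform Szpiro-type bound for hyperelliptic curves of genus `g`.** For each `d` there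
are `c, κ` such that, for every finite set `S` of primes, every number field `K` of degree at
most `d` unramified outside `S`, and every hyperelliptic curve `C : y² = F` of genus `g` over `K`
with good reduction at all places not above `S`, `Δ_C ≤ c (∏_{p ∈ S} p) ^ κ`. -/
def UniformSzpiro (g : ℕ) : Prop :=
  ∀ d : ℕ, ∃ c κ : ℕ, ∀ (K : Type) [Field K] [NumberField K], Module.finrank ℚ K ≤ d →
    ∀ S : Finset ℕ, (∀ p ∈ S, p.Prime) → UnramOutside K S →
      ∀ F : K[X], IsHyp g F →
        (∀ v : HeightOneSpectrum (𝓞 K), ¬ Above S v → minExp g F v = 0) →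
        discNorm g F ≤ c * (∏ p ∈ S, p) ^ κ

/-- The Szpiro-type bound of Q1 for hyperelliptic curves of genus `g` over the number field `K`:
`Δ_C ≤ c M_C ^ κ`. -/
def SzpiroOver (K : Type) [Field K] [NumberField K] (g : ℕ) : Prop :=
  ∃ c κ : ℕ, ∀ F : K[X], IsHyp g F → discNorm g F ≤ c * badNorm g F ^ κ

/-- The (weak, finite) `abc` bound over the number field `K`: `Φ_K(x) ≤ c rad_K(x) ^ κ`. -/
def ABCOver (K : Type) [Field K] [NumberField K] : Prop :=
  ∃ c κ : ℕ, ∀ x : K, x ≠ 0 → x ≠ 1 → phi x ≤ c * radK x ^ κ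

/-- The Szpiro-type bound of Q1 for the hyperelliptic curves of genus `g` over `K` whose
Weierstrass points (branch points of `C → ℙ¹`) are defined over the extension `L` of `K`. -/
def SplitSzpiroOver (K L : Type) [Field K] [NumberField K] [Field L] [Algebra K L] (g : ℕ) :
    Prop :=
  ∃ c κ : ℕ, ∀ F : K[X], IsHyp g F → (F.map (algebraMap K L)).Splits →
    discNorm g F ≤ c * badNorm g F ^ κ

end Pool.Agent.TH919.HS
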