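import Pool.Agent.TH919.HS.Fixed

namespace Pool.Agent.TH919.HS

open Polynomial Finset NumberField IsDedekindDomain WithZero Pool.Agent.W318

section

variable {K : Type} [Field K] [NumberField K]

theorem nat_mem_iff (v : HeightOneSpectrum (𝓞 K)) (n : ℕ) :
    (n : 𝓞 K) ∈ v.asIdeal ↔ v.valuation K (n : K) < 1 := by
  have e : algebraMap (𝓞 K) K (n : 𝓞 K) = n := map_natCast _ n
  rw [← e]
  exact (HeightOneSpectrum.valuation_lt_one_iff_mem (K := K) v (n : 𝓞 K)).symm

theorem val_nat_eq_int (v : HeightOneSpectrum (𝓞 K)) (n : ℕ) :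
    v.valuation K (n : K) = v.intValuation (n : 𝓞 K) := by
  have e : algebraMap (𝓞 K) K (n : 𝓞 K) = n := map_natCast _ n
  rw [← e]
  exact v.valuation_of_algebraMap (K := K) (n : 𝓞 K)

theorem unram_of_not_dvd_discr (v : HeightOneSpectrum (𝓞 K)) {p : ℕ} (hp : p.Prime)
    (hpd : ¬ (p : ℤ) ∣ NumberField.discr K) :
    v.valuation K (p : K) = 1 ∨ v.valuation K (p : K) = exp (-1) := by
  by_cases h1 : v.valuation K (p : K) = 1
  · exact Or.inl h1
  right
  have hlt : v.valuation K (p : K) < 1 := lt_of_le_of_ne (val_nat_le_one v p) h1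
  have hmem : (p : 𝓞 K) ∈ v.asIdeal := by
    rwa [nat_mem_iff]
  have hpr : Prime (p : ℤ) := Nat.prime_iff_prime_int.mp hp
  have hmemZ : ((p : ℤ) : 𝓞 K) ∈ v.asIdeal := by rwa [Int.cast_natCast]
  have hvp := v.isPrime
  have hun := (NumberField.not_dvd_discr_iff_forall_mem K (𝓞 K) hpr).mp hpd v.asIdeal hvp hmemZ
  have h3 : v.asIdeal.ramificationIdx ℤ = 1 := Ideal.ramificationIdx_eq_one v.asIdeal ℤ
  have hlies : v.asIdeal.LiesOver (Ideal.span {(p : ℤ)}) :=
    (Ideal.liesOver_span_iff hvp.ne_top hpr).mpr hmemZ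
  have hbot : Ideal.span {(p : ℤ)} ≠ ⊥ := by
    rw [Ne, Ideal.span_singleton_eq_bot]
    exact hpr.ne_zero
  rw [← Ideal.ramificationIdx'_eq_ramificationIdx (Ideal.span {(p : ℤ)}) v.asIdeal hbot] at h3
  have hmap : Ideal.map (algebraMap ℤ (𝓞 K)) (Ideal.span {(p : ℤ)}) =
      Ideal.span {(p : 𝓞 K)} := by
    rw [Ideal.map_span, Set.image_singleton]
    simp
  have hle : Ideal.map (algebraMap ℤ (𝓞 K)) (Ideal.span {(p : ℤ)}) ≤ v.asIdeal := by
    rw [hmap, Ideal.span_singleton_le_iff_mem]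
    exact hmem
  have h4 : ¬ Ideal.map (algebraMap ℤ (𝓞 K)) (Ideal.span {(p : ℤ)}) ≤ v.asIdeal ^ 2 := by
    intro h5
    exact (Ideal.ramificationIdx'_ne_one_iff hle).mpr h5 h3
  rw [hmap, Ideal.span_singleton_le_iff_mem, ← val_le_iff_mem] at h4
  have e : (((p : ℕ) : 𝓞 K) : K) = p := map_natCast _ p
  rw [e] at h4
  obtain ⟨k, hk⟩ := exists_exp v (Nat.cast_ne_zero.mpr hp.ne_zero : (p : K) ≠ 0)
  rw [hk] at h4 hlt ⊢
  rw [exp_le_exp] at h4
  rw [← exp_zero, exp_lt_exp] at hlt
  congr 1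
  push_cast at h4
  omega

theorem exists_prime_below (v : HeightOneSpectrum (𝓞 K)) :
    ∃ p : ℕ, p.Prime ∧ p ≤ Ideal.absNorm v.asIdeal ∧ v.valuation K (p : K) < 1 := by
  have h0 : Ideal.absNorm v.asIdeal ≠ 0 := by
    have := one_le_absNorm v
    omega
  have h1 : v.valuation K ((Ideal.absNorm v.asIdeal : ℕ) : K) < 1 := by
    have hmem : ((Ideal.absNorm v.asIdeal : ℕ) : 𝓞 K) ∈ v.asIdeal := Ideal.absNorm_mem _
    rwa [nat_mem_iff] at hmem
  obtain ⟨p, h2, h3, h4⟩ := val_prime_of_lt v h0 h1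
  exact ⟨p, h2, Nat.le_of_dvd (Nat.pos_of_ne_zero h0) h3, h4⟩

theorem szpiroOver_of_uniform {g : ℕ} (h : UniformSzpiro g) : SzpiroOver K g := by
  classical
  obtain ⟨c, κ, hs⟩ := h (Module.finrank ℚ K)
  set S0 := (NumberField.discr K).natAbs.primeFactors with hS0
  refine ⟨c * (∏ p ∈ S0, p) ^ κ, κ, ?_⟩
  intro F hF
  set B := (finite_bad hF).toFinset with hB
  have hBmem : ∀ v, v ∈ B ↔ minExp g F v ≠ 0 := fun v => by simp [hB]
  choose P hP1 hP2 hP3 using fun v : HeightOneSpectrum (𝓞 K) => exists_prime_below v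
  have hS0p : ∀ p ∈ S0, p.Prime := fun p hp => Nat.prime_of_mem_primeFactors hp
  have hSp : ∀ p ∈ S0 ∪ B.image P, p.Prime := by
    intro p hp
    rcases Finset.mem_union.mp hp with h | h
    · exact hS0p p h
    · obtain ⟨v, _, rfl⟩ := Finset.mem_image.mp h
      exact hP1 v
  have hunr : UnramOutside K (S0 ∪ B.image P) := by
    intro v hv p hp
    by_cases hpd : (p : ℤ) ∣ NumberField.discr K
    · left
      by_contra hne
      apply hv
      refine ⟨p, Finset.mem_union_left _ ?_, lt_of_le_of_ne (val_nat_le_one v p) hne⟩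
      rw [hS0, Nat.mem_primeFactors]
      refine ⟨hp, Int.natCast_dvd.mp hpd, ?_⟩
      rw [Ne, Int.natAbs_eq_zero]
      exact NumberField.discr_ne_zero K
    · exact unram_of_not_dvd_discr v hp hpd
  have hgood : ∀ v : HeightOneSpectrum (𝓞 K), ¬ Above (S0 ∪ B.image P) v → minExp g F v = 0 := by
    intro v hv
    by_contra hne
    apply hv
    exact ⟨P v, Finset.mem_union_right _ (Finset.mem_image_of_mem P ((hBmem v).mpr hne)), hP3 v⟩
  have h1 := hs K le_rfl _ hSp hunr F hF hgood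
  refine h1.trans ?_
  have h2 : ∏ p ∈ S0 ∪ B.image P, p ≤ (∏ p ∈ S0, p) * badNorm g F := by
    calc ∏ p ∈ S0 ∪ B.image P, p ≤ (∏ p ∈ S0, p) * ∏ p ∈ B.image P, p := by
          rw [← Finset.prod_union_inter]
          apply Nat.le_mul_of_pos_right
          apply Finset.prod_pos
          intro p hp
          exact (hS0p p (Finset.mem_inter.mp hp).1).pos
      _ ≤ _ := by
          refine Nat.mul_le_mul_left _ ?_
          rw [badNorm_eq B hBmem]
          calc ∏ p ∈ B.image P, p ≤ ∏ v ∈ B, P v := by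
                have hdv : ∏ p ∈ B.image P, p ∣ ∏ v ∈ B, P v := by
                  rw [Finset.prod_comp (fun p : ℕ => p) P]
                  apply Finset.prod_dvd_prod_of_dvd
                  intro p hp
                  apply dvd_pow_self
                  rw [Finset.card_ne_zero]
                  obtain ⟨v, hv, rfl⟩ := Finset.mem_image.mp hp
                  exact ⟨v, Finset.mem_filter.mpr ⟨hv, rfl⟩⟩
                exact Nat.le_of_dvd (Finset.prod_pos fun v _ => (hP1 v).pos) hdv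
            _ ≤ _ := Finset.prod_le_prod' fun v _ => hP2 v
  calc c * (∏ p ∈ S0 ∪ B.image P, p) ^ κ ≤ c * ((∏ p ∈ S0, p) * badNorm g F) ^ κ :=
        Nat.mul_le_mul_left _ (Nat.pow_le_pow_left h2 _)
    _ = _ := by rw [mul_pow]; ring

theorem prod_norm_nat_eq {n : ℕ} (hn : n ≠ 0) (T : Finset (HeightOneSpectrum (𝓞 K)))
    (hT : ∀ v, ordAbs v (n : K) ≠ 0 → v ∈ T) :
    ∏ v ∈ T, Ideal.absNorm v.asIdeal ^ ordAbs v (n : K) = n ^ Module.finrank ℚ K := by
  classical
  have hnO : ((n : ℕ) : 𝓞 K) ≠ 0 := Nat.cast_ne_zero.mpr hn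
  have hI : Ideal.span {((n : ℕ) : 𝓞 K)} ≠ 0 := by
    rw [Ne, Ideal.zero_eq_bot, Ideal.span_singleton_eq_bot]
    exact hnO
  have hmax : ∀ v : HeightOneSpectrum (𝓞 K),
      v.maxPowDividing (Ideal.span {((n : ℕ) : 𝓞 K)}) = v.asIdeal ^ ordAbs v (n : K) := by
    intro v
    have h1 := v.intValuation_if_neg hnO
    rw [← val_nat_eq_int] at h1
    unfold HeightOneSpectrum.maxPowDividing
    rw [ordAbs_of_exp h1, Int.natAbs_neg, Int.natAbs_natCast]
  have h2 := Ideal.finprod_heightOneSpectrum_factorization hI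
  simp only [hmax] at h2
  have h3 : ∏ᶠ v : HeightOneSpectrum (𝓞 K), v.asIdeal ^ ordAbs v (n : K) =
      ∏ v ∈ T, v.asIdeal ^ ordAbs v (n : K) := by
    apply finprod_eq_prod_of_mulSupport_subset
    intro v hv
    rw [Function.mem_mulSupport] at hv
    apply hT
    intro h0
    rw [h0, pow_zero] at hv
    exact hv rfl
  rw [h3] at h2
  have h4 := congrArg Ideal.absNorm h2
  rw [map_prod, Ideal.absNorm_span_natCast, RingOfIntegers.rank] at h4
  simpa only [map_pow] using h4

end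

/-- The classical weak `abc` conjecture over `ℤ`. -/
def WeakABC : Prop :=
  ∃ c κ : ℕ, ∀ a b : ℕ, 0 < a → 0 < b → a.Coprime b →
    a + b ≤ c * (∏ p ∈ (a * b * (a + b)).primeFactors, p) ^ κ

theorem weakABC_of_abcOver (h : ABCOver ℚ) : WeakABC := by
  classical
  obtain ⟨c, κ, habc⟩ := h
  refine ⟨c, κ, fun a b ha hb hab => ?_⟩
  set s := a + b with hs
  set x : ℚ := (a : ℚ) / (s : ℚ) with hx
  have ha0 : (a : ℚ) ≠ 0 := Nat.cast_ne_zero.mpr ha.ne'
  have hb0 : (b : ℚ) ≠ 0 := Nat.cast_ne_zero.mpr hb.ne'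
  have hs0' : s ≠ 0 := by omega
  have hs0 : (s : ℚ) ≠ 0 := Nat.cast_ne_zero.mpr hs0'
  have hsum : (s : ℚ) = a + b := by rw [hs]; push_cast; ring
  have h1x : 1 - x = (b : ℚ) / (s : ℚ) := by
    rw [hx, eq_div_iff hs0, sub_mul, div_mul_cancel₀ _ hs0, hsum]
    ring
  have hx0 : x ≠ 0 := div_ne_zero ha0 hs0
  have hx1 : x ≠ 1 := by
    intro h
    rw [h, sub_self] at h1x
    exact div_ne_zero hb0 hs0 h1x.symm
  have hcop : a.Coprime s := by
    rw [hs]
    exact Nat.coprime_self_add_right.mpr hab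
  -- lower bound
  have hlow : s ≤ phi x := by
    set T := (finite_phi hx0 hx1).toFinset ∪ (finite_ord (K := ℚ) hs0).toFinset with hT
    rw [phi_eq T (fun v hv => by
      rw [hT, Finset.mem_union]; left; simpa using hv)]
    calc s = s ^ Module.finrank ℚ ℚ := by rw [Module.finrank_self, pow_one]
      _ = ∏ v ∈ T, Ideal.absNorm v.asIdeal ^ ordAbs v (s : ℚ) := by
          rw [prod_norm_nat_eq hs0' T (fun v hv => by
            rw [hT, Finset.mem_union]; right; simpa using hv)]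
      _ ≤ _ := by
          apply Finset.prod_le_prod' fun v _ => ?_
          apply Nat.pow_le_pow_right (one_le_absNorm v)
          have hva := val_nat_exp v ha.ne'
          have hvs := val_nat_exp v hs0'
          have hvx : v.valuation ℚ x = exp (-(ordAbs v (a : ℚ) : ℤ) - -(ordAbs v (s : ℚ) : ℤ)) := by
            rw [hx, map_div₀, hva, hvs, exp_sub]
          rw [ordAbs_of_exp hvx]
          -- coprimality
          have hor : ordAbs v (a : ℚ) = 0 ∨ ordAbs v (s : ℚ) = 0 := by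
            by_contra hcon
            push Not at hcon
            have h1 : v.valuation ℚ (a : ℚ) < 1 :=
              lt_of_le_of_ne (val_nat_le_one v a) fun h => hcon.1 ((ordAbs_eq_zero_iff ha0).mpr h)
            have h2 : v.valuation ℚ (s : ℚ) < 1 :=
              lt_of_le_of_ne (val_nat_le_one v s) fun h => hcon.2 ((ordAbs_eq_zero_iff hs0).mpr h)
            have h3 : (a : 𝓞 ℚ) ∈ v.asIdeal := by
              rwa [nat_mem_iff]
            have h4 : (s : 𝓞 ℚ) ∈ v.asIdeal := by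
              rwa [nat_mem_iff]
            apply v.isPrime.ne_top
            rw [Ideal.eq_top_iff_one]
            have h5 := Nat.isCoprime_iff_coprime.mpr hcop
            obtain ⟨m, n, hmn⟩ := h5
            have h6 : ((m : 𝓞 ℚ) * (a : 𝓞 ℚ) + (n : 𝓞 ℚ) * (s : 𝓞 ℚ)) = 1 := by
              exact_mod_cast congrArg (fun z : ℤ => (z : 𝓞 ℚ)) hmn
            rw [← h6]
            exact v.asIdeal.add_mem (v.asIdeal.mul_mem_left _ h3) (v.asIdeal.mul_mem_left _ h4)
          omega
  -- upper bound for the radical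
  have habs0 : a * b * s ≠ 0 := mul_ne_zero (mul_ne_zero ha.ne' hb.ne') hs0'
  set S := (a * b * s).primeFactors with hS
  have hSp : ∀ p ∈ S, p.Prime := fun p hp => Nat.prime_of_mem_primeFactors hp
  have hdvd : ∀ (v : HeightOneSpectrum (𝓞 ℚ)) (m : ℕ), m ≠ 0 → m ∣ a * b * s →
      v.valuation ℚ (m : ℚ) ≠ 1 → Above S v := by
    intro v m hm hmd hne
    obtain ⟨p, h1, h2, h3⟩ := val_prime_of_lt v hm (lt_of_le_of_ne (val_nat_le_one v m) hne)
    exact ⟨p, Nat.mem_primeFactors.mpr ⟨h1, h2.trans hmd, habs0⟩, h3⟩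
  have hrad : radK x ≤ ∏ p ∈ S, p := by
    rw [radK_eq (finite_phi hx0 hx1).toFinset (fun v => by simp)]
    have h1 := prod_above_le (K := ℚ) hSp (finite_phi hx0 hx1).toFinset (by
      intro v hv
      rw [Set.Finite.mem_toFinset, Set.mem_ofPred_eq, h1x] at hv
      by_contra hcon
      have va : v.valuation ℚ (a : ℚ) = 1 := by
        by_contra h
        exact hcon (hdvd v a ha.ne' (Dvd.intro _ (by ring : a * (b * s) = a * b * s)) h)
      have vb : v.valuation ℚ (b : ℚ) = 1 := by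
        by_contra h
        exact hcon (hdvd v b hb.ne' (Dvd.intro _ (by ring : b * (a * s) = a * b * s)) h)
      have vs : v.valuation ℚ (s : ℚ) = 1 := by
        by_contra h
        exact hcon (hdvd v s hs0' (Dvd.intro_left _ rfl) h)
      rcases hv with h | h
      · apply h
        rw [ordAbs_eq_zero_iff hx0, hx, map_div₀, va, vs, div_one]
      · apply h
        rw [ordAbs_eq_zero_iff (div_ne_zero hb0 hs0), map_div₀, vb, vs, div_one])
    rwa [Module.finrank_self, pow_one] at h1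
  calc s ≤ phi x := hlow
    _ ≤ c * radK x ^ κ := habc x hx0 hx1
    _ ≤ _ := Nat.mul_le_mul_left _ (Nat.pow_le_pow_left hrad _)

end Pool.Agent.TH919.HS
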