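import Pool.Agent.TH919.HS.EllDefs
import Pool.Agent.TH919.HS.Ram

namespace Pool.Agent.TH919.HS

open Polynomial Finset NumberField IsDedekindDomain WithZero Pool.Agent.W318

section

variable {K : Type} [Field K] [NumberField K]

theorem IntAt.lift {v : HeightOneSpectrum (𝓞 K)} {W : WeierstrassCurve K} (h : IntAt v W) :
    ∃ W0 : WeierstrassCurve (v.valuation K).integer,
      W0.map (Subring.subtype (v.valuation K).integer) = W := by
  obtain ⟨h1, h2, h3, h4, h6⟩ := h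
  exact ⟨⟨⟨W.a₁, h1⟩, ⟨W.a₂, h2⟩, ⟨W.a₃, h3⟩, ⟨W.a₄, h4⟩, ⟨W.a₆, h6⟩⟩, rfl⟩

theorem IntAt.c4 {v : HeightOneSpectrum (𝓞 K)} {W : WeierstrassCurve K} (h : IntAt v W) :
    v.valuation K W.c₄ ≤ 1 := by
  obtain ⟨W0, hW⟩ := h.lift
  rw [← hW, WeierstrassCurve.map_c₄]
  exact W0.c₄.2

theorem IntAt.disc {v : HeightOneSpectrum (𝓞 K)} {W : WeierstrassCurve K} (h : IntAt v W) :
    v.valuation K W.Δ ≤ 1 := by
  obtain ⟨W0, hW⟩ := h.lift
  rw [← hW, WeierstrassCurve.map_Δ]
  exact W0.Δ.2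

/-- The positive part of the exponent of `z` at `v`, that is `max(0, -v(z))`. -/
noncomputable def nj (v : HeightOneSpectrum (𝓞 K)) (z : K) : ℕ :=
  (WithZero.log (v.valuation K z)).toNat

theorem nj_of_exp {v : HeightOneSpectrum (𝓞 K)} {z : K} {k : ℤ} (h : v.valuation K z = exp k) :
    nj v z = k.toNat := by
  rw [nj, h, log_exp]

/-- The change of variables to the model `y² = x³ - 27 c₄ u⁻⁴ x - 54 c₆ u⁻⁶`. -/
noncomputable def scaleC (W : WeierstrassCurve K) (u : Kˣ) : WeierstrassCurve.VariableChange K :=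
  ⟨u * (Units.mk0 (6 : K) (by norm_num))⁻¹, -W.b₂ / 12, -W.a₁ / 2, -W.a₃ / 2 + W.a₁ * W.b₂ / 24⟩

theorem scaleC_a₁ (W : WeierstrassCurve K) (u : Kˣ) : (scaleC W u • W).a₁ = 0 := by
  rw [WeierstrassCurve.variableChange_a₁, scaleC]
  simp only
  ring

theorem scaleC_a₂ (W : WeierstrassCurve K) (u : Kˣ) : (scaleC W u • W).a₂ = 0 := by
  rw [WeierstrassCurve.variableChange_a₂, scaleC]
  simp only [WeierstrassCurve.b₂]
  ring

theorem scaleC_a₃ (W : WeierstrassCurve K) (u : Kˣ) : (scaleC W u • W).a₃ = 0 := by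
  rw [WeierstrassCurve.variableChange_a₃, scaleC]
  simp only [WeierstrassCurve.b₂]
  ring

theorem scaleC_u (W : WeierstrassCurve K) (u : Kˣ) :
    (((scaleC W u).u⁻¹ : Kˣ) : K) = 6 * (u : K)⁻¹ := by
  rw [scaleC]
  simp

theorem scaleC_a₄ (W : WeierstrassCurve K) (u : Kˣ) :
    (scaleC W u • W).a₄ = -27 * W.c₄ * (u : K)⁻¹ ^ 4 := by
  rw [WeierstrassCurve.variableChange_a₄, scaleC_u, scaleC]
  simp only [WeierstrassCurve.c₄, WeierstrassCurve.b₂, WeierstrassCurve.b₄]
  ring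

theorem scaleC_a₆ (W : WeierstrassCurve K) (u : Kˣ) :
    (scaleC W u • W).a₆ = -54 * W.c₆ * (u : K)⁻¹ ^ 6 := by
  rw [WeierstrassCurve.variableChange_a₆, scaleC_u, scaleC]
  simp only [WeierstrassCurve.c₆, WeierstrassCurve.b₂, WeierstrassCurve.b₄, WeierstrassCurve.b₆]
  ring

theorem scaleC_Δ (W : WeierstrassCurve K) (u : Kˣ) :
    (scaleC W u • W).Δ = (6 * (u : K)⁻¹) ^ 12 * W.Δ := by
  rw [WeierstrassCurve.variableChange_Δ, scaleC_u]

theorem val_int_le_one (v : HeightOneSpectrum (𝓞 K)) (n : ℤ) : v.valuation K (n : K) ≤ 1 := by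
  have e : algebraMap (𝓞 K) K (n : 𝓞 K) = n := map_intCast _ n
  rw [← e]
  exact v.valuation_le_one _

/-- An upper bound for the minimal discriminant in terms of the denominator of `j`. -/
theorem ell_upper (v : HeightOneSpectrum (𝓞 K)) {W : WeierstrassCurve K} (hΔ : W.Δ ≠ 0) :
    ∃ C : WeierstrassCurve.VariableChange K, IntAt v (C • W) ∧ ∃ m : ℕ,
      v.valuation K (C • W).Δ = exp (-(m : ℤ)) ∧
      m ≤ 12 * ordAbs v ((6 : ℕ) : K) + 10 + nj v (W.c₄ ^ 3 / W.Δ) := by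
  obtain ⟨D, hD⟩ := exists_exp v hΔ
  obtain ⟨ϖ, hϖ⟩ := v.valuation_exists_uniformizer K
  have hϖ0 : ϖ ≠ 0 := by
    rintro rfl
    rw [map_zero] at hϖ
    exact exp_ne_zero hϖ.symm
  have h6 := val_nat_exp v (n := 6) (by norm_num)
  set s := ordAbs v ((6 : ℕ) : K) with hs
  -- the key claim: a suitable `k`
  have key : ∃ k : ℤ, v.valuation K W.c₄ ≤ exp (-(4 * k)) ∧ v.valuation K W.c₆ ≤ exp (-(6 * k)) ∧
      -D - 12 * k ≤ 10 + (nj v (W.c₄ ^ 3 / W.Δ) : ℤ) := by
    have hrel := W.c_relation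
    have h1728 : v.valuation K (1728 : K) ≤ 1 := by
      have := val_int_le_one v 1728
      simpa using this
    have hc6 : ∀ B : ℤ, W.c₆ ≠ 0 → v.valuation K W.c₆ = exp (-B) → ∀ k : ℤ, k = B / 6 →
        v.valuation K W.c₄ ≤ exp (-(4 * (k + 1))) → -D - 12 * k ≤ 10 := by
      intro B hB0 hB k hk hc
      have hlt : v.valuation K (W.c₄ ^ 3) < v.valuation K (W.c₆ ^ 2) := by
        rw [map_pow, map_pow, hB, ← exp_nsmul]
        calc v.valuation K W.c₄ ^ 3 ≤ exp (-(4 * (k + 1))) ^ 3 := pow_le_pow_left₀ (zero_le) hc 3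
          _ = exp (3 • (-(4 * (k + 1)))) := (exp_nsmul _ _).symm
          _ < exp (2 • (-B)) := by
            rw [exp_lt_exp]
            simp only [nsmul_eq_mul]
            push_cast
            omega
      have h1 : v.valuation K (1728 * W.Δ) = v.valuation K (W.c₆ ^ 2) := by
        rw [hrel, Valuation.map_sub_eq_of_lt_right _ hlt]
      rw [map_mul, map_pow, hB, hD, ← exp_nsmul] at h1
      have h2 : exp (2 • (-B)) ≤ exp D := by
        rw [← h1]
        calc v.valuation K (1728 : K) * exp D ≤ 1 * exp D := by gcongr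
          _ = exp D := one_mul _
      rw [exp_le_exp] at h2
      simp only [nsmul_eq_mul] at h2
      push_cast at h2
      omega
    have hc4 : ∀ A : ℤ, W.c₄ ≠ 0 → v.valuation K W.c₄ = exp (-A) → ∀ k : ℤ, k = A / 4 →
        -D - 12 * k ≤ 10 + (nj v (W.c₄ ^ 3 / W.Δ) : ℤ) := by
      intro A hA0 hA k hk
      have h1 : v.valuation K (W.c₄ ^ 3 / W.Δ) = exp (3 * (-A) - D) := by
        rw [map_div₀, map_pow, hA, hD, ← exp_nsmul, ← exp_sub]
        simp
      rw [nj_of_exp h1]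
      have := Int.self_le_toNat (3 * (-A) - D)
      omega
    by_cases h4 : W.c₄ = 0
    · have h6' : W.c₆ ≠ 0 := by
        intro h6'
        rw [h4, h6'] at hrel
        apply hΔ
        have : (1728 : K) ≠ 0 := by norm_num
        have h7 : (1728 : K) * W.Δ = 0 := by rw [hrel]; ring
        exact (mul_eq_zero.mp h7).resolve_left this
      obtain ⟨b, hb⟩ := exists_exp v h6'
      have hb' : v.valuation K W.c₆ = exp (-(-b)) := by rw [hb, neg_neg]
      refine ⟨-b / 6, ?_, ?_, ?_⟩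
      · rw [h4, map_zero]; exact zero_le
      · rw [hb, exp_le_exp]; omega
      · have := hc6 (-b) h6' hb' _ rfl (by rw [h4, map_zero]; exact zero_le)
        omega
    · obtain ⟨a, ha⟩ := exists_exp v h4
      have ha' : v.valuation K W.c₄ = exp (-(-a)) := by rw [ha, neg_neg]
      by_cases h6' : W.c₆ = 0
      · refine ⟨-a / 4, ?_, ?_, ?_⟩
        · rw [ha, exp_le_exp]; omega
        · rw [h6', map_zero]; exact zero_le
        · exact hc4 (-a) h4 ha' _ rfl
      · obtain ⟨b, hb⟩ := exists_exp v h6'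
        have hb' : v.valuation K W.c₆ = exp (-(-b)) := by rw [hb, neg_neg]
        rcases le_or_gt (-a / 4) (-b / 6) with hab | hab
        · refine ⟨-a / 4, ?_, ?_, ?_⟩
          · rw [ha, exp_le_exp]; omega
          · rw [hb, exp_le_exp]; omega
          · exact hc4 (-a) h4 ha' _ rfl
        · refine ⟨-b / 6, ?_, ?_, ?_⟩
          · rw [ha, exp_le_exp]; omega
          · rw [hb, exp_le_exp]; omega
          · have := hc6 (-b) h6' hb' _ rfl (by rw [ha, exp_le_exp]; omega)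
            omega
  obtain ⟨k, hk4, hk6, hkD⟩ := key
  set u : Kˣ := Units.mk0 (ϖ ^ k) (zpow_ne_zero _ hϖ0) with hu
  have hvu : v.valuation K ((u : K)⁻¹) = exp k := by
    rw [hu, Units.val_mk0, map_inv₀, map_zpow₀, hϖ, ← exp_zsmul, ← exp_neg]
    congr 1
    simp
  have hΔ' : v.valuation K (scaleC W u • W).Δ = exp (-(12 * (s : ℤ) - D - 12 * k)) := by
    have e6 : v.valuation K (6 : K) = exp (-(s : ℤ)) := by
      have := h6
      rwa [Nat.cast_ofNat] at this
    rw [scaleC_Δ, map_mul, map_pow, map_mul, hvu, e6, hD, ← exp_add, ← exp_nsmul, ← exp_add]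
    congr 1
    simp only [nsmul_eq_mul]
    push_cast
    ring
  have hint : IntAt v (scaleC W u • W) := by
    refine ⟨by rw [scaleC_a₁]; simp, by rw [scaleC_a₂]; simp, by rw [scaleC_a₃]; simp, ?_, ?_⟩
    · have h27 : v.valuation K (-27 : K) ≤ 1 := by
        have := val_int_le_one v (-27)
        simpa using this
      rw [scaleC_a₄, map_mul, map_mul, map_pow, hvu]
      calc v.valuation K (-27 : K) * v.valuation K W.c₄ * exp k ^ 4
          ≤ 1 * exp (-(4 * k)) * exp k ^ 4 := by gcongr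
        _ = 1 := by
          rw [one_mul, ← exp_nsmul, ← exp_add, ← exp_zero]
          congr 1
          simp
    · have h54 : v.valuation K (-54 : K) ≤ 1 := by
        have := val_int_le_one v (-54)
        simpa using this
      rw [scaleC_a₆, map_mul, map_mul, map_pow, hvu]
      calc v.valuation K (-54 : K) * v.valuation K W.c₆ * exp k ^ 6
          ≤ 1 * exp (-(6 * k)) * exp k ^ 6 := by gcongr
        _ = 1 := by
          rw [one_mul, ← exp_nsmul, ← exp_add, ← exp_zero]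
          congr 1
          simp
  have hle := hint.disc
  rw [hΔ', ← exp_zero, exp_le_exp] at hle
  refine ⟨scaleC W u, hint, (12 * (s : ℤ) - D - 12 * k).toNat, ?_, ?_⟩
  · rw [hΔ', Int.toNat_of_nonneg (by omega)]
  · omega

theorem ellExp_mem (v : HeightOneSpectrum (𝓞 K)) {W : WeierstrassCurve K} (hΔ : W.Δ ≠ 0) :
    ∃ C : WeierstrassCurve.VariableChange K, IntAt v (C • W) ∧
      v.valuation K (C • W).Δ = exp (-((ellExp W v : ℕ) : ℤ)) := by
  obtain ⟨C, hC, m, hm, _⟩ := ell_upper v hΔ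
  exact Nat.sInf_mem (s := {m : ℕ | ∃ C : WeierstrassCurve.VariableChange K, IntAt v (C • W) ∧
    v.valuation K (C • W).Δ = exp (-(m : ℤ))}) ⟨m, C, hC, hm⟩

theorem ellExp_le (v : HeightOneSpectrum (𝓞 K)) {W : WeierstrassCurve K} (hΔ : W.Δ ≠ 0) :
    ellExp W v ≤ 12 * ordAbs v ((6 : ℕ) : K) + 10 + nj v (W.c₄ ^ 3 / W.Δ) := by
  obtain ⟨C, hC, m, hm, hle⟩ := ell_upper v hΔ
  have h1 : ellExp W v ≤ m := Nat.sInf_le (s := {m : ℕ | ∃ C : WeierstrassCurve.VariableChange K,
    IntAt v (C • W) ∧ v.valuation K (C • W).Δ = exp (-(m : ℤ))}) ⟨C, hC, hm⟩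
  exact h1.trans hle

theorem ellExp_eq_zero {v : HeightOneSpectrum (𝓞 K)} {W : WeierstrassCurve K} (h : IntAt v W)
    (hΔ : v.valuation K W.Δ = 1) : ellExp W v = 0 := by
  have : (0 : ℕ) ∈ {m : ℕ | ∃ C : WeierstrassCurve.VariableChange K, IntAt v (C • W) ∧
    v.valuation K (C • W).Δ = exp (-(m : ℤ))} := ⟨1, by rwa [one_smul], by rw [one_smul, hΔ]; simp⟩
  exact Nat.eq_zero_of_le_zero (Nat.sInf_le this)

/-- The valuation of the minimal discriminant is at least `-v(j)`. -/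
theorem le_ellExp (v : HeightOneSpectrum (𝓞 K)) {W : WeierstrassCurve K} (hΔ : W.Δ ≠ 0) :
    v.valuation K (W.c₄ ^ 3 / W.Δ) ≤ exp (ellExp W v : ℤ) := by
  obtain ⟨C, hC, hm⟩ := ellExp_mem v hΔ
  have h1 := hC.c4
  have hu : ((C.u⁻¹ : Kˣ) : K) ≠ 0 := Units.ne_zero _
  have hj : W.c₄ ^ 3 / W.Δ = (C • W).c₄ ^ 3 / (C • W).Δ := by
    rw [WeierstrassCurve.variableChange_c₄, WeierstrassCurve.variableChange_Δ]
    field_simp
  rw [hj, map_div₀, map_pow, hm, div_eq_mul_inv, ← exp_neg, neg_neg]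
  calc v.valuation K (C • W).c₄ ^ 3 * exp (ellExp W v : ℤ) ≤ 1 * exp (ellExp W v : ℤ) := by
        gcongr
        exact pow_le_one' h1 3
    _ = _ := one_mul _

theorem finite_ell {W : WeierstrassCurve K} (hΔ : W.Δ ≠ 0) :
    {v : HeightOneSpectrum (𝓞 K) | ellExp W v ≠ 0}.Finite := by
  classical
  have hfin : ∀ x : K, {v : HeightOneSpectrum (𝓞 K) | ¬ v.valuation K x ≤ 1}.Finite := by
    intro x
    rcases eq_or_ne x 0 with rfl | hx
    · simp
    · exact (finite_val_ne_one hx).subset fun v hv h => hv h.le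
  refine (((((hfin W.a₁).union (hfin W.a₂)).union (hfin W.a₃)).union (hfin W.a₄)).union
    (hfin W.a₆)).union (finite_val_ne_one hΔ) |>.subset ?_
  intro v hv
  by_contra hcon
  simp only [Set.mem_union, Set.mem_ofPred_eq, not_or, not_not] at hcon
  obtain ⟨⟨⟨⟨⟨h1, h2⟩, h3⟩, h4⟩, h6⟩, h7⟩ := hcon
  have hI : IntAt v W := ⟨h1, h2, h3, h4, h6⟩
  exact hv (ellExp_eq_zero hI h7)

theorem ellDisc_eq {W : WeierstrassCurve K} (S : Finset (HeightOneSpectrum (𝓞 K)))
    (hS : ∀ v, ellExp W v ≠ 0 → v ∈ S) :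
    ellDisc W = ∏ v ∈ S, Ideal.absNorm v.asIdeal ^ ellExp W v := by
  apply finprod_eq_prod_of_mulSupport_subset
  intro v hv
  rw [Function.mem_mulSupport] at hv
  apply hS
  intro h0
  rw [h0, pow_zero] at hv
  exact hv rfl

theorem ellBad_eq {W : WeierstrassCurve K} (S : Finset (HeightOneSpectrum (𝓞 K)))
    (hS : ∀ v, v ∈ S ↔ ellExp W v ≠ 0) :
    ellBad W = ∏ v ∈ S, Ideal.absNorm v.asIdeal := by
  unfold ellBad
  rw [finprod_eq_prod_of_mulSupport_subset (s := S)]
  · refine Finset.prod_congr rfl fun v hv => ?_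
    rw [if_neg ((hS v).mp hv)]
  · intro v hv
    rw [Function.mem_mulSupport] at hv
    rw [Finset.mem_coe, hS]
    intro h0
    rw [if_pos h0] at hv
    exact hv rfl

/-- The Legendre curve `y² = X (X - 1) (X - x)`. -/
def leg (x : K) : WeierstrassCurve K := ⟨0, -(1 + x), 0, x, 0⟩

omit [NumberField K] in
theorem leg_Δ (x : K) : (leg x).Δ = 16 * x ^ 2 * (1 - x) ^ 2 := by
  simp only [leg, WeierstrassCurve.Δ, WeierstrassCurve.b₂, WeierstrassCurve.b₄,
    WeierstrassCurve.b₆, WeierstrassCurve.b₈]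
  ring

omit [NumberField K] in
theorem leg_c₄ (x : K) : (leg x).c₄ = 16 * (x ^ 2 - x + 1) := by
  simp only [leg, WeierstrassCurve.c₄, WeierstrassCurve.b₂, WeierstrassCurve.b₄]
  ring

theorem leg_Δ_ne {x : K} (h0 : x ≠ 0) (h1 : x ≠ 1) : (leg x).Δ ≠ 0 := by
  rw [leg_Δ]
  have h1x : (1 : K) - x ≠ 0 := sub_ne_zero.mpr h1.symm
  exact mul_ne_zero (mul_ne_zero (by norm_num) (pow_ne_zero 2 h0)) (pow_ne_zero 2 h1x)

theorem leg_good {v : HeightOneSpectrum (𝓞 K)} {x : K} (h2 : v.valuation K ((2 : ℕ) : K) = 1)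
    (hx : v.valuation K x = 1) (hx1 : v.valuation K (1 - x) = 1) : ellExp (leg x) v = 0 := by
  have h1x : v.valuation K (1 + x) ≤ 1 := by
    refine (Valuation.map_add _ _ _).trans (max_le (by simp) hx.le)
  apply ellExp_eq_zero
  · refine ⟨by simp [leg], ?_, by simp [leg], by simp [leg, hx], by simp [leg]⟩
    change v.valuation K (-(1 + x)) ≤ 1
    rw [Valuation.map_neg]
    exact h1x
  · have h16 : (16 : K) = ((2 : ℕ) : K) ^ 4 := by norm_num
    rw [leg_Δ, map_mul, map_mul, map_pow, map_pow, hx, hx1, h16, map_pow, h2]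
    simp

theorem leg_lower (v : HeightOneSpectrum (𝓞 K)) {x : K} (h0 : x ≠ 0) (h1 : x ≠ 1) :
    ordAbs v x + ordAbs v (1 - x) ≤ ellExp (leg x) v + 8 * ordAbs v ((2 : ℕ) : K) := by
  have h1x : (1 : K) - x ≠ 0 := sub_ne_zero.mpr h1.symm
  obtain ⟨k, hk⟩ := exists_exp v h0
  obtain ⟨l, hl⟩ := exists_exp v h1x
  have hna := absW_na v
  have hAx := absW_exp v hk
  have hA1x := absW_exp v hl
  have hle := le_ellExp v (leg_Δ_ne h0 h1)
  rw [← absW_le_iff, leg_c₄, leg_Δ] at hle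
  have h2 := val_nat_exp v (n := 2) (by norm_num)
  set t := ordAbs v ((2 : ℕ) : K) with ht
  have hA2 : absW v (2 : K) = 2 ^ (-(t : ℤ)) := by
    have := absW_exp v h2
    rwa [Nat.cast_ofNat] at this
  set m := ellExp (leg x) v with hm
  have hj : (16 * (x ^ 2 - x + 1)) ^ 3 / (16 * x ^ 2 * (1 - x) ^ 2) =
      2 ^ 8 * (x ^ 2 - x + 1) ^ 3 / (x ^ 2 * (1 - x) ^ 2) := by
    field_simp
    ring
  rw [hj, map_div₀, map_mul, map_mul, map_pow, map_pow, map_pow, map_pow, hAx, hA1x, hA2] at hle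
  rw [ordAbs_of_exp hk, ordAbs_of_exp hl]
  have h2ne : (2 : ℝ) ≠ 0 := by norm_num
  rcases lt_trichotomy k 0 with hk0 | hk0 | hk0
  · have hlt : absW v x < absW v 1 := by
      rw [hAx, map_one]
      exact zpow_lt_one_of_neg₀ (by norm_num) hk0
    have h3 := na_sub_eq hna hlt
    rw [hA1x, map_one, ← zpow_zero (2 : ℝ), zpow_right_inj₀ (by norm_num) (by norm_num)] at h3
    have hq : absW v (x ^ 2 - x + 1) = 1 := by
      have e : x ^ 2 - x + 1 = 1 - x * (1 - x) := by ring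
      have hlt2 : absW v (x * (1 - x)) < absW v 1 := by
        rw [map_mul, hA1x, h3, zpow_zero, mul_one]; exact hlt
      rw [e, na_sub_eq hna hlt2, map_one]
    rw [hq, h3, one_pow, mul_one, zpow_zero, one_pow, mul_one, ← zpow_natCast, ← zpow_natCast,
      ← zpow_mul, ← zpow_mul, ← zpow_sub₀ h2ne, zpow_le_zpow_iff_right₀ (by norm_num)] at hle
    push_cast at hle
    omega
  · have hle1 : absW v (1 - x) ≤ 1 := by
      refine (na_sub_le hna _ _).trans (max_le (by rw [map_one]) ?_)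
      rw [hAx, hk0, zpow_zero]
    rw [hA1x, ← zpow_zero (2 : ℝ), zpow_le_zpow_iff_right₀ (by norm_num)] at hle1
    rcases hle1.lt_or_eq with h4 | h4
    · have hq : absW v (x ^ 2 - x + 1) = 1 := by
        have e : x ^ 2 - x + 1 = 1 - x * (1 - x) := by ring
        have hlt2 : absW v (x * (1 - x)) < absW v 1 := by
          rw [map_mul, hAx, hk0, zpow_zero, one_mul, hA1x, map_one]
          exact zpow_lt_one_of_neg₀ (by norm_num) h4
        rw [e, na_sub_eq hna hlt2, map_one]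
      rw [hq, hk0, one_pow, mul_one, zpow_zero, one_pow, one_mul, ← zpow_natCast, ← zpow_natCast,
        ← zpow_mul, ← zpow_mul, ← zpow_sub₀ h2ne, zpow_le_zpow_iff_right₀ (by norm_num)] at hle
      push_cast at hle
      omega
    · omega
  · have hlt : absW v 1 < absW v x := by
      rw [hAx, map_one]
      exact one_lt_zpow₀ (by norm_num) hk0
    have h3 := na_sub_eq hna hlt
    rw [map_sub_rev, hA1x, hAx, zpow_right_inj₀ (by norm_num) (by norm_num)] at h3
    have hq : absW v (x ^ 2 - x + 1) = 2 ^ (2 * k) := by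
      have e : x ^ 2 - x + 1 = -(x * (1 - x) - 1) := by ring
      have hlt2 : absW v 1 < absW v (x * (1 - x)) := by
        rw [map_mul, hA1x, h3, hAx, map_one, ← zpow_add₀ h2ne]
        exact one_lt_zpow₀ (by norm_num) (by omega)
      rw [e, map_neg_eq_map, na_sub_eq hna hlt2, map_mul, hA1x, h3, hAx, ← zpow_add₀ h2ne]
      congr 1
      ring
    rw [hq, h3, ← zpow_natCast, ← zpow_natCast, ← zpow_natCast, ← zpow_mul, ← zpow_mul, ← zpow_mul,
      ← zpow_add₀ h2ne, ← zpow_add₀ h2ne, ← zpow_sub₀ h2ne,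
      zpow_le_zpow_iff_right₀ (by norm_num)] at hle
    push_cast at hle
    omega

theorem phi_le_ell {x : K} (h0 : x ≠ 0) (h1 : x ≠ 1) :
    phi x ≤ ellDisc (leg x) * (2 ^ Module.finrank ℚ K) ^ 8 := by
  classical
  set T := (finite_phi h0 h1).toFinset ∪ (finite_ell (leg_Δ_ne h0 h1)).toFinset with hT
  rw [phi_eq T (fun v hv => by rw [hT, Finset.mem_union]; left; simpa using hv),
    ellDisc_eq T (fun v hv => by rw [hT, Finset.mem_union]; right; simpa using hv)]
  calc ∏ v ∈ T, Ideal.absNorm v.asIdeal ^ (ordAbs v x + ordAbs v (1 - x))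
      ≤ ∏ v ∈ T, (Ideal.absNorm v.asIdeal ^ ellExp (leg x) v *
          (Ideal.absNorm v.asIdeal ^ ordAbs v ((2 : ℕ) : K)) ^ 8) := by
        apply Finset.prod_le_prod' fun v _ => ?_
        rw [← pow_mul, ← pow_add]
        apply Nat.pow_le_pow_right (one_le_absNorm v)
        rw [mul_comm _ 8]
        exact leg_lower v h0 h1
    _ = (∏ v ∈ T, Ideal.absNorm v.asIdeal ^ ellExp (leg x) v) *
          (∏ v ∈ T, Ideal.absNorm v.asIdeal ^ ordAbs v ((2 : ℕ) : K)) ^ 8 := by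
        rw [Finset.prod_mul_distrib, Finset.prod_pow]
    _ ≤ _ := Nat.mul_le_mul_left _ (Nat.pow_le_pow_left (prod_norm_nat_le T (by norm_num)) _)

end

theorem abc_of_szpiroEll (h : UniformSzpiroEll) : UniformABC := by
  classical
  intro d
  obtain ⟨c, κ, hs⟩ := h d
  refine ⟨c * 2 ^ κ * (2 ^ d) ^ 8, κ, ?_⟩
  intro K _ _ hK S hS hunr x h0 h1 hunit
  have hSS' : S ⊆ insert 2 S := Finset.subset_insert _ _
  have hS' : ∀ p ∈ insert 2 S, p.Prime := by
    intro p hp
    rcases Finset.mem_insert.mp hp with rfl | h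
    · exact Nat.prime_two
    · exact hS p h
  have hle : ∏ p ∈ insert 2 S, p ≤ 2 * ∏ p ∈ S, p := by
    by_cases h2 : 2 ∈ S
    · rw [Finset.insert_eq_of_mem h2]; omega
    · rw [Finset.prod_insert h2]
  have h4 := hs K hK (insert 2 S) hS' (fun v hv => hunr v fun h => hv (above_mono hSS' h)) (leg x)
    (leg_Δ_ne h0 h1) (fun v hv => by
      have hv' : ¬ Above S v := fun h => hv (above_mono hSS' h)
      exact leg_good (val_two_of_not_above (Finset.mem_insert_self _ _) hv) (hunit v hv').1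
        (hunit v hv').2)
  calc phi x ≤ ellDisc (leg x) * (2 ^ Module.finrank ℚ K) ^ 8 := phi_le_ell h0 h1
    _ ≤ c * (2 * ∏ p ∈ S, p) ^ κ * (2 ^ d) ^ 8 := by
        refine Nat.mul_le_mul (h4.trans (Nat.mul_le_mul_left _ (Nat.pow_le_pow_left hle _)))
          (Nat.pow_le_pow_left (Nat.pow_le_pow_right (by norm_num) hK) _)
    _ = _ := by rw [mul_pow]; ring

end Pool.Agent.TH919.HS
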