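import Pool.Agent.TH919.HS.Ell

namespace Pool.Agent.TH919.HS

open Polynomial Finset NumberField IsDedekindDomain WithZero Pool.Agent.W318

section

variable {K L : Type} [Field K] [Field L] [Algebra K L]

/-- `e 0, e 1, e 2` are the `x`-coordinates of the `2`-torsion points of `W`. -/
structure TT (W : WeierstrassCurve K) (e : Fin 3 → L) : Prop where
  b2 : algebraMap K L W.b₂ = -4 * (e 0 + e 1 + e 2)
  b4 : algebraMap K L W.b₄ = 2 * (e 0 * e 1 + e 0 * e 2 + e 1 * e 2)
  b6 : algebraMap K L W.b₆ = -4 * (e 0 * e 1 * e 2)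

theorem exists_TT [CharZero K] {W : WeierstrassCurve K}
    (h : (W.twoTorsionPolynomial.toPoly.map (algebraMap K L)).Splits) :
    ∃ e : Fin 3 → L, TT W e := by
  have ha : W.twoTorsionPolynomial.a ≠ 0 := by
    simp [WeierstrassCurve.twoTorsionPolynomial]
  obtain ⟨x, y, z, h3⟩ := (Cubic.splits_iff_roots_eq_three ha).mp h
  have hb := Cubic.b_eq_three_roots ha h3
  have hc := Cubic.c_eq_three_roots ha h3
  have hd := Cubic.d_eq_three_roots ha h3
  simp only [WeierstrassCurve.twoTorsionPolynomial, map_ofNat, map_mul] at hb hc hd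
  have h2 : (2 : L) ≠ 0 := by
    have : CharZero L := charZero_of_injective_algebraMap (algebraMap K L).injective
    norm_num
  refine ⟨![x, y, z], ?_, ?_, ?_⟩
  · simp only [Matrix.cons_val_zero, Matrix.cons_val_one, Matrix.cons_val]
    linear_combination hb
  · simp only [Matrix.cons_val_zero, Matrix.cons_val_one, Matrix.cons_val]
    apply mul_left_cancel₀ h2
    linear_combination hc
  · simp only [Matrix.cons_val_zero, Matrix.cons_val_one, Matrix.cons_val]
    linear_combination hd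

variable {W : WeierstrassCurve K} {e : Fin 3 → L}

theorem TT.root (h : TT W e) (i : Fin 3) : 4 * e i ^ 3 + algebraMap K L W.b₂ * e i ^ 2 +
    2 * algebraMap K L W.b₄ * e i + algebraMap K L W.b₆ = 0 := by
  rw [h.b2, h.b4, h.b6]
  fin_cases i
  · simp only [Fin.zero_eta]; ring
  · simp only [Fin.mk_one]; ring
  · simp only [Fin.reduceFinMk]; ring

theorem TT.eq_of_root [CharZero L] (h : TT W e) {z : L}
    (hz : 4 * z ^ 3 + algebraMap K L W.b₂ * z ^ 2 +
      2 * algebraMap K L W.b₄ * z + algebraMap K L W.b₆ = 0) : ∃ i, z = e i := by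
  have h1 : (z - e 0) * ((z - e 1) * (z - e 2)) = 0 := by
    have h4 : (4 : L) ≠ 0 := by norm_num
    apply mul_left_cancel₀ h4
    rw [h.b2, h.b4, h.b6] at hz
    linear_combination hz
  rcases mul_eq_zero.mp h1 with h2 | h2
  · exact ⟨0, sub_eq_zero.mp h2⟩
  · rcases mul_eq_zero.mp h2 with h3 | h3
    · exact ⟨1, sub_eq_zero.mp h3⟩
    · exact ⟨2, sub_eq_zero.mp h3⟩

theorem TT.disc [CharZero L] (h : TT W e) :
    algebraMap K L W.Δ = 16 * ((e 0 - e 1) * (e 0 - e 2) * (e 1 - e 2)) ^ 2 := by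
  have hb8 := congrArg (algebraMap K L) W.b_relation
  simp only [map_mul, map_sub, map_pow, map_ofNat] at hb8
  have h4 : (4 : L) ≠ 0 := by norm_num
  apply mul_left_cancel₀ h4
  rw [h.b2, h.b4, h.b6] at hb8
  simp only [WeierstrassCurve.Δ, map_add, map_mul, map_sub, map_neg, map_pow, map_ofNat]
  rw [h.b2, h.b4, h.b6]
  linear_combination -(-4 * (e 0 + e 1 + e 2)) ^ 2 * hb8

theorem TT.c4 (h : TT W e) : algebraMap K L W.c₄ =
    16 * ((e 0 + e 1 + e 2) ^ 2 - 3 * (e 0 * e 1 + e 0 * e 2 + e 1 * e 2)) := by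
  simp only [WeierstrassCurve.c₄, map_mul, map_sub, map_pow, map_ofNat]
  rw [h.b2, h.b4]
  ring

theorem TT.change (h : TT W e) (C : WeierstrassCurve.VariableChange K) :
    TT (C • W) (fun i => (e i - algebraMap K L C.r) *
      (algebraMap K L ((C.u⁻¹ : Kˣ) : K)) ^ 2) := by
  refine ⟨?_, ?_, ?_⟩
  · rw [WeierstrassCurve.variableChange_b₂]
    simp only [map_mul, map_add, map_pow, map_ofNat]
    rw [h.b2]
    ring
  · rw [WeierstrassCurve.variableChange_b₄]
    simp only [map_mul, map_add, map_pow, map_ofNat]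
    rw [h.b2, h.b4]
    ring
  · rw [WeierstrassCurve.variableChange_b₆]
    simp only [map_mul, map_add, map_pow, map_ofNat]
    rw [h.b2, h.b4, h.b6]
    ring

theorem TT.ne [CharZero L] (h : TT W e) (hΔ : W.Δ ≠ 0) {i j : Fin 3} (hij : i ≠ j) :
    e i ≠ e j := by
  intro heq
  have hd := h.disc
  have hz : (e 0 - e 1) * (e 0 - e 2) * (e 1 - e 2) = 0 := by
    fin_cases i <;> fin_cases j <;>
      first | exact absurd rfl hij | skip
    · simp only [Fin.zero_eta, Fin.mk_one] at heq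
      rw [heq]; ring
    · simp only [Fin.zero_eta, Fin.reduceFinMk] at heq
      rw [heq]; ring
    · simp only [Fin.zero_eta, Fin.mk_one] at heq
      rw [heq]; ring
    · simp only [Fin.mk_one, Fin.reduceFinMk] at heq
      rw [heq]; ring
    · simp only [Fin.zero_eta, Fin.reduceFinMk] at heq
      rw [heq]; ring
    · simp only [Fin.mk_one, Fin.reduceFinMk] at heq
      rw [heq]; ring
  rw [hz] at hd
  apply hΔ
  rw [← map_eq_zero (algebraMap K L), hd]
  ring

/-- The Legendre parameter. -/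
noncomputable def lam (e : Fin 3 → L) : L := (e 2 - e 0) / (e 1 - e 0)

theorem one_sub_lam {e : Fin 3 → L} (h : e 1 - e 0 ≠ 0) :
    1 - lam e = (e 1 - e 2) / (e 1 - e 0) := by
  unfold lam
  field_simp
  ring

theorem TT.j [CharZero L] (h : TT W e) (hΔ : W.Δ ≠ 0) :
    algebraMap K L (W.c₄ ^ 3 / W.Δ) =
      256 * (lam e ^ 2 - lam e + 1) ^ 3 / (lam e ^ 2 * (1 - lam e) ^ 2) := by
  have h01 : e 1 - e 0 ≠ 0 := sub_ne_zero.mpr (h.ne hΔ (by decide))
  have h02 : e 2 - e 0 ≠ 0 := sub_ne_zero.mpr (h.ne hΔ (by decide))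
  have h12 : e 1 - e 2 ≠ 0 := sub_ne_zero.mpr (h.ne hΔ (by decide))
  rw [one_sub_lam h01, map_div₀, map_pow, h.c4, h.disc]
  unfold lam
  have e1 : (e 0 - e 1) * (e 0 - e 2) * (e 1 - e 2) =
      (e 1 - e 0) * (e 2 - e 0) * (e 1 - e 2) := by ring
  rw [e1]
  field_simp
  ring

end

section

variable {L : Type} [Field L] [NumberField L]

theorem val_j_le (w : HeightOneSpectrum (𝓞 L)) {x : L} (h0 : x ≠ 0) (h1 : x ≠ 1) :
    absW w (256 * (x ^ 2 - x + 1) ^ 3 / (x ^ 2 * (1 - x) ^ 2)) ≤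
      2 ^ (((2 * (ordAbs w x + ordAbs w (1 - x)) : ℕ)) : ℤ) := by
  have h1x : (1 : L) - x ≠ 0 := sub_ne_zero.mpr h1.symm
  obtain ⟨k, hk⟩ := exists_exp w h0
  obtain ⟨l, hl⟩ := exists_exp w h1x
  have hna := absW_na w
  have hAx := absW_exp w hk
  have hA1x := absW_exp w hl
  have h256 : absW w (256 : L) ≤ 1 := by
    have := val_int_le_one w 256
    rw [absW_le_one_iff]
    simpa using this
  rw [ordAbs_of_exp hk, ordAbs_of_exp hl, map_div₀, map_mul, map_mul, map_pow, map_pow, map_pow,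
    hAx, hA1x]
  have h2ne : (2 : ℝ) ≠ 0 := by norm_num
  have hden : (0 : ℝ) < (2 ^ k) ^ 2 * (2 ^ l) ^ 2 := by positivity
  have e3 : ((2 : ℝ) ^ k) ^ 2 * ((2 : ℝ) ^ l) ^ 2 = 2 ^ (2 * k + 2 * l) := by
    rw [← zpow_natCast, ← zpow_natCast, ← zpow_mul, ← zpow_mul, ← zpow_add₀ h2ne]
    congr 1
    push_cast
    ring
  rw [div_le_iff₀ hden, e3, ← zpow_add₀ h2ne]
  have hq0 : 0 ≤ absW w (x ^ 2 - x + 1) ^ 3 := pow_nonneg ((absW w).nonneg _) _
  refine (mul_le_of_le_one_left hq0 h256).trans ?_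
  rcases le_or_gt k 0 with hk0 | hk0
  · have hx1 : absW w x ≤ 1 := by
      rw [hAx]; exact zpow_le_one_of_nonpos₀ (by norm_num) hk0
    have hq : absW w (x ^ 2 - x + 1) ≤ 1 := by
      refine (hna _ _).trans (max_le ((na_sub_le hna _ _).trans (max_le ?_ hx1)) (by rw [map_one]))
      rw [map_pow]
      exact pow_le_one₀ ((absW w).nonneg _) hx1
    have h1x1 : absW w (1 - x) ≤ 1 :=
      (na_sub_le hna _ _).trans (max_le (by rw [map_one]) hx1)
    rw [hA1x, ← zpow_zero (2 : ℝ), zpow_le_zpow_iff_right₀ (by norm_num)] at h1x1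
    refine (pow_le_one₀ ((absW w).nonneg _) hq).trans ?_
    rw [← zpow_zero (2 : ℝ)]
    apply zpow_le_zpow_right₀ (by norm_num)
    simp only [Nat.cast_mul, Nat.cast_add, Nat.cast_ofNat]
    omega
  · have hlt : absW w 1 < absW w x := by
      rw [hAx, map_one]
      exact one_lt_zpow₀ (by norm_num) hk0
    have h3 := na_sub_eq hna hlt
    rw [map_sub_rev, hA1x, hAx, zpow_right_inj₀ (by norm_num) (by norm_num)] at h3
    have hx1 : 1 ≤ absW w x := by rw [map_one] at hlt; exact hlt.le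
    have hq : absW w (x ^ 2 - x + 1) ≤ 2 ^ (2 * k) := by
      have e2 : absW w x ^ 2 = 2 ^ (2 * k) := by
        rw [hAx, ← zpow_natCast, ← zpow_mul]
        congr 1
        ring
      refine (hna _ _).trans (max_le ((na_sub_le hna _ _).trans (max_le ?_ ?_)) ?_)
      · rw [map_pow, e2]
      · rw [← e2]; nlinarith
      · rw [map_one, ← e2]; nlinarith
    calc absW w (x ^ 2 - x + 1) ^ 3 ≤ (2 ^ (2 * k)) ^ 3 := pow_le_pow_left₀ ((absW w).nonneg _) hq 3
      _ = 2 ^ (6 * k) := by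
        rw [← zpow_natCast, ← zpow_mul]
        congr 1
        ring
      _ ≤ _ := by
        apply zpow_le_zpow_right₀ (by norm_num)
        simp only [Nat.cast_mul, Nat.cast_add, Nat.cast_ofNat]
        omega

end

section

variable {K L : Type} [Field K] [NumberField K] [Field L] [NumberField L] [Algebra K L]
  {W : WeierstrassCurve K} {e : Fin 3 → L}

theorem IntAt.b {v : HeightOneSpectrum (𝓞 K)} {W : WeierstrassCurve K} (h : IntAt v W) :
    v.valuation K W.b₂ ≤ 1 ∧ v.valuation K W.b₄ ≤ 1 ∧ v.valuation K W.b₆ ≤ 1 := by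
  obtain ⟨W0, hW⟩ := h.lift
  rw [← hW, WeierstrassCurve.map_b₂, WeierstrassCurve.map_b₄, WeierstrassCurve.map_b₆]
  exact ⟨W0.b₂.2, W0.b₄.2, W0.b₆.2⟩

/-- The `2`-torsion at a place of good reduction. -/
theorem TT.far (h : TT W e) (v : HeightOneSpectrum (𝓞 K)) (w : HeightOneSpectrum (𝓞 L))
    [w.asIdeal.LiesOver v.asIdeal] (h2 : v.valuation K ((2 : ℕ) : K) = 1) (hW : IntAt v W)
    (hΔ : v.valuation K W.Δ = 1) :
    (∀ i, absW w (e i) ≤ 1) ∧ ∀ i j, i ≠ j → absW w (e i - e j) = 1 := by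
  have hna := absW_na w
  have hc := compat_of_liesOver v w
  have hA2 : absW w (2 : L) = 1 := by
    have := (Compat.eq_one_iff hc ((2 : ℕ) : K)).mpr h2
    rwa [map_natCast, Nat.cast_ofNat] at this
  have hA4 : absW w (4 : L) = 1 := by
    have : (4 : L) = 2 * 2 := by norm_num
    rw [this, map_mul, hA2, mul_one]
  have hA16 : absW w (16 : L) = 1 := by
    have : (16 : L) = 4 * 4 := by norm_num
    rw [this, map_mul, hA4, mul_one]
  obtain ⟨hb2, hb4, hb6⟩ := hW.b
  rw [← hc.le_one_iff] at hb2 hb4 hb6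
  have hle : ∀ i, absW w (e i) ≤ 1 := by
    intro i
    by_contra hcon
    push Not at hcon
    have hr := h.root i
    have hlt : absW w (algebraMap K L W.b₂ * e i ^ 2 + 2 * algebraMap K L W.b₄ * e i +
        algebraMap K L W.b₆) ≤ absW w (e i) ^ 2 := by
      have h1 : 1 ≤ absW w (e i) ^ 2 := one_le_pow₀ hcon.le
      refine (hna _ _).trans (max_le ((hna _ _).trans (max_le ?_ ?_)) ?_)
      · rw [map_mul, map_pow]
        exact mul_le_of_le_one_left (by positivity) hb2
      · rw [map_mul, map_mul, hA2, one_mul]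
        calc _ ≤ 1 * absW w (e i) := mul_le_mul_of_nonneg_right hb4 ((absW w).nonneg _)
          _ ≤ _ := by nlinarith
      · exact hb6.trans h1
    have heq : 4 * e i ^ 3 = -(algebraMap K L W.b₂ * e i ^ 2 + 2 * algebraMap K L W.b₄ * e i +
        algebraMap K L W.b₆) := by linear_combination hr
    have h3 := congrArg (absW w) heq
    rw [map_mul, hA4, one_mul, map_pow, map_neg_eq_map] at h3
    rw [← h3] at hlt
    have : absW w (e i) ^ 3 = absW w (e i) ^ 2 * absW w (e i) := by ring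
    rw [this] at hlt
    have hpos : 0 < absW w (e i) ^ 2 := by positivity
    nlinarith
  refine ⟨hle, ?_⟩
  have hd : ∀ i j, absW w (e i - e j) ≤ 1 := fun i j =>
    (na_sub_le hna _ _).trans (max_le (hle i) (hle j))
  have hdisc := congrArg (absW w) h.disc
  rw [(Compat.eq_one_iff hc W.Δ).mpr hΔ, map_mul, hA16, one_mul, map_pow, map_mul, map_mul] at hdisc
  have hprod : absW w (e 0 - e 1) * absW w (e 0 - e 2) * absW w (e 1 - e 2) = 1 :=
    (pow_eq_one_iff_of_nonneg (by positivity) (by norm_num)).mp hdisc.symm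
  have n01 := (absW w).nonneg (e 0 - e 1)
  have n02 := (absW w).nonneg (e 0 - e 2)
  have n12 := (absW w).nonneg (e 1 - e 2)
  have l01 := hd 0 1
  have l02 := hd 0 2
  have l12 := hd 1 2
  have p01 : absW w (e 0 - e 1) = 1 := by
    apply le_antisymm l01
    calc 1 = absW w (e 0 - e 1) * (absW w (e 0 - e 2) * absW w (e 1 - e 2)) := by
          rw [← mul_assoc]; exact hprod.symm
      _ ≤ absW w (e 0 - e 1) := mul_le_of_le_one_right n01 (mul_le_one₀ l02 n12 l12)
  have p02 : absW w (e 0 - e 2) = 1 := by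
    apply le_antisymm l02
    calc 1 = absW w (e 0 - e 2) * (absW w (e 0 - e 1) * absW w (e 1 - e 2)) := by
          rw [← hprod]; ring
      _ ≤ absW w (e 0 - e 2) := mul_le_of_le_one_right n02 (mul_le_one₀ l01 n12 l12)
  have p12 : absW w (e 1 - e 2) = 1 := by
    rw [p01, p02] at hprod
    simpa using hprod
  intro i j hij
  fin_cases i <;> fin_cases j <;> first | exact absurd rfl hij | skip
  · exact p01
  · exact p02
  · exact (map_sub_rev _ _ _).trans p01
  · exact p12
  · exact (map_sub_rev _ _ _).trans p02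
  · exact (map_sub_rev _ _ _).trans p12

theorem TT.exists_far (h : TT W e) (hΔ : W.Δ ≠ 0) (v : HeightOneSpectrum (𝓞 K))
    (w : HeightOneSpectrum (𝓞 L)) [w.asIdeal.LiesOver v.asIdeal]
    (h2 : v.valuation K ((2 : ℕ) : K) = 1) (hgood : ellExp W v = 0) :
    ∃ (r : K) (s : K), s ≠ 0 ∧
      (∀ i, absW w ((e i - algebraMap K L r) * algebraMap K L s) ≤ 1) ∧
      ∀ i j, i ≠ j → absW w ((e i - algebraMap K L r) * algebraMap K L s -
        (e j - algebraMap K L r) * algebraMap K L s) = 1 := by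
  obtain ⟨C, hC, hm⟩ := ellExp_mem v hΔ
  rw [hgood] at hm
  have hm' : v.valuation K (C • W).Δ = 1 := by rw [hm]; simp
  obtain ⟨h3, h4⟩ := (h.change C).far v w h2 hC hm'
  refine ⟨C.r, ((C.u⁻¹ : Kˣ) : K) ^ 2, pow_ne_zero 2 (Units.ne_zero _), ?_, ?_⟩
  · intro i
    rw [map_pow]
    exact h3 i
  · intro i j hij
    rw [map_pow]
    exact h4 i j hij

theorem TT.lam_unit (h : TT W e) (hΔ : W.Δ ≠ 0) (v : HeightOneSpectrum (𝓞 K))
    (w : HeightOneSpectrum (𝓞 L)) [w.asIdeal.LiesOver v.asIdeal]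
    (h2 : v.valuation K ((2 : ℕ) : K) = 1) (hgood : ellExp W v = 0) :
    w.valuation L (lam e) = 1 ∧ w.valuation L (1 - lam e) = 1 := by
  obtain ⟨r, s, hs, _, hfar⟩ := h.exists_far hΔ v w h2 hgood
  have h01 : e 1 - e 0 ≠ 0 := sub_ne_zero.mpr (h.ne hΔ (by decide))
  have hs' : absW w (algebraMap K L s) ≠ 0 := by
    rw [Ne, (absW w).eq_zero, map_eq_zero]
    exact hs
  have hd : ∀ i j, i ≠ j → absW w (e i - e j) * absW w (algebraMap K L s) = 1 := by
    intro i j hij
    rw [← map_mul, ← hfar i j hij]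
    congr 1
    ring
  have h3 := hd 2 0 (by decide)
  have h4 := hd 1 0 (by decide)
  have h5 := hd 1 2 (by decide)
  rw [← absW_eq_one_iff, ← absW_eq_one_iff, one_sub_lam h01]
  unfold lam
  rw [map_div₀, map_div₀]
  have h6 : absW w (e 1 - e 0) ≠ 0 := by
    intro h0
    rw [h0, zero_mul] at h4
    exact zero_ne_one h4
  constructor
  · rw [div_eq_one_iff_eq h6]
    exact mul_right_cancel₀ hs' (h3.trans h4.symm)
  · rw [div_eq_one_iff_eq h6]
    exact mul_right_cancel₀ hs' (h5.trans h4.symm)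

theorem ram_of_inertia [IsGalois K L] (v : HeightOneSpectrum (𝓞 K))
    (w : HeightOneSpectrum (𝓞 L)) [w.asIdeal.LiesOver v.asIdeal]
    (hI : ∀ σ : L ≃ₐ[K] L, (∀ x : 𝓞 L, w.valuation L (σ (x : L) - x) < 1) → σ = 1) :
    v.asIdeal.ramificationIdx' w.asIdeal = 1 := by
  have hwm : w.asIdeal.IsMaximal := w.isMaximal
  have hvm : v.asIdeal.IsMaximal := v.isMaximal
  have hwp : w.asIdeal.IsPrime := w.isPrime
  have hvp : v.asIdeal.IsPrime := v.isPrime
  have hcard : Nat.card (w.asIdeal.inertia (L ≃ₐ[K] L)) =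
      Ideal.ramificationIdxIn v.asIdeal (𝓞 L) :=
    Ideal.card_inertia_eq_ramificationIdxIn v.asIdeal w.asIdeal
  have hone : Nat.card (w.asIdeal.inertia (L ≃ₐ[K] L)) = 1 := by
    have : w.asIdeal.inertia (L ≃ₐ[K] L) = ⊥ := by
      rw [eq_bot_iff]
      intro σ hσ
      rw [Subgroup.mem_bot]
      apply hI
      intro x
      have h1 : σ • x - x ∈ w.asIdeal := hσ x
      rw [← HeightOneSpectrum.valuation_lt_one_iff_mem (K := L)] at h1
      exact h1
    rw [this]
    exact Subgroup.card_bot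
  rw [hone, Ideal.ramificationIdxIn_eq_ramificationIdx v.asIdeal w.asIdeal (L ≃ₐ[K] L)] at hcard
  rw [Ideal.ramificationIdx'_eq_ramificationIdx v.asIdeal w.asIdeal v.ne_bot]
  exact hcard.symm

theorem TT.ram [IsGalois K L] (h : TT W e) (hΔ : W.Δ ≠ 0)
    (hfix : ∀ σ : L ≃ₐ[K] L, (∀ i, σ (e i) = e i) → σ = 1) (v : HeightOneSpectrum (𝓞 K))
    (w : HeightOneSpectrum (𝓞 L)) [w.asIdeal.LiesOver v.asIdeal]
    (h2 : v.valuation K ((2 : ℕ) : K) = 1) (hgood : ellExp W v = 0) :
    v.asIdeal.ramificationIdx' w.asIdeal = 1 := by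
  apply ram_of_inertia v w
  intro σ hσ
  apply hfix
  intro i
  obtain ⟨r, s, hs, hint, hfar⟩ := h.exists_far hΔ v w h2 hgood
  have hclose := inertia_close w hσ (hint i)
  obtain ⟨j, hj⟩ := h.eq_of_root (z := σ (e i)) (by
    have h1 := congrArg σ (h.root i)
    simp only [map_add, map_mul, map_pow, map_ofNat, map_zero, AlgEquiv.commutes] at h1
    exact h1)
  have e1 : σ ((e i - algebraMap K L r) * algebraMap K L s) =
      (σ (e i) - algebraMap K L r) * algebraMap K L s := by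
    rw [map_mul, map_sub, AlgEquiv.commutes, AlgEquiv.commutes]
  rw [e1, hj] at hclose
  by_cases hij : j = i
  · rw [hj, hij]
  · rw [hfar j i hij] at hclose
    exact absurd hclose (lt_irrefl _)

end

end Pool.Agent.TH919.HS
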