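import Pool.Agent.TH919.HS.Ell2

namespace Pool.Agent.TH919.HS

open Polynomial Finset NumberField IsDedekindDomain WithZero Pool.Agent.W318

section

variable {K : Type} [Field K] [NumberField K] {W : WeierstrassCurve K}

theorem tt_natDegree (W : WeierstrassCurve K) : W.twoTorsionPolynomial.toPoly.natDegree = 3 :=
  Cubic.natDegree_of_a_ne_zero (by simp [WeierstrassCurve.twoTorsionPolynomial])

theorem tt_squarefree (hΔ : W.Δ ≠ 0) : Squarefree W.twoTorsionPolynomial.toPoly := by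
  have ha : W.twoTorsionPolynomial.a ≠ 0 := by
    simp [WeierstrassCurve.twoTorsionPolynomial]
  have hne : W.twoTorsionPolynomial.toPoly ≠ 0 := Cubic.ne_zero_of_a_ne_zero ha
  have hd : W.twoTorsionPolynomial.discr ≠ 0 := by
    rw [WeierstrassCurve.twoTorsionPolynomial_discr]
    exact mul_ne_zero (by norm_num) hΔ
  have hs : (W.twoTorsionPolynomial.toPoly.map (algebraMap K (AlgebraicClosure K))).Splits :=
    IsAlgClosed.splits _
  have h1 := (Cubic.discr_ne_zero_iff_roots_nodup ha hs).mp hd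
  rw [Cubic.map_roots] at h1
  exact ((nodup_aroots_iff_of_splits hne hs).mp h1).squarefree

theorem tt_eval {L : Type} [Field L] [Algebra K L] (W : WeierstrassCurve K) (z : L) :
    aeval z W.twoTorsionPolynomial.toPoly = 4 * z ^ 3 + algebraMap K L W.b₂ * z ^ 2 +
      2 * algebraMap K L W.b₄ * z + algebraMap K L W.b₆ := by
  simp [WeierstrassCurve.twoTorsionPolynomial, Cubic.toPoly, map_ofNat]

/-- The product of the denominators of `j`. -/
theorem ellDisc_le (hΔ : W.Δ ≠ 0) :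
    ellDisc W ≤ (6 ^ Module.finrank ℚ K) ^ 12 * (ellBad W ^ 10 *
      ∏ v ∈ (finite_ell hΔ).toFinset, Ideal.absNorm v.asIdeal ^ nj v (W.c₄ ^ 3 / W.Δ)) := by
  classical
  set B := (finite_ell hΔ).toFinset with hB
  have hBmem : ∀ v, v ∈ B ↔ ellExp W v ≠ 0 := fun v => by simp [hB]
  rw [ellDisc_eq B (fun v hv => (hBmem v).mpr hv), ellBad_eq B hBmem]
  calc ∏ v ∈ B, Ideal.absNorm v.asIdeal ^ ellExp W v
      ≤ ∏ v ∈ B, ((Ideal.absNorm v.asIdeal ^ ordAbs v ((6 : ℕ) : K)) ^ 12 *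
          (Ideal.absNorm v.asIdeal ^ 10 *
            Ideal.absNorm v.asIdeal ^ nj v (W.c₄ ^ 3 / W.Δ))) := by
        apply Finset.prod_le_prod' fun v _ => ?_
        rw [← pow_mul, ← pow_add, ← pow_add]
        apply Nat.pow_le_pow_right (one_le_absNorm v)
        refine (ellExp_le v hΔ).trans (le_of_eq ?_)
        ring
    _ = (∏ v ∈ B, Ideal.absNorm v.asIdeal ^ ordAbs v ((6 : ℕ) : K)) ^ 12 *
          ((∏ v ∈ B, Ideal.absNorm v.asIdeal) ^ 10 *
            ∏ v ∈ B, Ideal.absNorm v.asIdeal ^ nj v (W.c₄ ^ 3 / W.Δ)) := by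
        rw [Finset.prod_mul_distrib, Finset.prod_mul_distrib, Finset.prod_pow, Finset.prod_pow]
    _ ≤ _ := Nat.mul_le_mul_right _ (Nat.pow_le_pow_left (prod_norm_nat_le B (by norm_num)) _)

theorem ellDisc_pos (hΔ : W.Δ ≠ 0) : 1 ≤ ellDisc W := by
  rw [ellDisc_eq (finite_ell hΔ).toFinset (fun v hv => by simpa using hv)]
  exact Finset.one_le_prod' fun v _ => Nat.one_le_pow _ _ (one_le_absNorm v)

theorem ellBad_pos (hΔ : W.Δ ≠ 0) : 1 ≤ ellBad W := by
  rw [ellBad_eq (finite_ell hΔ).toFinset (fun v => by simp)]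
  exact Finset.one_le_prod' fun v _ => one_le_absNorm v

theorem nj_le_of_val {v : HeightOneSpectrum (𝓞 K)} {z : K} {n : ℕ}
    (h : v.valuation K z ≤ exp (n : ℤ)) : nj v z ≤ n := by
  rcases eq_or_ne z 0 with rfl | hz
  · simp [nj]
  · obtain ⟨k, hk⟩ := exists_exp v hz
    rw [nj_of_exp hk]
    rw [hk, exp_le_exp] at h
    omega

end

section

variable {K L : Type} [Field K] [NumberField K] [Field L] [NumberField L] [Algebra K L]
  {W : WeierstrassCurve K} {e : Fin 3 → L}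

theorem nj_over (v : HeightOneSpectrum (𝓞 K)) (w : HeightOneSpectrum (𝓞 L))
    [w.asIdeal.LiesOver v.asIdeal] (z : K) :
    v.asIdeal.ramificationIdx' w.asIdeal * nj v z = nj w (algebraMap K L z) := by
  rcases eq_or_ne z 0 with rfl | hz
  · simp [nj]
  · obtain ⟨k, hk⟩ := exists_exp v hz
    rw [nj_of_exp hk, nj_of_exp (absW_liesOver v w hk)]
    have h1 := ram_pos v w
    set E := v.asIdeal.ramificationIdx' w.asIdeal
    rcases le_or_gt 0 k with h | h
    · lift k to ℕ using h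
      rw [Int.toNat_natCast, ← Nat.cast_mul, Int.toNat_natCast]
    · have h2 : (E : ℤ) * k ≤ 0 := by nlinarith
      rw [Int.toNat_of_nonpos h.le, Int.toNat_of_nonpos h2, mul_zero]

/-- The denominator of `j` is bounded by `Φ_L(λ) ^ 2`. -/
theorem nj_prod_le (h : TT W e) (hΔ : W.Δ ≠ 0) (h0 : lam e ≠ 0) (h1 : lam e ≠ 1)
    (B : Finset (HeightOneSpectrum (𝓞 K))) :
    ∏ v ∈ B, Ideal.absNorm v.asIdeal ^ nj v (W.c₄ ^ 3 / W.Δ) ≤ phi (lam e) ^ 2 := by
  classical
  set z := W.c₄ ^ 3 / W.Δ with hz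
  set m := Module.finrank K L with hm
  choose T hT hsum using fun v : HeightOneSpectrum (𝓞 K) => exists_over (L := L) v
  have hv : ∀ v ∈ B, (Ideal.absNorm v.asIdeal ^ nj v z) ^ m ≤
      ∏ w ∈ T v, Ideal.absNorm w.asIdeal ^ (2 * (ordAbs w (lam e) + ordAbs w (1 - lam e))) := by
    intro v _
    have h2 := prod_over_ineq v (hT v) (hsum v) (n := nj v z) (κ := 0)
      (m := fun w => 2 * (ordAbs w (lam e) + ordAbs w (1 - lam e))) (by
        intro w hw
        have := (hT v w).mp hw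
        rw [mul_zero, add_zero, nj_over v w z]
        apply nj_le_of_val
        rw [← absW_le_iff, hz, h.j hΔ]
        exact val_j_le w h0 h1)
    rw [zero_mul, pow_zero, one_mul] at h2
    rw [← pow_mul]
    exact h2
  have hdisj : (B : Set (HeightOneSpectrum (𝓞 K))).PairwiseDisjoint T := by
    intro v _ v' _ hne
    rw [Function.onFun, Finset.disjoint_left]
    intro w h1 h2
    apply hne
    have e1 := ((hT v w).mp h1).over
    have e2 := ((hT v' w).mp h2).over
    exact HeightOneSpectrum.ext (by rw [e1, e2])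
  have hfr : 1 ≤ m := by
    have : FiniteDimensional K L := by
      have : IsScalarTower ℚ K L := IsScalarTower.of_algebraMap_eq fun x => by simp
      exact Module.Finite.of_restrictScalars_finite ℚ K L
    exact Nat.succ_le_of_lt Module.finrank_pos
  have hpos : 1 ≤ ∏ v ∈ B, Ideal.absNorm v.asIdeal ^ nj v z :=
    Finset.one_le_prod' fun v _ => Nat.one_le_pow _ _ (one_le_absNorm v)
  set U := B.biUnion T ∪ (finite_phi h0 h1).toFinset with hU
  calc ∏ v ∈ B, Ideal.absNorm v.asIdeal ^ nj v z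
      ≤ (∏ v ∈ B, Ideal.absNorm v.asIdeal ^ nj v z) ^ m := Nat.le_self_pow (by omega) _
    _ = ∏ v ∈ B, (Ideal.absNorm v.asIdeal ^ nj v z) ^ m := by rw [Finset.prod_pow]
    _ ≤ ∏ v ∈ B, ∏ w ∈ T v,
          Ideal.absNorm w.asIdeal ^ (2 * (ordAbs w (lam e) + ordAbs w (1 - lam e))) :=
        Finset.prod_le_prod' hv
    _ = ∏ w ∈ B.biUnion T,
          Ideal.absNorm w.asIdeal ^ (2 * (ordAbs w (lam e) + ordAbs w (1 - lam e))) := by
        rw [Finset.prod_biUnion hdisj]
    _ ≤ ∏ w ∈ U, Ideal.absNorm w.asIdeal ^ (2 * (ordAbs w (lam e) + ordAbs w (1 - lam e))) := by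
        apply Finset.prod_le_prod_of_subset_of_one_le' Finset.subset_union_left
        intro w _ _
        exact Nat.one_le_pow _ _ (one_le_absNorm w)
    _ = phi (lam e) ^ 2 := by
        rw [phi_eq U (fun v hv => by rw [hU, Finset.mem_union]; right; simpa using hv),
          ← Finset.prod_pow]
        refine Finset.prod_congr rfl fun w _ => ?_
        rw [← pow_mul, mul_comm 2]

/-- The norm of a set of bad places of `L`. -/
theorem prod_bad_le' (B : Finset (HeightOneSpectrum (𝓞 K)))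
    (T : Finset (HeightOneSpectrum (𝓞 L)))
    (hT : ∀ w ∈ T, w.valuation L ((2 : ℕ) : L) ≠ 1 ∨ ∃ v ∈ B, w.asIdeal.LiesOver v.asIdeal) :
    ∏ w ∈ T, Ideal.absNorm w.asIdeal ≤
      2 ^ Module.finrank ℚ L * (∏ v ∈ B, Ideal.absNorm v.asIdeal) ^ Module.finrank K L := by
  classical
  choose U hU hsum using fun v : HeightOneSpectrum (𝓞 K) => exists_over (L := L) v
  set T1 := T.filter (fun w => w.valuation L ((2 : ℕ) : L) ≠ 1) with hT1
  have hsub : T ⊆ T1 ∪ B.biUnion U := by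
    intro w hw
    rw [Finset.mem_union]
    rcases hT w hw with h | ⟨v, h1, h2⟩
    · left; exact Finset.mem_filter.mpr ⟨hw, h⟩
    · right
      rw [Finset.mem_biUnion]
      exact ⟨v, h1, (hU v w).mpr h2⟩
  have hdisj : (B : Set (HeightOneSpectrum (𝓞 K))).PairwiseDisjoint U := by
    intro v _ v' _ hne
    rw [Function.onFun, Finset.disjoint_left]
    intro w h1 h2
    apply hne
    have e1 := ((hU v w).mp h1).over
    have e2 := ((hU v' w).mp h2).over
    exact HeightOneSpectrum.ext (by rw [e1, e2])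
  calc ∏ w ∈ T, Ideal.absNorm w.asIdeal ≤ ∏ w ∈ T1 ∪ B.biUnion U, Ideal.absNorm w.asIdeal :=
        Finset.prod_le_prod_of_subset_of_one_le' hsub fun v _ _ => one_le_absNorm v
    _ ≤ (∏ w ∈ T1, Ideal.absNorm w.asIdeal) * ∏ w ∈ B.biUnion U, Ideal.absNorm w.asIdeal := by
        rw [← Finset.prod_union_inter]
        exact Nat.le_mul_of_pos_right _ (Finset.prod_pos fun v _ => one_le_absNorm v)
    _ ≤ _ := by
        refine Nat.mul_le_mul ?_ ?_
        · exact prod_dvd_nat_le T1 (by norm_num) fun v hv => (Finset.mem_filter.mp hv).2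
        · rw [Finset.prod_biUnion hdisj, ← Finset.prod_pow]
          exact Finset.prod_le_prod' fun v _ => prod_over_le v (hU v) (hsum v)

theorem lam_ne (h : TT W e) (hΔ : W.Δ ≠ 0) : lam e ≠ 0 ∧ lam e ≠ 1 := by
  have h01 : e 1 - e 0 ≠ 0 := sub_ne_zero.mpr (h.ne hΔ (by decide))
  have h02 : e 2 - e 0 ≠ 0 := sub_ne_zero.mpr (h.ne hΔ (by decide))
  have h12 : e 1 - e 2 ≠ 0 := sub_ne_zero.mpr (h.ne hΔ (by decide))
  refine ⟨div_ne_zero h02 h01, fun h1 => ?_⟩
  have h2 := one_sub_lam h01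
  rw [h1, sub_self] at h2
  exact div_ne_zero h12 h01 h2.symm

theorem splitEll_of_abcOver (h : ABCOver L) : SplitSzpiroEllOver K L := by
  classical
  obtain ⟨c₁, κ₁, habc⟩ := h
  set m := Module.finrank K L with hm
  set D := Module.finrank ℚ L with hD
  set d := Module.finrank ℚ K with hd
  refine ⟨(6 ^ d) ^ 12 * (c₁ * (2 ^ D) ^ κ₁) ^ 2, 10 + m * κ₁ * 2, ?_⟩
  intro W hΔ hs
  obtain ⟨e, he⟩ := exists_TT hs
  obtain ⟨h0, h1⟩ := lam_ne he hΔ
  set B := (finite_ell hΔ).toFinset with hB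
  have hBmem : ∀ v, v ∈ B ↔ ellExp W v ≠ 0 := fun v => by simp [hB]
  have hrad : radK (lam e) ≤ 2 ^ D * ellBad W ^ m := by
    rw [radK_eq (finite_phi h0 h1).toFinset (fun v => by simp), ellBad_eq B hBmem]
    apply prod_bad_le'
    intro w hw
    by_contra hcon
    push Not at hcon
    obtain ⟨h2, h3⟩ := hcon
    obtain ⟨v, hvw⟩ := exists_under (K := K) w
    have hgood : ellExp W v = 0 := by
      by_contra hne
      exact h3 v ((hBmem v).mpr hne) hvw
    have h2v : v.valuation K ((2 : ℕ) : K) = 1 := by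
      have h4 := (Compat.eq_one_iff (compat_of_liesOver v w) ((2 : ℕ) : K)).symm
      rw [h4, map_natCast, absW_eq_one_iff]
      exact h2
    obtain ⟨h5, h6⟩ := he.lam_unit hΔ v w h2v hgood
    rw [Set.Finite.mem_toFinset, Set.mem_ofPred_eq] at hw
    rcases hw with h | h
    · exact h ((ordAbs_eq_zero_iff h0).mpr h5)
    · exact h ((ordAbs_eq_zero_iff (sub_ne_zero.mpr h1.symm)).mpr h6)
  calc ellDisc W ≤ (6 ^ d) ^ 12 * (ellBad W ^ 10 *
      ∏ v ∈ B, Ideal.absNorm v.asIdeal ^ nj v (W.c₄ ^ 3 / W.Δ)) := ellDisc_le hΔ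
    _ ≤ (6 ^ d) ^ 12 * (ellBad W ^ 10 * (c₁ * (2 ^ D * ellBad W ^ m) ^ κ₁) ^ 2) := by
        refine Nat.mul_le_mul_left _ (Nat.mul_le_mul_left _ ((nj_prod_le he hΔ h0 h1 B).trans ?_))
        refine Nat.pow_le_pow_left ((habc _ h0 h1).trans ?_) _
        exact Nat.mul_le_mul_left _ (Nat.pow_le_pow_left hrad _)
    _ = _ := by
        simp only [mul_pow, pow_add, ← pow_mul]
        ring

end

theorem szpiroEll_of_abc (h : UniformABC) : UniformSzpiroEll := by
  classical
  intro d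
  obtain ⟨c₁, κ₁, habc⟩ := h (d * 6)
  refine ⟨(6 ^ d) ^ 12 * (c₁ * 2 ^ κ₁) ^ 2, d * 10 + κ₁ * 2, ?_⟩
  intro K _ _ hK S hS hunr W hΔ hgood
  have hSS' : S ⊆ insert 2 S := Finset.subset_insert _ _
  have hS' : ∀ p ∈ insert 2 S, p.Prime := by
    intro p hp
    rcases Finset.mem_insert.mp hp with rfl | h
    · exact Nat.prime_two
    · exact hS p h
  have h2 : 2 ∈ insert 2 S := Finset.mem_insert_self _ _
  have hR1 : 1 ≤ ∏ p ∈ S, p := Nat.pos_of_ne_zero (prod_primes_ne_zero hS)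
  have hle : ∏ p ∈ insert 2 S, p ≤ 2 * ∏ p ∈ S, p := by
    by_cases h2 : 2 ∈ S
    · rw [Finset.insert_eq_of_mem h2]; omega
    · rw [Finset.prod_insert h2]
  obtain ⟨L, _, _, _, _, hsplit, hdeg, hfix⟩ := exists_split (tt_squarefree hΔ)
  rw [tt_natDegree] at hdeg
  obtain ⟨e, he⟩ := exists_TT hsplit
  obtain ⟨h0, h1⟩ := lam_ne he hΔ
  have hfix' : ∀ σ : L ≃ₐ[K] L, (∀ i, σ (e i) = e i) → σ = 1 := by
    intro σ hσ
    apply hfix
    intro r hr
    rw [tt_eval] at hr
    obtain ⟨i, rfl⟩ := he.eq_of_root hr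
    exact hσ i
  have hfin : Module.finrank ℚ L ≤ d * 6 := by
    have : IsScalarTower ℚ K L := IsScalarTower.of_algebraMap_eq fun x => by simp
    rw [← Module.finrank_mul_finrank ℚ K L]
    exact Nat.mul_le_mul hK hdeg
  have hunder : ∀ w : HeightOneSpectrum (𝓞 L), ¬ Above (insert 2 S) w →
      ∃ v : HeightOneSpectrum (𝓞 K), w.asIdeal.LiesOver v.asIdeal ∧ ¬ Above S v ∧
        v.valuation K ((2 : ℕ) : K) = 1 := by
    intro w hw
    obtain ⟨v, hvw⟩ := exists_under (K := K) w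
    have hv' : ¬ Above (insert 2 S) v := fun h => hw (above_of_under v w h)
    exact ⟨v, hvw, fun h => hv' (above_mono hSS' h), val_two_of_not_above h2 hv'⟩
  have hunrL : UnramOutside L (insert 2 S) := by
    intro w hw p hp
    obtain ⟨v, hvw, hv, h2v⟩ := hunder w hw
    have hram := he.ram hΔ hfix' v w h2v (hgood v hv)
    rcases hunr v hv p hp with h | h
    · left
      have := absW_liesOver v w (k := 0) (x := (p : K)) (by rw [h, exp_zero])
      rw [map_natCast, mul_zero, exp_zero] at this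
      exact this
    · right
      have := absW_liesOver v w h
      rw [map_natCast, hram] at this
      simpa using this
  have hphi := habc L hfin (insert 2 S) hS' hunrL (lam e) h0 h1 (by
    intro w hw
    obtain ⟨v, hvw, hv, h2v⟩ := hunder w hw
    exact he.lam_unit hΔ v w h2v (hgood v hv))
  set B := (finite_ell hΔ).toFinset with hB
  have hBmem : ∀ v, v ∈ B ↔ ellExp W v ≠ 0 := fun v => by simp [hB]
  have hbad : ellBad W ≤ (∏ p ∈ S, p) ^ d := by
    rw [ellBad_eq B hBmem]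
    refine (prod_above_le hS B ?_).trans (Nat.pow_le_pow_right hR1 hK)
    intro v hv
    by_contra hcon
    exact (hBmem v).mp hv (hgood v hcon)
  calc ellDisc W ≤ (6 ^ Module.finrank ℚ K) ^ 12 * (ellBad W ^ 10 *
      ∏ v ∈ B, Ideal.absNorm v.asIdeal ^ nj v (W.c₄ ^ 3 / W.Δ)) := ellDisc_le hΔ
    _ ≤ (6 ^ d) ^ 12 * (((∏ p ∈ S, p) ^ d) ^ 10 * (c₁ * (2 * ∏ p ∈ S, p) ^ κ₁) ^ 2) := by
        refine Nat.mul_le_mul (Nat.pow_le_pow_left (Nat.pow_le_pow_right (by norm_num) hK) _)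
          (Nat.mul_le_mul (Nat.pow_le_pow_left hbad _) ((nj_prod_le he hΔ h0 h1 B).trans ?_))
        refine Nat.pow_le_pow_left (hphi.trans ?_) _
        exact Nat.mul_le_mul_left _ (Nat.pow_le_pow_left hle _)
    _ = _ := by
        simp only [mul_pow, pow_add, ← pow_mul]
        ring

theorem abcOver_of_szpiroEll {K : Type} [Field K] [NumberField K] (h : SzpiroEllOver K) :
    ABCOver K := by
  classical
  obtain ⟨c, κ, hs⟩ := h
  set d := Module.finrank ℚ K with hd
  refine ⟨c * (2 ^ d) ^ κ * (2 ^ d) ^ 8, κ, ?_⟩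
  intro x h0 h1
  have h1x : (1 : K) - x ≠ 0 := sub_ne_zero.mpr h1.symm
  have hΔ := leg_Δ_ne h0 h1
  set B := (finite_ell hΔ).toFinset with hB
  have hBmem : ∀ v, v ∈ B ↔ ellExp (leg x) v ≠ 0 := fun v => by simp [hB]
  set U := (finite_phi h0 h1).toFinset with hU
  have hUmem : ∀ v, v ∈ U ↔ (ordAbs v x ≠ 0 ∨ ordAbs v (1 - x) ≠ 0) := fun v => by simp [hU]
  have hbad : ellBad (leg x) ≤ 2 ^ d * radK x := by
    rw [ellBad_eq B hBmem, radK_eq U hUmem]
    set B1 := B.filter (fun v => v.valuation K ((2 : ℕ) : K) ≠ 1) with hB1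
    have hsub : B ⊆ B1 ∪ U := by
      intro v hv
      by_contra hcon
      simp only [Finset.mem_union, not_or, hB1, Finset.mem_filter, not_and, not_not] at hcon
      obtain ⟨h3, h5⟩ := hcon
      rw [hUmem] at h5
      push Not at h5
      rw [ordAbs_eq_zero_iff h0, ordAbs_eq_zero_iff h1x] at h5
      exact (hBmem v).mp hv (leg_good (h3 hv) h5.1 h5.2)
    calc ∏ v ∈ B, Ideal.absNorm v.asIdeal ≤ ∏ v ∈ B1 ∪ U, Ideal.absNorm v.asIdeal :=
          Finset.prod_le_prod_of_subset_of_one_le' hsub fun v _ _ => one_le_absNorm v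
      _ ≤ (∏ v ∈ B1, Ideal.absNorm v.asIdeal) * ∏ v ∈ U, Ideal.absNorm v.asIdeal := by
          rw [← Finset.prod_union_inter]
          exact Nat.le_mul_of_pos_right _ (Finset.prod_pos fun v _ => one_le_absNorm v)
      _ ≤ _ := Nat.mul_le_mul_right _
          (prod_dvd_nat_le B1 (by norm_num) fun v hv => (Finset.mem_filter.mp hv).2)
  calc phi x ≤ ellDisc (leg x) * (2 ^ Module.finrank ℚ K) ^ 8 := phi_le_ell h0 h1
    _ ≤ c * (2 ^ d * radK x) ^ κ * (2 ^ d) ^ 8 := by
        refine Nat.mul_le_mul_right _ ((hs _ hΔ).trans ?_)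
        exact Nat.mul_le_mul_left _ (Nat.pow_le_pow_left hbad _)
    _ = _ := by rw [mul_pow]; ring

end Pool.Agent.TH919.HS
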