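import Pool.Agent.TH919.HS.Defs

namespace Pool.Agent.TH919.HS

open Polynomial NumberField IsDedekindDomain WithZero Pool.Agent.W318

section

variable {K : Type} [Field K] [NumberField K]

/-- The Weierstrass equation `W` has `v`-integral coefficients. -/
def IntAt (v : HeightOneSpectrum (𝓞 K)) (W : WeierstrassCurve K) : Prop :=
  v.valuation K W.a₁ ≤ 1 ∧ v.valuation K W.a₂ ≤ 1 ∧ v.valuation K W.a₃ ≤ 1 ∧
    v.valuation K W.a₄ ≤ 1 ∧ v.valuation K W.a₆ ≤ 1

/-- The exponent at `v` of the minimal discriminant of the elliptic curve `W` over `K`: the least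
`v(Δ)` over all `v`-integral Weierstrass equations obtained from `W` by an admissible change of
variables over `K`. -/
noncomputable def ellExp (W : WeierstrassCurve K) (v : HeightOneSpectrum (𝓞 K)) : ℕ :=
  sInf {m : ℕ | ∃ C : WeierstrassCurve.VariableChange K, IntAt v (C • W) ∧
    v.valuation K (C • W).Δ = exp (-(m : ℤ))}

/-- The norm of the minimal discriminant of an elliptic curve. -/
noncomputable def ellDisc (W : WeierstrassCurve K) : ℕ :=
  ∏ᶠ v : HeightOneSpectrum (𝓞 K), Ideal.absNorm v.asIdeal ^ ellExp W v

/-- The product of `N_v` over the places of bad reduction of an elliptic curve. -/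
noncomputable def ellBad (W : WeierstrassCurve K) : ℕ :=
  ∏ᶠ v : HeightOneSpectrum (𝓞 K), if ellExp W v = 0 then 1 else Ideal.absNorm v.asIdeal

end

/-- **The uniform (weak) Szpiro conjecture for elliptic curves.** For each `d` there are `c, κ`
such that, for every finite set `S` of primes, every number field `K` of degree at most `d`
unramified outside `S`, and every elliptic curve `E` over `K` with good reduction at all places
not above `S`, the norm of the minimal discriminant is at most `c (∏_{p ∈ S} p) ^ κ`. -/
def UniformSzpiroEll : Prop :=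
  ∀ d : ℕ, ∃ c κ : ℕ, ∀ (K : Type) [Field K] [NumberField K], Module.finrank ℚ K ≤ d →
    ∀ S : Finset ℕ, (∀ p ∈ S, p.Prime) → UnramOutside K S →
      ∀ W : WeierstrassCurve K, W.Δ ≠ 0 →
        (∀ v : HeightOneSpectrum (𝓞 K), ¬ Above S v → ellExp W v = 0) →
        ellDisc W ≤ c * (∏ p ∈ S, p) ^ κ

/-- The (weak) Szpiro conjecture for elliptic curves over the number field `K`. -/
def SzpiroEllOver (K : Type) [Field K] [NumberField K] : Prop :=
  ∃ c κ : ℕ, ∀ W : WeierstrassCurve K, W.Δ ≠ 0 → ellDisc W ≤ c * ellBad W ^ κ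

/-- The (weak) Szpiro conjecture for the elliptic curves over `K` whose `2`-torsion is defined
over the extension `L` of `K`. -/
def SplitSzpiroEllOver (K L : Type) [Field K] [NumberField K] [Field L] [Algebra K L] : Prop :=
  ∃ c κ : ℕ, ∀ W : WeierstrassCurve K, W.Δ ≠ 0 →
    (W.twoTorsionPolynomial.toPoly.map (algebraMap K L)).Splits →
    ellDisc W ≤ c * ellBad W ^ κ

end Pool.Agent.TH919.HS
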