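import Pool.Agent.TH919.HS.Glob

namespace Pool.Agent.TH919.HS

open Polynomial Finset NumberField IsDedekindDomain WithZero Pool.Agent.W318

/-- The family `(X ^ (g + 1) - 1) (X ^ (g + 1) - x)`. -/
noncomputable def fam {k : Type*} [Field k] (g : ℕ) (x : k) : k[X] :=
  (X ^ (g + 1) - C 1) * (X ^ (g + 1) - C x)

theorem fam_isHyp {k : Type*} [Field k] [CharZero k] (g : ℕ) {x : k} (h0 : x ≠ 0) (h1 : x ≠ 1) :
    IsHyp g (fam g x) := by
  have hn : ((g + 1 : ℕ) : k) ≠ 0 := Nat.cast_ne_zero.mpr (by omega)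
  constructor
  · apply Separable.squarefree
    unfold fam
    apply Separable.mul (separable_X_pow_sub_C 1 hn one_ne_zero) (separable_X_pow_sub_C x hn h0)
    refine ⟨C ((x - 1)⁻¹), -C ((x - 1)⁻¹), ?_⟩
    have hx : x - 1 ≠ 0 := sub_ne_zero.mpr h1
    have : C ((x - 1)⁻¹) * (X ^ (g + 1) - C 1) + -C ((x - 1)⁻¹) * (X ^ (g + 1) - C x) =
        C ((x - 1)⁻¹) * C (x - 1) := by
      rw [C_sub]; ring
    rw [this, ← C_mul, inv_mul_cancel₀ hx, C_1]
  · right
    unfold fam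
    rw [natDegree_mul (X_pow_sub_C_ne_zero (by omega) _) (X_pow_sub_C_ne_zero (by omega) _),
      natDegree_X_pow_sub_C, natDegree_X_pow_sub_C]
    ring

theorem fam_coeff_le {K : Type} [Field K] [NumberField K] (g : ℕ) {x : K}
    (v : HeightOneSpectrum (𝓞 K)) (hx : v.valuation K x ≤ 1) (i : ℕ) :
    v.valuation K ((fam g x).coeff i) ≤ 1 := by
  have hna := absW_na v
  have hpol : ∀ z : K, absW v z ≤ 1 → (X ^ (g + 1) - C z : K[X]).gaussNorm (absW v) 1 ≤ 1 := by
    intro z hz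
    rw [gaussNorm_le_one_iff]
    intro j
    rw [coeff_sub, coeff_X_pow, coeff_C]
    refine (na_sub_le hna _ _).trans (max_le ?_ ?_)
    · split_ifs <;> simp
    · split_ifs
      · exact hz
      · simp
  have h1 : (fam g x).gaussNorm (absW v) 1 ≤ 1 := by
    unfold fam
    rw [gaussNorm_mul hna one_pos]
    exact mul_le_one₀ (hpol 1 (by simp)) (gaussNorm_nonneg _ _ zero_le_one)
      (hpol x ((absW_le_one_iff v x).mpr hx))
  rw [← absW_le_one_iff]
  exact (gaussNorm_le_one_iff _).mp h1 i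

section

variable {M : Type*} [Field M]

/-- The roots of `X ^ n - 1`. -/
structure Rts (g : ℕ) (R : Fin (g + 1) → M) : Prop where
  prod : (X ^ (g + 1) - C 1 : M[X]) = ∏ i, (X - C (R i))
  pow : ∀ i, R i ^ (g + 1) = 1

theorem exists_rts (g : ℕ) {x : M} (hs : (fam g x).Splits) :
    ∃ (R : Fin (g + 1) → M) (ρ : M), Rts g R ∧ ρ ^ (g + 1) = x := by
  classical
  have hne1 : (X ^ (g + 1) - C 1 : M[X]) ≠ 0 := X_pow_sub_C_ne_zero (by omega) _
  have hne2 : (X ^ (g + 1) - C x : M[X]) ≠ 0 := X_pow_sub_C_ne_zero (by omega) _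
  have hf0 : fam g x ≠ 0 := mul_ne_zero hne1 hne2
  have hs1 : (X ^ (g + 1) - C 1 : M[X]).Splits := hs.of_dvd hf0 (Dvd.intro _ rfl)
  have hs2 : (X ^ (g + 1) - C x : M[X]).Splits := hs.of_dvd hf0 (Dvd.intro_left _ rfl)
  obtain ⟨ρ, hρ⟩ := hs2.exists_eval_eq_zero (by
    rw [degree_X_pow_sub_C (by omega)]
    exact_mod_cast (by omega : g + 1 ≠ 0))
  have hmon : (X ^ (g + 1) - C 1 : M[X]).Monic := monic_X_pow_sub_C 1 (by omega)
  have hprod := hs1.eq_prod_roots_of_monic hmon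
  have hcard : (X ^ (g + 1) - C 1 : M[X]).roots.card = g + 1 := by
    rw [← hs1.natDegree_eq_card_roots, natDegree_X_pow_sub_C]
  obtain ⟨l, hl⟩ : ∃ l : List M, (l : Multiset M) = (X ^ (g + 1) - C 1 : M[X]).roots :=
    ⟨_, Multiset.coe_toList _⟩
  have hlen : l.length = g + 1 := by
    rw [← Multiset.coe_card, hl, hcard]
  refine ⟨fun i => l.get (i.cast hlen.symm), ρ, ⟨?_, ?_⟩, ?_⟩
  · conv_lhs => rw [hprod, ← hl]
    rw [Multiset.map_coe, Multiset.prod_coe]
    rw [← Fin.prod_ofFn]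
    congr 1
    apply List.ext_getElem
    · simp [hlen]
    · intro i h1 h2
      rw [List.getElem_map, List.getElem_ofFn]
      rfl
  · intro i
    have hmem : l.get (i.cast hlen.symm) ∈ (X ^ (g + 1) - C 1 : M[X]).roots := by
      rw [← hl]
      exact List.get_mem _ _
    rw [mem_roots hne1, IsRoot, eval_sub, eval_pow, eval_X, eval_C, sub_eq_zero] at hmem
    exact hmem
  · rw [eval_sub, eval_pow, eval_X, eval_C, sub_eq_zero] at hρ
    exact hρ

theorem Rts.scaled {g : ℕ} {R : Fin (g + 1) → M} (hR : Rts g R) {ρ : M} (hρ : ρ ≠ 0) :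
    (X ^ (g + 1) - C (ρ ^ (g + 1)) : M[X]) = ∏ i, (X - C (ρ * R i)) := by
  have h1 := congrArg (fun P : M[X] => P.comp (C ρ⁻¹ * X)) hR.prod
  simp only [sub_comp, pow_comp, X_comp, C_comp, Polynomial.prod_comp] at h1
  have h2 : C (ρ ^ (g + 1)) * ((C ρ⁻¹ * X) ^ (g + 1) - C 1) =
      (X ^ (g + 1) - C (ρ ^ (g + 1)) : M[X]) := by
    rw [mul_sub, mul_pow, ← mul_assoc, ← C_pow, ← C_mul, ← mul_pow, mul_inv_cancel₀ hρ, one_pow,
      C_1, one_mul, mul_one]
  rw [← h2, h1]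
  have h3 : (C (ρ ^ (g + 1)) : M[X]) = ∏ _i : Fin (g + 1), C ρ := by simp
  rw [h3, ← Finset.prod_mul_distrib]
  refine Finset.prod_congr rfl fun i _ => ?_
  rw [mul_sub, ← mul_assoc, ← C_mul, mul_inv_cancel₀ hρ, C_1, one_mul, ← C_mul]

theorem Rts.eval {g : ℕ} {R : Fin (g + 1) → M} (hR : Rts g R) (z : M) :
    z ^ (g + 1) - 1 = ∏ i, (z - R i) := by
  have h1 := congrArg (fun P : M[X] => P.eval z) hR.prod
  simpa [eval_prod] using h1

theorem Rts.deriv {g : ℕ} {R : Fin (g + 1) → M} (hR : Rts g R) (i : Fin (g + 1)) :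
    ((g + 1 : ℕ) : M) * R i ^ g = ∏ j ∈ univ.erase i, (R i - R j) := by
  classical
  have h1 := congrArg (fun P : M[X] => P.derivative.eval (R i)) hR.prod
  have h2 : (∏ i, (X - C (R i)) : M[X]) = (X - C (R i)) * ∏ j ∈ univ.erase i, (X - C (R j)) :=
    (Finset.mul_prod_erase univ _ (mem_univ i)).symm
  simp only [h2, derivative_mul, eval_add, eval_mul, derivative_sub, derivative_X, derivative_C,
    eval_sub, eval_X, eval_C, sub_self, zero_mul, add_zero, eval_prod, sub_zero, one_mul,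
    derivative_X_pow, eval_pow, Nat.add_sub_cancel] at h1
  rw [← h1]

/-- The coordinates of the roots of `fam`. -/
noncomputable def bet {g : ℕ} (R : Fin (g + 1) → M) (ρ : M) : Fin (g + 1 + (g + 1)) → M :=
  Fin.addCases (fun i => -R i) (fun i => -(ρ * R i))

theorem bet_castAdd {g : ℕ} (R : Fin (g + 1) → M) (ρ : M) (i : Fin (g + 1)) :
    bet R ρ (Fin.castAdd (g + 1) i) = -R i := by
  unfold bet
  exact Fin.addCases_left _

theorem bet_natAdd {g : ℕ} (R : Fin (g + 1) → M) (ρ : M) (i : Fin (g + 1)) :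
    bet R ρ (Fin.natAdd (g + 1) i) = -(ρ * R i) := by
  unfold bet
  exact Fin.addCases_right _

theorem fam_factor {g : ℕ} {R : Fin (g + 1) → M} (hR : Rts g R) {ρ : M} (hρ : ρ ≠ 0) :
    fam g (ρ ^ (g + 1)) = C 1 * ∏ i, (C ((fun _ => 1 : Fin (g + 1 + (g + 1)) → M) i) * X +
      C (bet R ρ i)) := by
  have h : ∏ i : Fin (g + 1 + (g + 1)), (C (1 : M) * X + C (bet R ρ i)) =
      (∏ i : Fin (g + 1), (C (1 : M) * X + C (bet R ρ (Fin.castAdd (g + 1) i)))) *
        ∏ i : Fin (g + 1), (C (1 : M) * X + C (bet R ρ (Fin.natAdd (g + 1) i))) :=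
    Fin.prod_univ_add _
  rw [fam, hR.scaled hρ, hR.prod, h]
  simp only [bet_castAdd, bet_natAdd, C_1, one_mul, C_neg, ← sub_eq_add_neg]

variable {A : AbsoluteValue M ℝ}

theorem Rts.abs_eq_one {g : ℕ} {R : Fin (g + 1) → M} (hR : Rts g R) (i : Fin (g + 1)) :
    A (R i) = 1 := by
  have h1 := congrArg A (hR.pow i)
  rw [map_pow, map_one] at h1
  exact (pow_eq_one_iff_of_nonneg (A.nonneg _) (by omega)).mp h1

theorem Rts.abs_diff_le {g : ℕ} {R : Fin (g + 1) → M} (hR : Rts g R) (hna : IsNonarchimedean A)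
    (i j : Fin (g + 1)) : A (R i - R j) ≤ 1 :=
  (na_sub_le hna _ _).trans (max_le (hR.abs_eq_one i).le (hR.abs_eq_one j).le)

theorem Rts.abs_diff_ge {g : ℕ} {R : Fin (g + 1) → M} (hR : Rts g R) (hna : IsNonarchimedean A)
    {i j : Fin (g + 1)} (hij : i ≠ j) : A ((g + 1 : ℕ) : M) ≤ A (R i - R j) := by
  classical
  have h1 := congrArg A (hR.deriv i)
  rw [map_mul, map_pow, hR.abs_eq_one, one_pow, mul_one, map_prod] at h1
  rw [h1, ← Finset.mul_prod_erase (univ.erase i) _ (Finset.mem_erase.mpr ⟨hij.symm, mem_univ j⟩)]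
  apply mul_le_of_le_one_right (A.nonneg _)
  exact Finset.prod_le_one (fun _ _ => A.nonneg _) fun k _ => hR.abs_diff_le hna i k

/-- All brackets are units if `n`, `x`, `1 - x` are. -/
theorem br_fam {g : ℕ} {R : Fin (g + 1) → M} (hR : Rts g R) (hna : IsNonarchimedean A) {ρ : M}
    (hn : A ((g + 1 : ℕ) : M) = 1) (hρ : A ρ = 1) (hx : A (1 - ρ ^ (g + 1)) = 1)
    {i j : Fin (g + 1 + (g + 1))} (hij : i ≠ j) :
    A (br (fun _ => 1) (bet R ρ) i j) = 1 := by
  have hdiff : ∀ i j : Fin (g + 1), i ≠ j → A (R i - R j) = 1 := fun i j hij =>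
    le_antisymm (hR.abs_diff_le hna i j) (hn ▸ hR.abs_diff_ge hna hij)
  have hcross : ∀ i j : Fin (g + 1), A (ρ * R i - R j) = 1 := by
    intro i j
    have hle : ∀ k, A (ρ * R i - R k) ≤ 1 := by
      intro k
      refine (na_sub_le hna _ _).trans (max_le ?_ (hR.abs_eq_one k).le)
      rw [map_mul, hρ, hR.abs_eq_one, one_mul]
    have h1 := congrArg A (hR.eval (ρ * R i))
    rw [mul_pow, hR.pow, mul_one, map_prod, map_sub_rev, hx,
      ← Finset.mul_prod_erase univ _ (mem_univ j)] at h1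
    have h2 : ∏ k ∈ univ.erase j, A (ρ * R i - R k) ≤ 1 :=
      Finset.prod_le_one (fun _ _ => A.nonneg _) fun k _ => hle k
    have h3 := mul_le_of_le_one_right (A.nonneg (ρ * R i - R j)) h2
    rw [← h1] at h3
    exact le_antisymm (hle j) h3
  unfold br
  simp only [one_mul]
  revert hij
  refine Fin.addCases (fun i => ?_) (fun i => ?_) i <;>
    refine Fin.addCases (fun j => ?_) (fun j => ?_) j <;> intro hij
  · rw [bet_castAdd, bet_castAdd]
    have h1 : i ≠ j := fun h => hij (by rw [h])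
    have : -R j - -R i = R i - R j := by ring
    rw [this]; exact hdiff _ _ h1
  · rw [bet_castAdd, bet_natAdd]
    have : -(ρ * R j) - -R i = -(ρ * R j - R i) := by ring
    rw [this, map_neg_eq_map]; exact hcross _ _
  · rw [bet_castAdd, bet_natAdd]
    have : -R j - -(ρ * R i) = ρ * R i - R j := by ring
    rw [this]; exact hcross _ _
  · rw [bet_natAdd, bet_natAdd]
    have h1 : i ≠ j := fun h => hij (by rw [h])
    have : -(ρ * R j) - -(ρ * R i) = ρ * (R i - R j) := by ring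
    rw [this, map_mul, hρ, one_mul]; exact hdiff _ _ h1

end

end Pool.Agent.TH919.HS
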