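import Pool.Agent.TH919.HS.Fam

namespace Pool.Agent.TH919.HS

open Polynomial Finset NumberField IsDedekindDomain WithZero Pool.Agent.W318

section

variable {M : Type*} [Field M] {A : AbsoluteValue M ℝ} {n : ℕ} {α β : Fin n → M}

theorem prod_two_le {f : Fin n → Fin n → ℝ} (h0 : ∀ i j, 0 ≤ f i j) (h1 : ∀ i j, f i j ≤ 1)
    {i₀ j₀ i₁ j₁ : Fin n} (hi : i₀ ≠ i₁) (hj0 : j₀ ≠ i₀) (hj1 : j₁ ≠ i₁) :
    ∏ i, ∏ j ∈ univ.erase i, f i j ≤ f i₀ j₀ * f i₁ j₁ := by
  classical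
  have hin : ∀ i j, j ≠ i → ∏ j ∈ univ.erase i, f i j ≤ f i j := by
    intro i j hj
    rw [← Finset.mul_prod_erase (univ.erase i) _ (Finset.mem_erase.mpr ⟨hj, mem_univ j⟩)]
    apply mul_le_of_le_one_right (h0 _ _)
    exact Finset.prod_le_one (fun _ _ => h0 _ _) fun _ _ => h1 _ _
  have hin1 : ∀ i, ∏ j ∈ univ.erase i, f i j ≤ 1 := fun i =>
    Finset.prod_le_one (fun _ _ => h0 _ _) fun _ _ => h1 _ _
  have hin0 : ∀ i, 0 ≤ ∏ j ∈ univ.erase i, f i j := fun i => Finset.prod_nonneg fun _ _ => h0 _ _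
  set G : Fin n → ℝ := fun i => ∏ j ∈ univ.erase i, f i j with hG
  have h3 : ∏ i ∈ (univ.erase i₀).erase i₁, G i ≤ 1 :=
    Finset.prod_le_one (fun _ _ => hin0 _) fun _ _ => hin1 _
  have h4 : ∏ i, G i = G i₀ * (G i₁ * ∏ i ∈ (univ.erase i₀).erase i₁, G i) := by
    rw [Finset.mul_prod_erase (univ.erase i₀) G (Finset.mem_erase.mpr ⟨hi.symm, mem_univ i₁⟩),
      Finset.mul_prod_erase univ G (mem_univ i₀)]
  rw [h4]
  calc _ ≤ G i₀ * (G i₁ * 1) := by
        apply mul_le_mul_of_nonneg_left _ (hin0 _)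
        exact mul_le_mul_of_nonneg_left h3 (hin0 _)
    _ ≤ _ := by
        rw [mul_one]
        exact mul_le_mul (hin _ _ hj0) (hin _ _ hj1) (hin0 _) (h0 _ _)

/-- The discriminant of an integral form is bounded by a cross ratio. -/
theorem disc_le_cr (hna : IsNonarchimedean A) {u : M} (hint : A u * ∏ i, mx A α β i ≤ 1)
    (hne : ∀ i j, i ≠ j → br α β i j ≠ 0)
    {i₀ j₀ i₁ j₁ : Fin n} (hi : i₀ ≠ i₁) (hj0 : j₀ ≠ i₀) (hj1 : j₁ ≠ i₁) (hj : j₀ ≠ j₁) :
    A u ^ (2 * (n - 1)) * ∏ i, ∏ j ∈ univ.erase i, A (br α β i j) ≤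
      A (cr α β i₀ j₀ i₁ j₁) := by
  have hpos : ∀ i, 0 < mx A α β i := by
    intro i
    by_cases h : i = i₀
    · rw [h]; exact mx_pos hna (hne i₀ i₁ hi)
    · exact mx_pos hna (hne i i₀ h)
  set f : Fin n → Fin n → ℝ := fun i j => A (br α β i j) / (mx A α β i * mx A α β j) with hf
  have hf0 : ∀ i j, 0 ≤ f i j := fun i j =>
    div_nonneg (A.nonneg _) (mul_nonneg (mx_nonneg _) (mx_nonneg _))
  have hf1 : ∀ i j, f i j ≤ 1 := fun i j =>
    div_le_one_of_le₀ (br_le hna i j) (mul_nonneg (mx_nonneg _) (mx_nonneg _))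
  refine (disc_upper hint f hf0 fun i j _ => ?_).trans ?_
  · have : mx A α β i * mx A α β j ≠ 0 := (mul_pos (hpos i) (hpos j)).ne'
    simp only [hf]
    rw [mul_div_cancel₀ _ this]
  refine (prod_two_le hf0 hf1 hi hj0 hj1).trans ?_
  have h1 : f i₀ j₀ * f i₁ j₁ = A (cr α β i₀ j₀ i₁ j₁) * (f i₀ i₁ * f j₀ j₁) := by
    simp only [hf, cr, map_div₀, map_mul]
    have e1 := (hpos i₀).ne'
    have e2 := (hpos i₁).ne'
    have e3 := (hpos j₀).ne'
    have e4 := (hpos j₁).ne'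
    have e5 := (A.pos (hne i₀ i₁ hi)).ne'
    have e6 := (A.pos (hne j₀ j₁ hj)).ne'
    field_simp
  rw [h1]
  exact mul_le_of_le_one_right (A.nonneg _) (mul_le_one₀ (hf1 _ _) (hf0 _ _) (hf1 _ _))

end

theorem fam_map {k k' : Type*} [Field k] [Field k'] (f : k →+* k') (g : ℕ) (x : k) :
    (fam g x).map f = fam g (f x) := by
  simp [fam]

section

variable {K : Type} [Field K] [NumberField K]

theorem Compat.eq_one_iff {M : Type} [Field M] [NumberField M] [Algebra K M]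
    {v : HeightOneSpectrum (𝓞 K)} {W : HeightOneSpectrum (𝓞 M)} {E : ℕ} (hc : Compat v W E)
    (x : K) : absW W (algebraMap K M x) = 1 ↔ v.valuation K x = 1 := by
  have h1 := hc.le_iff x 1
  have h2 := hc.le_iff 1 x
  simp only [map_one] at h1 h2
  rw [le_antisymm_iff, le_antisymm_iff, h1, h2]

theorem fam_good {g : ℕ} (hg : 1 ≤ g) {x : K} (h0 : x ≠ 0) (h1 : x ≠ 1)
    (v : HeightOneSpectrum (𝓞 K)) (h2 : v.valuation K ((2 : ℕ) : K) = 1)
    (hn : v.valuation K ((g + 1 : ℕ) : K) = 1) (hx : v.valuation K x = 1)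
    (hx1 : v.valuation K (1 - x) = 1) : minExp g (fam g x) v = 0 := by
  classical
  have hF := fam_isHyp g h0 h1
  obtain ⟨M, _, _, _, _, hsplit, _, _⟩ := exists_split hF.1
  obtain ⟨W, hW⟩ := exists_prime_over (M := M) v
  have hc := compat_of_liesOver v W
  have hna := absW_na W
  rw [fam_map] at hsplit
  obtain ⟨R, ρ, hR, hρ⟩ := exists_rts g hsplit
  have hAx : absW W (algebraMap K M x) = 1 := (Compat.eq_one_iff hc x).mpr hx
  have hAρ : absW W ρ = 1 := by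
    rw [← hρ, map_pow] at hAx
    exact (pow_eq_one_iff_of_nonneg ((absW W).nonneg _) (by omega)).mp hAx
  have hρ0 : ρ ≠ 0 := by
    rintro rfl
    rw [map_zero] at hAρ
    exact zero_ne_one hAρ
  have hAn : absW W ((g + 1 : ℕ) : M) = 1 := by
    have := (Compat.eq_one_iff hc ((g + 1 : ℕ) : K)).mpr hn
    rwa [map_natCast] at this
  have hA1x : absW W (1 - ρ ^ (g + 1)) = 1 := by
    have := (Compat.eq_one_iff hc (1 - x)).mpr hx1
    rwa [map_sub, map_one, ← hρ] at this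
  have hbr : ∀ i j, i ≠ j → absW W (br (fun _ => 1) (bet R ρ) i j) = 1 := fun i j hij =>
    br_fam hR hna hAn hAρ hA1x hij
  have hne : ∀ i j, i ≠ j → (1 : M) * bet R ρ j - 1 * bet R ρ i ≠ 0 := by
    intro i j hij h
    have h3 := hbr i j hij
    unfold br at h3
    rw [h, map_zero] at h3
    exact zero_ne_one h3
  have hd := abs_discN_prod_lin (absW W) (one_ne_zero : (1 : M) ≠ 0) (fun _ => 1) (bet R ρ) hne
    (by rw [Fintype.card_fin]; omega)
  rw [Fintype.card_fin, ← fam_factor hR hρ0, hρ, ← fam_map, discN_map] at hd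
  have hone : absW W (algebraMap K M (discN (g + 1 + (g + 1)) (fam g x))) = 1 := by
    rw [hd, map_one, one_pow, one_mul]
    apply Finset.prod_eq_one
    intro i _
    apply Finset.prod_eq_one
    intro j hj
    exact hbr i j (Finset.ne_of_mem_erase hj).symm
  rw [Compat.eq_one_iff hc] at hone
  have hd' : (fam g x).natDegree ≤ g + 1 + (g + 1) := by have := hF.2; omega
  obtain ⟨k, hk, _, hle⟩ := minExp_le hF v (Eqv.refl hd') (fam_coeff_le g v hx.le) (t := 0)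
    (by rw [← Nat.cast_ofNat, h2]; simp)
  rw [hone, ← exp_zero, exp_inj] at hk
  omega

theorem fam_lower {g : ℕ} (hg : 2 ≤ g) {x : K} (h0 : x ≠ 0) (h1 : x ≠ 1)
    (v : HeightOneSpectrum (𝓞 K)) (hlt : v.valuation K (1 - x) < 1) :
    ordAbs v (1 - x) ≤ (g + 1) * (minExp g (fam g x) v + (4 * g + 4) * ordAbs v ((2 : ℕ) : K) +
      2 * ordAbs v ((g + 1 : ℕ) : K)) := by
  classical
  have hF := fam_isHyp g h0 h1
  obtain ⟨M, _, _, _, _, hsplit, _, _⟩ := exists_split hF.1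
  obtain ⟨W, hW⟩ := exists_prime_over (M := M) v
  have hc := compat_of_liesOver v W
  have hna := absW_na W
  rw [fam_map] at hsplit
  obtain ⟨R, ρ₀, hR, hρ₀⟩ := exists_rts g hsplit
  set φ := algebraMap K M with hφ
  set E := v.asIdeal.ramificationIdx' W.asIdeal with hE
  have h1x : (1 : K) - x ≠ 0 := sub_ne_zero.mpr h1.symm
  obtain ⟨k, hk⟩ := exists_exp v h1x
  have hk0 : k < 0 := by
    rw [hk, ← exp_zero, exp_lt_exp] at hlt
    exact hlt
  have hA1x : absW W (1 - φ x) = 2 ^ (k * E) := by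
    have := hc.2 _ _ hk
    rwa [map_sub, map_one] at this
  have hE1 : (1 : ℤ) ≤ E := by exact_mod_cast hc.1
  have hA1x1 : absW W (1 - φ x) < 1 := by
    rw [hA1x]
    apply zpow_lt_one_of_neg₀ (by norm_num)
    nlinarith
  have hAx : absW W (φ x) = 1 := by
    have h3 : absW W (1 - (1 - φ x)) = absW W 1 := na_sub_eq hna (by rw [map_one]; exact hA1x1)
    rwa [sub_sub_cancel, map_one] at h3
  have hc0 : 0 < absW W (1 - φ x) := by rw [hA1x]; positivity
  -- the good root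
  obtain ⟨j, hj⟩ : ∃ j, absW W (ρ₀ - R j) ^ (g + 1) ≤ absW W (1 - φ x) := by
    by_contra hcon
    push Not at hcon
    have h3 : ∏ _j : Fin (g + 1), absW W (1 - φ x) < ∏ j, absW W (ρ₀ - R j) ^ (g + 1) :=
      Finset.prod_lt_prod_of_nonempty (fun _ _ => hc0) (fun j _ => hcon j)
        ⟨0, Finset.mem_univ _⟩
    have h4 : ∏ j, absW W (ρ₀ - R j) ^ (g + 1) = absW W (1 - φ x) ^ (g + 1) := by
      rw [Finset.prod_pow, ← map_prod, ← hR.eval, hρ₀, map_sub_rev]
    rw [h4, Finset.prod_const, Finset.card_univ, Fintype.card_fin] at h3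
    exact lt_irrefl _ h3
  set ρ := ρ₀ / R j with hρdef
  have hRj0 : R j ≠ 0 := by
    intro h
    have := hR.abs_eq_one (A := absW W) j
    rw [h, map_zero] at this
    exact zero_ne_one this
  have hρ : ρ ^ (g + 1) = φ x := by
    rw [hρdef, div_pow, hR.pow, div_one, hρ₀]
  have hAρ : absW W ρ = 1 := by
    rw [← hρ, map_pow] at hAx
    exact (pow_eq_one_iff_of_nonneg ((absW W).nonneg _) (by omega)).mp hAx
  have hρ0 : ρ ≠ 0 := by
    intro h
    rw [h, map_zero] at hAρ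
    exact zero_ne_one hAρ
  have hA1ρ : absW W (1 - ρ) ^ (g + 1) ≤ absW W (1 - φ x) := by
    have : 1 - ρ = -((ρ₀ - R j) / R j) := by
      rw [hρdef]
      field_simp
      ring
    rw [this, map_neg_eq_map, map_div₀, hR.abs_eq_one, div_one]
    exact hj
  have hρ1 : 1 - ρ ≠ 0 := by
    intro h
    have h3 : ρ = 1 := by linear_combination -h
    rw [h3, one_pow] at hρ
    rw [← hρ, sub_self, map_zero] at hc0
    exact lt_irrefl _ hc0
  -- the indices
  set a : Fin (g + 1) := ⟨0, by omega⟩ with ha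
  set b : Fin (g + 1) := ⟨1, by omega⟩ with hb
  have hab : a ≠ b := by simp [ha, hb]
  set i₀ := Fin.castAdd (g + 1) a with hi₀
  set j₀ := Fin.natAdd (g + 1) a with hj₀
  set i₁ := Fin.castAdd (g + 1) b with hi₁
  set j₁ := Fin.natAdd (g + 1) b with hj₁
  have e1 : i₀ ≠ i₁ := by simp [hi₀, hi₁, ha, hb, Fin.ext_iff]
  have e2 : j₀ ≠ i₀ := by simp [hi₀, hj₀, ha, Fin.ext_iff]
  have e3 : j₁ ≠ i₁ := by simp [hi₁, hj₁, hb, Fin.ext_iff]
  have e4 : j₀ ≠ j₁ := by simp [hj₀, hj₁, ha, hb, Fin.ext_iff]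
  -- the form
  obtain ⟨F', ⟨a', b', c', d', l, hdet, hl, hF'⟩, hint, hdisc⟩ := model_form hg hF v
  have hdet' : φ a' * φ d' - φ b' * φ c' ≠ 0 := by
    rw [← map_mul, ← map_mul, ← map_sub, Ne, map_eq_zero]
    exact hdet
  have hl' : φ l ≠ 0 := by rwa [Ne, map_eq_zero]
  have hfac : (fam g x).map φ = C 1 * ∏ i, (C ((fun _ => 1 : Fin (g + 1 + (g + 1)) → M) i) * X +
      C (bet R ρ i)) := by
    rw [fam_map, ← hρ]
    exact fam_factor hR hρ0
  set α₁ : Fin (g + 1 + (g + 1)) → M := fun i => (fun _ => 1 : Fin (g + 1 + (g + 1)) → M) i * φ a' +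
    bet R ρ i * φ c' with hα₁
  set β₁ : Fin (g + 1 + (g + 1)) → M := fun i => (fun _ => 1 : Fin (g + 1 + (g + 1)) → M) i * φ b' +
    bet R ρ i * φ d' with hβ₁
  have hmap : F'.map φ = C (φ l ^ 2 * 1) * ∏ i, (C (α₁ i) * X + C (β₁ i)) := by
    rw [hF', Polynomial.map_mul, Polynomial.map_C, map_pow, act_map, hfac, sq_act_prod hdet']
  have hgoodM := (hF.good.map φ)
  have hneM : ∀ i j, i ≠ j → br (fun _ => (1 : M)) (bet R ρ) i j ≠ 0 := by
    obtain ⟨u', α', β', hu', _, hne', hfac'⟩ := exists_factor_form (M := M)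
      AbsoluteValue.trivial (by omega : 1 ≤ g + 1) hF.good.2 hF.1 (by rw [fam_map]; exact hsplit)
    intro i j hij h
    have h3 : bet R ρ i = bet R ρ j := by
      unfold br at h
      linear_combination -h
    -- a double root contradicts squarefreeness
    have hsq := hgoodM.1
    rw [hfac] at hsq
    have hdvd : (X + C (bet R ρ i)) * (X + C (bet R ρ i)) ∣
        C 1 * ∏ i, (C ((fun _ => 1 : Fin (g + 1 + (g + 1)) → M) i) * X + C (bet R ρ i)) := by
      rw [← Finset.mul_prod_erase univ _ (mem_univ i),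
        ← Finset.mul_prod_erase (univ.erase i) _ (Finset.mem_erase.mpr ⟨Ne.symm hij, mem_univ j⟩),
        ← h3]
      simp only [C_1, one_mul]
      rw [← mul_assoc]
      exact Dvd.intro _ rfl
    have hun := hsq _ hdvd
    exact not_isUnit_X_add_C _ hun
  have hne₁ : ∀ i j, i ≠ j → br α₁ β₁ i j ≠ 0 := by
    intro i j hij
    rw [hα₁, hβ₁, br_act]
    exact mul_ne_zero hdet' (hneM i j hij)
  have hint' : absW W (φ l ^ 2 * 1) * ∏ i, mx (absW W) α₁ β₁ i ≤ 1 := by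
    have h1 := (hc.int_iff F').mpr hint
    rw [← hφ, hmap, gaussNorm_prod_lin hna] at h1
    exact h1
  have hd := abs_discN_prod_lin (absW W) (mul_ne_zero (pow_ne_zero 2 hl') one_ne_zero) α₁ β₁
    (fun i j hij => hne₁ i j hij) (by rw [Fintype.card_fin]; omega)
  rw [Fintype.card_fin, ← hmap, discN_map, hc.2 _ _ hdisc] at hd
  have hle := disc_le_cr hna hint' hne₁ e1 e2 e3 e4
  have hd2 : (2 : ℝ) ^ (-((minExp g (fam g x) v + (4 * g + 4) * ordAbs v ((2 : ℕ) : K) : ℕ) : ℤ) *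
      E) ≤ absW W (cr α₁ β₁ i₀ j₀ i₁ j₁) := by
    rw [hd]; exact hle
  rw [hα₁, hβ₁, cr_act _ _ hdet'] at hd2
  -- the cross ratio
  have hcr : absW W (cr (fun _ => 1) (bet R ρ) i₀ j₀ i₁ j₁) * absW W ((g + 1 : ℕ) : M) ^ 2 ≤
      absW W (1 - ρ) ^ 2 := by
    have hval : cr (fun _ => 1) (bet R ρ) i₀ j₀ i₁ j₁ =
        R a * R b * (1 - ρ) ^ 2 / (ρ * (R a - R b) ^ 2) := by
      unfold cr br
      rw [hi₀, hi₁, hj₀, hj₁, bet_castAdd, bet_castAdd, bet_natAdd, bet_natAdd]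
      congr 1 <;> ring
    rw [hval, map_div₀, map_mul, map_mul, map_mul, map_pow, map_pow, hR.abs_eq_one,
      hR.abs_eq_one, hAρ, one_mul, one_mul, one_mul]
    have h3 := hR.abs_diff_ge hna hab
    have h4 : 0 < absW W ((g + 1 : ℕ) : M) := (absW W).pos (Nat.cast_ne_zero.mpr (by omega))
    have h5 : 0 < absW W (R a - R b) := h4.trans_le h3
    rw [div_mul_eq_mul_div, div_le_iff₀ (by positivity)]
    apply mul_le_mul_of_nonneg_left _ (by positivity)
    exact pow_le_pow_left₀ h4.le h3 2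
  have hAn : absW W ((g + 1 : ℕ) : M) = 2 ^ (-(ordAbs v ((g + 1 : ℕ) : K) : ℤ) * E) := by
    have := hc.2 _ _ (val_nat_exp v (n := g + 1) (by omega))
    rwa [map_natCast] at this
  set D := minExp g (fam g x) v + (4 * g + 4) * ordAbs v ((2 : ℕ) : K) with hD
  set s := ordAbs v ((g + 1 : ℕ) : K) with hs
  have hfin : ((2 : ℝ) ^ (-(D : ℤ) * E) * ((2 : ℝ) ^ (-(s : ℤ) * E)) ^ 2) ^ (g + 1) ≤
      ((2 : ℝ) ^ (k * E)) ^ 2 := by
    rw [← hAn]
    calc _ ≤ (absW W (1 - ρ) ^ 2) ^ (g + 1) := by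
          apply pow_le_pow_left₀ (by positivity)
          refine le_trans ?_ hcr
          exact mul_le_mul_of_nonneg_right hd2 (by positivity)
      _ = (absW W (1 - ρ) ^ (g + 1)) ^ 2 := by rw [← pow_mul, ← pow_mul, mul_comm]
      _ ≤ (absW W (1 - φ x)) ^ 2 := pow_le_pow_left₀ (pow_nonneg ((absW W).nonneg _) _) hA1ρ 2
      _ = _ := by rw [hA1x]
  rw [← zpow_natCast, ← zpow_natCast, ← zpow_mul, ← zpow_add₀ (by norm_num : (2 : ℝ) ≠ 0),
    ← zpow_mul, ← zpow_natCast, ← zpow_mul, zpow_le_zpow_iff_right₀ (by norm_num)] at hfin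
  rw [ordAbs_of_exp hk]
  push_cast at hfin
  have hfin2 : (E : ℤ) * (-2 * k) ≤ E * ((g + 1) * (D + 2 * s)) := by
    linarith
  have hfin3 : -2 * k ≤ ((g : ℤ) + 1) * (D + 2 * s) := le_of_mul_le_mul_left hfin2 (by omega)
  have h5 : ((k.natAbs : ℕ) : ℤ) = -k := by omega
  have h6 : ((k.natAbs : ℕ) : ℤ) ≤ (((g + 1) * (D + 2 * s) : ℕ) : ℤ) := by
    rw [h5]
    push_cast
    linarith
  exact_mod_cast h6

end

end Pool.Agent.TH919.HS
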