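import Pool.Agent.TH919.HS.Backward

namespace Pool.Agent.TH919.HS

open Polynomial Finset NumberField IsDedekindDomain WithZero Pool.Agent.W318

section

variable {K : Type} [Field K] [NumberField K]

theorem one_le_badNorm {g : ℕ} {F : K[X]} (hF : IsHyp g F) : 1 ≤ badNorm g F := by
  rw [badNorm_eq (finite_bad hF).toFinset (fun v => by simp)]
  exact Finset.one_le_prod' fun v _ => one_le_absNorm v

theorem radK_eq {x : K} (T : Finset (HeightOneSpectrum (𝓞 K)))
    (hT : ∀ v, v ∈ T ↔ (ordAbs v x ≠ 0 ∨ ordAbs v (1 - x) ≠ 0)) :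
    radK x = ∏ v ∈ T, Ideal.absNorm v.asIdeal := by
  classical
  unfold radK
  rw [finprod_eq_prod_of_mulSupport_subset (s := T)]
  · refine Finset.prod_congr rfl fun v hv => ?_
    rw [if_neg]
    rintro ⟨h1, h2⟩
    rcases (hT v).mp hv with h | h
    · exact h h1
    · exact h h2
  · intro v hv
    rw [Function.mem_mulSupport] at hv
    rw [Finset.mem_coe, hT]
    by_contra h0
    push Not at h0
    rw [if_pos h0] at hv
    exact hv rfl

theorem one_le_radK {x : K} (h0 : x ≠ 0) (h1 : x ≠ 1) : 1 ≤ radK x := by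
  rw [radK_eq (finite_phi h0 h1).toFinset (fun v => by simp)]
  exact Finset.one_le_prod' fun v _ => one_le_absNorm v

/-- `∏ N_v ≤ n ^ [K : ℚ]` over places with `v(n) ≠ 0`. -/
theorem prod_dvd_nat_le (T : Finset (HeightOneSpectrum (𝓞 K))) {n : ℕ} (hn : n ≠ 0)
    (hT : ∀ v ∈ T, v.valuation K (n : K) ≠ 1) :
    ∏ v ∈ T, Ideal.absNorm v.asIdeal ≤ n ^ Module.finrank ℚ K := by
  refine le_trans ?_ (prod_norm_nat_le T hn)
  apply Finset.prod_le_prod' fun v hv => ?_
  calc Ideal.absNorm v.asIdeal = Ideal.absNorm v.asIdeal ^ 1 := (pow_one _).symm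
    _ ≤ _ := by
      apply Nat.pow_le_pow_right (one_le_absNorm v)
      rw [Nat.one_le_iff_ne_zero, Ne, ordAbs_eq_zero_iff (Nat.cast_ne_zero.mpr hn)]
      exact hT v hv

theorem badNorm_fam_le {g : ℕ} (hg : 1 ≤ g) {x y : K} (h0 : x ≠ 0) (h1 : x ≠ 1) (hy0 : y ≠ 0)
    (hy1 : y ≠ 1) (hxy : ∀ v : HeightOneSpectrum (𝓞 K), v.valuation K x = 1 →
      v.valuation K (1 - x) = 1 → v.valuation K y = 1 ∧ v.valuation K (1 - y) = 1) :
    badNorm g (fam g y) ≤ 2 ^ Module.finrank ℚ K * (g + 1) ^ Module.finrank ℚ K * radK x := by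
  classical
  have hF := fam_isHyp g hy0 hy1
  set B := (finite_bad hF).toFinset with hB
  have hBmem : ∀ v, v ∈ B ↔ minExp g (fam g y) v ≠ 0 := fun v => by simp [hB]
  set U := (finite_phi h0 h1).toFinset with hU
  have hUmem : ∀ v, v ∈ U ↔ (ordAbs v x ≠ 0 ∨ ordAbs v (1 - x) ≠ 0) := fun v => by simp [hU]
  have h1x : (1 : K) - x ≠ 0 := sub_ne_zero.mpr h1.symm
  rw [badNorm_eq B hBmem, radK_eq U hUmem]
  set B1 := B.filter (fun v => v.valuation K ((2 : ℕ) : K) ≠ 1) with hB1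
  set B2 := B.filter (fun v => v.valuation K ((g + 1 : ℕ) : K) ≠ 1) with hB2
  have hsub : B ⊆ (B1 ∪ B2) ∪ U := by
    intro v hv
    by_contra hcon
    simp only [Finset.mem_union, not_or, hB1, hB2, Finset.mem_filter, not_and, not_not] at hcon
    obtain ⟨⟨h3, h4⟩, h5⟩ := hcon
    rw [hUmem] at h5
    push Not at h5
    rw [ordAbs_eq_zero_iff h0, ordAbs_eq_zero_iff h1x] at h5
    obtain ⟨h6, h7⟩ := hxy v h5.1 h5.2
    exact (hBmem v).mp hv (fam_good hg hy0 hy1 v (h3 hv) (h4 hv) h6 h7)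
  have hun : ∀ X Y : Finset (HeightOneSpectrum (𝓞 K)),
      ∏ v ∈ X ∪ Y, Ideal.absNorm v.asIdeal ≤ (∏ v ∈ X, Ideal.absNorm v.asIdeal) *
        ∏ v ∈ Y, Ideal.absNorm v.asIdeal := by
    intro X Y
    rw [← Finset.prod_union_inter]
    exact Nat.le_mul_of_pos_right _ (Finset.prod_pos fun v _ => one_le_absNorm v)
  calc ∏ v ∈ B, Ideal.absNorm v.asIdeal ≤ ∏ v ∈ (B1 ∪ B2) ∪ U, Ideal.absNorm v.asIdeal :=
        Finset.prod_le_prod_of_subset_of_one_le' hsub fun v _ _ => one_le_absNorm v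
    _ ≤ (∏ v ∈ B1 ∪ B2, Ideal.absNorm v.asIdeal) * ∏ v ∈ U, Ideal.absNorm v.asIdeal := hun _ _
    _ ≤ _ := by
        refine Nat.mul_le_mul_right _ ((hun _ _).trans (Nat.mul_le_mul ?_ ?_))
        · exact prod_dvd_nat_le B1 (by norm_num) fun v hv => (Finset.mem_filter.mp hv).2
        · exact prod_dvd_nat_le B2 (by omega) fun v hv => (Finset.mem_filter.mp hv).2

theorem abcOver_of_szpiroOver {g : ℕ} (hg : 2 ≤ g) (h : SzpiroOver K g) : ABCOver K := by
  obtain ⟨c, κ, hs⟩ := h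
  set d := Module.finrank ℚ K with hd
  set C := (2 ^ d) ^ (4 * g + 4) * ((g + 1) ^ d) ^ 2 with hC
  refine ⟨(c * (2 ^ d * (g + 1) ^ d) ^ κ * C) ^ (6 * (g + 1)), κ * (6 * (g + 1)), ?_⟩
  intro x h0 h1
  have h1x : (1 : K) - x ≠ 0 := sub_ne_zero.mpr h1.symm
  have h1x' : (1 : K) - x ≠ 1 := by
    intro h
    apply h0
    linear_combination -h
  have hq0 : (x - 1) / x ≠ 0 := div_ne_zero (sub_ne_zero.mpr h1) h0
  have hq1 : (x - 1) / x ≠ 1 := by
    intro h
    rw [div_eq_one_iff_eq h0] at h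
    exact one_ne_zero (by linear_combination -h : (1 : K) = 0)
  have hb : ∀ y : K, y ≠ 0 → y ≠ 1 → (∀ v : HeightOneSpectrum (𝓞 K), v.valuation K x = 1 →
      v.valuation K (1 - x) = 1 → v.valuation K y = 1 ∧ v.valuation K (1 - y) = 1) →
      discNorm g (fam g y) ≤ c * (2 ^ d * (g + 1) ^ d) ^ κ * radK x ^ κ := by
    intro y hy0 hy1 hxy
    refine (hs _ (fam_isHyp g hy0 hy1)).trans ?_
    calc c * badNorm g (fam g y) ^ κ ≤ c * (2 ^ d * (g + 1) ^ d * radK x) ^ κ :=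
          Nat.mul_le_mul_left _ (Nat.pow_le_pow_left
            (badNorm_fam_le (by omega) h0 h1 hy0 hy1 hxy) _)
      _ = _ := by rw [mul_pow]; ring
  refine (phi_le hg h0 h1 (C := C) le_rfl (hb x h0 h1 fun v h2 h3 => ⟨h2, h3⟩)
    (hb _ h1x h1x' fun v h2 h3 => (val_three h2 h3).1)
    (hb _ hq0 hq1 fun v h2 h3 => (val_three h2 h3).2)).trans ?_
  apply le_of_eq
  rw [mul_right_comm, mul_pow, ← pow_mul]

end

section

variable {K L : Type} [Field K] [NumberField K] [Field L] [NumberField L] [Algebra K L]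

theorem prod_over_le (v : HeightOneSpectrum (𝓞 K)) {T : Finset (HeightOneSpectrum (𝓞 L))}
    (hT : ∀ w, w ∈ T ↔ w.asIdeal.LiesOver v.asIdeal)
    (hsum : ∑ w ∈ T, v.asIdeal.ramificationIdx' w.asIdeal * v.asIdeal.inertiaDeg' w.asIdeal =
        Module.finrank K L) :
    ∏ w ∈ T, Ideal.absNorm w.asIdeal ≤ Ideal.absNorm v.asIdeal ^ Module.finrank K L := by
  have h1 : ∀ w ∈ T, Ideal.absNorm w.asIdeal =
      Ideal.absNorm v.asIdeal ^ (v.asIdeal.inertiaDeg' w.asIdeal) := by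
    intro w hw
    have := (hT w).mp hw
    exact Ideal.absNorm_eq_pow_inertiaDeg'_of_liesOver w.asIdeal v.asIdeal v.isPrime v.ne_bot
  rw [Finset.prod_congr rfl h1, Finset.prod_pow_eq_pow_sum]
  apply Nat.pow_le_pow_right (one_le_absNorm v)
  rw [← hsum]
  refine Finset.sum_le_sum fun w hw => ?_
  have := (hT w).mp hw
  exact Nat.le_mul_of_pos_left _ (ram_pos v w)

/-- The norm of a set of bad places of `L`. -/
theorem prod_bad_le {g : ℕ} {F : K[X]} (hF : IsHyp g F)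
    (T : Finset (HeightOneSpectrum (𝓞 L)))
    (hT : ∀ w ∈ T, w.valuation L ((2 : ℕ) : L) ≠ 1 ∨ ∃ v : HeightOneSpectrum (𝓞 K),
      w.asIdeal.LiesOver v.asIdeal ∧ minExp g F v ≠ 0) :
    ∏ w ∈ T, Ideal.absNorm w.asIdeal ≤
      2 ^ Module.finrank ℚ L * badNorm g F ^ Module.finrank K L := by
  classical
  set B := (finite_bad hF).toFinset with hB
  have hBmem : ∀ v, v ∈ B ↔ minExp g F v ≠ 0 := fun v => by simp [hB]
  choose U hU hsum using fun v : HeightOneSpectrum (𝓞 K) => exists_over (L := L) v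
  set T1 := T.filter (fun w => w.valuation L ((2 : ℕ) : L) ≠ 1) with hT1
  have hsub : T ⊆ T1 ∪ B.biUnion U := by
    intro w hw
    rw [Finset.mem_union]
    rcases hT w hw with h | ⟨v, h1, h2⟩
    · left; exact Finset.mem_filter.mpr ⟨hw, h⟩
    · right
      rw [Finset.mem_biUnion]
      exact ⟨v, (hBmem v).mpr h2, (hU v w).mpr h1⟩
  have hdisj : (B : Set (HeightOneSpectrum (𝓞 K))).PairwiseDisjoint U := by
    intro v _ v' _ hne
    rw [Function.onFun, Finset.disjoint_left]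
    intro w h1 h2
    apply hne
    have e1 := ((hU v w).mp h1).over
    have e2 := ((hU v' w).mp h2).over
    exact HeightOneSpectrum.ext (by rw [e1, e2])
  rw [badNorm_eq B hBmem]
  calc ∏ w ∈ T, Ideal.absNorm w.asIdeal ≤ ∏ w ∈ T1 ∪ B.biUnion U, Ideal.absNorm w.asIdeal :=
        Finset.prod_le_prod_of_subset_of_one_le' hsub fun v _ _ => one_le_absNorm v
    _ ≤ (∏ w ∈ T1, Ideal.absNorm w.asIdeal) * ∏ w ∈ B.biUnion U, Ideal.absNorm w.asIdeal := by
        rw [← Finset.prod_union_inter]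
        exact Nat.le_mul_of_pos_right _ (Finset.prod_pos fun v _ => one_le_absNorm v)
    _ ≤ _ := by
        refine Nat.mul_le_mul ?_ ?_
        · exact prod_dvd_nat_le T1 (by norm_num) fun v hv => (Finset.mem_filter.mp hv).2
        · rw [Finset.prod_biUnion hdisj, ← Finset.prod_pow]
          exact Finset.prod_le_prod' fun v _ => prod_over_le v (hU v) (hsum v)

theorem split_of_abcOver (h : ABCOver L) {g : ℕ} (hg : 2 ≤ g) : SplitSzpiroOver K L g := by
  classical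
  obtain ⟨c₁, κ₁, habc⟩ := h
  obtain ⟨c₀, hc₀, hglob⟩ := global_ineq K g hg
  set m := Module.finrank K L with hm
  set D := Module.finrank ℚ L with hD
  set n := g + 1 + (g + 1) with hn
  set Q := (quads n).card with hQ
  refine ⟨c₀ ^ m * ((2 ^ D) ^ (4 * g) * ((2 ^ D) ^ (2 * (n - 1)) *
      ((c₁ * (2 ^ D) ^ κ₁) ^ Q) ^ (n * (n - 1)))),
    kap g * m + (m * (2 * (n - 1)) + m * κ₁ * Q * (n * (n - 1))), ?_⟩
  intro F hF hsplit
  obtain ⟨u, α, β, hu, huni, hne', hfac⟩ := exists_factor_form (M := L)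
    AbsoluteValue.trivial (by omega : 1 ≤ g + 1) hF.good.2 hF.1 hsplit
  have hne : ∀ i j, i ≠ j → br α β i j ≠ 0 := fun i j hij => hne' i j hij
  have hFL := isHyp_map (L := L) hF
  set B := (finite_bad hFL).toFinset with hB
  have hBmem : ∀ w, w ∈ B ↔ minExp g (F.map (algebraMap K L)) w ≠ 0 := fun w => by simp [hB]
  -- bad places of L
  have hbadw : ∀ w : HeightOneSpectrum (𝓞 L), ¬ (w.valuation L ((2 : ℕ) : L) ≠ 1 ∨
      ∃ v : HeightOneSpectrum (𝓞 K), w.asIdeal.LiesOver v.asIdeal ∧ minExp g F v ≠ 0) →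
      ∃ v : HeightOneSpectrum (𝓞 K), w.asIdeal.LiesOver v.asIdeal ∧
        v.valuation K ((2 : ℕ) : K) = 1 ∧ minExp g F v = 0 := by
    intro w hw
    push Not at hw
    obtain ⟨v, hvw⟩ := exists_under (K := K) w
    refine ⟨v, hvw, ?_, hw.2 v hvw⟩
    have h1 := (Compat.eq_one_iff (compat_of_liesOver v w) ((2 : ℕ) : K)).symm
    rw [h1, map_natCast, absW_eq_one_iff]
    exact hw.1
  have hBbad : ∀ w ∈ B, w.valuation L ((2 : ℕ) : L) ≠ 1 ∨
      ∃ v : HeightOneSpectrum (𝓞 K), w.asIdeal.LiesOver v.asIdeal ∧ minExp g F v ≠ 0 := by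
    intro w hw
    by_contra hcon
    obtain ⟨v, hvw, h3, h4⟩ := hbadw w hcon
    exact (hBmem w).mp hw (minExp_map_eq_zero hg hF v w h3 h4)
  set M := badNorm g F with hM
  have hM1 : 1 ≤ M := one_le_badNorm hF
  have hphi : ∀ q ∈ quads n, phi (crq α β q) ≤ c₁ * ((2 ^ D) * M ^ m) ^ κ₁ := by
    intro q hq
    have hq0 := crq_ne_zero hne hq
    have hq1 := crq_ne_one hne hq
    refine (habc _ hq0 hq1).trans (Nat.mul_le_mul_left _ (Nat.pow_le_pow_left ?_ _))
    rw [radK_eq (finite_phi hq0 hq1).toFinset (fun v => by simp)]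
    apply prod_bad_le hF
    intro w hw
    by_contra hcon
    obtain ⟨v, hvw, h3, h4⟩ := hbadw w hcon
    obtain ⟨h5, h6⟩ := crq_unit hg hF v w h3 h4 hu hne hfac hq
    rw [Set.Finite.mem_toFinset, Set.mem_ofPred_eq] at hw
    rcases hw with h | h
    · exact h ((ordAbs_eq_zero_iff hq0).mpr h5)
    · exact h ((ordAbs_eq_zero_iff (sub_ne_zero.mpr hq1.symm)).mpr h6)
  have hsp : discNorm g (F.map (algebraMap K L)) ≤ (2 ^ D) ^ (4 * g) *
      ((2 ^ D * M ^ m) ^ (2 * (n - 1)) *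
        ((c₁ * ((2 ^ D) * M ^ m) ^ κ₁) ^ Q) ^ (n * (n - 1))) := by
    rw [discNorm_eq B (fun w hw => (hBmem w).mpr hw)]
    calc ∏ w ∈ B, Ideal.absNorm w.asIdeal ^ minExp g (F.map (algebraMap K L)) w
        ≤ ∏ w ∈ B, (Ideal.absNorm w.asIdeal ^ ordAbs w ((2 : ℕ) : L)) ^ (4 * g) *
            (Ideal.absNorm w.asIdeal ^ (2 * (n - 1)) *
            (∏ q ∈ quads n, Ideal.absNorm w.asIdeal ^ ordAbs w (crq α β q)) ^
              (n * (n - 1))) := by
          apply Finset.prod_le_prod' fun w _ => ?_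
          rw [Finset.prod_pow_eq_pow_sum, ← pow_mul, ← pow_mul, ← pow_add, ← pow_add]
          apply Nat.pow_le_pow_right (one_le_absNorm w)
          have := local_upper (by omega : 1 ≤ g) hFL hu hne hfac w
          refine this.trans (le_of_eq ?_)
          ring
      _ = (∏ w ∈ B, Ideal.absNorm w.asIdeal ^ ordAbs w ((2 : ℕ) : L)) ^ (4 * g) *
            ((∏ w ∈ B, Ideal.absNorm w.asIdeal) ^ (2 * (n - 1)) *
            (∏ q ∈ quads n, ∏ w ∈ B, Ideal.absNorm w.asIdeal ^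
              ordAbs w (crq α β q)) ^ (n * (n - 1))) := by
          rw [Finset.prod_mul_distrib, Finset.prod_mul_distrib, Finset.prod_pow, Finset.prod_pow,
            Finset.prod_pow, Finset.prod_comm]
      _ ≤ _ := by
          refine Nat.mul_le_mul ?_ (Nat.mul_le_mul ?_ ?_)
          · exact Nat.pow_le_pow_left (prod_norm_nat_le B (by norm_num)) _
          · exact Nat.pow_le_pow_left (prod_bad_le hF B hBbad) _
          · refine Nat.pow_le_pow_left ?_ _
            refine (Finset.prod_le_pow_card _ _ _ fun q hq => ?_)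
            exact (prod_le_phi (crq_ne_zero hne hq) (crq_ne_one hne hq) B).trans (hphi q hq)
  have hDC := one_le_discNorm hF
  have hfr : 1 ≤ m := by
    have : FiniteDimensional K L := by
      have : IsScalarTower ℚ K L := IsScalarTower.of_algebraMap_eq fun x => by simp
      exact Module.Finite.of_restrictScalars_finite ℚ K L
    exact Nat.succ_le_of_lt Module.finrank_pos
  calc discNorm g F = discNorm g F ^ 1 := (pow_one _).symm
    _ ≤ discNorm g F ^ m := Nat.pow_le_pow_right hDC hfr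
    _ ≤ (c₀ * M ^ kap g) ^ m * discNorm g (F.map (algebraMap K L)) := hglob F hF L
    _ ≤ (c₀ * M ^ kap g) ^ m * ((2 ^ D) ^ (4 * g) *
      ((2 ^ D * M ^ m) ^ (2 * (n - 1)) *
        ((c₁ * ((2 ^ D) * M ^ m) ^ κ₁) ^ Q) ^ (n * (n - 1)))) := Nat.mul_le_mul_left _ hsp
    _ = _ := by
        simp only [mul_pow, pow_add, ← pow_mul]
        ring

end

end Pool.Agent.TH919.HS
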