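import Pool.Agent.TH919.HS.Dbl5

namespace Pool.Agent.TH919.HS

open Polynomial Finset NumberField IsDedekindDomain WithZero Pool.Agent.W318

section

variable {K : Type} [Field K] [NumberField K]

/-- The denominator of `j` from lower bounds for the ratios of the `2`-torsion differences. -/
theorem nj_le_of_hlow {W : WeierstrassCurve K} (hΔ : W.Δ ≠ 0) (v : HeightOneSpectrum (𝓞 K))
    {M : Type} [Field M] [NumberField M] [Algebra K M] (V : HeightOneSpectrum (𝓞 M))
    [V.asIdeal.LiesOver v.asIdeal] {e : Fin 3 → M} (he : TT W e) (B : ℕ)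
    (hlow : ∀ a b c' : Fin 3, a ≠ b → a ≠ c' → b ≠ c' →
      (2 : ℝ) ^ (-((B * v.asIdeal.ramificationIdx' V.asIdeal : ℕ) : ℤ)) ≤
        absW V ((e a - e b) / (e a - e c'))) :
    nj v (W.c₄ ^ 3 / W.Δ) ≤ 4 * B := by
  have hc := compat_of_liesOver v V
  set E := v.asIdeal.ramificationIdx' V.asIdeal with hE
  have hee : ∀ i j, i ≠ j → e i ≠ e j := fun i j hij => he.ne hΔ hij
  have h10 : e 1 - e 0 ≠ 0 := sub_ne_zero.mpr (hee 1 0 (by decide))
  have h20 : e 2 - e 0 ≠ 0 := sub_ne_zero.mpr (hee 2 0 (by decide))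
  have h12 : e 1 - e 2 ≠ 0 := sub_ne_zero.mpr (hee 1 2 (by decide))
  have hl0 : lam e ≠ 0 := div_ne_zero h20 h10
  have hl1 : 1 - lam e ≠ 0 := by rw [one_sub_lam h10]; exact div_ne_zero h12 h10
  have ho1 : ordAbs V (lam e) ≤ B * E := by
    apply ordAbs_le_of V hl0
    · have h1 := hlow 0 2 1 (by decide) (by decide) (by decide)
      have h2 : (e 0 - e 2) / (e 0 - e 1) = lam e := by
        unfold lam
        rw [← neg_sub (e 2), ← neg_sub (e 1), neg_div_neg_eq]
      rwa [h2] at h1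
    · have h1 := hlow 0 1 2 (by decide) (by decide) (by decide)
      have h2 : (e 0 - e 1) / (e 0 - e 2) = (lam e)⁻¹ := by
        unfold lam
        rw [inv_div, ← neg_sub (e 2), ← neg_sub (e 1), neg_div_neg_eq]
      rwa [h2] at h1
  have ho2 : ordAbs V (1 - lam e) ≤ B * E := by
    apply ordAbs_le_of V hl1
    · have h1 := hlow 1 2 0 (by decide) (by decide) (by decide)
      rwa [one_sub_lam h10]
    · have h1 := hlow 1 0 2 (by decide) (by decide) (by decide)
      rwa [one_sub_lam h10, inv_div]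
  have hj := val_j_le V hl0 (fun h => hl1 (by rw [h, sub_self]))
  rw [← he.j hΔ] at hj
  rcases eq_or_ne (W.c₄ ^ 3 / W.Δ) 0 with hz | hz
  · rw [hz]; simp [nj]
  obtain ⟨k, hk⟩ := exists_exp v hz
  rw [hc.2 _ _ hk, zpow_le_zpow_iff_right₀ (by norm_num)] at hj
  rw [nj_of_exp hk]
  have hE1 : (1 : ℤ) ≤ E := by exact_mod_cast hc.1
  have h5 : k * E ≤ (4 * B : ℕ) * E := by
    refine hj.trans ?_
    have : 2 * (ordAbs V (lam e) + ordAbs V (1 - lam e)) ≤ 4 * B * E := by
      nlinarith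
    exact_mod_cast this
  have h6 : k ≤ (4 * B : ℕ) := le_of_mul_le_mul_right h5 (by omega)
  omega

/-- The general reduction. -/
theorem ell_of_fam {g a b : ℕ} {F : WeierstrassCurve K → K[X]}
    (hH : ∀ W, W.Δ ≠ 0 → IsHyp g (F W))
    (hgood : ∀ W, W.Δ ≠ 0 → ∀ v : HeightOneSpectrum (𝓞 K), v.valuation K ((2 : ℕ) : K) = 1 →
      v.valuation K ((3 : ℕ) : K) = 1 → ellExp W v = 0 → minExp g (F W) v = 0)
    (hlow : ∀ W, W.Δ ≠ 0 → ∀ v : HeightOneSpectrum (𝓞 K), nj v (W.c₄ ^ 3 / W.Δ) ≤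
      a * minExp g (F W) v + b * ordAbs v ((2 : ℕ) : K))
    (h : SzpiroOver K g) : SzpiroEllOver K := by
  classical
  obtain ⟨c, κ, hs⟩ := h
  set d := Module.finrank ℚ K with hd
  refine ⟨(6 ^ d) ^ 12 * ((c * (2 ^ d * 3 ^ d) ^ κ) ^ a * (2 ^ d) ^ b),
    10 + κ * a, ?_⟩
  intro W hΔ
  have hF := hH W hΔ
  set B := (finite_ell hΔ).toFinset with hB
  have hBmem : ∀ v, v ∈ B ↔ ellExp W v ≠ 0 := fun v => by simp [hB]
  set B' := (finite_bad hF).toFinset with hB'
  have hB'mem : ∀ v, v ∈ B' ↔ minExp g (F W) v ≠ 0 := fun v => by simp [hB']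
  have hbad : badNorm g (F W) ≤ 2 ^ d * 3 ^ d * ellBad W := by
    rw [badNorm_eq B' hB'mem, ellBad_eq B hBmem]
    set B1 := B'.filter (fun v => v.valuation K ((2 : ℕ) : K) ≠ 1) with hB1
    set B2 := B'.filter (fun v => v.valuation K ((3 : ℕ) : K) ≠ 1) with hB2
    have hsub : B' ⊆ (B1 ∪ B2) ∪ B := by
      intro v hv
      by_contra hcon
      simp only [Finset.mem_union, not_or, hB1, hB2, Finset.mem_filter, not_and, not_not] at hcon
      obtain ⟨⟨h3, h4⟩, h5⟩ := hcon
      rw [hBmem, not_not] at h5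
      exact (hB'mem v).mp hv (hgood W hΔ v (h3 hv) (h4 hv) h5)
    have hun : ∀ X Y : Finset (HeightOneSpectrum (𝓞 K)),
        ∏ v ∈ X ∪ Y, Ideal.absNorm v.asIdeal ≤ (∏ v ∈ X, Ideal.absNorm v.asIdeal) *
          ∏ v ∈ Y, Ideal.absNorm v.asIdeal := by
      intro X Y
      rw [← Finset.prod_union_inter]
      exact Nat.le_mul_of_pos_right _ (Finset.prod_pos fun v _ => one_le_absNorm v)
    calc ∏ v ∈ B', Ideal.absNorm v.asIdeal ≤ ∏ v ∈ (B1 ∪ B2) ∪ B, Ideal.absNorm v.asIdeal :=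
          Finset.prod_le_prod_of_subset_of_one_le' hsub fun v _ _ => one_le_absNorm v
      _ ≤ (∏ v ∈ B1 ∪ B2, Ideal.absNorm v.asIdeal) * ∏ v ∈ B, Ideal.absNorm v.asIdeal := hun _ _
      _ ≤ _ := by
          refine Nat.mul_le_mul_right _ ((hun _ _).trans (Nat.mul_le_mul ?_ ?_))
          · exact prod_dvd_nat_le B1 (by norm_num) fun v hv => (Finset.mem_filter.mp hv).2
          · exact prod_dvd_nat_le B2 (by norm_num) fun v hv => (Finset.mem_filter.mp hv).2
  have hdisc : discNorm g (F W) ≤ c * (2 ^ d * 3 ^ d) ^ κ * ellBad W ^ κ := by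
    refine (hs _ hF).trans ?_
    calc c * badNorm g (F W) ^ κ ≤ c * (2 ^ d * 3 ^ d * ellBad W) ^ κ :=
          Nat.mul_le_mul_left _ (Nat.pow_le_pow_left hbad _)
      _ = _ := by rw [mul_pow]; ring
  have hprod : ∏ v ∈ B, Ideal.absNorm v.asIdeal ^ nj v (W.c₄ ^ 3 / W.Δ) ≤
      discNorm g (F W) ^ a * (2 ^ d) ^ b := by
    calc ∏ v ∈ B, Ideal.absNorm v.asIdeal ^ nj v (W.c₄ ^ 3 / W.Δ)
        ≤ ∏ v ∈ B, ((Ideal.absNorm v.asIdeal ^ minExp g (F W) v) ^ a *
            (Ideal.absNorm v.asIdeal ^ ordAbs v ((2 : ℕ) : K)) ^ b) := by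
          apply Finset.prod_le_prod' fun v _ => ?_
          rw [← pow_mul, ← pow_mul, ← pow_add]
          apply Nat.pow_le_pow_right (one_le_absNorm v)
          refine (hlow W hΔ v).trans (le_of_eq ?_)
          ring
      _ = (∏ v ∈ B, Ideal.absNorm v.asIdeal ^ minExp g (F W) v) ^ a *
            (∏ v ∈ B, Ideal.absNorm v.asIdeal ^ ordAbs v ((2 : ℕ) : K)) ^ b := by
          rw [Finset.prod_mul_distrib, Finset.prod_pow, Finset.prod_pow]
      _ ≤ _ := by
          refine Nat.mul_le_mul (Nat.pow_le_pow_left ?_ _) (Nat.pow_le_pow_left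
            (prod_norm_nat_le B (by norm_num)) _)
          rw [discNorm_eq (B ∪ B') (fun v hv => Finset.mem_union_right _ ((hB'mem v).mpr hv))]
          exact Finset.prod_le_prod_of_subset_of_one_le' Finset.subset_union_left
            fun v _ _ => Nat.one_le_pow _ _ (one_le_absNorm v)
  calc ellDisc W ≤ (6 ^ d) ^ 12 * (ellBad W ^ 10 *
        ∏ v ∈ B, Ideal.absNorm v.asIdeal ^ nj v (W.c₄ ^ 3 / W.Δ)) := ellDisc_le hΔ
    _ ≤ (6 ^ d) ^ 12 * (ellBad W ^ 10 *
          ((c * (2 ^ d * 3 ^ d) ^ κ * ellBad W ^ κ) ^ a * (2 ^ d) ^ b)) := by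
        refine Nat.mul_le_mul_left _ (Nat.mul_le_mul_left _ (hprod.trans ?_))
        exact Nat.mul_le_mul_right _ (Nat.pow_le_pow_left hdisc _)
    _ = _ := by
        rw [mul_pow (c * (2 ^ d * 3 ^ d) ^ κ), ← pow_mul, pow_add]
        ring

/-- The factorization of a good family in a splitting field. -/
theorem GF.fac {n : ℕ} {P : WeierstrassCurve K → K[X]} (h : GF n P) {W : WeierstrassCurve K}
    (hΔ : W.Δ ≠ 0) {M : Type} [Field M] [NumberField M] [Algebra K M]
    (hs : ((P W).map (algebraMap K M)).Splits) {e : Fin 3 → M} (he : TT W e) :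
    ∃ (c : M) (t : Fin n → M), c ≠ 0 ∧
      (P W).map (algebraMap K M) = C c * ∏ j, (X - C (t j)) ∧
      Function.Injective t ∧ ∀ i j, e i ≠ t j := by
  classical
  have hee : ∀ i j, i ≠ j → e i ≠ e j := fun i j hij => he.ne hΔ hij
  have h2 : (2 : M) ≠ 0 := two_ne_zero
  have h3 : (3 : M) ≠ 0 := three_ne_zero
  have hle : ∀ x : M, (AbsoluteValue.trivial : AbsoluteValue M ℝ) x ≤ 1 := by
    intro x
    by_cases hx : x = 0
    · rw [hx, map_zero]; exact zero_le_one
    · rw [AbsoluteValue.trivial_apply hx]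
  obtain ⟨c, t, hc, hfac, ht, het⟩ := h.rootsOK W M AbsoluteValue.trivial trivial_na
    (AbsoluteValue.trivial_apply h2) (AbsoluteValue.trivial_apply h3) e he (fun i => hle _)
    (fun i j hij => AbsoluteValue.trivial_apply (sub_ne_zero.mpr (hee i j hij))) hs
  refine ⟨c, t, ?_, hfac, ?_, ?_⟩
  · rintro rfl
    rw [map_zero] at hc
    exact zero_ne_one hc
  · intro i j h
    by_contra hij
    have := ht i j hij
    rw [h, sub_self, map_zero] at this
    exact zero_ne_one this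
  · intro i j h
    have := het i j
    rw [h, sub_self, map_zero] at this
    exact zero_ne_one this

/-- A field over which `F` splits and the `2`-torsion is rational. -/
theorem exists_field (F : K[X]) (W : WeierstrassCurve K) (hF : F ≠ 0) :
    ∃ (M : Type) (_ : Field M) (_ : NumberField M) (_ : Algebra K M) (e : Fin 3 → M),
      (F.map (algebraMap K M)).Splits ∧ TT W e := by
  obtain ⟨M, _, _, _, hsplit⟩ := exists_split' (W.twoTorsionPolynomial.toPoly * F)
  have ha : W.twoTorsionPolynomial.a ≠ 0 := by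
    simp [WeierstrassCurve.twoTorsionPolynomial]
  have hT0 : W.twoTorsionPolynomial.toPoly ≠ 0 := Cubic.ne_zero_of_a_ne_zero ha
  have hm0 : (W.twoTorsionPolynomial.toPoly * F).map (algebraMap K M) ≠ 0 := by
    rw [Ne, Polynomial.map_eq_zero]
    exact mul_ne_zero hT0 hF
  rw [Polynomial.map_mul] at hsplit hm0
  have hs1 := hsplit.of_dvd hm0 (dvd_mul_right _ _)
  have hs2 := hsplit.of_dvd hm0 (dvd_mul_left _ _)
  obtain ⟨e, he⟩ := exists_TT hs1
  exact ⟨M, inferInstance, inferInstance, inferInstance, e, hs2, he⟩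

theorem GF.ne0 {n : ℕ} {P : WeierstrassCurve K → K[X]} (h : GF n P) (W : WeierstrassCurve K) :
    P W ≠ 0 := fun h0 => h.ne W (by rw [h0, coeff_zero])

theorem GF.isHyp {n g : ℕ} (hn : n = g + 1 + (g + 1)) {P : WeierstrassCurve K → K[X]}
    (h : GF n P) {W : WeierstrassCurve K} (hΔ : W.Δ ≠ 0) : IsHyp g (P W) := by
  obtain ⟨M, _, _, _, e, hs, he⟩ := exists_field (P W) W (h.ne0 W)
  obtain ⟨c, t, hc, hfac, hinj, _⟩ := h.fac hΔ hs he
  constructor
  · have hsep : ((P W).map (algebraMap K M)).Separable := by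
      rw [hfac]
      exact Separable.unit_mul (isUnit_C.mpr hc.isUnit)
        (separable_prod_X_sub_C_iff.mpr hinj)
    exact ((separable_map _).mp hsep).squarefree
  · right
    rw [h.natDegree]
    omega

theorem GF.eqv' {n g : ℕ} (hn : n = g + 1 + (g + 1)) {P : WeierstrassCurve K → K[X]}
    (h : GF n P) (W : WeierstrassCurve K) (D : WeierstrassCurve.VariableChange K) :
    Eqv (g + 1) (P W) (P (D • W)) := by
  apply eqv_of_eval (u := (D.u : K) ^ 2) (r := D.r) (l := ((D.u⁻¹ : Kˣ) : K) ^ n)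
    ((h.deg W).trans hn.le) (pow_ne_zero _ D.u.ne_zero) (ui_ne D _)
  intro x
  rw [h.var]
  ring

/-- Good reduction of the curve `y² = P_W(x)`. -/
theorem GF.good {n g : ℕ} (hg : 1 ≤ g) (hn : n = g + 1 + (g + 1))
    {P : WeierstrassCurve K → K[X]}
    (h : GF n P) {W : WeierstrassCurve K} (hΔ : W.Δ ≠ 0) (v : HeightOneSpectrum (𝓞 K))
    (h2 : v.valuation K ((2 : ℕ) : K) = 1) (h3 : v.valuation K ((3 : ℕ) : K) = 1)
    (hv : ellExp W v = 0) : minExp g (P W) v = 0 := by
  classical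
  obtain ⟨D, hD, hDΔ⟩ := ellExp_mem v hΔ
  rw [hv] at hDΔ
  simp only [Nat.cast_zero, neg_zero, exp_zero] at hDΔ
  set W' := D • W with hW'
  have hΔ' : W'.Δ ≠ 0 := by
    intro h
    rw [h, map_zero] at hDΔ
    exact zero_ne_one hDΔ
  have hF := h.isHyp hn hΔ
  obtain ⟨M, _, _, _, e, hs, he⟩ := exists_field (P W') W' (h.ne0 W')
  obtain ⟨V, hV⟩ := exists_prime_over (M := M) v
  have hc := compat_of_liesOver v V
  have hna := absW_na V
  have hA2 : absW V (2 : M) = 1 := by
    have := (Compat.eq_one_iff hc ((2 : ℕ) : K)).mpr h2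
    rwa [map_natCast] at this
  have hA3 : absW V (3 : M) = 1 := by
    have := (Compat.eq_one_iff hc ((3 : ℕ) : K)).mpr h3
    rwa [map_natCast] at this
  obtain ⟨hei, hee⟩ := he.far v V h2 hD hDΔ
  obtain ⟨c, t, hAc, hfac, htt, -⟩ := h.rootsOK W' M (absW V) hna hA2 hA3 e he hei hee hs
  have hc0 : c ≠ 0 := by
    intro h
    rw [h, map_zero] at hAc
    exact zero_ne_one hAc
  have hmap : (P W').map (algebraMap K M) =
      C c * ∏ i, (C ((fun _ => 1 : Fin n → M) i) * X + C ((fun j => -t j) i)) := by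
    rw [hfac]
    simp [sub_eq_add_neg]
  have hbr : ∀ i j, i ≠ j → absW V ((fun _ => 1 : Fin n → M) i * (fun j => -t j) j -
      (fun _ => 1 : Fin n → M) j * (fun j => -t j) i) = 1 := by
    intro i j hij
    rw [← htt i j hij]
    congr 1
    ring
  have hcard : Fintype.card (Fin n) = g + 1 + (g + 1) := by simp [hn]
  have hd := abs_discN_prod_lin (absW V) hc0 (fun _ => 1 : Fin n → M) (fun j => -t j)
    (fun i j hij => by
      intro h
      have h5 := hbr i j hij
      rw [h, map_zero] at h5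
      exact zero_ne_one h5)
    (by rw [hcard]; omega)
  rw [← hmap, discN_map, hcard, hAc, one_pow, one_mul] at hd
  have hone : absW V (algebraMap K M (discN (g + 1 + (g + 1)) (P W'))) = 1 := by
    rw [hd]
    apply Finset.prod_eq_one
    intro i _
    apply Finset.prod_eq_one
    intro j hj
    exact hbr i j (Finset.ne_of_mem_erase hj).symm
  rw [Compat.eq_one_iff hc] at hone
  obtain ⟨k, hk, _, hle⟩ := minExp_le hF v (h.eqv' hn W D) (h.hint v W' hD) (t := 0)
    (by rw [← Nat.cast_ofNat, h2]; simp)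
  rw [hone, ← exp_zero, exp_inj] at hk
  omega

end

end Pool.Agent.TH919.HS
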