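import Pool.Agent.TH919.HS.Gen1

namespace Pool.Agent.TH919.HS

open Polynomial Finset NumberField IsDedekindDomain WithZero Pool.Agent.W318

section

variable {M : Type} [Field M]

theorem hc_prod [Infinite M] {n : ℕ} (c : M) (s : Fin n → M) {a b : M[X]} (hb : b ≠ 0) :
    hc n (C c * ∏ l, (X - C (s l))) a b = C c * ∏ l, (a - C (s l) * b) := by
  have hdeg : (C c * ∏ l, (X - C (s l)) : M[X]).natDegree ≤ n := by
    refine (natDegree_C_mul_le _ _).trans ?_
    refine (natDegree_prod_le _ _).trans ?_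
    simp
  apply mul_left_cancel₀ hb
  apply Polynomial.funext
  intro x
  rw [eval_mul, eval_mul]
  by_cases h0 : b.eval x = 0
  · rw [h0, zero_mul, zero_mul]
  congr 1
  rw [hc_eval hdeg h0]
  simp only [eval_mul, eval_C, eval_prod, eval_sub, eval_X]
  have : b.eval x ^ n = ∏ _l : Fin n, b.eval x := by simp
  rw [this, mul_left_comm, ← Finset.prod_mul_distrib]
  congr 1
  refine Finset.prod_congr rfl fun l _ => ?_
  field_simp

/-- Translation by a `2`-torsion point on `x`-coordinates. -/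
noncomputable def sg (e : Fin 3 → M) (i : Fin 3) (z : M) : M :=
  e i + (e i - e (i + 1)) * (e i - e (i + 2)) / (z - e i)

theorem sub_sg (e : Fin 3 → M) (i : Fin 3) {z : M} (hz : z - e i ≠ 0) :
    z - sg e i z = NN e i z / (z - e i) := by
  unfold sg NN
  field_simp
  ring

theorem sg_sub (e : Fin 3 → M) {z : M} (hz : ∀ i, z - e i ≠ 0) :
    sg e 1 z - sg e 0 z = (e 1 - e 0) * NN e 2 z / ((z - e 1) * (z - e 0)) ∧
    sg e 2 z - sg e 0 z = (e 2 - e 0) * NN e 1 z / ((z - e 2) * (z - e 0)) ∧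
    sg e 1 z - sg e 2 z = (e 1 - e 2) * NN e 0 z / ((z - e 1) * (z - e 2)) := by
  have e1 : (0 + 1 : Fin 3) = 1 := rfl
  have e2 : (0 + 2 : Fin 3) = 2 := rfl
  have e3 : (1 + 1 : Fin 3) = 2 := rfl
  have e4 : (1 + 2 : Fin 3) = 0 := rfl
  have e5 : (2 + 1 : Fin 3) = 0 := rfl
  have e6 : (2 + 2 : Fin 3) = 1 := rfl
  have h0 := hz 0
  have h1 := hz 1
  have h2 := hz 2
  refine ⟨?_, ?_, ?_⟩ <;> simp only [sg, NN, e1, e2, e3, e4, e5, e6] <;> field_simp <;> ring

theorem prod3 (e : Fin 3 → M) (i : Fin 3) (z : M) :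
    (z - e 0) * (z - e 1) * (z - e 2) = (z - e i) * (z - e (i + 1)) * (z - e (i + 2)) := by
  have e1 : (0 + 1 : Fin 3) = 1 := rfl
  have e2 : (0 + 2 : Fin 3) = 2 := rfl
  have e3 : (1 + 1 : Fin 3) = 2 := rfl
  have e4 : (1 + 2 : Fin 3) = 0 := rfl
  have e5 : (2 + 1 : Fin 3) = 0 := rfl
  have e6 : (2 + 2 : Fin 3) = 1 := rfl
  fin_cases i
  · simp only [Fin.zero_eta, e1, e2]
  · simp only [Fin.mk_one, e3, e4]; ring
  · simp only [Fin.reduceFinMk, e5, e6]; ring

/-- The duplication map is invariant under translation by `2`-torsion. -/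
theorem sg_dbl (e : Fin 3 → M) (i : Fin 3) {z s : M} (hz : ∀ i, z - e i ≠ 0)
    (h : NN e i z ^ 2 + e i * (4 * ((z - e 0) * (z - e 1) * (z - e 2))) =
      s * (4 * ((z - e 0) * (z - e 1) * (z - e 2)))) :
    NN e i (sg e i z) ^ 2 + e i * (4 * ((sg e i z - e 0) * (sg e i z - e 1) * (sg e i z - e 2))) =
      s * (4 * ((sg e i z - e 0) * (sg e i z - e 1) * (sg e i z - e 2))) := by
  rw [prod3 e i] at h ⊢
  have h0 := hz i
  have h1 := hz (i + 1)
  have h2 := hz (i + 2)
  unfold sg NN at *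
  generalize e i = a at *
  generalize e (i + 1) = b at *
  generalize e (i + 2) = c at *
  field_simp
  field_simp at h
  linear_combination ((a - b) ^ 2 * (a - c) ^ 2) * h

end

end Pool.Agent.TH919.HS
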