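import Pool.Agent.TH919.HS.Gen2

namespace Pool.Agent.TH919.HS

open Polynomial Finset NumberField IsDedekindDomain WithZero Pool.Agent.W318

section

variable {K : Type} [Field K]

theorem TT.perm3 {M : Type} [Field M] [Algebra K M] {W : WeierstrassCurve K} {e : Fin 3 → M}
    (h : TT W e) {a b c : Fin 3} (hab : a ≠ b) (hac : a ≠ c) (hbc : b ≠ c) :
    TT W ![e a, e b, e c] := by
  have key : ∀ x y z : M, (x + y + z = e 0 + e 1 + e 2) →
      (x * y + x * z + y * z = e 0 * e 1 + e 0 * e 2 + e 1 * e 2) →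
      (x * y * z = e 0 * e 1 * e 2) → TT W ![x, y, z] := by
    intro x y z h1 h2 h3
    refine ⟨?_, ?_, ?_⟩
    · rw [h.b2, ← h1]; rfl
    · rw [h.b4, ← h2]; rfl
    · rw [h.b6, ← h3]; rfl
  fin_cases a <;> fin_cases b <;> first | exact absurd rfl hab | skip
  all_goals fin_cases c <;> first | exact absurd rfl hac | exact absurd rfl hbc | skip
  all_goals refine key _ _ _ ?_ ?_ ?_
  all_goals simp only [Fin.zero_eta, Fin.mk_one, Fin.reduceFinMk]
  all_goals ring

/-- `(e_i - e_j) (e_i - e_k)`. -/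
def AA {M : Type} [Field M] (e : Fin 3 → M) (i : Fin 3) : M :=
  (e i - e (i + 1)) * (e i - e (i + 2))

end

section

variable {K : Type} [Field K] {M : Type} [Field M] [CharZero M] [Algebra K M]
  {W : WeierstrassCurve K} {e : Fin 3 → M}

theorem prod3_self (e : Fin 3 → M) (i : Fin 3) :
    (e i - e 0) * (e i - e 1) * (e i - e 2) = 0 := by
  rw [prod3 e i (e i), sub_self, zero_mul, zero_mul]

theorem psi2_at (h : TT W e) (i : Fin 3) : (W.Ψ₂Sq.map (algebraMap K M)).eval (e i) = 0 := by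
  rw [h.psi2_eval, prod3_self, mul_zero]

theorem ph_at (h : TT W e) (i : Fin 3) :
    ((Ph W).map (algebraMap K M)).eval (e i) = AA e i ^ 2 := by
  rw [h.ph_eval i, psi2_at h, mul_zero, add_zero, NN, AA, sub_self]
  ring

theorem psi4_at (h : TT W e) (i : Fin 3) :
    (W.preΨ₄.map (algebraMap K M)).eval (e i) = -2 * AA e i ^ 3 := by
  have e1 : (0 + 1 : Fin 3) = 1 := rfl
  have e2 : (0 + 2 : Fin 3) = 2 := rfl
  have e3 : (1 + 1 : Fin 3) = 2 := rfl
  have e4 : (1 + 2 : Fin 3) = 0 := rfl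
  have e5 : (2 + 1 : Fin 3) = 0 := rfl
  have e6 : (2 + 2 : Fin 3) = 1 := rfl
  rw [h.psi4_NN]
  fin_cases i
  · simp only [Fin.zero_eta, AA, NN, e1, e2, e3, e4, e5, e6]; ring
  · simp only [Fin.mk_one, AA, NN, e1, e2, e3, e4, e5, e6]; ring
  · simp only [Fin.reduceFinMk, AA, NN, e1, e2, e3, e4, e5, e6]; ring

theorem psi3_at (h : TT W e) (i : Fin 3) :
    (W.Ψ₃.map (algebraMap K M)).eval (e i) = -AA e i ^ 2 := by
  have e1 : (0 + 1 : Fin 3) = 1 := rfl
  have e2 : (0 + 2 : Fin 3) = 2 := rfl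
  have e3 : (1 + 1 : Fin 3) = 2 := rfl
  have e4 : (1 + 2 : Fin 3) = 0 := rfl
  have e5 : (2 + 1 : Fin 3) = 0 := rfl
  have e6 : (2 + 2 : Fin 3) = 1 := rfl
  rw [h.psi3_map]
  simp only [eval_add, eval_mul, eval_C, eval_pow, eval_X]
  fin_cases i
  · simp only [Fin.zero_eta, AA, e1, e2]; ring
  · simp only [Fin.mk_one, AA, e3, e4]; ring
  · simp only [Fin.reduceFinMk, AA, e5, e6]; ring

theorem p6_at (h : TT W e) (i : Fin 3) :
    ((P6 W).map (algebraMap K M)).eval (e i) = -3 * AA e i ^ 6 := by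
  unfold P6
  rw [Polynomial.map_sub, Polynomial.map_sub, Polynomial.map_mul, Polynomial.map_pow,
    Polynomial.map_pow, Polynomial.map_pow, eval_sub, eval_sub, eval_mul, eval_pow, eval_pow,
    eval_pow, psi2_at h, psi3_at h, psi4_at h]
  ring

theorem hc_eval_zero {n : ℕ} {p a b : M[X]} {z : M} (hb : b.eval z = 0) :
    (hc n p a b).eval z = p.coeff n * a.eval z ^ n := by
  rw [hc, eval_finsetSum, sum_range_succ, Finset.sum_eq_zero, zero_add]
  · simp only [Nat.sub_self, pow_zero, mul_one, eval_mul, eval_C, eval_pow]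
  · intro i hi
    rw [mem_range] at hi
    simp only [eval_mul, eval_C, eval_pow]
    rw [hb, zero_pow (by omega), mul_zero]

end

section

variable {K : Type} [Field K] [NumberField K]

/-- The values of a family at the `2`-torsion are proportional to the powers of
`(e_i - e_j) (e_i - e_k)`. -/
def Val (k : ℕ) (P : WeierstrassCurve K → K[X]) : Prop :=
  ∀ (W : WeierstrassCurve K) (M : Type) [Field M] [NumberField M] [Algebra K M]
    (e : Fin 3 → M), TT W e → ∀ i j,
      ((P W).map (algebraMap K M)).eval (e i) * AA e j ^ k =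
        ((P W).map (algebraMap K M)).eval (e j) * AA e i ^ k

theorem val_one : Val (K := K) 0 (fun _ => 1) := by
  intro W M _ _ _ e h i j
  simp

theorem val_psi4 : Val (K := K) 3 (fun W => W.preΨ₄) := by
  intro W M _ _ _ e h i j
  rw [psi4_at h, psi4_at h]
  ring

theorem val_p6 : Val (K := K) 6 P6 := by
  intro W M _ _ _ e h i j
  rw [p6_at h, p6_at h]
  ring

theorem Val.dbl (n : ℕ) (P : WeierstrassCurve K → K[X]) :
    Val (2 * n) (fun W => hc n (P W) (Ph W) W.Ψ₂Sq) := by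
  intro W M _ _ _ e h i j
  rw [hc_map, hc_eval_zero (psi2_at h i), hc_eval_zero (psi2_at h j), ph_at h, ph_at h]
  ring

theorem Val.mul {k k' : ℕ} {P Q : WeierstrassCurve K → K[X]} (hP : Val k P) (hQ : Val k' Q) :
    Val (k + k') (fun W => P W * Q W) := by
  intro W M _ _ _ e h i j
  rw [Polynomial.map_mul, eval_mul, eval_mul]
  have h1 := hP W M e h i j
  have h2 := hQ W M e h i j
  rw [pow_add, pow_add]
  calc _ = (((P W).map (algebraMap K M)).eval (e i) * AA e j ^ k) *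
        (((Q W).map (algebraMap K M)).eval (e i) * AA e j ^ k') := by ring
    _ = _ := by rw [h1, h2]; ring

/-- Good families of every degree divisible by `6`, with their structure. -/
theorem exists_gf2 (m : ℕ) : ∃ P : WeierstrassCurve K → K[X], GF (6 * m) P ∧
    CopF P (fun W => W.Ψ₃) ∧ Val (3 * m) P ∧
    (4 ≤ m → ∃ (q : ℕ) (P' : WeierstrassCurve K → K[X]), 1 ≤ q ∧ GF (6 * q) P' ∧
      Val (3 * q) P' ∧ ∀ W, hc (6 * q) (P' W) (Ph W) W.Ψ₂Sq ∣ P W) ∧
    (m = 2 ∨ m = 3 → ∀ W, P6 W ∣ P W) := by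
  induction m using Nat.strong_induction_on with
  | _ m ih =>
    rcases Nat.eq_zero_or_pos m with rfl | hm
    · exact ⟨fun _ => 1, gf_one, fun W M _ _ _ A e _ z _ => Or.inl (by simp), val_one,
        fun h => absurd h (by norm_num), fun h => absurd h (by norm_num)⟩
    obtain ⟨P, hP, h3, hv, -, -⟩ := ih (m / 4) (by omega)
    obtain ⟨s3, s6, s4⟩ := copF_step hP h3
    have hvd := Val.dbl (6 * (m / 4)) P
    have hr : m % 4 = 0 ∨ m % 4 = 1 ∨ m % 4 = 2 ∨ m % 4 = 3 := by omega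
    rcases hr with hr | hr | hr | hr
    · refine ⟨_, ?_, s3, ?_, fun h4 => ⟨m / 4, P, by omega, hP, hv, fun W => dvd_rfl⟩,
        fun h => by omega⟩
      · have h := hP.dbl
        rwa [show 4 * (6 * (m / 4)) = 6 * m by omega] at h
      · rwa [show 2 * (6 * (m / 4)) = 3 * m by omega] at hvd
    · refine ⟨_, ?_, s3.mul copF_43, ?_,
        fun h4 => ⟨m / 4, P, by omega, hP, hv, fun W => dvd_mul_right _ _⟩, fun h => by omega⟩
      · have h := hP.dbl.mul gf_psi4 s4
        rwa [show 4 * (6 * (m / 4)) + 6 = 6 * m by omega] at h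
      · have h := hvd.mul val_psi4
        rwa [show 2 * (6 * (m / 4)) + 3 = 3 * m by omega] at h
    · refine ⟨_, ?_, s3.mul copF_63, ?_,
        fun h4 => ⟨m / 4, P, by omega, hP, hv, fun W => dvd_mul_right _ _⟩,
        fun h W => dvd_mul_left _ _⟩
      · have h := hP.dbl.mul gf_p6 s6
        rwa [show 4 * (6 * (m / 4)) + 12 = 6 * m by omega] at h
      · have h := hvd.mul val_p6
        rwa [show 2 * (6 * (m / 4)) + 6 = 3 * m by omega] at h
    · refine ⟨_, ?_, (s3.mul copF_63).mul copF_43, ?_,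
        fun h4 => ⟨m / 4, P, by omega, hP, hv,
          fun W => (dvd_mul_right _ _).trans (dvd_mul_right _ _)⟩,
        fun h W => (dvd_mul_left _ _).trans (dvd_mul_right _ _)⟩
      · have h := (hP.dbl.mul gf_p6 s6).mul gf_psi4 (s4.mul copF_64)
        rwa [show 4 * (6 * (m / 4)) + 12 + 6 = 6 * m by omega] at h
      · have h := (hvd.mul val_p6).mul val_psi4
        rwa [show 2 * (6 * (m / 4)) + 6 + 3 = 3 * m by omega] at h

/-- Lower bounds for the cross ratios of the roots. -/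
theorem cr_lower_roots {g : ℕ} (hg : 2 ≤ g) {F : K[X]} (hF : IsHyp g F)
    (v : HeightOneSpectrum (𝓞 K)) {M : Type} [Field M] [NumberField M] [Algebra K M]
    (V : HeightOneSpectrum (𝓞 M)) [V.asIdeal.LiesOver v.asIdeal] {c : M} (hc : c ≠ 0)
    {t : Fin (g + 1 + (g + 1)) → M} (ht : Function.Injective t)
    (hfac : F.map (algebraMap K M) = C c * ∏ j, (X - C (t j))) {z1 z2 z3 z4 : M}
    (h1 : (F.map (algebraMap K M)).eval z1 = 0) (h2 : (F.map (algebraMap K M)).eval z2 = 0)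
    (h3 : (F.map (algebraMap K M)).eval z3 = 0) (h4 : (F.map (algebraMap K M)).eval z4 = 0)
    (n12 : z1 ≠ z2) (n13 : z1 ≠ z3) (n24 : z2 ≠ z4) (n34 : z3 ≠ z4) :
    (2 : ℝ) ^ (-(((minExp g F v + (4 * g + 4) * ordAbs v ((2 : ℕ) : K)) *
      v.asIdeal.ramificationIdx' V.asIdeal : ℕ) : ℤ)) ≤
      absW V ((z1 - z2) * (z3 - z4) / ((z1 - z3) * (z2 - z4))) := by
  have hroot : ∀ z, (F.map (algebraMap K M)).eval z = 0 → ∃ j, t j = z := by
    intro z hz
    rw [hfac] at hz
    simp only [eval_mul, eval_C, eval_prod, eval_sub, eval_X] at hz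
    obtain ⟨j, _, hj⟩ := Finset.prod_eq_zero_iff.mp ((mul_eq_zero.mp hz).resolve_left hc)
    exact ⟨j, (sub_eq_zero.mp hj).symm⟩
  obtain ⟨j1, rfl⟩ := hroot z1 h1
  obtain ⟨j2, rfl⟩ := hroot z2 h2
  obtain ⟨j3, rfl⟩ := hroot z3 h3
  obtain ⟨j4, rfl⟩ := hroot z4 h4
  have hmap : F.map (algebraMap K M) =
      C c * ∏ i, (C ((fun _ => 1 : Fin (g + 1 + (g + 1)) → M) i) * X +
        C ((fun j => -t j) i)) := by
    rw [hfac]
    simp [sub_eq_add_neg]
  have hne : ∀ i j, i ≠ j → br (fun _ => 1 : Fin (g + 1 + (g + 1)) → M)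
      (fun j => -t j) i j ≠ 0 := by
    intro i j hij h
    unfold br at h
    apply hij
    apply ht
    linear_combination h
  have h := cr_lower hg hF v V hc hne hmap (i₀ := j1) (j₀ := j2) (i₁ := j3) (j₁ := j4)
    (fun h => n13 (by rw [h])) (fun h => n12 (by rw [h])) (fun h => n34 (by rw [h]))
    (fun h => n24 (by rw [h]))
  have hcr : cr (fun _ => 1 : Fin (g + 1 + (g + 1)) → M) (fun j => -t j) j1 j2 j3 j4 =
      (t j1 - t j2) * (t j3 - t j4) / ((t j1 - t j3) * (t j2 - t j4)) := by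
    unfold cr br
    congr 1 <;> ring
  rw [hcr] at h
  refine le_trans (le_of_eq ?_) h
  congr 1
  rw [Nat.cast_mul]
  ring

end

end Pool.Agent.TH919.HS
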