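import Pool.Agent.TH919.HS.Gen3

namespace Pool.Agent.TH919.HS

open Polynomial Finset NumberField IsDedekindDomain WithZero Pool.Agent.W318

section

variable {M : Type} [Field M]

/-- The cross ratio of an orbit of the `2`-torsion. -/
theorem orbit_cr (e : Fin 3 → M) {z s : M} (hz : ∀ i, z - e i ≠ 0)
    (hN : ∀ i, NN e i z ≠ 0) (hs : ∀ i, e i - s ≠ 0)
    (h : ∀ i, NN e i z ^ 2 + e i * (4 * ((z - e 0) * (z - e 1) * (z - e 2))) =
      s * (4 * ((z - e 0) * (z - e 1) * (z - e 2)))) (h20 : e 2 - e 0 ≠ 0) :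
    (z - sg e 2 z) * (sg e 1 z - sg e 0 z) / ((z - sg e 1 z) * (sg e 2 z - sg e 0 z)) =
      (e 1 - e 0) * (e 2 - s) / ((e 2 - e 0) * (e 1 - s)) := by
  obtain ⟨s10, s20, -⟩ := sg_sub e hz
  rw [s10, s20, sub_sg e 2 (hz 2), sub_sg e 1 (hz 1)]
  have hz0 := hz 0
  have hz1 := hz 1
  have hz2 := hz 2
  have hN1 := hN 1
  have hs1 := hs 1
  have h1 := h 1
  have h2 := h 2
  rw [div_eq_div_iff (by
    refine mul_ne_zero (div_ne_zero hN1 hz1) (div_ne_zero (mul_ne_zero h20 hN1)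
      (mul_ne_zero hz2 hz0))) (mul_ne_zero h20 hs1)]
  generalize NN e 1 z = N1 at *
  generalize NN e 2 z = N2 at *
  field_simp
  have e1 : N1 ^ 2 = (s - e 1) * (4 * ((z - e 0) * (z - e 1) * (z - e 2))) := by
    linear_combination h1
  have e2 : N2 ^ 2 = (s - e 2) * (4 * ((z - e 0) * (z - e 1) * (z - e 2))) := by
    linear_combination h2
  rw [e1, e2]
  ring

end

section

variable {K : Type} [Field K] [NumberField K]

/-- A point of the fibre of the duplication map above `s`, and its translates. -/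
theorem fibre {W : WeierstrassCurve K} (hΔ : W.Δ ≠ 0) {M : Type} [Field M] [NumberField M]
    [Algebra K M] {e : Fin 3 → M} (he : TT W e) {G : M[X]} (hG : G.Splits) (hG0 : G ≠ 0) {s : M}
    (hs : ∀ i, e i ≠ s)
    (hd : ((Ph W).map (algebraMap K M) - C s * W.Ψ₂Sq.map (algebraMap K M)) ∣ G) :
    ∃ z : M, (∀ i, z - e i ≠ 0) ∧ (∀ i, NN e i z ≠ 0) ∧
      (∀ i, NN e i z ^ 2 + e i * (4 * ((z - e 0) * (z - e 1) * (z - e 2))) =
        s * (4 * ((z - e 0) * (z - e 1) * (z - e 2)))) ∧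
      G.eval z = 0 ∧ ∀ i, G.eval (sg e i z) = 0 := by
  have hsp := hG.of_dvd hG0 hd
  have hdeg : ((Ph W).map (algebraMap K M) - C s * W.Ψ₂Sq.map (algebraMap K M)).natDegree = 4 := by
    rw [natDegree_sub_eq_left_of_natDegree_lt, natDegree_map, (ph_natDegree W).1]
    rw [natDegree_map, (ph_natDegree W).1]
    refine lt_of_le_of_lt (natDegree_C_mul_le _ _) ?_
    rw [natDegree_map]
    exact lt_of_le_of_lt W.natDegree_Ψ₂Sq_le (by norm_num)
  obtain ⟨z, hz⟩ := hsp.exists_eval_eq_zero (degree_ne_of_natDegree_ne (by rw [hdeg]; norm_num))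
  have hroot : ∀ x i, NN e i x ^ 2 + e i * (4 * ((x - e 0) * (x - e 1) * (x - e 2))) =
      s * (4 * ((x - e 0) * (x - e 1) * (x - e 2))) → G.eval x = 0 := by
    intro x i hx
    obtain ⟨R, hR⟩ := hd
    rw [hR, eval_mul, eval_sub, eval_mul, eval_C, he.ph_eval i, he.psi2_eval, hx, sub_self,
      zero_mul]
  have hN : ∀ i, NN e i z ^ 2 + e i * (4 * ((z - e 0) * (z - e 1) * (z - e 2))) =
      s * (4 * ((z - e 0) * (z - e 1) * (z - e 2))) := by
    intro i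
    rw [eval_sub, eval_mul, eval_C, he.ph_eval i, he.psi2_eval] at hz
    exact sub_eq_zero.mp hz
  have hze : ∀ i, z - e i ≠ 0 := by
    intro i h0
    have h1 := hN i
    have h2 : z = e i := sub_eq_zero.mp h0
    rw [h2, prod3_self, mul_zero, mul_zero, mul_zero, add_zero] at h1
    have h3 : NN e i (e i) = -((e i - e (i + 1)) * (e i - e (i + 2))) := by
      unfold NN; ring
    rw [h3] at h1
    have h4 := pow_eq_zero_iff (two_ne_zero) |>.mp h1
    rw [neg_eq_zero, mul_eq_zero] at h4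
    rcases h4 with h4 | h4
    · exact he.ne hΔ (i := i) (j := i + 1) (by fin_cases i <;> decide) (sub_eq_zero.mp h4)
    · exact he.ne hΔ (i := i) (j := i + 2) (by fin_cases i <;> decide) (sub_eq_zero.mp h4)
  have hNz : ∀ i, NN e i z ≠ 0 := by
    intro i h0
    have h1 := hN i
    rw [h0] at h1
    have h2 : (e i - s) * (4 * ((z - e 0) * (z - e 1) * (z - e 2))) = 0 := by
      linear_combination h1
    have h4 : (4 : M) ≠ 0 := by norm_num
    rcases mul_eq_zero.mp h2 with h3 | h3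
    · exact hs i (sub_eq_zero.mp h3)
    · exact mul_ne_zero h4 (mul_ne_zero (mul_ne_zero (hze 0) (hze 1)) (hze 2)) h3
  refine ⟨z, hze, hNz, hN, hroot z 0 (hN 0), fun i => hroot _ i (sg_dbl e i hze (hN i))⟩

/-- The lower bound, for the families which are pulled back under duplication. -/
theorem caseA {g q n : ℕ} (hg : 2 ≤ g) (hn : n = g + 1 + (g + 1)) (hq : 1 ≤ q)
    {P Q : WeierstrassCurve K → K[X]} (hP : GF (6 * q) P) (hval : Val (3 * q) P) (hQ : GF n Q)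
    (hdvd : ∀ W, hc (6 * q) (P W) (Ph W) W.Ψ₂Sq ∣ Q W) {W : WeierstrassCurve K} (hΔ : W.Δ ≠ 0)
    (v : HeightOneSpectrum (𝓞 K)) :
    nj v (W.c₄ ^ 3 / W.Δ) ≤
      4 * (2 * (minExp g (Q W) v + (4 * g + 4) * ordAbs v ((2 : ℕ) : K))) := by
  have hF := hQ.isHyp hn hΔ
  subst hn
  obtain ⟨M, _, _, _, e₀, hsp, he₀⟩ := exists_field (Q W * P W) W
    (mul_ne_zero (hQ.ne0 W) (hP.ne0 W))
  have hm0 : (Q W * P W).map (algebraMap K M) ≠ 0 := by
    rw [Ne, Polynomial.map_eq_zero]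
    exact mul_ne_zero (hQ.ne0 W) (hP.ne0 W)
  rw [Polynomial.map_mul] at hsp hm0
  have hs1 := hsp.of_dvd hm0 (dvd_mul_right _ _)
  have hs2 := hsp.of_dvd hm0 (dvd_mul_left _ _)
  obtain ⟨V, hV⟩ := exists_prime_over (M := M) v
  set D := minExp g (Q W) v + (4 * g + 4) * ordAbs v ((2 : ℕ) : K) with hD
  set E := v.asIdeal.ramificationIdx' V.asIdeal with hE
  refine nj_le_of_hlow hΔ v V he₀ (2 * D) ?_
  intro a b c₀ hab hac hbc
  obtain ⟨e, he, ha, hb, hcc⟩ : ∃ e : Fin 3 → M, TT W e ∧ e 0 = e₀ a ∧ e 1 = e₀ b ∧ e 2 = e₀ c₀ :=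
    ⟨_, he₀.perm3 hab hac hbc, rfl, rfl, rfl⟩
  rw [← ha, ← hb, ← hcc]
  obtain ⟨c, t, hc0, hfac, hinj, -⟩ := hQ.fac hΔ hs1 he
  obtain ⟨c', s, hc'0, hfac', -, hes⟩ := hP.fac hΔ hs2 he
  have hee : ∀ i j, i ≠ j → e i - e j ≠ 0 := fun i j hij => sub_ne_zero.mpr (he.ne hΔ hij)
  have h10 := hee 1 0 (by decide)
  have h20 := hee 2 0 (by decide)
  have h12 := hee 1 2 (by decide)
  have hdv : ∀ l, ((Ph W).map (algebraMap K M) - C (s l) * W.Ψ₂Sq.map (algebraMap K M)) ∣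
      (Q W).map (algebraMap K M) := by
    intro l
    have h1 : (hc (6 * q) (P W) (Ph W) W.Ψ₂Sq).map (algebraMap K M) ∣
        (Q W).map (algebraMap K M) := Polynomial.map_dvd _ (hdvd W)
    refine dvd_trans ?_ h1
    rw [hc_map, hfac', hc_prod c' s (by
      rw [Ne, Polynomial.map_eq_zero]
      exact psi2_ne W)]
    exact Dvd.dvd.mul_left (Finset.dvd_prod_of_mem (fun l : Fin (6 * q) =>
      ((Ph W).map (algebraMap K M) - C (s l) * W.Ψ₂Sq.map (algebraMap K M))) (mem_univ l)) _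
  have hQ0 : (Q W).map (algebraMap K M) ≠ 0 := by
    rw [Ne, Polynomial.map_eq_zero]
    exact hQ.ne0 W
  have key : ∀ l, (2 : ℝ) ^ (-((D * E : ℕ) : ℤ)) ≤
      absW V ((e 1 - e 0) * (e 2 - s l) / ((e 2 - e 0) * (e 1 - s l))) := by
    intro l
    obtain ⟨z, hz, hN, hrel, r0, rs⟩ := fibre hΔ he hs1 hQ0 (fun i => hes i l) (hdv l)
    have hd1 : z - sg e 2 z ≠ 0 := by rw [sub_sg e 2 (hz 2)]; exact div_ne_zero (hN 2) (hz 2)
    have hd2 : z - sg e 1 z ≠ 0 := by rw [sub_sg e 1 (hz 1)]; exact div_ne_zero (hN 1) (hz 1)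
    obtain ⟨q1, q2, -⟩ := sg_sub e hz
    have hd3 : sg e 2 z - sg e 0 z ≠ 0 := by
      rw [q2]
      exact div_ne_zero (mul_ne_zero h20 (hN 1)) (mul_ne_zero (hz 2) (hz 0))
    have hd4 : sg e 1 z - sg e 0 z ≠ 0 := by
      rw [q1]
      exact div_ne_zero (mul_ne_zero h10 (hN 2)) (mul_ne_zero (hz 1) (hz 0))
    have h := cr_lower_roots hg hF v V hc0 hinj hfac r0 (rs 2) (rs 1) (rs 0)
      (sub_ne_zero.mp hd1) (sub_ne_zero.mp hd2) (sub_ne_zero.mp hd3) (sub_ne_zero.mp hd4)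
    rwa [orbit_cr e hz hN (fun i => sub_ne_zero.mpr (hes i l)) hrel h20, ← hD, ← hE] at h
  -- the product over the roots of `P`
  set ρ := (e 1 - e 0) / (e 2 - e 0) with hρ
  have hρ0 : ρ ≠ 0 := div_ne_zero h10 h20
  have hprod1 : ∏ l, ((e 1 - e 0) * (e 2 - s l) / ((e 2 - e 0) * (e 1 - s l))) =
      ρ ^ (6 * q) * ((∏ l, (e 2 - s l)) / ∏ l, (e 1 - s l)) := by
    rw [← Finset.prod_div_distrib]
    have : ρ ^ (6 * q) = ∏ _l : Fin (6 * q), ρ := by simp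
    rw [this, ← Finset.prod_mul_distrib]
    refine Finset.prod_congr rfl fun l _ => ?_
    rw [hρ, div_mul_div_comm]
  have hev : ∀ i, ((P W).map (algebraMap K M)).eval (e i) = c' * ∏ l, (e i - s l) := by
    intro i
    rw [hfac']
    simp only [eval_mul, eval_C, eval_prod, eval_sub, eval_X]
  have hv21 := hval W M e he 2 1
  rw [hev 2, hev 1] at hv21
  have e3 : (1 + 1 : Fin 3) = 2 := rfl
  have e4 : (1 + 2 : Fin 3) = 0 := rfl
  have e5 : (2 + 1 : Fin 3) = 0 := rfl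
  have e6 : (2 + 2 : Fin 3) = 1 := rfl
  have hAA1 : AA e 1 = (e 1 - e 2) * (e 1 - e 0) := by rw [AA, e3, e4]
  have hAA2 : AA e 2 = (e 2 - e 0) * (e 2 - e 1) := by rw [AA, e5, e6]
  have hAA1' : AA e 1 ≠ 0 := by rw [hAA1]; exact mul_ne_zero h12 h10
  have hX1 : ∏ l, (e 1 - s l) ≠ 0 :=
    Finset.prod_ne_zero_iff.mpr fun l _ => sub_ne_zero.mpr (hes 1 l)
  have hratio : (∏ l, (e 2 - s l)) / ∏ l, (e 1 - s l) = (-ρ⁻¹) ^ (3 * q) := by
    have h1 : (-ρ⁻¹) = AA e 2 / AA e 1 := by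
      rw [hAA1, hAA2, hρ]
      have h21 : e 2 - e 1 = -(e 1 - e 2) := by ring
      rw [h21]
      field_simp
    rw [h1, div_pow, div_eq_div_iff hX1 (pow_ne_zero _ hAA1')]
    have h2 : c' * ((∏ l, (e 2 - s l)) * AA e 1 ^ (3 * q)) =
        c' * (AA e 2 ^ (3 * q) * ∏ l, (e 1 - s l)) := by
      linear_combination hv21
    exact mul_left_cancel₀ hc'0 h2
  have habs : ∏ l, absW V ((e 1 - e 0) * (e 2 - s l) / ((e 2 - e 0) * (e 1 - s l))) =
      absW V ρ ^ (3 * q) := by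
    rw [← map_prod, hprod1, hratio, map_mul, map_pow, map_pow, map_neg_eq_map, map_inv₀]
    have h1 : absW V ρ ≠ 0 := (absW V).ne_zero hρ0
    have h2 : absW V ρ ^ (6 * q) = absW V ρ ^ (3 * q) * absW V ρ ^ (3 * q) := by
      rw [← pow_add]; congr 1; omega
    rw [h2, inv_pow, mul_assoc, mul_inv_cancel₀ (pow_ne_zero _ h1), mul_one]
  have hle : ((2 : ℝ) ^ (-((D * E : ℕ) : ℤ))) ^ (6 * q) ≤ absW V ρ ^ (3 * q) := by
    rw [← habs]
    have : ((2 : ℝ) ^ (-((D * E : ℕ) : ℤ))) ^ (6 * q) =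
        ∏ _l : Fin (6 * q), (2 : ℝ) ^ (-((D * E : ℕ) : ℤ)) := by simp
    rw [this]
    exact Finset.prod_le_prod (fun _ _ => by positivity) fun l _ => key l
  have hle2 : ((2 : ℝ) ^ (-((D * E : ℕ) : ℤ))) ^ 2 ≤ absW V ρ := by
    have h1 : (((2 : ℝ) ^ (-((D * E : ℕ) : ℤ))) ^ 2) ^ (3 * q) ≤ absW V ρ ^ (3 * q) := by
      rw [← pow_mul]
      convert hle using 2
      omega
    exact (pow_le_pow_iff_left₀ (by positivity) ((absW V).nonneg _) (by omega)).mp h1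
  have hρ' : (e 0 - e 1) / (e 0 - e 2) = ρ := by
    rw [hρ, ← neg_sub (e 1), ← neg_sub (e 2), neg_div_neg_eq]
  rw [hρ']
  refine le_trans (le_of_eq ?_) hle2
  rw [← zpow_natCast, ← zpow_mul]
  congr 1
  push_cast
  ring

end

end Pool.Agent.TH919.HS
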