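import Pool.Agent.TH919.HS.Gen4

namespace Pool.Agent.TH919.HS

open Polynomial Finset NumberField IsDedekindDomain WithZero Pool.Agent.W318

section

variable {K : Type} [Field K] [NumberField K] {M : Type} [Field M] [NumberField M] [Algebra K M]
  {W : WeierstrassCurve K} {e : Fin 3 → M}

theorem psi3_rel (W : WeierstrassCurve K) (z : M) :
    (W.Ψ₃.map (algebraMap K M)).eval z = z * (W.Ψ₂Sq.map (algebraMap K M)).eval z -
      ((Ph W).map (algebraMap K M)).eval z := by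
  have e : W.Ψ₃ = X * W.Ψ₂Sq - Ph W := by
    simp only [WeierstrassCurve.Ψ₃, WeierstrassCurve.Ψ₂Sq, Ph, C_mul, map_ofNat]
    ring
  rw [e, Polynomial.map_sub, Polynomial.map_mul, Polynomial.map_X, eval_sub, eval_mul, eval_X]

theorem sg_ne (he : TT W e) (hΔ : W.Δ ≠ 0) {w : M} (hwe : ∀ i, w - e i ≠ 0) (i : Fin 3) :
    (sg e i w - e 0) * (sg e i w - e 1) * (sg e i w - e 2) ≠ 0 := by
  have h1 : e i - e (i + 1) ≠ 0 :=
    sub_ne_zero.mpr (he.ne hΔ (i := i) (j := i + 1) (by fin_cases i <;> decide))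
  have h2 : e i - e (i + 2) ≠ 0 :=
    sub_ne_zero.mpr (he.ne hΔ (i := i) (j := i + 2) (by fin_cases i <;> decide))
  have k0 := hwe i
  have k1 := hwe (i + 1)
  have k2 := hwe (i + 2)
  rw [prod3 e i (sg e i w)]
  have q0 : sg e i w - e i = (e i - e (i + 1)) * (e i - e (i + 2)) / (w - e i) := by
    unfold sg; ring
  have q1 : sg e i w - e (i + 1) = (e i - e (i + 1)) * (w - e (i + 2)) / (w - e i) := by
    unfold sg; field_simp; ring
  have q2 : sg e i w - e (i + 2) = (e i - e (i + 2)) * (w - e (i + 1)) / (w - e i) := by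
    unfold sg; field_simp; ring
  rw [q0, q1, q2]
  exact mul_ne_zero (mul_ne_zero (div_ne_zero (mul_ne_zero h1 h2) k0)
    (div_ne_zero (mul_ne_zero h1 k2) k0)) (div_ne_zero (mul_ne_zero h2 k1) k0)

theorem root_p6 (he : TT W e) (hΔ : W.Δ ≠ 0) {w : M}
    (hw : (W.Ψ₃.map (algebraMap K M)).eval w = 0) (hwe : ∀ i, w - e i ≠ 0) (i : Fin 3) :
    NN e i w ≠ 0 ∧ ((P6 W).map (algebraMap K M)).eval (sg e i w) = 0 := by
  have h4 : (4 : M) ≠ 0 := by norm_num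
  have hps : 4 * ((w - e 0) * (w - e 1) * (w - e 2)) ≠ 0 :=
    mul_ne_zero h4 (mul_ne_zero (mul_ne_zero (hwe 0) (hwe 1)) (hwe 2))
  have hrel : NN e i w ^ 2 + e i * (4 * ((w - e 0) * (w - e 1) * (w - e 2))) =
      w * (4 * ((w - e 0) * (w - e 1) * (w - e 2))) := by
    rw [psi3_rel, he.psi2_eval, he.ph_eval i, he.psi2_eval] at hw
    linear_combination -hw
  have hN : NN e i w ≠ 0 := by
    intro h0
    rw [h0] at hrel
    have h1 : (w - e i) * (4 * ((w - e 0) * (w - e 1) * (w - e 2))) = 0 := by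
      linear_combination -hrel
    exact mul_ne_zero (hwe i) hps h1
  refine ⟨hN, ?_⟩
  have h5 := sg_dbl e i hwe hrel
  have hps2 : 4 * ((sg e i w - e 0) * (sg e i w - e 1) * (sg e i w - e 2)) ≠ 0 :=
    mul_ne_zero h4 (sg_ne he hΔ hwe i)
  have hph : ((Ph W).map (algebraMap K M)).eval (sg e i w) =
      w * (W.Ψ₂Sq.map (algebraMap K M)).eval (sg e i w) := by
    rw [he.ph_eval i, he.psi2_eval, h5]
  have hps3 : (W.Ψ₂Sq.map (algebraMap K M)).eval (sg e i w) ≠ 0 := by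
    rw [he.psi2_eval]; exact hps2
  have h6 := hc_eval (a := (Ph W).map (algebraMap K M)) (psi3_deg (W := W) (M := M)) hps3
  rw [hph, mul_div_cancel_right₀ _ hps3, hw, mul_zero, dbl_psi3_map, eval_mul] at h6
  refine (mul_eq_zero.mp h6).resolve_left ?_
  rw [psi3_rel, hph]
  have h7 : sg e i w * (W.Ψ₂Sq.map (algebraMap K M)).eval (sg e i w) -
      w * (W.Ψ₂Sq.map (algebraMap K M)).eval (sg e i w) =
      -((w - sg e i w) * (W.Ψ₂Sq.map (algebraMap K M)).eval (sg e i w)) := by ring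
  rw [h7, neg_eq_zero, sub_sg e i (hwe i)]
  exact mul_ne_zero (div_ne_zero hN (hwe i)) hps3

/-- The cross ratio of two pairs of points of order `6`. -/
theorem cr6 (e : Fin 3 → M) {w x : M} (hw : ∀ i, w - e i ≠ 0) (hx : ∀ i, x - e i ≠ 0)
    (hNw : NN e 0 w ≠ 0) (hNx : NN e 0 x ≠ 0) (h12 : e 1 - e 2 ≠ 0) :
    (sg e 1 w - sg e 1 x) * (sg e 2 w - sg e 2 x) /
      ((sg e 1 w - sg e 2 w) * (sg e 1 x - sg e 2 x)) =
      -AA e 0 * (w - x) ^ 2 / (NN e 0 w * NN e 0 x) := by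
  obtain ⟨-, -, q1⟩ := sg_sub e hw
  obtain ⟨-, -, q2⟩ := sg_sub e hx
  rw [q1, q2]
  have e1 : (0 + 1 : Fin 3) = 1 := rfl
  have e2 : (0 + 2 : Fin 3) = 2 := rfl
  have e3 : (1 + 1 : Fin 3) = 2 := rfl
  have e4 : (1 + 2 : Fin 3) = 0 := rfl
  have e5 : (2 + 1 : Fin 3) = 0 := rfl
  have e6 : (2 + 2 : Fin 3) = 1 := rfl
  have w1 := hw 1
  have w2 := hw 2
  have x1 := hx 1
  have x2 := hx 2
  have p1 : sg e 1 w - sg e 1 x =
      (e 1 - e 2) * (e 1 - e 0) * (x - w) / ((w - e 1) * (x - e 1)) := by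
    simp only [sg, e3, e4]
    field_simp
    ring
  have p2 : sg e 2 w - sg e 2 x =
      (e 2 - e 0) * (e 2 - e 1) * (x - w) / ((w - e 2) * (x - e 2)) := by
    simp only [sg, e5, e6]
    field_simp
    ring
  rw [p1, p2]
  have hAA : AA e 0 = (e 0 - e 1) * (e 0 - e 2) := by rw [AA, e1, e2]
  rw [hAA]
  generalize NN e 0 w = Nw at *
  generalize NN e 0 x = Nx at *
  field_simp
  ring

theorem cr6_ne (he : TT W e) (hΔ : W.Δ ≠ 0) {w x : M} (hw : ∀ i, w - e i ≠ 0)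
    (hx : ∀ i, x - e i ≠ 0) (hNw : NN e 0 w ≠ 0) (hNx : NN e 0 x ≠ 0) (hwx : w ≠ x) :
    sg e 1 w ≠ sg e 1 x ∧ sg e 1 w ≠ sg e 2 w ∧ sg e 1 x ≠ sg e 2 x ∧ sg e 2 w ≠ sg e 2 x := by
  obtain ⟨-, -, q1⟩ := sg_sub e hw
  obtain ⟨-, -, q2⟩ := sg_sub e hx
  have e3 : (1 + 1 : Fin 3) = 2 := rfl
  have e4 : (1 + 2 : Fin 3) = 0 := rfl
  have e5 : (2 + 1 : Fin 3) = 0 := rfl
  have e6 : (2 + 2 : Fin 3) = 1 := rfl
  have w1 := hw 1
  have w2 := hw 2
  have x1 := hx 1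
  have x2 := hx 2
  have hee : ∀ i j, i ≠ j → e i - e j ≠ 0 := fun i j hij => sub_ne_zero.mpr (he.ne hΔ hij)
  have hxw : x - w ≠ 0 := sub_ne_zero.mpr hwx.symm
  have p1 : sg e 1 w - sg e 1 x =
      (e 1 - e 2) * (e 1 - e 0) * (x - w) / ((w - e 1) * (x - e 1)) := by
    simp only [sg, e3, e4]
    field_simp
    ring
  have p2 : sg e 2 w - sg e 2 x =
      (e 2 - e 0) * (e 2 - e 1) * (x - w) / ((w - e 2) * (x - e 2)) := by
    simp only [sg, e5, e6]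
    field_simp
    ring
  refine ⟨sub_ne_zero.mp ?_, sub_ne_zero.mp ?_, sub_ne_zero.mp ?_, sub_ne_zero.mp ?_⟩
  · rw [p1]
    exact div_ne_zero (mul_ne_zero (mul_ne_zero (hee 1 2 (by decide)) (hee 1 0 (by decide))) hxw)
      (mul_ne_zero w1 x1)
  · rw [q1]
    exact div_ne_zero (mul_ne_zero (hee 1 2 (by decide)) hNw) (mul_ne_zero w1 w2)
  · rw [q2]
    exact div_ne_zero (mul_ne_zero (hee 1 2 (by decide)) hNx) (mul_ne_zero x1 x2)
  · rw [p2]
    exact div_ne_zero (mul_ne_zero (mul_ne_zero (hee 2 0 (by decide)) (hee 2 1 (by decide))) hxw)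
      (mul_ne_zero w2 x2)

/-- The product of the values of `NN e 0` at the `3`-torsion. -/
theorem prod_NN (he : TT W e) {w : Fin 4 → M}
    (hw : W.Ψ₃.map (algebraMap K M) = C 3 * ∏ j, (X - C (w j)))
    (hs4 : (W.preΨ₄.map (algebraMap K M)).Splits) :
    9 * ∏ j, NN e 0 (w j) = -16 * AA e 0 ^ 3 * (e 1 - e 2) ^ 2 := by
  have h40 : (W.preΨ₄.map (algebraMap K M)) ≠ 0 := by
    rw [Ne, Polynomial.map_eq_zero]
    exact W.preΨ₄_ne_zero two_ne_zero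
  have hd : (X ^ 2 - C (2 * e 0) * X + C (e 0 * (e 1 + e 2) - e 1 * e 2) : M[X]) ∣
      W.preΨ₄.map (algebraMap K M) := by
    rw [he.psi4_map]
    exact Dvd.dvd.mul_left (Dvd.dvd.mul_right (dvd_mul_right _ _) _) _
  have hsp := hs4.of_dvd h40 hd
  have hdeg : (X ^ 2 - C (2 * e 0) * X + C (e 0 * (e 1 + e 2) - e 1 * e 2) : M[X]).natDegree =
      2 := by
    compute_degree!
  obtain ⟨z, hz⟩ := hsp.exists_eval_eq_zero (degree_ne_of_natDegree_ne (by rw [hdeg]; norm_num))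
  simp only [eval_add, eval_sub, eval_mul, eval_C, eval_pow, eval_X] at hz
  have hev : ∀ x, (W.Ψ₃.map (algebraMap K M)).eval x = 3 * ∏ j, (x - w j) := by
    intro x
    rw [hw]
    simp only [eval_mul, eval_C, eval_prod, eval_sub, eval_X]
  have e1 : (0 + 1 : Fin 3) = 1 := rfl
  have e2 : (0 + 2 : Fin 3) = 2 := rfl
  have hNN : ∀ x, NN e 0 x = (z - x) * (2 * e 0 - z - x) := by
    intro x
    simp only [NN, e1, e2]
    linear_combination hz
  have h1 : 9 * ∏ j, NN e 0 (w j) = (W.Ψ₃.map (algebraMap K M)).eval z *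
      (W.Ψ₃.map (algebraMap K M)).eval (2 * e 0 - z) := by
    rw [hev, hev]
    have : ∏ j, NN e 0 (w j) = (∏ j, (z - w j)) * ∏ j, (2 * e 0 - z - w j) := by
      rw [← Finset.prod_mul_distrib]
      exact Finset.prod_congr rfl fun j _ => hNN _
    rw [this]
    ring
  rw [h1, he.psi3_map]
  simp only [eval_add, eval_mul, eval_C, eval_pow, eval_X, AA, e1, e2]
  -- reduce with `δ = z - e 0`
  obtain ⟨δ, rfl⟩ : ∃ δ, z = e 0 + δ := ⟨z - e 0, by ring⟩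
  have hδ : δ ^ 2 = (e 0 - e 1) * (e 0 - e 2) := by linear_combination hz
  obtain ⟨p, hp⟩ : ∃ p, e 1 = e 0 - p := ⟨e 0 - e 1, by ring⟩
  obtain ⟨r, hr⟩ : ∃ r, e 2 = e 0 - r := ⟨e 0 - e 2, by ring⟩
  rw [hp, hr] at hδ ⊢
  have hδ' : δ ^ 2 = p * r := by linear_combination hδ
  have e4 : δ ^ 4 = p ^ 2 * r ^ 2 := by
    calc δ ^ 4 = (δ ^ 2) ^ 2 := by ring
      _ = _ := by rw [hδ']; ring
  have e6 : δ ^ 6 = p ^ 3 * r ^ 3 := by
    calc δ ^ 6 = (δ ^ 2) ^ 3 := by ring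
      _ = _ := by rw [hδ']; ring
  have e8 : δ ^ 8 = p ^ 4 * r ^ 4 := by
    calc δ ^ 8 = (δ ^ 2) ^ 4 := by ring
      _ = _ := by rw [hδ']; ring
  ring_nf
  rw [e8, e6, e4, hδ']
  ring

end

end Pool.Agent.TH919.HS
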