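import Pool.Agent.TH919.HS.Gen5

namespace Pool.Agent.TH919.HS

open Polynomial Finset NumberField IsDedekindDomain WithZero Pool.Agent.W318

section

variable {K : Type} [Field K] [NumberField K] {M : Type} [Field M] [NumberField M] [Algebra K M]
  {W : WeierstrassCurve K} {e : Fin 3 → M}

/-- The differences of the `x`-coordinates of the `3`-torsion. -/
theorem prod_diff (he : TT W e) {w : Fin 4 → M}
    (hw : W.Ψ₃.map (algebraMap K M) = C 3 * ∏ j, (X - C (w j))) :
    27 * ∏ j, ∏ l ∈ univ.erase j, (w j - w l) = -256 * (AA e 0 * AA e 1 * AA e 2) ^ 2 := by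
  have h3 : (3 : M) ≠ 0 := three_ne_zero
  have hS : ∀ j, ∏ l ∈ univ.erase j, (w j - w l) =
      4 * ((w j - e 0) * (w j - e 1) * (w j - e 2)) := by
    intro j
    apply mul_left_cancel₀ h3
    rw [← deriv_root hw j, he.psi3_map]
    simp only [derivative_add, derivative_mul, derivative_C, derivative_X_pow, derivative_X,
      eval_add, eval_mul, eval_C, eval_pow, eval_X, zero_mul, zero_add, mul_one, Nat.cast_ofNat]
    norm_num
    ring
  have hev : ∀ x, (W.Ψ₃.map (algebraMap K M)).eval x = 3 * ∏ j, (x - w j) := by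
    intro x
    rw [hw]
    simp only [eval_mul, eval_C, eval_prod, eval_sub, eval_X]
  have hneg : ∀ i, ∏ j, (w j - e i) = ∏ j, (e i - w j) := by
    intro i
    have : ∀ j, w j - e i = -1 * (e i - w j) := fun j => by ring
    simp only [this, Finset.prod_mul_distrib, Finset.prod_const, Finset.card_univ,
      Fintype.card_fin]
    norm_num
  have hi : ∀ i, 3 * ∏ j, (w j - e i) = -AA e i ^ 2 := by
    intro i
    rw [hneg, ← hev, psi3_at he]
  have h1 : ∏ j, ∏ l ∈ univ.erase j, (w j - w l) =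
      256 * ((∏ j, (w j - e 0)) * (∏ j, (w j - e 1)) * ∏ j, (w j - e 2)) := by
    simp only [hS, Finset.prod_mul_distrib, Finset.prod_const, Finset.card_univ,
      Fintype.card_fin]
    norm_num
  rw [h1]
  calc 27 * (256 * ((∏ j, (w j - e 0)) * (∏ j, (w j - e 1)) * ∏ j, (w j - e 2))) =
        256 * ((3 * ∏ j, (w j - e 0)) * (3 * ∏ j, (w j - e 1)) * (3 * ∏ j, (w j - e 2))) := by
        ring
    _ = _ := by rw [hi, hi, hi]; ring

/-- The product of all the cross ratios. -/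
theorem prod_cr6 (he : TT W e) (hΔ : W.Δ ≠ 0) {w : Fin 4 → M}
    (hw : W.Ψ₃.map (algebraMap K M) = C 3 * ∏ j, (X - C (w j)))
    (hs4 : (W.preΨ₄.map (algebraMap K M)).Splits) (hN : ∀ j, NN e 0 (w j) ≠ 0) :
    2 ^ 8 * ∏ j, ∏ l ∈ univ.erase j, (-AA e 0 * (w j - w l) ^ 2 / (NN e 0 (w j) * NN e 0 (w l))) =
      3 ^ 6 * (AA e 0 / (e 1 - e 2) ^ 2) ^ 2 := by
  have hee : ∀ i j, i ≠ j → e i - e j ≠ 0 := fun i j hij => sub_ne_zero.mpr (he.ne hΔ hij)
  have e1 : (0 + 1 : Fin 3) = 1 := rfl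
  have e2 : (0 + 2 : Fin 3) = 2 := rfl
  have e3 : (1 + 1 : Fin 3) = 2 := rfl
  have e4 : (1 + 2 : Fin 3) = 0 := rfl
  have e5 : (2 + 1 : Fin 3) = 0 := rfl
  have e6 : (2 + 2 : Fin 3) = 1 := rfl
  set a := AA e 0 with ha
  have ha0 : a ≠ 0 := by
    rw [ha, AA, e1, e2]
    exact mul_ne_zero (hee 0 1 (by decide)) (hee 0 2 (by decide))
  set P0 := ∏ j, NN e 0 (w j) with hP0
  have hP0' : P0 ≠ 0 := Finset.prod_ne_zero_iff.mpr fun j _ => hN j
  have hin : ∀ j, ∏ l ∈ univ.erase j, (-a * (w j - w l) ^ 2 / (NN e 0 (w j) * NN e 0 (w l))) =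
      (-a) ^ 3 * (∏ l ∈ univ.erase j, (w j - w l)) ^ 2 / (NN e 0 (w j) ^ 2 * P0) := by
    intro j
    have hc3 : (univ.erase j : Finset (Fin 4)).card = 3 := by
      rw [Finset.card_erase_of_mem (mem_univ j)]
      simp
    have h1 : P0 = NN e 0 (w j) * ∏ l ∈ univ.erase j, NN e 0 (w l) :=
      (Finset.mul_prod_erase univ (fun l => NN e 0 (w l)) (mem_univ j)).symm
    rw [Finset.prod_div_distrib, Finset.prod_mul_distrib, Finset.prod_const, hc3,
      Finset.prod_mul_distrib, Finset.prod_const, hc3, Finset.prod_pow, h1]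
    have h2 := hN j
    have h3 : ∏ l ∈ univ.erase j, NN e 0 (w l) ≠ 0 := Finset.prod_ne_zero_iff.mpr fun l _ => hN l
    congr 1
    ring
  have hout : ∏ j, ∏ l ∈ univ.erase j, (-a * (w j - w l) ^ 2 / (NN e 0 (w j) * NN e 0 (w l))) =
      a ^ 12 * (∏ j, ∏ l ∈ univ.erase j, (w j - w l)) ^ 2 / P0 ^ 6 := by
    simp only [hin]
    rw [Finset.prod_div_distrib, Finset.prod_mul_distrib, Finset.prod_const, Finset.card_univ,
      Fintype.card_fin, Finset.prod_pow, Finset.prod_mul_distrib, Finset.prod_pow,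
      Finset.prod_const, Finset.card_univ, Fintype.card_fin, ← hP0]
    congr 1 <;> ring
  have hd := prod_diff he hw
  have hn := prod_NN he hw hs4
  rw [← ha] at hd hn
  rw [← hP0] at hn
  have hAAA : a * AA e 1 * AA e 2 = -(e 1 - e 2) ^ 2 * a ^ 2 := by
    rw [ha, AA, AA, AA, e1, e2, e3, e4, e5, e6]
    ring
  rw [hAAA] at hd
  rw [hout]
  set S := ∏ j, ∏ l ∈ univ.erase j, (w j - w l) with hS
  set b := e 1 - e 2 with hb
  have hb0 : b ≠ 0 := hee 1 2 (by decide)
  have hS' : S = -256 / 27 * (b ^ 4 * a ^ 4) := by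
    field_simp
    linear_combination hd
  have hP' : P0 = -16 / 9 * (a ^ 3 * b ^ 2) := by
    field_simp
    linear_combination hn
  rw [hS', hP']
  field_simp
  norm_num

end

end Pool.Agent.TH919.HS
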