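import Pool.Agent.TH919.HS.Unram

namespace Pool.Agent.TH919.HS

open Polynomial Finset NumberField IsDedekindDomain WithZero Pool.Agent.W318

section

variable {K L : Type} [Field K] [NumberField K] [Field L] [NumberField L] [Algebra K L]

omit [NumberField L] in
theorem isHyp_map {g : ℕ} {F : K[X]} (hF : IsHyp g F) : IsHyp g (F.map (algebraMap K L)) := by
  have := hF.good.map (algebraMap K L)
  refine ⟨this.1, by have := this.2; omega⟩

omit [NumberField K] [NumberField L] in
theorem exists_under (w : HeightOneSpectrum (𝓞 L)) :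
    ∃ v : HeightOneSpectrum (𝓞 K), w.asIdeal.LiesOver v.asIdeal := by
  have hp := w.isPrime
  refine ⟨⟨w.asIdeal.under (𝓞 K), inferInstance, ?_⟩, ⟨rfl⟩⟩
  intro h
  have hi : Algebra.IsIntegral (𝓞 K) (𝓞 L) := inferInstance
  exact w.ne_bot (Ideal.eq_bot_of_comap_eq_bot h)

/-- Good reduction is preserved by base change (away from `2`). -/
theorem minExp_map_eq_zero {g : ℕ} (hg : 2 ≤ g) {F : K[X]} (hF : IsHyp g F)
    (v : HeightOneSpectrum (𝓞 K)) (w : HeightOneSpectrum (𝓞 L)) [w.asIdeal.LiesOver v.asIdeal]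
    (h2 : v.valuation K ((2 : ℕ) : K) = 1) (hv : minExp g F v = 0) :
    minExp g (F.map (algebraMap K L)) w = 0 := by
  obtain ⟨F', he, hint, hdisc⟩ := model_form hg hF v
  have ho2 : ordAbs v ((2 : ℕ) : K) = 0 :=
    (ordAbs_eq_zero_iff (Nat.cast_ne_zero.mpr (by norm_num))).mpr h2
  rw [hv, ho2, mul_zero, add_zero] at hdisc
  have hc := compat_of_liesOver v w
  have hint' : ∀ i, w.valuation L ((F'.map (algebraMap K L)).coeff i) ≤ 1 := by
    intro i
    rw [coeff_map, ← absW_le_one_iff, hc.le_one_iff]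
    exact hint i
  have h2w : w.valuation L (2 : L) = exp (-((0 : ℕ) : ℤ)) := by
    have h3 := absW_liesOver v w (k := 0) (x := ((2 : ℕ) : K)) (by rw [h2, exp_zero])
    rw [map_natCast, mul_zero, Nat.cast_ofNat] at h3
    rw [h3]
    simp
  obtain ⟨k, hk, _, hle⟩ := minExp_le (isHyp_map hF) w (he.map (algebraMap K L)) hint' h2w
  rw [discN_map] at hk
  have h4 := absW_liesOver v w hdisc
  rw [h4] at hk
  simp only [Nat.cast_zero, neg_zero, mul_zero, exp_inj] at hk
  omega

/-- Explicit constant in the base change inequality. -/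
def bcConst (g d : ℕ) : ℕ :=
  2 * (2 * g + 1) * (1 + (2 + (2 * g + 2) * d) * (g + 1)) + (8 * g + 4) * (2 * d)

theorem local_bc {g d : ℕ} (hg : 2 ≤ g) (hd : Module.finrank ℚ K ≤ d) {F : K[X]}
    (hF : IsHyp g F) (v : HeightOneSpectrum (𝓞 K)) (w : HeightOneSpectrum (𝓞 L))
    [hvw : w.asIdeal.LiesOver v.asIdeal] :
    v.asIdeal.ramificationIdx' w.asIdeal * minExp g F v ≤
      minExp g (F.map (algebraMap K L)) w +
        v.asIdeal.ramificationIdx' w.asIdeal * bcConst g d := by
  have h1 := (local_minExp hg hF v w (val_two v)).1 ((2 * g + 2) * d) (by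
    intro m hm1 hm2
    rw [val_nat_exp v (by omega), exp_le_exp, neg_le_neg_iff]
    have h2 := ordAbs_nat_le v (n := m) (by omega)
    have h3 : m * Module.finrank ℚ K ≤ (2 * g + 2) * d := Nat.mul_le_mul hm2 hd
    exact_mod_cast h2.trans h3)
  refine h1.trans (Nat.add_le_add_left (Nat.mul_le_mul_left _ ?_) _)
  unfold bcConst
  have h2 := ordAbs_nat_le v (n := 2) (by norm_num)
  have h3 : ordAbs v ((2 : ℕ) : K) ≤ 2 * d := h2.trans (Nat.mul_le_mul_left _ hd)
  exact Nat.add_le_add_left (Nat.mul_le_mul_left _ h3) _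

theorem global_bc {g d : ℕ} (hg : 2 ≤ g) (hd : Module.finrank ℚ K ≤ d) {F : K[X]}
    (hF : IsHyp g F) {S : Finset ℕ} (hS : ∀ p ∈ S, p.Prime)
    (hgood : ∀ v : HeightOneSpectrum (𝓞 K), ¬ Above S v → minExp g F v = 0) :
    discNorm g F ^ Module.finrank K L ≤
      ((∏ p ∈ S, p) ^ (d * bcConst g d)) ^ Module.finrank K L *
        discNorm g (F.map (algebraMap K L)) := by
  classical
  set m := Module.finrank K L with hm
  have hB := finite_bad hF
  have hBL := finite_bad (isHyp_map (L := L) hF)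
  set B := hB.toFinset with hBdef
  have hBmem : ∀ v, v ∈ B ↔ minExp g F v ≠ 0 := fun v => by simp [hBdef]
  choose T hT hsum using fun v : HeightOneSpectrum (𝓞 K) => exists_over (L := L) v
  set BL := hBL.toFinset ∪ B.biUnion T with hBLdef
  rw [discNorm_eq B (fun v hv => (hBmem v).mpr hv), discNorm_eq BL (fun w hw => by
      rw [hBLdef, Finset.mem_union]; left; simpa using hw)]
  have hv : ∀ v ∈ B, (Ideal.absNorm v.asIdeal ^ minExp g F v) ^ m ≤
      (Ideal.absNorm v.asIdeal ^ bcConst g d) ^ m *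
        ∏ w ∈ T v, Ideal.absNorm w.asIdeal ^ minExp g (F.map (algebraMap K L)) w := by
    intro v _
    rw [← pow_mul, ← pow_mul]
    apply prod_over_ineq v (hT v) (hsum v)
    intro w hw
    have := (hT v w).mp hw
    exact local_bc hg hd hF v w
  have hdisj : (B : Set (HeightOneSpectrum (𝓞 K))).PairwiseDisjoint T := by
    intro v _ v' _ hne
    rw [Function.onFun, Finset.disjoint_left]
    intro w h1 h2
    apply hne
    have e1 := ((hT v w).mp h1).over
    have e2 := ((hT v' w).mp h2).over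
    exact HeightOneSpectrum.ext (by rw [e1, e2])
  have hab : ∀ v ∈ B, Above S v := by
    intro v hv
    by_contra hcon
    exact (hBmem v).mp hv (hgood v hcon)
  calc (∏ v ∈ B, Ideal.absNorm v.asIdeal ^ minExp g F v) ^ m
      = ∏ v ∈ B, (Ideal.absNorm v.asIdeal ^ minExp g F v) ^ m := by rw [Finset.prod_pow]
    _ ≤ ∏ v ∈ B, ((Ideal.absNorm v.asIdeal ^ bcConst g d) ^ m *
        ∏ w ∈ T v, Ideal.absNorm w.asIdeal ^ minExp g (F.map (algebraMap K L)) w) :=
        Finset.prod_le_prod' hv
    _ = ((∏ v ∈ B, Ideal.absNorm v.asIdeal) ^ bcConst g d) ^ m *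
        ∏ w ∈ B.biUnion T, Ideal.absNorm w.asIdeal ^ minExp g (F.map (algebraMap K L)) w := by
        rw [Finset.prod_biUnion hdisj, Finset.prod_mul_distrib, Finset.prod_pow]
        congr 2
        rw [← Finset.prod_pow]
    _ ≤ _ := by
        refine Nat.mul_le_mul ?_ ?_
        · refine Nat.pow_le_pow_left ?_ _
          rw [pow_mul]
          refine Nat.pow_le_pow_left ?_ _
          refine (prod_above_le hS B hab).trans ?_
          exact Nat.pow_le_pow_right (Nat.pos_of_ne_zero (prod_primes_ne_zero hS)) hd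
        · apply Finset.prod_le_prod_of_subset_of_one_le'
          · rw [hBLdef]; exact Finset.subset_union_right
          · intro w _ _
            exact Nat.one_le_pow _ _ (one_le_absNorm w)

end

section

variable {K : Type} [Field K] [NumberField K]

theorem finite_ord {x : K} (hx : x ≠ 0) :
    {v : HeightOneSpectrum (𝓞 K) | ordAbs v x ≠ 0}.Finite := by
  refine (finite_val_ne_one hx).subset fun v hv => ?_
  rw [Set.mem_ofPred_eq] at hv ⊢
  intro h
  exact hv ((ordAbs_eq_zero_iff hx).mpr h)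

theorem phi_eq {x : K} (T : Finset (HeightOneSpectrum (𝓞 K)))
    (hT : ∀ v, ordAbs v x ≠ 0 ∨ ordAbs v (1 - x) ≠ 0 → v ∈ T) :
    phi x = ∏ v ∈ T, Ideal.absNorm v.asIdeal ^ (ordAbs v x + ordAbs v (1 - x)) := by
  apply finprod_eq_prod_of_mulSupport_subset
  intro v hv
  rw [Function.mem_mulSupport] at hv
  apply hT
  by_contra h0
  push Not at h0
  rw [h0.1, h0.2, pow_zero] at hv
  exact hv rfl

theorem finite_phi {x : K} (h0 : x ≠ 0) (h1 : x ≠ 1) :
    {v : HeightOneSpectrum (𝓞 K) | ordAbs v x ≠ 0 ∨ ordAbs v (1 - x) ≠ 0}.Finite :=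
  (finite_ord h0).union (finite_ord (sub_ne_zero.mpr h1.symm))

theorem prod_le_phi {x : K} (h0 : x ≠ 0) (h1 : x ≠ 1) (T : Finset (HeightOneSpectrum (𝓞 K))) :
    ∏ v ∈ T, Ideal.absNorm v.asIdeal ^ ordAbs v x ≤ phi x := by
  classical
  set U := (finite_phi h0 h1).toFinset with hU
  rw [phi_eq (T ∪ U) (fun v hv => by
    rw [Finset.mem_union]; right; simpa [hU] using hv)]
  calc ∏ v ∈ T, Ideal.absNorm v.asIdeal ^ ordAbs v x
      ≤ ∏ v ∈ T, Ideal.absNorm v.asIdeal ^ (ordAbs v x + ordAbs v (1 - x)) := by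
        apply Finset.prod_le_prod' fun v _ => ?_
        exact Nat.pow_le_pow_right (one_le_absNorm v) (Nat.le_add_right _ _)
    _ ≤ _ := by
        apply Finset.prod_le_prod_of_subset_of_one_le' Finset.subset_union_left
        intro v _ _
        exact Nat.one_le_pow _ _ (one_le_absNorm v)

theorem one_le_discNorm {g : ℕ} {F : K[X]} (hF : IsHyp g F) : 1 ≤ discNorm g F := by
  rw [discNorm_eq (finite_bad hF).toFinset (fun v hv => by simpa using hv)]
  exact Finset.one_le_prod' fun v _ => Nat.one_le_pow _ _ (one_le_absNorm v)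

end

end Pool.Agent.TH919.HS
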