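import Pool.Agent.TH919.HS.Upper

namespace Pool.Agent.TH919.HS

open Polynomial Finset NumberField IsDedekindDomain WithZero Pool.Agent.W318

section

variable {K : Type} [Field K] [NumberField K]

theorem absW_eq_one_iff (v : HeightOneSpectrum (𝓞 K)) (x : K) :
    absW v x = 1 ↔ v.valuation K x = 1 := by
  rcases eq_or_ne x 0 with rfl | hx
  · simp
  · obtain ⟨k, hk⟩ := exists_exp v hx
    rw [absW_exp v hk, hk, ← exp_zero, exp_inj]
    constructor
    · intro h
      rwa [← zpow_zero (2 : ℝ), zpow_right_inj₀ (by norm_num) (by norm_num)] at h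
    · rintro rfl
      simp

/-- The form of a minimal Weierstrass model. -/
theorem model_form {g : ℕ} (hg : 2 ≤ g) {F : K[X]} (hF : IsHyp g F)
    (v : HeightOneSpectrum (𝓞 K)) :
    ∃ F' : K[X], Eqv (g + 1) F F' ∧ (∀ i, v.valuation K (F'.coeff i) ≤ 1) ∧
      v.valuation K (discN (g + 1 + (g + 1)) F') =
        exp (-((minExp g F v + (4 * g + 4) * ordAbs v ((2 : ℕ) : K) : ℕ) : ℤ)) := by
  obtain ⟨f, f₂, hM, hn⟩ := exists_min_model hF v
  obtain ⟨φ⟩ := hM.iso
  have hbr := bridge hg hF.1 hF.2 hM.upper φ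
  have hgood' : GoodForm (g + 1) (4 * f + f₂ ^ 2) := hbr.good (by omega) hF.good
  refine ⟨4 * f + f₂ ^ 2, hbr, int_comb v hM.int hM.int₂, ?_⟩
  obtain ⟨j, hj⟩ := exists_exp v (discN_ne_zero (by omega) hgood')
  have h4 : (1 / 4 : K) ≠ 0 := by norm_num
  have ht := val_two v
  rw [modelDisc_eq, four_mul_form, discN_C_mul (by omega) h4 hgood'.2, map_mul, map_mul,
    map_pow, map_pow, ht, hj] at hn
  have h5 : v.valuation K (1 / 4 : K) = exp (2 * (ordAbs v ((2 : ℕ) : K) : ℤ)) := by
    have : (1 / 4 : K) = (2 * 2)⁻¹ := by norm_num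
    rw [this, map_inv₀, map_mul, ht, ← exp_add, ← exp_neg]
    congr 1
    ring
  rw [h5, ← exp_nsmul, ← exp_nsmul, ← exp_add, ← exp_add, exp_inj] at hn
  simp only [nsmul_eq_mul] at hn
  have h6 : ((2 * (g + 1 + (g + 1) - 1) : ℕ) : ℤ) = 4 * g + 2 := by
    have : 2 * (g + 1 + (g + 1) - 1) = 4 * g + 2 := by omega
    rw [this]; push_cast; ring
  rw [h6] at hn
  rw [hj, exp_inj]
  push_cast at hn ⊢
  linarith

end

section

variable {K L : Type} [Field K] [NumberField K] [Field L] [NumberField L] [Algebra K L]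

theorem compat_of_liesOver (v : HeightOneSpectrum (𝓞 K)) (w : HeightOneSpectrum (𝓞 L))
    [w.asIdeal.LiesOver v.asIdeal] :
    Compat v w (v.asIdeal.ramificationIdx' w.asIdeal) := by
  refine ⟨ram_pos v w, fun x k hx => ?_⟩
  rw [absW_exp w (absW_liesOver v w hx)]
  congr 1
  ring

/-- At a place above a place of good reduction prime to `2`, after a `K`-rational substitution
all roots are far from each other. -/
theorem exists_far {g : ℕ} (hg : 2 ≤ g) {F : K[X]} (hF : IsHyp g F)
    (v : HeightOneSpectrum (𝓞 K)) (w : HeightOneSpectrum (𝓞 L)) [w.asIdeal.LiesOver v.asIdeal]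
    (h2 : v.valuation K ((2 : ℕ) : K) = 1) (hv : minExp g F v = 0)
    {u : L} {α β : Fin (g + 1 + (g + 1)) → L} (hu : u ≠ 0)
    (hne : ∀ i j, i ≠ j → br α β i j ≠ 0)
    (hfac : F.map (algebraMap K L) = C u * ∏ i, (C (α i) * X + C (β i))) :
    ∃ a b c d : K, algebraMap K L a * algebraMap K L d - algebraMap K L b * algebraMap K L c ≠ 0 ∧
      (∀ i, 0 < mx (absW w) (fun i => α i * algebraMap K L a + β i * algebraMap K L c)
        (fun i => α i * algebraMap K L b + β i * algebraMap K L d) i) ∧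
      ∀ i j, i ≠ j → absW w (br (fun i => α i * algebraMap K L a + β i * algebraMap K L c)
        (fun i => α i * algebraMap K L b + β i * algebraMap K L d) i j) =
        mx (absW w) (fun i => α i * algebraMap K L a + β i * algebraMap K L c)
          (fun i => α i * algebraMap K L b + β i * algebraMap K L d) i *
        mx (absW w) (fun i => α i * algebraMap K L a + β i * algebraMap K L c)
          (fun i => α i * algebraMap K L b + β i * algebraMap K L d) j := by
  classical
  have hna := absW_na w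
  obtain ⟨F', ⟨a, b, c, d, l, hdet, hl, hF'⟩, hint, hdisc⟩ := model_form hg hF v
  have ho2 : ordAbs v ((2 : ℕ) : K) = 0 :=
    (ordAbs_eq_zero_iff (Nat.cast_ne_zero.mpr (by norm_num))).mpr h2
  rw [hv, ho2, mul_zero, add_zero] at hdisc
  have hc := compat_of_liesOver v w
  set φ := algebraMap K L with hφ
  have hdet' : φ a * φ d - φ b * φ c ≠ 0 := by
    rw [← map_mul, ← map_mul, ← map_sub, Ne, map_eq_zero]
    exact hdet
  have hl' : φ l ≠ 0 := by rwa [Ne, map_eq_zero]
  refine ⟨a, b, c, d, hdet', ?_⟩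
  set α' := fun i => α i * φ a + β i * φ c with hα'
  set β' := fun i => α i * φ b + β i * φ d with hβ'
  have hne' : ∀ i j, i ≠ j → br α' β' i j ≠ 0 := by
    intro i j hij
    rw [hα', hβ', br_act]
    exact mul_ne_zero hdet' (hne i j hij)
  have hpos : ∀ i, 0 < mx (absW w) α' β' i := by
    intro i
    obtain ⟨j, hj⟩ : ∃ j, i ≠ j := by
      have : Nontrivial (Fin (g + 1 + (g + 1))) := Fin.nontrivial_iff_two_le.mpr (by omega)
      obtain ⟨j, hj⟩ := exists_ne i
      exact ⟨j, hj.symm⟩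
    exact mx_pos hna (hne' i j hj)
  refine ⟨hpos, ?_⟩
  have hmap : F'.map φ = C (φ l ^ 2 * u) * ∏ i, (C (α' i) * X + C (β' i)) := by
    rw [hF', Polynomial.map_mul, Polynomial.map_C, map_pow, act_map, hfac, sq_act_prod hdet']
  have hint' : absW w (φ l ^ 2 * u) * ∏ i, mx (absW w) α' β' i ≤ 1 := by
    have h1 := (hc.int_iff F').mpr hint
    rw [← hφ, hmap, gaussNorm_prod_lin hna] at h1
    exact h1
  have hd := abs_discN_prod_lin (absW w) (mul_ne_zero (pow_ne_zero 2 hl') hu) α' β'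
    (fun i j hij => hne' i j hij) (by rw [Fintype.card_fin]; omega)
  rw [Fintype.card_fin, ← hmap, discN_map, hc.2 _ _ hdisc] at hd
  simp only [Nat.cast_zero, neg_zero, zero_mul, zpow_zero] at hd
  exact far_of_good hna (mul_ne_zero (pow_ne_zero 2 hl') hu) hne' hint' hd.le

/-- Cross ratios are units at places of good reduction. -/
theorem crq_unit {g : ℕ} (hg : 2 ≤ g) {F : K[X]} (hF : IsHyp g F)
    (v : HeightOneSpectrum (𝓞 K)) (w : HeightOneSpectrum (𝓞 L)) [w.asIdeal.LiesOver v.asIdeal]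
    (h2 : v.valuation K ((2 : ℕ) : K) = 1) (hv : minExp g F v = 0)
    {u : L} {α β : Fin (g + 1 + (g + 1)) → L} (hu : u ≠ 0)
    (hne : ∀ i j, i ≠ j → br α β i j ≠ 0)
    (hfac : F.map (algebraMap K L) = C u * ∏ i, (C (α i) * X + C (β i)))
    {q : Fin (g + 1 + (g + 1)) × Fin (g + 1 + (g + 1)) × Fin (g + 1 + (g + 1)) ×
      Fin (g + 1 + (g + 1))} (hq : q ∈ quads (g + 1 + (g + 1))) :
    w.valuation L (crq α β q) = 1 ∧ w.valuation L (1 - crq α β q) = 1 := by
  obtain ⟨a, b, c, d, hdet, hpos, hfar⟩ := exists_far hg hF v w h2 hv hu hne hfac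
  rw [quads, mem_filter] at hq
  obtain ⟨_, h1, h2, h3, h4, h5, h6⟩ := hq
  rw [← absW_eq_one_iff, ← absW_eq_one_iff]
  set φ := algebraMap K L with hφ
  set α' := fun i => α i * φ a + β i * φ c with hα'
  set β' := fun i => α i * φ b + β i * φ d with hβ'
  have e1 : crq α β q = cr α' β' q.1 q.2.1 q.2.2.1 q.2.2.2 := by
    rw [hα', hβ', cr_act α β hdet]; rfl
  have hne' : ∀ i j, i ≠ j → br α' β' i j ≠ 0 := by
    intro i j hij
    rw [hα', hβ', br_act]
    exact mul_ne_zero hdet (hne i j hij)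
  rw [e1, one_sub_cr (hne' _ _ h2) (hne' _ _ h5)]
  unfold cr
  simp only [map_div₀, map_mul]
  rw [hfar _ _ h1, hfar _ _ h2, hfar _ _ h3, hfar _ _ h4, hfar _ _ h5, hfar _ _ h6]
  have p1 := (hpos q.1).ne'
  have p2 := (hpos q.2.1).ne'
  have p3 := (hpos q.2.2.1).ne'
  have p4 := (hpos q.2.2.2).ne'
  constructor
  · rw [div_eq_one_iff_eq (by positivity)]
    ring
  · rw [div_eq_one_iff_eq (by positivity)]
    ring

end

end Pool.Agent.TH919.HS
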