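import Pool.Agent.TH919.HS.Defs
import Pool.Agent.W318.GlobalSzp

namespace Pool.Agent.TH919.HS

open Polynomial NumberField IsDedekindDomain WithZero Pool.Agent.W318

variable {K : Type} [Field K] [NumberField K]

theorem ordAbs_of_exp {v : HeightOneSpectrum (𝓞 K)} {x : K} {k : ℤ}
    (h : v.valuation K x = exp k) : ordAbs v x = k.natAbs := by
  rw [ordAbs, h, log_exp]

theorem ordAbs_eq_zero_iff {v : HeightOneSpectrum (𝓞 K)} {x : K} (hx : x ≠ 0) :
    ordAbs v x = 0 ↔ v.valuation K x = 1 := by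
  obtain ⟨k, hk⟩ := exists_exp v hx
  rw [ordAbs_of_exp hk, hk, Int.natAbs_eq_zero, ← exp_zero, exp_inj]

theorem absW_pow_ordAbs_le (v : HeightOneSpectrum (𝓞 K)) {x : K} (hx : x ≠ 0) :
    (1 / 2 : ℝ) ^ ordAbs v x ≤ absW v x := by
  obtain ⟨k, hk⟩ := exists_exp v hx
  rw [ordAbs_of_exp hk, absW_exp v hk, one_div, inv_pow, ← zpow_natCast, ← zpow_neg]
  apply zpow_le_zpow_right₀ (by norm_num)
  omega

theorem coprime_pow {v w : HeightOneSpectrum (𝓞 K)} (h : v ≠ w) (m n : ℕ) :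
    IsCoprime (v.asIdeal ^ m) (w.asIdeal ^ n) := by
  have hv : v.asIdeal.IsMaximal := v.isMaximal
  have hw : w.asIdeal.IsMaximal := w.isMaximal
  exact (Ideal.isCoprime_of_isMaximal fun h' => h (HeightOneSpectrum.ext h')).pow

/-- `∏ N_v ^ v(n) ≤ n ^ [K : ℚ]`. -/
theorem prod_norm_nat_le (T : Finset (HeightOneSpectrum (𝓞 K))) {n : ℕ} (hn : n ≠ 0) :
    ∏ v ∈ T, Ideal.absNorm v.asIdeal ^ ordAbs v (n : K) ≤ n ^ Module.finrank ℚ K := by
  classical
  have hdvd : ∏ v ∈ T, v.asIdeal ^ ordAbs v (n : K) ∣ Ideal.span {((n : ℕ) : 𝓞 K)} := by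
    apply Finset.prod_dvd_of_coprime
    · intro v _ w _ hvw
      exact coprime_pow hvw _ _
    · intro v _
      rw [Ideal.dvd_span_singleton, ← val_le_iff_mem]
      obtain ⟨k, hk⟩ := exists_exp v (Nat.cast_ne_zero.mpr hn : (n : K) ≠ 0)
      have h1 : v.valuation K (n : K) ≤ 1 := by
        have e : algebraMap (𝓞 K) K (n : 𝓞 K) = n := map_natCast _ n
        rw [← e]
        exact v.valuation_le_one _
      rw [hk, ← exp_zero, exp_le_exp] at h1
      rw [ordAbs_of_exp hk]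
      have e : (((n : ℕ) : 𝓞 K) : K) = n := map_natCast _ n
      rw [e, hk, exp_le_exp]
      omega
  have h2 := Ideal.absNorm_dvd_absNorm_of_le (Ideal.le_of_dvd hdvd)
  rw [map_prod] at h2
  simp only [map_pow] at h2
  have h3 : Ideal.absNorm (Ideal.span {((n : ℕ) : 𝓞 K)}) = n ^ Module.finrank ℚ K := by
    rw [Ideal.absNorm_span_natCast, RingOfIntegers.rank]
  rw [h3] at h2
  exact Nat.le_of_dvd (Nat.pow_pos (Nat.pos_of_ne_zero hn)) h2

theorem two_le_absNorm (v : HeightOneSpectrum (𝓞 K)) : 2 ≤ Ideal.absNorm v.asIdeal := by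
  have h1 := one_le_absNorm v
  have h2 : Ideal.absNorm v.asIdeal ≠ 1 := by
    rw [Ne, Ideal.absNorm_eq_one_iff]
    exact v.isPrime.ne_top
  omega

/-- `v(n) ≤ n [K : ℚ]` -/
theorem ordAbs_nat_le (v : HeightOneSpectrum (𝓞 K)) {n : ℕ} (hn : n ≠ 0) :
    ordAbs v (n : K) ≤ n * Module.finrank ℚ K := by
  have h1 := prod_norm_nat_le {v} hn
  rw [Finset.prod_singleton] at h1
  have h2 : 2 ^ ordAbs v (n : K) ≤ 2 ^ (n * Module.finrank ℚ K) := by
    calc 2 ^ ordAbs v (n : K) ≤ Ideal.absNorm v.asIdeal ^ ordAbs v (n : K) :=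
          Nat.pow_le_pow_left (two_le_absNorm v) _
      _ ≤ n ^ Module.finrank ℚ K := h1
      _ ≤ (2 ^ n) ^ Module.finrank ℚ K := Nat.pow_le_pow_left Nat.lt_two_pow_self.le _
      _ = 2 ^ (n * Module.finrank ℚ K) := by rw [← pow_mul]
  exact (Nat.pow_le_pow_iff_right (by norm_num)).mp h2

theorem val_nat_le_one (v : HeightOneSpectrum (𝓞 K)) (n : ℕ) : v.valuation K (n : K) ≤ 1 := by
  have e : algebraMap (𝓞 K) K (n : 𝓞 K) = n := map_natCast _ n
  rw [← e]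
  exact v.valuation_le_one _

theorem val_nat_exp (v : HeightOneSpectrum (𝓞 K)) {n : ℕ} (hn : n ≠ 0) :
    v.valuation K (n : K) = exp (-(ordAbs v (n : K) : ℤ)) := by
  obtain ⟨k, hk⟩ := exists_exp v (Nat.cast_ne_zero.mpr hn : (n : K) ≠ 0)
  have h1 := val_nat_le_one v n
  rw [hk, ← exp_zero, exp_le_exp] at h1
  rw [ordAbs_of_exp hk, hk]
  congr 1
  omega

theorem prod_primes_ne_zero {S : Finset ℕ} (hS : ∀ p ∈ S, p.Prime) : ∏ p ∈ S, p ≠ 0 :=
  Finset.prod_ne_zero_iff.mpr fun p hp => (hS p hp).ne_zero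

theorem above_ord {S : Finset ℕ} (hS : ∀ p ∈ S, p.Prime) {v : HeightOneSpectrum (𝓞 K)}
    (h : Above S v) : 1 ≤ ordAbs v ((∏ p ∈ S, p : ℕ) : K) := by
  obtain ⟨p, hp, hv⟩ := h
  rw [Nat.one_le_iff_ne_zero, Ne, ordAbs_eq_zero_iff
    (Nat.cast_ne_zero.mpr (prod_primes_ne_zero hS))]
  intro h1
  rw [← Finset.mul_prod_erase S _ hp, Nat.cast_mul, map_mul] at h1
  have h2 := val_nat_le_one v (∏ x ∈ S.erase p, x)
  have h3 : v.valuation K (p : K) * v.valuation K ((∏ x ∈ S.erase p, x : ℕ) : K) < 1 := by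
    calc _ ≤ v.valuation K (p : K) * 1 := by gcongr
      _ < 1 := by rwa [mul_one]
  exact h3.ne h1

/-- `∏ N_v ≤ (∏ p) ^ [K : ℚ]` over places above `S`. -/
theorem prod_above_le {S : Finset ℕ} (hS : ∀ p ∈ S, p.Prime)
    (T : Finset (HeightOneSpectrum (𝓞 K))) (hT : ∀ v ∈ T, Above S v) :
    ∏ v ∈ T, Ideal.absNorm v.asIdeal ≤ (∏ p ∈ S, p) ^ Module.finrank ℚ K := by
  refine le_trans ?_ (prod_norm_nat_le T (prod_primes_ne_zero hS))
  apply Finset.prod_le_prod' fun v hv => ?_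
  calc Ideal.absNorm v.asIdeal = Ideal.absNorm v.asIdeal ^ 1 := (pow_one _).symm
    _ ≤ _ := Nat.pow_le_pow_right (one_le_absNorm v) (above_ord hS (hT v hv))

end Pool.Agent.TH919.HS
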