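import Pool.Agent.TH919.HS.Ell3

namespace Pool.Agent.TH919.HS

open Polynomial Finset NumberField IsDedekindDomain WithZero Pool.Agent.W318

section

variable {K : Type} [Field K] [NumberField K]

/-- The minimal discriminant is bounded below by all cross ratios of the branch points. -/
theorem cr_lower {g : ℕ} (hg : 2 ≤ g) {F : K[X]} (hF : IsHyp g F)
    (v : HeightOneSpectrum (𝓞 K)) {M : Type} [Field M] [NumberField M] [Algebra K M]
    (W : HeightOneSpectrum (𝓞 M)) [W.asIdeal.LiesOver v.asIdeal]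
    {u : M} (hu : u ≠ 0) {α β : Fin (g + 1 + (g + 1)) → M}
    (hne : ∀ i j, i ≠ j → br α β i j ≠ 0)
    (hfac : F.map (algebraMap K M) = C u * ∏ i, (C (α i) * X + C (β i)))
    {i₀ j₀ i₁ j₁ : Fin (g + 1 + (g + 1))} (e1 : i₀ ≠ i₁) (e2 : j₀ ≠ i₀) (e3 : j₁ ≠ i₁)
    (e4 : j₀ ≠ j₁) :
    (2 : ℝ) ^ (-((minExp g F v + (4 * g + 4) * ordAbs v ((2 : ℕ) : K) : ℕ) : ℤ) *
      (v.asIdeal.ramificationIdx' W.asIdeal : ℕ)) ≤ absW W (cr α β i₀ j₀ i₁ j₁) := by
  have hc := compat_of_liesOver v W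
  have hna := absW_na W
  set φ := algebraMap K M with hφ
  obtain ⟨F', ⟨a', b', c', d', l, hdet, hl, hF'⟩, hint, hdisc⟩ := model_form hg hF v
  have hdet' : φ a' * φ d' - φ b' * φ c' ≠ 0 := by
    rw [← map_mul, ← map_mul, ← map_sub, Ne, map_eq_zero]
    exact hdet
  have hl' : φ l ≠ 0 := by rwa [Ne, map_eq_zero]
  set α₁ : Fin (g + 1 + (g + 1)) → M := fun i => α i * φ a' + β i * φ c' with hα₁
  set β₁ : Fin (g + 1 + (g + 1)) → M := fun i => α i * φ b' + β i * φ d' with hβ₁
  have hmap : F'.map φ = C (φ l ^ 2 * u) * ∏ i, (C (α₁ i) * X + C (β₁ i)) := by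
    rw [hF', Polynomial.map_mul, Polynomial.map_C, map_pow, act_map, hfac, sq_act_prod hdet']
  have hne₁ : ∀ i j, i ≠ j → br α₁ β₁ i j ≠ 0 := by
    intro i j hij
    rw [hα₁, hβ₁, br_act]
    exact mul_ne_zero hdet' (hne i j hij)
  have hint' : absW W (φ l ^ 2 * u) * ∏ i, mx (absW W) α₁ β₁ i ≤ 1 := by
    have h1 := (hc.int_iff F').mpr hint
    rw [← hφ, hmap, gaussNorm_prod_lin hna] at h1
    exact h1
  have hd := abs_discN_prod_lin (absW W) (mul_ne_zero (pow_ne_zero 2 hl') hu) α₁ β₁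
    (fun i j hij => hne₁ i j hij) (by rw [Fintype.card_fin]; omega)
  rw [Fintype.card_fin, ← hmap, discN_map, hc.2 _ _ hdisc] at hd
  have hle := disc_le_cr hna hint' hne₁ e1 e2 e3 e4
  have hd2 := hd.le.trans hle
  rw [hα₁, hβ₁, cr_act _ _ hdet'] at hd2
  exact hd2

end

section fac

variable {M : Type*} [Field M] {n : ℕ}

/-- The first coordinates: three finite points, infinity, and `n` finite points. -/
def al (M : Type*) [Field M] (n : ℕ) : Fin 4 ⊕ Fin n → M := Sum.elim ![1, 1, 1, 0] (fun _ => 1)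

/-- The second coordinates. -/
def be (e : Fin 3 → M) (t : Fin n → M) : Fin 4 ⊕ Fin n → M :=
  Sum.elim ![-e 0, -e 1, -e 2, 1] (fun j => -t j)

theorem prod_al_be (e : Fin 3 → M) (t : Fin n → M) :
    ∏ i, (C (al M n i) * X + C (be e t i)) = (∏ i, (X - C (e i))) * ∏ j, (X - C (t j)) := by
  rw [Fintype.prod_sum_type, Fin.prod_univ_four, Fin.prod_univ_three]
  simp only [al, be, Sum.elim_inl, Sum.elim_inr, Matrix.cons_val_zero, Matrix.cons_val_one,
    Matrix.cons_val, C_1, C_0, one_mul, zero_mul, zero_add, mul_one, C_neg]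
  congr 1

theorem br_al_be {A : AbsoluteValue M ℝ} {e : Fin 3 → M} {t : Fin n → M}
    (he : ∀ i j, i ≠ j → A (e i - e j) = 1) (ht : ∀ i j, i ≠ j → A (t i - t j) = 1)
    (het : ∀ i j, A (e i - t j) = 1) (i j : Fin 4 ⊕ Fin n) (hij : i ≠ j) :
    A (br (al M n) (be e t) i j) = 1 := by
  have hsymm : ∀ x y : M, A (x - y) = 1 → A (y - x) = 1 := fun x y h => by
    rw [map_sub_rev]; exact h
  have key : ∀ x y : M, A (x - y) = 1 → A (1 * -y - 1 * -x) = 1 := fun x y h => by
    rw [← h]; congr 1; ring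
  have key2 : ∀ x : M, A (1 * 1 - 0 * -x) = 1 := fun x => by simp
  have key3 : ∀ x : M, A (0 * -x - 1 * 1) = 1 := fun x => by simp
  rcases i with i | i <;> rcases j with j | j
  · fin_cases i <;> fin_cases j <;> first | exact absurd rfl hij | skip
    all_goals simp only [br, al, be, Sum.elim_inl, Fin.zero_eta, Fin.mk_one, Fin.reduceFinMk,
      Matrix.cons_val_zero, Matrix.cons_val_one, Matrix.cons_val]
    · exact key _ _ (he 0 1 (by decide))
    · exact key _ _ (he 0 2 (by decide))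
    · exact key2 _
    · exact key _ _ (he 1 0 (by decide))
    · exact key _ _ (he 1 2 (by decide))
    · exact key2 _
    · exact key _ _ (he 2 0 (by decide))
    · exact key _ _ (he 2 1 (by decide))
    · exact key2 _
    · exact key3 _
    · exact key3 _
    · exact key3 _
  · fin_cases i
    all_goals simp only [br, al, be, Sum.elim_inl, Sum.elim_inr, Fin.zero_eta, Fin.mk_one,
      Fin.reduceFinMk, Matrix.cons_val_zero, Matrix.cons_val_one, Matrix.cons_val]
    · exact key _ _ (het 0 j)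
    · exact key _ _ (het 1 j)
    · exact key _ _ (het 2 j)
    · exact key3 _
  · fin_cases j
    all_goals simp only [br, al, be, Sum.elim_inl, Sum.elim_inr, Fin.zero_eta, Fin.mk_one,
      Fin.reduceFinMk, Matrix.cons_val_zero, Matrix.cons_val_one, Matrix.cons_val]
    · exact key _ _ (hsymm _ _ (het 0 i))
    · exact key _ _ (hsymm _ _ (het 1 i))
    · exact key _ _ (hsymm _ _ (het 2 i))
    · exact key2 _
  · have hij' : i ≠ j := fun h => hij (by rw [h])
    simp only [br, al, be, Sum.elim_inr]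
    exact key _ _ (ht i j hij')

end fac

end Pool.Agent.TH919.HS
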