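import Pool.Agent.TH919.HS.Tors

namespace Pool.Agent.TH919.HS

open Polynomial Finset NumberField IsDedekindDomain WithZero Pool.Agent.W318

/-- The local statement about the roots of the torsion polynomial `P`. -/
def RootsOK {K : Type} [Field K] [NumberField K] (n : ℕ) (P : WeierstrassCurve K → K[X]) : Prop :=
  ∀ (W : WeierstrassCurve K) (M : Type) [Field M] [NumberField M] [Algebra K M]
    (A : AbsoluteValue M ℝ), IsNonarchimedean A → A 2 = 1 → A 3 = 1 →
    ∀ e : Fin 3 → M, TT W e → (∀ i, A (e i) ≤ 1) → (∀ i j, i ≠ j → A (e i - e j) = 1) →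
      ((P W).map (algebraMap K M)).Splits →
      ∃ (c : M) (t : Fin n → M), A c = 1 ∧
        (P W).map (algebraMap K M) = C c * ∏ j, (X - C (t j)) ∧
        (∀ i j, i ≠ j → A (t i - t j) = 1) ∧ ∀ i j, A (e i - t j) = 1

/-- The binary form attached to `W` and `P`. -/
noncomputable def tF {K : Type} [Field K] (P : WeierstrassCurve K → K[X])
    (W : WeierstrassCurve K) : K[X] := W.twoTorsionPolynomial.toPoly * P W

section

variable {K : Type} [Field K] [NumberField K]

theorem exists_split' (F : K[X]) :
    ∃ (L : Type) (_ : Field L) (_ : NumberField L) (_ : Algebra K L),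
      (F.map (algebraMap K L)).Splits := by
  classical
  let L := F.SplittingField
  have : CharZero L := charZero_of_injective_algebraMap (algebraMap K L).injective
  have : FiniteDimensional K L := inferInstance
  have : FiniteDimensional ℚ L := by
    have : IsScalarTower ℚ K L := IsScalarTower.of_algebraMap_eq fun x => by simp
    exact FiniteDimensional.trans ℚ K L
  have : NumberField L := { }
  exact ⟨L, inferInstance, inferInstance, inferInstance, SplittingField.splits F⟩

theorem tt_map {M : Type} [Field M] [Algebra K M] {W : WeierstrassCurve K} {e : Fin 3 → M}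
    (h : TT W e) : W.twoTorsionPolynomial.toPoly.map (algebraMap K M) =
      C 4 * ∏ i, (X - C (e i)) := by
  rw [Fin.prod_univ_three]
  simp only [WeierstrassCurve.twoTorsionPolynomial, Cubic.toPoly, Polynomial.map_add,
    Polynomial.map_mul, Polynomial.map_C, Polynomial.map_pow, Polynomial.map_X, map_mul, h.b2,
    h.b4, h.b6, map_ofNat, Polynomial.map_ofNat]
  simp only [C_mul, C_add, C_neg, map_ofNat]
  ring

theorem trivial_na {M : Type} [Field M] [DecidablePred fun x : M ↦ x = 0] :
    IsNonarchimedean (AbsoluteValue.trivial : AbsoluteValue M ℝ) := by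
  intro x y
  by_cases hx : x = 0
  · rw [hx, zero_add]; exact le_max_right _ _
  · refine le_trans ?_ (le_max_left _ _)
    rw [AbsoluteValue.trivial_apply hx]
    by_cases hxy : x + y = 0
    · rw [hxy, map_zero]; exact zero_le_one
    · rw [AbsoluteValue.trivial_apply hxy]

/-- The factorization in a splitting field. -/
theorem tF_fac {n : ℕ} {P : WeierstrassCurve K → K[X]} (hP : RootsOK n P)
    {W : WeierstrassCurve K} (hΔ : W.Δ ≠ 0) {M : Type} [Field M] [NumberField M] [Algebra K M]
    (hsplit : ((tF P W).map (algebraMap K M)).Splits) (hne : P W ≠ 0) :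
    ∃ (e : Fin 3 → M) (c : M) (t : Fin n → M), TT W e ∧ c ≠ 0 ∧
      (P W).map (algebraMap K M) = C c * ∏ j, (X - C (t j)) ∧
      (∀ i j, i ≠ j → e i ≠ e j) ∧ (∀ i j, i ≠ j → t i ≠ t j) ∧ ∀ i j, e i ≠ t j := by
  classical
  have ha : W.twoTorsionPolynomial.a ≠ 0 := by
    simp [WeierstrassCurve.twoTorsionPolynomial]
  have hT0 : W.twoTorsionPolynomial.toPoly ≠ 0 := Cubic.ne_zero_of_a_ne_zero ha
  have hm0 : (tF P W).map (algebraMap K M) ≠ 0 := by
    rw [Ne, Polynomial.map_eq_zero]
    exact mul_ne_zero hT0 hne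
  rw [tF, Polynomial.map_mul] at hsplit hm0
  have hs1 := hsplit.of_dvd hm0 (dvd_mul_right _ _)
  have hs2 := hsplit.of_dvd hm0 (dvd_mul_left _ _)
  obtain ⟨e, he⟩ := exists_TT hs1
  have hee : ∀ i j, i ≠ j → e i ≠ e j := fun i j hij => he.ne hΔ hij
  have h2 : (2 : M) ≠ 0 := two_ne_zero
  have h3 : (3 : M) ≠ 0 := three_ne_zero
  have hle : ∀ x : M, (AbsoluteValue.trivial : AbsoluteValue M ℝ) x ≤ 1 := by
    intro x
    by_cases hx : x = 0
    · rw [hx, map_zero]; exact zero_le_one
    · rw [AbsoluteValue.trivial_apply hx]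
  obtain ⟨c, t, hc, hfac, ht, het⟩ := hP W M AbsoluteValue.trivial trivial_na
    (AbsoluteValue.trivial_apply h2) (AbsoluteValue.trivial_apply h3) e he (fun i => hle _)
    (fun i j hij => AbsoluteValue.trivial_apply (sub_ne_zero.mpr (hee i j hij))) hs2
  refine ⟨e, c, t, he, ?_, hfac, hee, ?_, ?_⟩
  · rintro rfl
    rw [map_zero] at hc
    exact zero_ne_one hc
  · intro i j hij h
    have := ht i j hij
    rw [h, sub_self, map_zero] at this
    exact zero_ne_one this
  · intro i j h
    have := het i j
    rw [h, sub_self, map_zero] at this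
    exact zero_ne_one this

theorem tF_map {n : ℕ} {P : WeierstrassCurve K → K[X]} {W : WeierstrassCurve K} {M : Type}
    [Field M] [Algebra K M] {e : Fin 3 → M} {c : M} {t : Fin n → M} (he : TT W e)
    (hfac : (P W).map (algebraMap K M) = C c * ∏ j, (X - C (t j))) :
    (tF P W).map (algebraMap K M) =
      C (4 * c) * ∏ i, (C (al M n i) * X + C (be e t i)) := by
  rw [tF, Polynomial.map_mul, tt_map he, hfac, prod_al_be, C_mul]
  ring

theorem tF_isHyp {n g : ℕ} (hn : 4 + n = g + 1 + (g + 1)) {P : WeierstrassCurve K → K[X]}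
    (hP : RootsOK n P) {W : WeierstrassCurve K} (hΔ : W.Δ ≠ 0) (hne : P W ≠ 0) :
    IsHyp g (tF P W) := by
  classical
  obtain ⟨M, _, _, _, hsplit⟩ := exists_split' (tF P W)
  obtain ⟨e, c, t, he, hc, hfac, hee, htt, het⟩ := tF_fac hP hΔ hsplit hne
  have h4 : (4 * c : M) ≠ 0 := mul_ne_zero (by norm_num) hc
  have hmap : (tF P W).map (algebraMap K M) =
      C (4 * c) * ∏ i : Fin 3 ⊕ Fin n, (X - C (Sum.elim e t i)) := by
    rw [tF_map he hfac, prod_al_be, Fintype.prod_sum_type]
    simp
  have hinj : Function.Injective (Sum.elim e t) := by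
    intro i j hij
    rcases i with i | i <;> rcases j with j | j
    · simp only [Sum.elim_inl] at hij
      by_contra h
      exact hee i j (fun h' => h (by rw [h'])) hij
    · simp only [Sum.elim_inl, Sum.elim_inr] at hij
      exact absurd hij (het i j)
    · simp only [Sum.elim_inl, Sum.elim_inr] at hij
      exact absurd hij.symm (het j i)
    · simp only [Sum.elim_inr] at hij
      by_contra h
      exact htt i j (fun h' => h (by rw [h'])) hij
  constructor
  · have hsep : ((tF P W).map (algebraMap K M)).Separable := by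
      rw [hmap]
      exact Separable.unit_mul (isUnit_C.mpr h4.isUnit)
        (separable_prod_X_sub_C_iff.mpr hinj)
    exact ((separable_map _).mp hsep).squarefree
  · left
    have h1 : ((tF P W).map (algebraMap K M)).natDegree = 3 + n := by
      rw [hmap, natDegree_C_mul h4, natDegree_prod_of_monic _ _ fun i _ => monic_X_sub_C _]
      simp
    rw [natDegree_map] at h1
    omega

/-- Good reduction of the curve attached to `W` at the places of good reduction of `W` prime
to `6`. -/
theorem tors_good {n g : ℕ} (hn : 4 + n = g + 1 + (g + 1)) {P : WeierstrassCurve K → K[X]}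
    (hP : RootsOK n P) (hne : ∀ W, P W ≠ 0)
    (hE : ∀ W (D : WeierstrassCurve.VariableChange K), Eqv (g + 1) (tF P W) (tF P (D • W)))
    (hint : ∀ (v : HeightOneSpectrum (𝓞 K)) W, IntAt v W → ∀ i, v.valuation K ((P W).coeff i) ≤ 1)
    {W : WeierstrassCurve K} (hΔ : W.Δ ≠ 0) (v : HeightOneSpectrum (𝓞 K))
    (h2 : v.valuation K ((2 : ℕ) : K) = 1) (h3 : v.valuation K ((3 : ℕ) : K) = 1)
    (hv : ellExp W v = 0) : minExp g (tF P W) v = 0 := by
  classical
  obtain ⟨D, hD, hDΔ⟩ := ellExp_mem v hΔ
  rw [hv] at hDΔ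
  simp only [Nat.cast_zero, neg_zero, exp_zero] at hDΔ
  set W' := D • W with hW'
  have hΔ' : W'.Δ ≠ 0 := by
    intro h
    rw [h, map_zero] at hDΔ
    exact zero_ne_one hDΔ
  have hF := tF_isHyp hn hP hΔ (hne W)
  obtain ⟨M, _, _, _, hsplit⟩ := exists_split' (tF P W')
  obtain ⟨V, hV⟩ := exists_prime_over (M := M) v
  have hc := compat_of_liesOver v V
  have hna := absW_na V
  have hA2 : absW V (2 : M) = 1 := by
    have := (Compat.eq_one_iff hc ((2 : ℕ) : K)).mpr h2
    rwa [map_natCast] at this
  have hA3 : absW V (3 : M) = 1 := by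
    have := (Compat.eq_one_iff hc ((3 : ℕ) : K)).mpr h3
    rwa [map_natCast] at this
  have ha : W'.twoTorsionPolynomial.a ≠ 0 := by
    simp [WeierstrassCurve.twoTorsionPolynomial]
  have hT0 : W'.twoTorsionPolynomial.toPoly ≠ 0 := Cubic.ne_zero_of_a_ne_zero ha
  have hm0 : (tF P W').map (algebraMap K M) ≠ 0 := by
    rw [Ne, Polynomial.map_eq_zero]
    exact mul_ne_zero hT0 (hne W')
  have hsplit0 := hsplit
  rw [tF, Polynomial.map_mul] at hsplit hm0
  have hs1 := hsplit.of_dvd hm0 (dvd_mul_right _ _)
  have hs2 := hsplit.of_dvd hm0 (dvd_mul_left _ _)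
  obtain ⟨e, he⟩ := exists_TT hs1
  obtain ⟨hb2, hb4, hb6⟩ := hD.b
  obtain ⟨hei, hee⟩ := he.far v V h2 hD hDΔ
  obtain ⟨c, t, hAc, hfac, htt, het⟩ := hP W' M (absW V) hna hA2 hA3 e he hei hee hs2
  have hmap := tF_map he hfac
  have hA4 : absW V (4 * c) = 1 := by
    have : (4 : M) = 2 ^ 2 := by norm_num
    rw [map_mul, this, map_pow, hA2, hAc, one_pow, one_mul]
  have h4c : 4 * c ≠ 0 := by
    intro h
    rw [h, map_zero] at hA4
    exact zero_ne_one hA4
  have hbr := br_al_be hee htt het
  have hcard : Fintype.card (Fin 4 ⊕ Fin n) = g + 1 + (g + 1) := by simp [hn]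
  have hd := abs_discN_prod_lin (absW V) h4c (al M n) (be e t)
    (fun i j hij => by
      intro h
      have h5 := hbr i j hij
      unfold br at h5
      rw [h, map_zero] at h5
      exact zero_ne_one h5)
    (by rw [hcard]; omega)
  rw [← hmap, discN_map, hcard, hA4, one_pow, one_mul] at hd
  have hone : absW V (algebraMap K M (discN (g + 1 + (g + 1)) (tF P W'))) = 1 := by
    rw [hd]
    apply Finset.prod_eq_one
    intro i _
    apply Finset.prod_eq_one
    intro j hj
    exact hbr i j (Finset.ne_of_mem_erase hj).symm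
  rw [Compat.eq_one_iff hc] at hone
  have hintF : ∀ i, v.valuation K ((tF P W').coeff i) ≤ 1 := by
    have h1 : (tF P W').gaussNorm (absW v) 1 ≤ 1 := by
      unfold tF
      rw [gaussNorm_mul (absW_na v) one_pos]
      refine mul_le_one₀ ?_ (gaussNorm_nonneg _ _ zero_le_one) ?_
      · rw [gaussNorm_le_one_iff]
        intro j
        rw [absW_le_one_iff]
        have h4' : v.valuation K (4 : K) ≤ 1 := by
          have := val_nat_le_one v 4
          simpa using this
        have h2' : v.valuation K (2 : K) ≤ 1 := by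
          have := val_nat_le_one v 2
          simpa using this
        rcases j with _ | _ | _ | _ | j
        · rw [Cubic.coeff_eq_d]; exact hb6
        · rw [Cubic.coeff_eq_c]
          change v.valuation K (2 * W'.b₄) ≤ 1
          rw [map_mul]
          exact mul_le_one' h2' hb4
        · rw [Cubic.coeff_eq_b]; exact hb2
        · rw [Cubic.coeff_eq_a]; exact h4'
        · rw [Cubic.coeff_eq_zero (by omega), map_zero]; exact zero_le_one
      · rw [gaussNorm_le_one_iff]
        intro j
        rw [absW_le_one_iff]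
        exact hint v W' hD j
    intro i
    rw [← absW_le_one_iff]
    exact (gaussNorm_le_one_iff _).mp h1 i
  obtain ⟨k, hk, _, hle⟩ := minExp_le hF v (hE W D) hintF (t := 0)
    (by rw [← Nat.cast_ofNat, h2]; simp)
  rw [hone, ← exp_zero, exp_inj] at hk
  omega

end

end Pool.Agent.TH919.HS
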