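import Pool.Agent.TH919.HS.Tors2

namespace Pool.Agent.TH919.HS

open Polynomial Finset NumberField IsDedekindDomain WithZero Pool.Agent.W318

section

variable {K : Type} [Field K] [NumberField K]

theorem ordAbs_le_of {L : Type} [Field L] [NumberField L] (w : HeightOneSpectrum (𝓞 L)) {x : L}
    (hx : x ≠ 0) {m : ℕ} (h1 : (2 : ℝ) ^ (-(m : ℤ)) ≤ absW w x)
    (h2 : (2 : ℝ) ^ (-(m : ℤ)) ≤ absW w x⁻¹) : ordAbs w x ≤ m := by
  obtain ⟨k, hk⟩ := exists_exp w hx
  rw [map_inv₀, absW_exp w hk, ← zpow_neg, zpow_le_zpow_iff_right₀ (by norm_num)] at h2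
  rw [absW_exp w hk, zpow_le_zpow_iff_right₀ (by norm_num)] at h1
  rw [ordAbs_of_exp hk]
  omega

/-- The denominator of `j` is bounded by the minimal discriminant of the attached curve. -/
theorem tors_lower {n g : ℕ} (hg : 2 ≤ g) (hn : 4 + n = g + 1 + (g + 1))
    {P : WeierstrassCurve K → K[X]} (hP : RootsOK n P) (hne : ∀ W, P W ≠ 0)
    {W : WeierstrassCurve K} (hΔ : W.Δ ≠ 0) (v : HeightOneSpectrum (𝓞 K)) :
    nj v (W.c₄ ^ 3 / W.Δ) ≤
      4 * (minExp g (tF P W) v + (4 * g + 4) * ordAbs v ((2 : ℕ) : K)) := by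
  classical
  have hF := tF_isHyp hn hP hΔ (hne W)
  obtain ⟨M, _, _, _, hsplit⟩ := exists_split' (tF P W)
  obtain ⟨V, hV⟩ := exists_prime_over (M := M) v
  have hc := compat_of_liesOver v V
  obtain ⟨e, c, t, he, hc0, hfac, hee, htt, het⟩ := tF_fac hP hΔ hsplit (hne W)
  have hmap := tF_map he hfac
  have h4c : 4 * c ≠ 0 := mul_ne_zero (by norm_num) hc0
  have hcard : Fintype.card (Fin 4 ⊕ Fin n) = Fintype.card (Fin (g + 1 + (g + 1))) := by
    simp [hn]
  set σ : (Fin 4 ⊕ Fin n) ≃ Fin (g + 1 + (g + 1)) := Fintype.equivOfCardEq hcard with hσ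
  have hmap' : (tF P W).map (algebraMap K M) =
      C (4 * c) * ∏ i, (C ((al M n ∘ σ.symm) i) * X + C ((be e t ∘ σ.symm) i)) := by
    rw [hmap]
    congr 1
    exact (Equiv.prod_comp σ.symm (fun i => (C (al M n i) * X + C (be e t i)))).symm
  have hbr0 : ∀ i j, i ≠ j → br (al M n) (be e t) i j ≠ 0 := by
    intro i j hij h
    have htriv : ∀ x : M, x ≠ 0 → (AbsoluteValue.trivial : AbsoluteValue M ℝ) x = 1 :=
      fun x hx => AbsoluteValue.trivial_apply hx
    have h1 := br_al_be (A := (AbsoluteValue.trivial : AbsoluteValue M ℝ))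
      (fun i j hij => htriv _ (sub_ne_zero.mpr (hee i j hij)))
      (fun i j hij => htriv _ (sub_ne_zero.mpr (htt i j hij)))
      (fun i j => htriv _ (sub_ne_zero.mpr (het i j))) i j hij
    rw [h, map_zero] at h1
    exact zero_ne_one h1
  have hbr' : ∀ i j, i ≠ j → br (al M n ∘ σ.symm) (be e t ∘ σ.symm) i j ≠ 0 := by
    intro i j hij
    exact hbr0 _ _ (fun h => hij (σ.symm.injective h))
  set D := minExp g (tF P W) v + (4 * g + 4) * ordAbs v ((2 : ℕ) : K) with hD
  set E := v.asIdeal.ramificationIdx' V.asIdeal with hE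
  have hlow : ∀ a b c' : Fin 3, a ≠ b → a ≠ c' → b ≠ c' →
      (2 : ℝ) ^ (-((D * E : ℕ) : ℤ)) ≤ absW V ((e a - e b) / (e a - e c')) := by
    intro a b c' hab hac hbc
    have hcast : ∀ a : Fin 3, ∀ b : Fin 3, a ≠ b → (a.castSucc : Fin 4) ≠ b.castSucc :=
      fun a b h h' => h (Fin.castSucc_injective 3 h')
    have hlast : ∀ a : Fin 3, (Fin.last 3 : Fin 4) ≠ a.castSucc :=
      fun a h => (Fin.castSucc_lt_last a).ne h.symm
    have h1 := cr_lower hg hF v V h4c hbr' hmap'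
      (i₀ := σ (Sum.inl a.castSucc)) (j₀ := σ (Sum.inl b.castSucc))
      (i₁ := σ (Sum.inl c'.castSucc)) (j₁ := σ (Sum.inl (Fin.last 3)))
      (fun h => hcast a c' hac (Sum.inl_injective (σ.injective h)))
      (fun h => hcast b a hab.symm (Sum.inl_injective (σ.injective h)))
      (fun h => hlast c' (Sum.inl_injective (σ.injective h)))
      (fun h => hlast b (Sum.inl_injective (σ.injective h)).symm)
    have hval : cr (al M n ∘ σ.symm) (be e t ∘ σ.symm) (σ (Sum.inl a.castSucc))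
        (σ (Sum.inl b.castSucc)) (σ (Sum.inl c'.castSucc)) (σ (Sum.inl (Fin.last 3))) =
        (e a - e b) / (e a - e c') := by
      have hal : ∀ a : Fin 3, (al M n ∘ σ.symm) (σ (Sum.inl a.castSucc)) = 1 := by
        intro a
        simp only [Function.comp_apply, Equiv.symm_apply_apply, al, Sum.elim_inl]
        fin_cases a <;> rfl
      have hbe : ∀ a : Fin 3, (be e t ∘ σ.symm) (σ (Sum.inl a.castSucc)) = -e a := by
        intro a
        simp only [Function.comp_apply, Equiv.symm_apply_apply, be, Sum.elim_inl]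
        fin_cases a <;> rfl
      have hal3 : (al M n ∘ σ.symm) (σ (Sum.inl (Fin.last 3))) = 0 := by
        simp only [Function.comp_apply, Equiv.symm_apply_apply, al, Sum.elim_inl]
        rfl
      have hbe3 : (be e t ∘ σ.symm) (σ (Sum.inl (Fin.last 3))) = 1 := by
        simp only [Function.comp_apply, Equiv.symm_apply_apply, be, Sum.elim_inl]
        rfl
      unfold cr br
      rw [hal, hal, hal, hal3, hbe, hbe, hbe, hbe3]
      congr 1 <;> ring
    rw [hval, ← hD, ← hE] at h1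
    refine le_trans (le_of_eq ?_) h1
    congr 1
    rw [Nat.cast_mul]
    ring
  -- the Legendre parameter
  have h10 : e 1 - e 0 ≠ 0 := sub_ne_zero.mpr (hee 1 0 (by decide))
  have h20 : e 2 - e 0 ≠ 0 := sub_ne_zero.mpr (hee 2 0 (by decide))
  have h12 : e 1 - e 2 ≠ 0 := sub_ne_zero.mpr (hee 1 2 (by decide))
  have hl0 : lam e ≠ 0 := div_ne_zero h20 h10
  have hl1 : 1 - lam e ≠ 0 := by rw [one_sub_lam h10]; exact div_ne_zero h12 h10
  have ho1 : ordAbs V (lam e) ≤ D * E := by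
    apply ordAbs_le_of V hl0
    · have h1 := hlow 0 2 1 (by decide) (by decide) (by decide)
      have h2 : (e 0 - e 2) / (e 0 - e 1) = lam e := by
        unfold lam
        rw [← neg_sub (e 2), ← neg_sub (e 1), neg_div_neg_eq]
      rwa [h2] at h1
    · have h1 := hlow 0 1 2 (by decide) (by decide) (by decide)
      have h2 : (e 0 - e 1) / (e 0 - e 2) = (lam e)⁻¹ := by
        unfold lam
        rw [inv_div, ← neg_sub (e 2), ← neg_sub (e 1), neg_div_neg_eq]
      rwa [h2] at h1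
  have ho2 : ordAbs V (1 - lam e) ≤ D * E := by
    apply ordAbs_le_of V hl1
    · have h1 := hlow 1 2 0 (by decide) (by decide) (by decide)
      rwa [one_sub_lam h10]
    · have h1 := hlow 1 0 2 (by decide) (by decide) (by decide)
      rwa [one_sub_lam h10, inv_div]
  have hj := val_j_le V hl0 (fun h => hl1 (by rw [h, sub_self]))
  rw [← he.j hΔ] at hj
  rcases eq_or_ne (W.c₄ ^ 3 / W.Δ) 0 with hz | hz
  · rw [hz]; simp [nj]
  obtain ⟨k, hk⟩ := exists_exp v hz
  rw [hc.2 _ _ hk, zpow_le_zpow_iff_right₀ (by norm_num)] at hj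
  rw [nj_of_exp hk]
  have hE1 : (1 : ℤ) ≤ E := by exact_mod_cast hc.1
  have h5 : k * E ≤ (4 * D : ℕ) * E := by
    refine hj.trans ?_
    have : 2 * (ordAbs V (lam e) + ordAbs V (1 - lam e)) ≤ 4 * D * E := by
      nlinarith
    exact_mod_cast this
  have h6 : k ≤ (4 * D : ℕ) := le_of_mul_le_mul_right h5 (by omega)
  omega

/-- The general reduction. -/
theorem ell_of_szp {n g : ℕ} (hg : 2 ≤ g) (hn : 4 + n = g + 1 + (g + 1))
    {P : WeierstrassCurve K → K[X]} (hP : RootsOK n P) (hne : ∀ W, P W ≠ 0)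
    (hE : ∀ W (D : WeierstrassCurve.VariableChange K), Eqv (g + 1) (tF P W) (tF P (D • W)))
    (hint : ∀ (v : HeightOneSpectrum (𝓞 K)) W, IntAt v W → ∀ i, v.valuation K ((P W).coeff i) ≤ 1)
    (h : SzpiroOver K g) : SzpiroEllOver K := by
  classical
  obtain ⟨c, κ, hs⟩ := h
  set d := Module.finrank ℚ K with hd
  refine ⟨(6 ^ d) ^ 12 * ((c * (2 ^ d * 3 ^ d) ^ κ) ^ 4 * (2 ^ d) ^ (4 * (4 * g + 4))),
    10 + κ * 4, ?_⟩
  intro W hΔ
  have hF := tF_isHyp hn hP hΔ (hne W)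
  set B := (finite_ell hΔ).toFinset with hB
  have hBmem : ∀ v, v ∈ B ↔ ellExp W v ≠ 0 := fun v => by simp [hB]
  set B' := (finite_bad hF).toFinset with hB'
  have hB'mem : ∀ v, v ∈ B' ↔ minExp g (tF P W) v ≠ 0 := fun v => by simp [hB']
  have hbad : badNorm g (tF P W) ≤ 2 ^ d * 3 ^ d * ellBad W := by
    rw [badNorm_eq B' hB'mem, ellBad_eq B hBmem]
    set B1 := B'.filter (fun v => v.valuation K ((2 : ℕ) : K) ≠ 1) with hB1
    set B2 := B'.filter (fun v => v.valuation K ((3 : ℕ) : K) ≠ 1) with hB2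
    have hsub : B' ⊆ (B1 ∪ B2) ∪ B := by
      intro v hv
      by_contra hcon
      simp only [Finset.mem_union, not_or, hB1, hB2, Finset.mem_filter, not_and, not_not] at hcon
      obtain ⟨⟨h3, h4⟩, h5⟩ := hcon
      rw [hBmem, not_not] at h5
      exact (hB'mem v).mp hv (tors_good hn hP hne hE hint hΔ v (h3 hv) (h4 hv) h5)
    have hun : ∀ X Y : Finset (HeightOneSpectrum (𝓞 K)),
        ∏ v ∈ X ∪ Y, Ideal.absNorm v.asIdeal ≤ (∏ v ∈ X, Ideal.absNorm v.asIdeal) *
          ∏ v ∈ Y, Ideal.absNorm v.asIdeal := by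
      intro X Y
      rw [← Finset.prod_union_inter]
      exact Nat.le_mul_of_pos_right _ (Finset.prod_pos fun v _ => one_le_absNorm v)
    calc ∏ v ∈ B', Ideal.absNorm v.asIdeal ≤ ∏ v ∈ (B1 ∪ B2) ∪ B, Ideal.absNorm v.asIdeal :=
          Finset.prod_le_prod_of_subset_of_one_le' hsub fun v _ _ => one_le_absNorm v
      _ ≤ (∏ v ∈ B1 ∪ B2, Ideal.absNorm v.asIdeal) * ∏ v ∈ B, Ideal.absNorm v.asIdeal := hun _ _
      _ ≤ _ := by
          refine Nat.mul_le_mul_right _ ((hun _ _).trans (Nat.mul_le_mul ?_ ?_))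
          · exact prod_dvd_nat_le B1 (by norm_num) fun v hv => (Finset.mem_filter.mp hv).2
          · exact prod_dvd_nat_le B2 (by norm_num) fun v hv => (Finset.mem_filter.mp hv).2
  have hdisc : discNorm g (tF P W) ≤ c * (2 ^ d * 3 ^ d) ^ κ * ellBad W ^ κ := by
    refine (hs _ hF).trans ?_
    calc c * badNorm g (tF P W) ^ κ ≤ c * (2 ^ d * 3 ^ d * ellBad W) ^ κ :=
          Nat.mul_le_mul_left _ (Nat.pow_le_pow_left hbad _)
      _ = _ := by rw [mul_pow]; ring
  have hprod : ∏ v ∈ B, Ideal.absNorm v.asIdeal ^ nj v (W.c₄ ^ 3 / W.Δ) ≤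
      discNorm g (tF P W) ^ 4 * (2 ^ d) ^ (4 * (4 * g + 4)) := by
    calc ∏ v ∈ B, Ideal.absNorm v.asIdeal ^ nj v (W.c₄ ^ 3 / W.Δ)
        ≤ ∏ v ∈ B, ((Ideal.absNorm v.asIdeal ^ minExp g (tF P W) v) ^ 4 *
            (Ideal.absNorm v.asIdeal ^ ordAbs v ((2 : ℕ) : K)) ^ (4 * (4 * g + 4))) := by
          apply Finset.prod_le_prod' fun v _ => ?_
          rw [← pow_mul, ← pow_mul, ← pow_add]
          apply Nat.pow_le_pow_right (one_le_absNorm v)
          refine (tors_lower hg hn hP hne hΔ v).trans (le_of_eq ?_)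
          ring
      _ = (∏ v ∈ B, Ideal.absNorm v.asIdeal ^ minExp g (tF P W) v) ^ 4 *
            (∏ v ∈ B, Ideal.absNorm v.asIdeal ^ ordAbs v ((2 : ℕ) : K)) ^ (4 * (4 * g + 4)) := by
          rw [Finset.prod_mul_distrib, Finset.prod_pow, Finset.prod_pow]
      _ ≤ _ := by
          refine Nat.mul_le_mul (Nat.pow_le_pow_left ?_ _) (Nat.pow_le_pow_left
            (prod_norm_nat_le B (by norm_num)) _)
          rw [discNorm_eq (B ∪ B') (fun v hv => Finset.mem_union_right _ ((hB'mem v).mpr hv))]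
          exact Finset.prod_le_prod_of_subset_of_one_le' Finset.subset_union_left
            fun v _ _ => Nat.one_le_pow _ _ (one_le_absNorm v)
  calc ellDisc W ≤ (6 ^ d) ^ 12 * (ellBad W ^ 10 *
        ∏ v ∈ B, Ideal.absNorm v.asIdeal ^ nj v (W.c₄ ^ 3 / W.Δ)) := ellDisc_le hΔ
    _ ≤ (6 ^ d) ^ 12 * (ellBad W ^ 10 *
          ((c * (2 ^ d * 3 ^ d) ^ κ * ellBad W ^ κ) ^ 4 * (2 ^ d) ^ (4 * (4 * g + 4)))) := by
        refine Nat.mul_le_mul_left _ (Nat.mul_le_mul_left _ (hprod.trans ?_))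
        exact Nat.mul_le_mul_right _ (Nat.pow_le_pow_left hdisc _)
    _ = _ := by
        rw [mul_pow (c * (2 ^ d * 3 ^ d) ^ κ), ← pow_mul, pow_add]
        ring

end

end Pool.Agent.TH919.HS
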