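import Pool.Agent.TH919.HS.Tors3

namespace Pool.Agent.TH919.HS

open Polynomial Finset NumberField IsDedekindDomain WithZero Pool.Agent.W318

section

variable {M : Type*} [Field M]

theorem splits_fin {p : M[X]} (hs : p.Splits) {n : ℕ} (hn : p.natDegree = n) :
    ∃ t : Fin n → M, p = C p.leadingCoeff * ∏ j, (X - C (t j)) := by
  obtain ⟨l, hl⟩ : ∃ l : List M, (l : Multiset M) = p.roots := Quot.exists_rep p.roots
  have hlen : l.length = n := by
    rw [← hn, hs.natDegree_eq_card_roots, ← hl, Multiset.coe_card]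
  subst hlen
  refine ⟨fun j => l[j.1], ?_⟩
  have h1 := Fin.prod_univ_fun_getElem l (fun a : M => (X - C a : M[X]))
  rw [h1]
  conv_lhs => rw [hs.eq_prod_roots, ← hl, Multiset.map_coe, Multiset.prod_coe]

theorem deriv_root {n : ℕ} {p : M[X]} {c : M} {t : Fin n → M}
    (hp : p = C c * ∏ j, (X - C (t j))) (i : Fin n) :
    p.derivative.eval (t i) = c * ∏ j ∈ univ.erase i, (t i - t j) := by
  classical
  have h2 : (∏ i, (X - C (t i)) : M[X]) = (X - C (t i)) * ∏ j ∈ univ.erase i, (X - C (t j)) :=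
    (Finset.mul_prod_erase univ _ (mem_univ i)).symm
  rw [hp, h2]
  simp only [derivative_mul, derivative_C, zero_mul, zero_add, eval_mul, eval_add,
    derivative_sub, derivative_X, sub_zero, one_mul, eval_C, eval_sub, eval_X, sub_self,
    add_zero, eval_prod]

variable {A : AbsoluteValue M ℝ}

theorem roots_int (hna : IsNonarchimedean A) {n : ℕ} {p : M[X]} {c : M} {t : Fin n → M}
    (hp : p = C c * ∏ j, (X - C (t j))) (hc : A c = 1) (hint : ∀ i, A (p.coeff i) ≤ 1)
    (j : Fin n) : A (t j) ≤ 1 := by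
  classical
  have h1 : p = C c * ∏ j ∈ univ, (C ((fun _ => 1 : Fin n → M) j) * X + C (-t j)) := by
    rw [hp]
    simp [sub_eq_add_neg]
  have h2 : p.gaussNorm A 1 ≤ 1 := (gaussNorm_le_one_iff _).mpr hint
  rw [h1, gaussNorm_prod_lin hna, hc, one_mul] at h2
  have h3 : ∀ k ∈ (univ : Finset (Fin n)),
      1 ≤ max (A ((fun _ => 1 : Fin n → M) k)) (A (-t k)) := fun k _ => by
    rw [map_one]; exact le_max_left _ _
  have h4 : max (A ((fun _ => 1 : Fin n → M) j)) (A (-t j)) ≤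
      ∏ k, max (A ((fun _ => 1 : Fin n → M) k)) (A (-t k)) := by
    rw [← Finset.mul_prod_erase univ _ (mem_univ j)]
    have h5 : 1 ≤ ∏ k ∈ univ.erase j, max (A ((fun _ => 1 : Fin n → M) k)) (A (-t k)) := by
      calc (1 : ℝ) = ∏ k ∈ univ.erase j, (1 : ℝ) := by simp
        _ ≤ _ := Finset.prod_le_prod (fun _ _ => zero_le_one) fun k _ => h3 k (mem_univ k)
    have h6 := (h3 j (mem_univ j))
    nlinarith
  have h5 : A (-t j) ≤ 1 := (le_max_right _ _).trans (h4.trans h2)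
  rwa [map_neg_eq_map] at h5

theorem all_one {ι : Type*} {s : Finset ι} {f : ι → ℝ} (h0 : ∀ i ∈ s, 0 ≤ f i)
    (h1 : ∀ i ∈ s, f i ≤ 1) (hp : ∏ i ∈ s, f i = 1) : ∀ i ∈ s, f i = 1 := by
  classical
  intro i hi
  apply le_antisymm (h1 i hi)
  rw [← hp, ← Finset.mul_prod_erase s f hi]
  exact mul_le_of_le_one_right (h0 i hi) (Finset.prod_le_one
    (fun j hj => h0 j (Finset.mem_of_mem_erase hj)) fun j hj => h1 j (Finset.mem_of_mem_erase hj))

/-- The criterion for the roots of a split polynomial. -/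
theorem roots_ok (hna : IsNonarchimedean A) {n : ℕ} {p : M[X]} (hs : p.Splits)
    (hn : p.natDegree = n) (hlc : A p.leadingCoeff = 1) (hint : ∀ i, A (p.coeff i) ≤ 1)
    {e : Fin 3 → M} (hei : ∀ i, A (e i) ≤ 1) (hpe : ∀ i, A (p.eval (e i)) = 1)
    (hder : ∀ z, p.eval z = 0 → (∀ i, A (z - e i) = 1) → A (p.derivative.eval z) = 1) :
    ∃ (c : M) (t : Fin n → M), A c = 1 ∧ p = C c * ∏ j, (X - C (t j)) ∧
      (∀ i j, i ≠ j → A (t i - t j) = 1) ∧ ∀ i j, A (e i - t j) = 1 := by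
  classical
  obtain ⟨t, ht⟩ := splits_fin hs hn
  have hti := roots_int hna ht hlc hint
  have het : ∀ i j, A (e i - t j) = 1 := by
    intro i j
    have h1 := hpe i
    rw [ht] at h1
    simp only [eval_mul, eval_C, eval_prod, eval_sub, eval_X, map_mul, map_prod, hlc,
      one_mul] at h1
    exact all_one (fun k _ => A.nonneg _) (fun k _ => (na_sub_le hna _ _).trans
      (max_le (hei i) (hti k))) h1 j (mem_univ j)
  refine ⟨p.leadingCoeff, t, hlc, ht, ?_, het⟩
  intro i j hij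
  have hz : p.eval (t i) = 0 := by
    rw [ht]
    simp only [eval_mul, eval_C, eval_prod, eval_sub, eval_X]
    rw [Finset.prod_eq_zero (mem_univ i) (sub_self _), mul_zero]
  have h1 := hder (t i) hz fun k => by rw [map_sub_rev]; exact het k i
  rw [deriv_root ht i, map_mul, hlc, one_mul, map_prod] at h1
  exact all_one (fun k _ => A.nonneg _) (fun k _ => (na_sub_le hna _ _).trans
      (max_le (hti i) (hti k))) h1 j (Finset.mem_erase.mpr ⟨hij.symm, mem_univ j⟩)

end

section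

variable {K : Type} [Field K] {M : Type} [Field M] [CharZero M] [Algebra K M]
  {W : WeierstrassCurve K} {e : Fin 3 → M}

theorem TT.b8 (h : TT W e) : algebraMap K M W.b₈ =
    4 * (e 0 + e 1 + e 2) * (e 0 * e 1 * e 2) - (e 0 * e 1 + e 0 * e 2 + e 1 * e 2) ^ 2 := by
  have hb8 := congrArg (algebraMap K M) W.b_relation
  simp only [map_mul, map_sub, map_pow, map_ofNat] at hb8
  rw [h.b2, h.b4, h.b6] at hb8
  have h4 : (4 : M) ≠ 0 := by norm_num
  apply mul_left_cancel₀ h4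
  rw [hb8]
  ring

theorem TT.psi3_map (h : TT W e) : W.Ψ₃.map (algebraMap K M) =
    C 3 * X ^ 4 + C (-4 * (e 0 + e 1 + e 2)) * X ^ 3 +
      C (6 * (e 0 * e 1 + e 0 * e 2 + e 1 * e 2)) * X ^ 2 + C (-12 * (e 0 * e 1 * e 2)) * X +
      C (4 * (e 0 + e 1 + e 2) * (e 0 * e 1 * e 2) -
        (e 0 * e 1 + e 0 * e 2 + e 1 * e 2) ^ 2) := by
  simp only [WeierstrassCurve.Ψ₃, Polynomial.map_add, Polynomial.map_mul, Polynomial.map_pow,
    Polynomial.map_X, Polynomial.map_C, Polynomial.map_ofNat, h.b2, h.b4, h.b6, h.b8]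
  simp only [C_mul, C_add, C_sub, C_neg, C_pow, map_ofNat]
  ring

theorem TT.psi4_map (h : TT W e) : W.preΨ₄.map (algebraMap K M) =
    C 2 * ((X ^ 2 - C (2 * e 0) * X + C (e 0 * (e 1 + e 2) - e 1 * e 2)) *
      (X ^ 2 - C (2 * e 1) * X + C (e 1 * (e 0 + e 2) - e 0 * e 2)) *
      (X ^ 2 - C (2 * e 2) * X + C (e 2 * (e 0 + e 1) - e 0 * e 1))) := by
  simp only [WeierstrassCurve.preΨ₄, Polynomial.map_add, Polynomial.map_mul, Polynomial.map_pow,
    Polynomial.map_sub, Polynomial.map_X, C_mul, C_sub, C_pow, Polynomial.map_C,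
    Polynomial.map_ofNat, h.b2, h.b4, h.b6, h.b8]
  simp only [C_mul, C_add, C_sub, C_neg, C_pow, map_ofNat]
  ring

end

end Pool.Agent.TH919.HS
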