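import Pool.Agent.TH919.HS.Tors4

namespace Pool.Agent.TH919.HS

open Polynomial Finset NumberField IsDedekindDomain WithZero Pool.Agent.W318

section

variable {M : Type*} [Field M] {A : AbsoluteValue M ℝ}

/-- integral coefficients -/
def IntP (A : AbsoluteValue M ℝ) (p : M[X]) : Prop := ∀ i, A (p.coeff i) ≤ 1

theorem IntP.add (hna : IsNonarchimedean A) {p q : M[X]} (hp : IntP A p) (hq : IntP A q) :
    IntP A (p + q) := fun i => by
  rw [coeff_add]; exact (hna _ _).trans (max_le (hp i) (hq i))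

theorem IntP.sub (hna : IsNonarchimedean A) {p q : M[X]} (hp : IntP A p) (hq : IntP A q) :
    IntP A (p - q) := fun i => by
  rw [coeff_sub]; exact (na_sub_le hna _ _).trans (max_le (hp i) (hq i))

theorem IntP.mul (hna : IsNonarchimedean A) {p q : M[X]} (hp : IntP A p) (hq : IntP A q) :
    IntP A (p * q) := by
  have h1 : (p * q).gaussNorm A 1 ≤ 1 := by
    rw [gaussNorm_mul hna one_pos]
    exact mul_le_one₀ ((gaussNorm_le_one_iff _).mpr hp) (gaussNorm_nonneg _ _ zero_le_one)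
      ((gaussNorm_le_one_iff _).mpr hq)
  exact (gaussNorm_le_one_iff _).mp h1

theorem IntP.C {z : M} (hz : A z ≤ 1) : IntP A (Polynomial.C z) := fun i => by
  rw [coeff_C]
  split_ifs
  · exact hz
  · rw [map_zero]; exact zero_le_one

theorem IntP.X_pow (n : ℕ) : IntP A (X ^ n : M[X]) := fun i => by
  rw [coeff_X_pow]
  split_ifs
  · rw [map_one]
  · rw [map_zero]; exact zero_le_one

theorem IntP.X : IntP A (X : M[X]) := by simpa using IntP.X_pow (A := A) 1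

theorem A4 (h2 : A 2 = 1) : A (4 : M) = 1 := by
  have : (4 : M) = 2 * 2 := by norm_num
  rw [this, map_mul, h2, one_mul]

theorem A6 (h2 : A 2 = 1) (h3 : A 3 = 1) : A (6 : M) = 1 := by
  have : (6 : M) = 2 * 3 := by norm_num
  rw [this, map_mul, h2, h3, one_mul]

theorem A12 (h2 : A 2 = 1) (h3 : A 3 = 1) : A (12 : M) = 1 := by
  have : (12 : M) = 2 * 2 * 3 := by norm_num
  rw [this, map_mul, map_mul, h2, h3, one_mul, one_mul]

theorem mul_le1 {x y : M} (hx : A x ≤ 1) (hy : A y ≤ 1) : A (x * y) ≤ 1 := by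
  rw [map_mul]; exact mul_le_one₀ hx (A.nonneg _) hy

theorem add_le1 (hna : IsNonarchimedean A) {x y : M} (hx : A x ≤ 1) (hy : A y ≤ 1) :
    A (x + y) ≤ 1 := (hna _ _).trans (max_le hx hy)

theorem sub_le1 (hna : IsNonarchimedean A) {x y : M} (hx : A x ≤ 1) (hy : A y ≤ 1) :
    A (x - y) ≤ 1 := (na_sub_le hna _ _).trans (max_le hx hy)

end

section

variable {K : Type} [Field K] {M : Type} [Field M] [CharZero M] [Algebra K M]
  {W : WeierstrassCurve K} {e : Fin 3 → M} {A : AbsoluteValue M ℝ}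

theorem psi3_int (hna : IsNonarchimedean A) (h2 : A 2 = 1) (h3 : A 3 = 1) (h : TT W e)
    (hei : ∀ i, A (e i) ≤ 1) : IntP A (W.Ψ₃.map (algebraMap K M)) := by
  have hs1 : A (e 0 + e 1 + e 2) ≤ 1 := add_le1 hna (add_le1 hna (hei 0) (hei 1)) (hei 2)
  have hs3 : A (e 0 * e 1 * e 2) ≤ 1 := mul_le1 (mul_le1 (hei 0) (hei 1)) (hei 2)
  have hs2 : A (e 0 * e 1 + e 0 * e 2 + e 1 * e 2) ≤ 1 :=
    add_le1 hna (add_le1 hna (mul_le1 (hei 0) (hei 1)) (mul_le1 (hei 0) (hei 2)))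
      (mul_le1 (hei 1) (hei 2))
  have h4 : A (-4 : M) ≤ 1 := by rw [map_neg_eq_map, A4 h2]
  have h12 : A (-12 : M) ≤ 1 := by rw [map_neg_eq_map, A12 h2 h3]
  rw [h.psi3_map]
  refine .add hna (.add hna (.add hna (.add hna (.mul hna (.C h3.le) (.X_pow 4))
    (.mul hna (.C (mul_le1 h4 hs1)) (.X_pow 3))) (.mul hna (.C (mul_le1 (A6 h2 h3).le hs2))
    (.X_pow 2))) (.mul hna (.C (mul_le1 h12 hs3)) .X)) (.C ?_)
  refine sub_le1 hna (mul_le1 (mul_le1 (A4 h2).le hs1) hs3) ?_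
  rw [pow_two]
  exact mul_le1 hs2 hs2

theorem psi4_int (hna : IsNonarchimedean A) (h2 : A 2 = 1) (h : TT W e)
    (hei : ∀ i, A (e i) ≤ 1) : IntP A (W.preΨ₄.map (algebraMap K M)) := by
  have hq : ∀ a b c : M, A a ≤ 1 → A b ≤ 1 → A c ≤ 1 →
      IntP A (X ^ 2 - C (2 * a) * X + C (a * (b + c) - b * c) : M[X]) := by
    intro a b c ha hb hc
    exact .add hna (.sub hna (.X_pow 2) (.mul hna (.C (mul_le1 h2.le ha)) .X))
      (.C (sub_le1 hna (mul_le1 ha (add_le1 hna hb hc)) (mul_le1 hb hc)))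
  rw [h.psi4_map]
  exact .mul hna (.C h2.le) (.mul hna (.mul hna (hq _ _ _ (hei 0) (hei 1) (hei 2))
    (hq _ _ _ (hei 1) (hei 0) (hei 2))) (hq _ _ _ (hei 2) (hei 0) (hei 1)))

theorem psi3_e (h : TT W e) (hee : ∀ i j, i ≠ j → A (e i - e j) = 1) (i : Fin 3) :
    A ((W.Ψ₃.map (algebraMap K M)).eval (e i)) = 1 := by
  rw [h.psi3_map]
  simp only [eval_add, eval_mul, eval_C, eval_pow, eval_X]
  fin_cases i
  · simp only [Fin.zero_eta]
    have : 3 * e 0 ^ 4 + -4 * (e 0 + e 1 + e 2) * e 0 ^ 3 +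
        6 * (e 0 * e 1 + e 0 * e 2 + e 1 * e 2) * e 0 ^ 2 + -12 * (e 0 * e 1 * e 2) * e 0 +
        (4 * (e 0 + e 1 + e 2) * (e 0 * e 1 * e 2) - (e 0 * e 1 + e 0 * e 2 + e 1 * e 2) ^ 2) =
        -((e 0 - e 1) * (e 0 - e 2)) ^ 2 := by ring
    rw [this, map_neg_eq_map, map_pow, map_mul, hee 0 1 (by decide), hee 0 2 (by decide)]
    norm_num
  · simp only [Fin.mk_one]
    have : 3 * e 1 ^ 4 + -4 * (e 0 + e 1 + e 2) * e 1 ^ 3 +
        6 * (e 0 * e 1 + e 0 * e 2 + e 1 * e 2) * e 1 ^ 2 + -12 * (e 0 * e 1 * e 2) * e 1 +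
        (4 * (e 0 + e 1 + e 2) * (e 0 * e 1 * e 2) - (e 0 * e 1 + e 0 * e 2 + e 1 * e 2) ^ 2) =
        -((e 1 - e 0) * (e 1 - e 2)) ^ 2 := by ring
    rw [this, map_neg_eq_map, map_pow, map_mul, hee 1 0 (by decide), hee 1 2 (by decide)]
    norm_num
  · simp only [Fin.reduceFinMk]
    have : 3 * e 2 ^ 4 + -4 * (e 0 + e 1 + e 2) * e 2 ^ 3 +
        6 * (e 0 * e 1 + e 0 * e 2 + e 1 * e 2) * e 2 ^ 2 + -12 * (e 0 * e 1 * e 2) * e 2 +
        (4 * (e 0 + e 1 + e 2) * (e 0 * e 1 * e 2) - (e 0 * e 1 + e 0 * e 2 + e 1 * e 2) ^ 2) =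
        -((e 2 - e 0) * (e 2 - e 1)) ^ 2 := by ring
    rw [this, map_neg_eq_map, map_pow, map_mul, hee 2 0 (by decide), hee 2 1 (by decide)]
    norm_num

theorem psi3_der (h2 : A 2 = 1) (h3 : A 3 = 1) (h : TT W e) {z : M}
    (hz : ∀ i, A (z - e i) = 1) :
    A ((W.Ψ₃.map (algebraMap K M)).derivative.eval z) = 1 := by
  rw [h.psi3_map]
  have : (C 3 * X ^ 4 + C (-4 * (e 0 + e 1 + e 2)) * X ^ 3 +
      C (6 * (e 0 * e 1 + e 0 * e 2 + e 1 * e 2)) * X ^ 2 + C (-12 * (e 0 * e 1 * e 2)) * X +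
      C (4 * (e 0 + e 1 + e 2) * (e 0 * e 1 * e 2) -
        (e 0 * e 1 + e 0 * e 2 + e 1 * e 2) ^ 2) : M[X]).derivative.eval z =
      12 * ((z - e 0) * (z - e 1) * (z - e 2)) := by
    simp only [derivative_add, derivative_mul, derivative_C, derivative_X_pow, derivative_X,
      eval_add, eval_mul, eval_C, eval_pow, eval_X, zero_mul, zero_add, mul_one, Nat.cast_ofNat]
    norm_num
    ring
  rw [this, map_mul, A12 h2 h3, map_mul, map_mul, hz 0, hz 1, hz 2]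
  norm_num

theorem psi4_e (h2 : A 2 = 1) (h : TT W e) (hee : ∀ i j, i ≠ j → A (e i - e j) = 1)
    (i : Fin 3) : A ((W.preΨ₄.map (algebraMap K M)).eval (e i)) = 1 := by
  rw [h.psi4_map]
  simp only [eval_add, eval_sub, eval_mul, eval_C, eval_pow, eval_X]
  fin_cases i
  · simp only [Fin.zero_eta]
    have : 2 * ((e 0 ^ 2 - 2 * e 0 * e 0 + (e 0 * (e 1 + e 2) - e 1 * e 2)) *
        (e 0 ^ 2 - 2 * e 1 * e 0 + (e 1 * (e 0 + e 2) - e 0 * e 2)) *
        (e 0 ^ 2 - 2 * e 2 * e 0 + (e 2 * (e 0 + e 1) - e 0 * e 1))) =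
        -(2 * ((e 0 - e 1) * (e 0 - e 2)) ^ 3) := by ring
    rw [this, map_neg_eq_map, map_mul, h2, map_pow, map_mul, hee 0 1 (by decide),
      hee 0 2 (by decide)]
    norm_num
  · simp only [Fin.mk_one]
    have : 2 * ((e 1 ^ 2 - 2 * e 0 * e 1 + (e 0 * (e 1 + e 2) - e 1 * e 2)) *
        (e 1 ^ 2 - 2 * e 1 * e 1 + (e 1 * (e 0 + e 2) - e 0 * e 2)) *
        (e 1 ^ 2 - 2 * e 2 * e 1 + (e 2 * (e 0 + e 1) - e 0 * e 1))) =
        -(2 * ((e 1 - e 0) * (e 1 - e 2)) ^ 3) := by ring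
    rw [this, map_neg_eq_map, map_mul, h2, map_pow, map_mul, hee 1 0 (by decide),
      hee 1 2 (by decide)]
    norm_num
  · simp only [Fin.reduceFinMk]
    have : 2 * ((e 2 ^ 2 - 2 * e 0 * e 2 + (e 0 * (e 1 + e 2) - e 1 * e 2)) *
        (e 2 ^ 2 - 2 * e 1 * e 2 + (e 1 * (e 0 + e 2) - e 0 * e 2)) *
        (e 2 ^ 2 - 2 * e 2 * e 2 + (e 2 * (e 0 + e 1) - e 0 * e 1))) =
        -(2 * ((e 2 - e 0) * (e 2 - e 1)) ^ 3) := by ring
    rw [this, map_neg_eq_map, map_mul, h2, map_pow, map_mul, hee 2 0 (by decide),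
      hee 2 1 (by decide)]
    norm_num

theorem psi4_der (h2 : A 2 = 1) (h : TT W e) (hee : ∀ i j, i ≠ j → A (e i - e j) = 1) {z : M}
    (hz0 : (W.preΨ₄.map (algebraMap K M)).eval z = 0) (hz : ∀ i, A (z - e i) = 1) :
    A ((W.preΨ₄.map (algebraMap K M)).derivative.eval z) = 1 := by
  rw [h.psi4_map] at hz0 ⊢
  have hder : (C 2 * ((X ^ 2 - C (2 * e 0) * X + C (e 0 * (e 1 + e 2) - e 1 * e 2)) *
      (X ^ 2 - C (2 * e 1) * X + C (e 1 * (e 0 + e 2) - e 0 * e 2)) *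
      (X ^ 2 - C (2 * e 2) * X + C (e 2 * (e 0 + e 1) - e 0 * e 1))) : M[X]).derivative.eval z =
      2 * ((2 * (z - e 0)) * (z ^ 2 - 2 * e 1 * z + (e 1 * (e 0 + e 2) - e 0 * e 2)) *
        (z ^ 2 - 2 * e 2 * z + (e 2 * (e 0 + e 1) - e 0 * e 1)) +
        (z ^ 2 - 2 * e 0 * z + (e 0 * (e 1 + e 2) - e 1 * e 2)) * (2 * (z - e 1)) *
        (z ^ 2 - 2 * e 2 * z + (e 2 * (e 0 + e 1) - e 0 * e 1)) +
        (z ^ 2 - 2 * e 0 * z + (e 0 * (e 1 + e 2) - e 1 * e 2)) *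
        (z ^ 2 - 2 * e 1 * z + (e 1 * (e 0 + e 2) - e 0 * e 2)) * (2 * (z - e 2))) := by
    simp only [derivative_add, derivative_sub, derivative_mul, derivative_C, derivative_X_pow,
      derivative_X, eval_add, eval_sub, eval_mul, eval_C, eval_pow, eval_X, zero_mul, zero_add,
      mul_one, Nat.cast_ofNat, add_zero]
    norm_num
    ring
  rw [hder]
  simp only [eval_add, eval_sub, eval_mul, eval_C, eval_pow, eval_X] at hz0
  have h20 : (2 : M) ≠ 0 := two_ne_zero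
  have fin : ∀ a b c : Fin 3, a ≠ b → a ≠ c →
      A (2 * ((2 * (z - e a)) * (2 * (e a - e b) * (z - e c)) *
        (2 * (e a - e c) * (z - e b)))) = 1 := by
    intro a b c hab hac
    simp only [map_mul, h2, hz, hee a b hab, hee a c hac]
    norm_num
  rcases mul_eq_zero.mp ((mul_eq_zero.mp hz0).resolve_left h20) with h01 | hq
  · rcases mul_eq_zero.mp h01 with hq | hq
    · have e1 : z ^ 2 - 2 * e 1 * z + (e 1 * (e 0 + e 2) - e 0 * e 2) =
          2 * (e 0 - e 1) * (z - e 2) := by linear_combination hq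
      have e2 : z ^ 2 - 2 * e 2 * z + (e 2 * (e 0 + e 1) - e 0 * e 1) =
          2 * (e 0 - e 2) * (z - e 1) := by linear_combination hq
      rw [hq, e1, e2, zero_mul, zero_mul, zero_mul, zero_mul, add_zero, add_zero]
      exact fin 0 1 2 (by decide) (by decide)
    · have e1 : z ^ 2 - 2 * e 0 * z + (e 0 * (e 1 + e 2) - e 1 * e 2) =
          2 * (e 1 - e 0) * (z - e 2) := by linear_combination hq
      have e2 : z ^ 2 - 2 * e 2 * z + (e 2 * (e 0 + e 1) - e 0 * e 1) =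
          2 * (e 1 - e 2) * (z - e 0) := by linear_combination hq
      rw [hq, e1, e2]
      have := fin 1 0 2 (by decide) (by decide)
      rw [← this]
      congr 1
      ring
  · have e1 : z ^ 2 - 2 * e 0 * z + (e 0 * (e 1 + e 2) - e 1 * e 2) =
        2 * (e 2 - e 0) * (z - e 1) := by linear_combination hq
    have e2 : z ^ 2 - 2 * e 1 * z + (e 1 * (e 0 + e 2) - e 0 * e 2) =
        2 * (e 2 - e 1) * (z - e 0) := by linear_combination hq
    rw [hq, e1, e2]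
    have := fin 2 0 1 (by decide) (by decide)
    rw [← this]
    congr 1
    ring

/-- The relation between the division polynomials. -/
theorem psi_rel (h : TT W e) (z : M) :
    (W.preΨ₄.map (algebraMap K M)).eval z =
      (6 * z ^ 2 + algebraMap K M W.b₂ * z + algebraMap K M W.b₄) *
        (W.Ψ₃.map (algebraMap K M)).eval z - (4 * ((z - e 0) * (z - e 1) * (z - e 2))) ^ 2 := by
  rw [h.psi4_map, h.psi3_map, h.b2, h.b4]
  simp only [eval_add, eval_sub, eval_mul, eval_C, eval_pow, eval_X]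
  ring

end

end Pool.Agent.TH919.HS
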