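import Pool.Agent.TH919.HS.Tors5

namespace Pool.Agent.TH919.HS

open Polynomial Finset NumberField IsDedekindDomain WithZero Pool.Agent.W318

section

variable {K : Type} [Field K] {M : Type} [Field M] [CharZero M] [Algebra K M]
  {W : WeierstrassCurve K} {e : Fin 3 → M} {A : AbsoluteValue M ℝ}

theorem z_le (hna : IsNonarchimedean A) (hei : ∀ i, A (e i) ≤ 1) {z : M}
    (hz : ∀ i, A (z - e i) = 1) : A z ≤ 1 := by
  have : z = (z - e 0) + e 0 := by ring
  rw [this]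
  exact add_le1 hna (hz 0).le (hei 0)

theorem psi3_eval_le (hna : IsNonarchimedean A) (h2 : A 2 = 1) (h3 : A 3 = 1) (h : TT W e)
    (hei : ∀ i, A (e i) ≤ 1) {z : M} (hz : A z ≤ 1) :
    A ((W.Ψ₃.map (algebraMap K M)).eval z) ≤ 1 := by
  have hs1 : A (e 0 + e 1 + e 2) ≤ 1 := add_le1 hna (add_le1 hna (hei 0) (hei 1)) (hei 2)
  have hs3 : A (e 0 * e 1 * e 2) ≤ 1 := mul_le1 (mul_le1 (hei 0) (hei 1)) (hei 2)
  have hs2 : A (e 0 * e 1 + e 0 * e 2 + e 1 * e 2) ≤ 1 :=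
    add_le1 hna (add_le1 hna (mul_le1 (hei 0) (hei 1)) (mul_le1 (hei 0) (hei 2)))
      (mul_le1 (hei 1) (hei 2))
  have h4 : A (-4 : M) ≤ 1 := by rw [map_neg_eq_map, A4 h2]
  have h12 : A (-12 : M) ≤ 1 := by rw [map_neg_eq_map, A12 h2 h3]
  have hp : ∀ n : ℕ, A (z ^ n) ≤ 1 := fun n => by
    rw [map_pow]; exact pow_le_one₀ (A.nonneg _) hz
  rw [h.psi3_map]
  simp only [eval_add, eval_mul, eval_C, eval_pow, eval_X]
  refine add_le1 hna (add_le1 hna (add_le1 hna (add_le1 hna (mul_le1 h3.le (hp 4))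
    (mul_le1 (mul_le1 h4 hs1) (hp 3))) (mul_le1 (mul_le1 (A6 h2 h3).le hs2) (hp 2)))
    (mul_le1 (mul_le1 h12 hs3) hz)) ?_
  refine sub_le1 hna (mul_le1 (mul_le1 (A4 h2).le hs1) hs3) ?_
  rw [pow_two]
  exact mul_le1 hs2 hs2

theorem unit_sq (h2 : A 2 = 1) {z : M} (hz : ∀ i, A (z - e i) = 1) :
    A ((4 * ((z - e 0) * (z - e 1) * (z - e 2))) ^ 2) = 1 := by
  rw [map_pow, map_mul, map_mul, map_mul, A4 h2, hz 0, hz 1, hz 2]
  norm_num

theorem psi34_der (hna : IsNonarchimedean A) (h2 : A 2 = 1) (h3 : A 3 = 1) (h : TT W e)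
    (hei : ∀ i, A (e i) ≤ 1) (hee : ∀ i j, i ≠ j → A (e i - e j) = 1) {z : M}
    (hz0 : ((W.Ψ₃ * W.preΨ₄).map (algebraMap K M)).eval z = 0) (hz : ∀ i, A (z - e i) = 1) :
    A (((W.Ψ₃ * W.preΨ₄).map (algebraMap K M)).derivative.eval z) = 1 := by
  rw [Polynomial.map_mul, eval_mul] at hz0
  rw [Polynomial.map_mul, derivative_mul, eval_add, eval_mul, eval_mul]
  have hrel := psi_rel h z
  have hu := unit_sq h2 hz
  have hz1 := z_le hna hei hz
  rcases mul_eq_zero.mp hz0 with h0 | h0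
  · rw [h0, zero_mul, add_zero, map_mul, psi3_der h2 h3 h hz, one_mul]
    rw [h0, mul_zero, zero_sub] at hrel
    rw [hrel, map_neg_eq_map, hu]
  · rw [h0, mul_zero, zero_add, map_mul, psi4_der h2 h hee h0 hz, mul_one]
    rw [h0] at hrel
    have hprod : (6 * z ^ 2 + algebraMap K M W.b₂ * z + algebraMap K M W.b₄) *
        (W.Ψ₃.map (algebraMap K M)).eval z = (4 * ((z - e 0) * (z - e 1) * (z - e 2))) ^ 2 := by
      linear_combination -hrel
    have h5 := hu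
    rw [← hprod, map_mul] at h5
    have hle1 : A (6 * z ^ 2 + algebraMap K M W.b₂ * z + algebraMap K M W.b₄) ≤ 1 := by
      have hs1 : A (e 0 + e 1 + e 2) ≤ 1 := add_le1 hna (add_le1 hna (hei 0) (hei 1)) (hei 2)
      have hs2 : A (e 0 * e 1 + e 0 * e 2 + e 1 * e 2) ≤ 1 :=
        add_le1 hna (add_le1 hna (mul_le1 (hei 0) (hei 1)) (mul_le1 (hei 0) (hei 2)))
          (mul_le1 (hei 1) (hei 2))
      have h4 : A (-4 : M) ≤ 1 := by rw [map_neg_eq_map, A4 h2]
      rw [h.b2, h.b4]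
      refine add_le1 hna (add_le1 hna (mul_le1 (A6 h2 h3).le ?_) (mul_le1 ?_ hz1)) ?_
      · rw [map_pow]; exact pow_le_one₀ (A.nonneg _) hz1
      · exact mul_le1 h4 hs1
      · exact mul_le1 h2.le hs2
    have hle2 := psi3_eval_le hna h2 h3 h hei hz1
    apply le_antisymm hle2
    by_contra hcon
    push Not at hcon
    have : A (6 * z ^ 2 + algebraMap K M W.b₂ * z + algebraMap K M W.b₄) *
        A ((W.Ψ₃.map (algebraMap K M)).eval z) < 1 := by
      calc _ ≤ 1 * A ((W.Ψ₃.map (algebraMap K M)).eval z) :=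
            mul_le_mul_of_nonneg_right hle1 (A.nonneg _)
        _ < 1 := by rwa [one_mul]
    exact absurd h5 this.ne

end

section

variable {K : Type} [Field K] [NumberField K]

theorem rootsOK_psi3 : RootsOK 4 (fun W : WeierstrassCurve K => W.Ψ₃) := by
  intro W M _ _ _ A hna h2 h3 e he hei hee hs
  have hlc : (W.Ψ₃.map (algebraMap K M)).leadingCoeff = 3 := by
    rw [leadingCoeff_map, W.leadingCoeff_Ψ₃ three_ne_zero, map_ofNat]
  exact roots_ok hna hs (by rw [natDegree_map, W.natDegree_Ψ₃ three_ne_zero])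
    (by rw [hlc, h3]) (psi3_int hna h2 h3 he hei) hei (psi3_e he hee)
    (fun z _ hz => psi3_der h2 h3 he hz)

theorem rootsOK_psi4 : RootsOK 6 (fun W : WeierstrassCurve K => W.preΨ₄) := by
  intro W M _ _ _ A hna h2 h3 e he hei hee hs
  have hlc : (W.preΨ₄.map (algebraMap K M)).leadingCoeff = 2 := by
    rw [leadingCoeff_map, W.leadingCoeff_preΨ₄ two_ne_zero, map_ofNat]
  exact roots_ok hna hs (by rw [natDegree_map, W.natDegree_preΨ₄ two_ne_zero])
    (by rw [hlc, h2]) (psi4_int hna h2 he hei) hei (psi4_e h2 he hee)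
    (fun z hz0 hz => psi4_der h2 he hee hz0 hz)

theorem rootsOK_psi34 : RootsOK 10 (fun W : WeierstrassCurve K => W.Ψ₃ * W.preΨ₄) := by
  intro W M _ _ _ A hna h2 h3 e he hei hee hs
  have h30 := W.Ψ₃_ne_zero three_ne_zero
  have h40 := W.preΨ₄_ne_zero two_ne_zero
  have hlc : ((W.Ψ₃ * W.preΨ₄).map (algebraMap K M)).leadingCoeff = 3 * 2 := by
    rw [leadingCoeff_map, leadingCoeff_mul, W.leadingCoeff_Ψ₃ three_ne_zero,
      W.leadingCoeff_preΨ₄ two_ne_zero, map_mul, map_ofNat, map_ofNat]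
  refine roots_ok hna hs ?_ ?_ ?_ hei ?_ ?_
  · rw [natDegree_map, natDegree_mul h30 h40, W.natDegree_Ψ₃ three_ne_zero,
      W.natDegree_preΨ₄ two_ne_zero]
  · rw [hlc, map_mul, h2, h3, one_mul]
  · change IntP A ((W.Ψ₃ * W.preΨ₄).map (algebraMap K M))
    rw [Polynomial.map_mul]
    exact (psi3_int hna h2 h3 he hei).mul hna (psi4_int hna h2 he hei)
  · intro i
    rw [Polynomial.map_mul, eval_mul, map_mul, psi3_e he hee, psi4_e h2 he hee, one_mul]
  · exact fun z hz0 hz => psi34_der hna h2 h3 he hei hee hz0 hz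

theorem hint3 (v : HeightOneSpectrum (𝓞 K)) (W : WeierstrassCurve K) (h : IntAt v W) (i : ℕ) :
    v.valuation K (W.Ψ₃.coeff i) ≤ 1 := by
  obtain ⟨W0, hW⟩ := h.lift
  rw [← hW, WeierstrassCurve.map_Ψ₃, coeff_map]
  exact (W0.Ψ₃.coeff i).2

theorem hint4 (v : HeightOneSpectrum (𝓞 K)) (W : WeierstrassCurve K) (h : IntAt v W) (i : ℕ) :
    v.valuation K (W.preΨ₄.coeff i) ≤ 1 := by
  obtain ⟨W0, hW⟩ := h.lift
  rw [← hW, WeierstrassCurve.map_preΨ₄, coeff_map]
  exact (W0.preΨ₄.coeff i).2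

theorem hint34 (v : HeightOneSpectrum (𝓞 K)) (W : WeierstrassCurve K) (h : IntAt v W) (i : ℕ) :
    v.valuation K ((W.Ψ₃ * W.preΨ₄).coeff i) ≤ 1 := by
  obtain ⟨W0, hW⟩ := h.lift
  rw [← hW, WeierstrassCurve.map_Ψ₃, WeierstrassCurve.map_preΨ₄, ← Polynomial.map_mul, coeff_map]
  exact ((W0.Ψ₃ * W0.preΨ₄).coeff i).2

end

section

variable {K : Type} [Field K]

theorem tors_tt_eval (W : WeierstrassCurve K) (D : WeierstrassCurve.VariableChange K) (x : K) :
    (D • W).twoTorsionPolynomial.toPoly.eval x =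
      ((D.u⁻¹ : Kˣ) : K) ^ 6 *
        W.twoTorsionPolynomial.toPoly.eval ((D.u : K) ^ 2 * x + D.r) := by
  have key : ∀ y : K, (D • W).twoTorsionPolynomial.toPoly.eval (((D.u⁻¹ : Kˣ) : K) ^ 2 * y) =
      ((D.u⁻¹ : Kˣ) : K) ^ 6 * W.twoTorsionPolynomial.toPoly.eval (y + D.r) := by
    intro y
    simp only [WeierstrassCurve.twoTorsionPolynomial, Cubic.toPoly, eval_add, eval_mul, eval_C,
      eval_pow, eval_X, WeierstrassCurve.variableChange_b₂, WeierstrassCurve.variableChange_b₄,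
      WeierstrassCurve.variableChange_b₆]
    ring
  have hx : ((D.u⁻¹ : Kˣ) : K) ^ 2 * ((D.u : K) ^ 2 * x) = x := by
    rw [← mul_assoc, ← mul_pow, Units.inv_mul, one_pow, one_mul]
  rw [← key, hx]

theorem psi3_eval (W : WeierstrassCurve K) (D : WeierstrassCurve.VariableChange K) (x : K) :
    (D • W).Ψ₃.eval x =
      ((D.u⁻¹ : Kˣ) : K) ^ 8 * W.Ψ₃.eval ((D.u : K) ^ 2 * x + D.r) := by
  have key : ∀ y : K, (D • W).Ψ₃.eval (((D.u⁻¹ : Kˣ) : K) ^ 2 * y) =
      ((D.u⁻¹ : Kˣ) : K) ^ 8 * W.Ψ₃.eval (y + D.r) := by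
    intro y
    simp only [WeierstrassCurve.Ψ₃, eval_add, eval_mul, eval_C,
      eval_pow, eval_X, eval_ofNat, WeierstrassCurve.variableChange_b₂,
      WeierstrassCurve.variableChange_b₄,
      WeierstrassCurve.variableChange_b₆, WeierstrassCurve.variableChange_b₈]
    ring
  have hx : ((D.u⁻¹ : Kˣ) : K) ^ 2 * ((D.u : K) ^ 2 * x) = x := by
    rw [← mul_assoc, ← mul_pow, Units.inv_mul, one_pow, one_mul]
  rw [← key, hx]

theorem psi4_eval (W : WeierstrassCurve K) (D : WeierstrassCurve.VariableChange K) (x : K) :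
    (D • W).preΨ₄.eval x =
      ((D.u⁻¹ : Kˣ) : K) ^ 12 * W.preΨ₄.eval ((D.u : K) ^ 2 * x + D.r) := by
  have key : ∀ y : K, (D • W).preΨ₄.eval (((D.u⁻¹ : Kˣ) : K) ^ 2 * y) =
      ((D.u⁻¹ : Kˣ) : K) ^ 12 * W.preΨ₄.eval (y + D.r) := by
    intro y
    have hb8 : W.b₂ * W.b₆ - W.b₄ ^ 2 = 4 * W.b₈ := by
      linear_combination -W.b_relation
    simp only [WeierstrassCurve.preΨ₄, eval_add, eval_mul, eval_C,
      eval_pow, eval_X, eval_ofNat, WeierstrassCurve.variableChange_b₂,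
      WeierstrassCurve.variableChange_b₄,
      WeierstrassCurve.variableChange_b₆, WeierstrassCurve.variableChange_b₈]
    linear_combination ((D.u⁻¹ : Kˣ) : K) ^ 12 * (2 * y * D.r + D.r ^ 2) * hb8
  have hx : ((D.u⁻¹ : Kˣ) : K) ^ 2 * ((D.u : K) ^ 2 * x) = x := by
    rw [← mul_assoc, ← mul_pow, Units.inv_mul, one_pow, one_mul]
  rw [← key, hx]

theorem eqv_of_eval [Infinite K] {h : ℕ} {F F' : K[X]} (hd : F.natDegree ≤ h + h) {u r l : K} (hu : u ≠ 0)
    (hl : l ≠ 0) (he : ∀ x, F'.eval x = l ^ 2 * F.eval (u * x + r)) : Eqv h F F' := by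
  refine ⟨u, r, 0, 1, l, by simpa using hu, hl, ?_⟩
  apply Polynomial.funext
  intro x
  rw [he, eval_mul, eval_C, eval_act hd (by simp)]
  simp

theorem tF_deg {P : WeierstrassCurve K → K[X]} {n : ℕ} (hP : ∀ W, (P W).natDegree ≤ n)
    (W : WeierstrassCurve K) : (tF P W).natDegree ≤ 3 + n := by
  refine natDegree_mul_le.trans (add_le_add ?_ (hP W))
  exact natDegree_cubic_le

theorem ui_ne (D : WeierstrassCurve.VariableChange K) (k : ℕ) :
    ((D.u⁻¹ : Kˣ) : K) ^ k ≠ 0 := pow_ne_zero _ (Units.ne_zero _)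

theorem hE3 [Infinite K] (W : WeierstrassCurve K) (D : WeierstrassCurve.VariableChange K) :
    Eqv (3 + 1) (tF (fun W => W.Ψ₃) W) (tF (fun W => W.Ψ₃) (D • W)) := by
  apply eqv_of_eval (u := (D.u : K) ^ 2) (r := D.r) (l := ((D.u⁻¹ : Kˣ) : K) ^ 7)
    ((tF_deg (n := 4) (fun W => W.natDegree_Ψ₃_le) W).trans (by norm_num))
    (pow_ne_zero _ D.u.ne_zero) (ui_ne D 7)
  intro x
  simp only [tF, eval_mul, tors_tt_eval, psi3_eval]
  ring

theorem hE4 [Infinite K] (W : WeierstrassCurve K) (D : WeierstrassCurve.VariableChange K) :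
    Eqv (4 + 1) (tF (fun W => W.preΨ₄) W) (tF (fun W => W.preΨ₄) (D • W)) := by
  apply eqv_of_eval (u := (D.u : K) ^ 2) (r := D.r) (l := ((D.u⁻¹ : Kˣ) : K) ^ 9)
    ((tF_deg (n := 6) (fun W => W.natDegree_preΨ₄_le) W).trans (by norm_num))
    (pow_ne_zero _ D.u.ne_zero) (ui_ne D 9)
  intro x
  simp only [tF, eval_mul, tors_tt_eval, psi4_eval]
  ring

theorem hE34 [Infinite K] (W : WeierstrassCurve K) (D : WeierstrassCurve.VariableChange K) :
    Eqv (6 + 1) (tF (fun W => W.Ψ₃ * W.preΨ₄) W) (tF (fun W => W.Ψ₃ * W.preΨ₄) (D • W)) := by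
  apply eqv_of_eval (u := (D.u : K) ^ 2) (r := D.r) (l := ((D.u⁻¹ : Kˣ) : K) ^ 13)
    ((tF_deg (n := 10) (fun W => natDegree_mul_le.trans
      (add_le_add W.natDegree_Ψ₃_le W.natDegree_preΨ₄_le)) W).trans (by norm_num))
    (pow_ne_zero _ D.u.ne_zero) (ui_ne D 13)
  intro x
  simp only [tF, eval_mul, tors_tt_eval, psi3_eval, psi4_eval]
  ring

end

section

variable {K : Type} [Field K] [NumberField K]

/-- Uniform boundedness in genus `3`, `4` or `6` over `K` implies Szpiro's conjecture over `K`. -/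
theorem ell_of_szp346 (h : SzpiroOver K 3 ∨ SzpiroOver K 4 ∨ SzpiroOver K 6) :
    SzpiroEllOver K := by
  rcases h with h | h | h
  · exact ell_of_szp (by norm_num) (by norm_num) rootsOK_psi3
      (fun W => W.Ψ₃_ne_zero three_ne_zero) (fun W D => hE3 W D) hint3 h
  · exact ell_of_szp (by norm_num) (by norm_num) rootsOK_psi4
      (fun W => W.preΨ₄_ne_zero two_ne_zero) (fun W D => hE4 W D) hint4 h
  · exact ell_of_szp (by norm_num) (by norm_num) rootsOK_psi34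
      (fun W => mul_ne_zero (W.Ψ₃_ne_zero three_ne_zero) (W.preΨ₄_ne_zero two_ne_zero))
      (fun W D => hE34 W D) hint34 h

end

end Pool.Agent.TH919.HS
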