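import Pool.Agent.TH919.HS.Good

namespace Pool.Agent.TH919.HS

open Polynomial Finset NumberField IsDedekindDomain WithZero Pool.Agent.W318

section

variable {K L : Type} [Field K] [NumberField K] [Field L] [NumberField L] [Algebra K L]

omit [NumberField K] in
theorem inertia_decG (w : HeightOneSpectrum (𝓞 L)) {σ : L ≃ₐ[K] L}
    (hσ : ∀ x : 𝓞 L, w.valuation L (σ (x : L) - x) < 1) : σ ∈ decG K w := by
  apply mem_decG_of_primeComap_eq
  ext x
  rw [primeComap, Ideal.mem_comap, ← HeightOneSpectrum.valuation_lt_one_iff_mem (K := L),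
    ← HeightOneSpectrum.valuation_lt_one_iff_mem (K := L)]
  change w.valuation L (σ (x : L)) < 1 ↔ w.valuation L (x : L) < 1
  have h := hσ x
  constructor
  · intro h1
    have : (x : L) = σ (x : L) - (σ (x : L) - x) := by ring
    rw [this]
    exact Valuation.map_sub_lt _ h1 h
  · intro h1
    have : σ (x : L) = (σ (x : L) - x) + x := by ring
    rw [this]
    exact Valuation.map_add_lt _ h h1

omit [NumberField K] in
theorem inertia_close (w : HeightOneSpectrum (𝓞 L)) {σ : L ≃ₐ[K] L}
    (hσ : ∀ x : 𝓞 L, w.valuation L (σ (x : L) - x) < 1) {r : L} (hr : absW w r ≤ 1) :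
    absW w (σ r - r) < 1 := by
  have hdec := inertia_decG w hσ
  obtain ⟨a, ha⟩ := w.exists_valuation_sub_lt_of_integer ((absW_le_one_iff w r).mp hr) 1
  rw [Units.val_one] at ha
  have h1 : w.valuation L (σ r - r) < 1 := by
    have e : σ r - r = (σ (a : L) - a) - (σ ((a : L) - r) - ((a : L) - r)) := by
      rw [map_sub]; ring
    rw [e]
    apply Valuation.map_sub_lt _ (hσ a)
    apply Valuation.map_sub_lt
    · rw [hdec]; exact ha
    · exact ha
  refine lt_of_le_of_ne ((absW_le_one_iff w _).mpr h1.le) ?_
  rw [Ne, absW_eq_one_iff]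
  exact h1.ne

omit [NumberField K] in
theorem inertia_close2 (w : HeightOneSpectrum (𝓞 L)) {σ : L ≃ₐ[K] L}
    (hσ : ∀ x : 𝓞 L, w.valuation L (σ (x : L) - x) < 1) {x y : L}
    (h0 : 0 < max (absW w x) (absW w y)) :
    absW w (x * σ y - y * σ x) < max (absW w x) (absW w y) ^ 2 := by
  have hdec := inertia_decG w hσ
  have hiso : ∀ z, absW w (σ z) = absW w z := fun z => absW_congr w (hdec z)
  rcases le_total (absW w x) (absW w y) with h | h
  · rw [max_eq_right h] at h0 ⊢
    have hy : y ≠ 0 := by
      rintro rfl
      simp at h0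
    have hσy : σ y ≠ 0 := by simpa using hy
    have hr : absW w (x / y) ≤ 1 := by
      rw [map_div₀]
      exact div_le_one_of_le₀ h h0.le
    have e : x * σ y - y * σ x = -(y * σ y * (σ (x / y) - x / y)) := by
      rw [map_div₀]
      field_simp
      ring
    rw [e, map_neg_eq_map, map_mul, map_mul, hiso, sq]
    calc _ < absW w y * absW w y * 1 :=
          mul_lt_mul_of_pos_left (inertia_close w hσ hr) (mul_pos h0 h0)
      _ = _ := mul_one _
  · rw [max_eq_left h] at h0 ⊢
    have hx : x ≠ 0 := by
      rintro rfl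
      simp at h0
    have hσx : σ x ≠ 0 := by simpa using hx
    have hr : absW w (y / x) ≤ 1 := by
      rw [map_div₀]
      exact div_le_one_of_le₀ h h0.le
    have e : x * σ y - y * σ x = x * σ x * (σ (y / x) - y / x) := by
      rw [map_div₀]
      field_simp
    rw [e, map_mul, map_mul, hiso, sq]
    calc _ < absW w x * absW w x * 1 :=
          mul_lt_mul_of_pos_left (inertia_close w hσ hr) (mul_pos h0 h0)
      _ = _ := mul_one _

omit [NumberField K] [NumberField L] in
theorem roots_perm {n : ℕ} {F : K[X]} {u : L} {α β : Fin n → L} (hu : u ≠ 0)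
    (hfac : F.map (algebraMap K L) = C u * ∏ i, (C (α i) * X + C (β i)))
    (σ : L ≃ₐ[K] L) (j : Fin n) : ∃ j', σ (α j) * β j' = σ (β j) * α j' := by
  by_cases hj : α j = 0
  · exact ⟨j, by rw [hj, map_zero, zero_mul, mul_zero]⟩
  · have h1 : (F.map (algebraMap K L)).eval (-β j / α j) = 0 := by
      rw [hfac, eval_mul, eval_prod, Finset.prod_eq_zero (mem_univ j), mul_zero]
      simp only [eval_add, eval_mul, eval_C, eval_X]
      field_simp
      ring
    have h2 : (F.map (algebraMap K L)).eval (σ (-β j / α j)) = 0 := by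
      rw [eval_map_algebraMap] at h1 ⊢
      have : aeval (σ (-β j / α j)) F = σ (aeval (-β j / α j) F) :=
        aeval_algHom_apply (σ : L →ₐ[K] L) _ _
      rw [this, h1, map_zero]
    rw [hfac, eval_mul, eval_C, mul_eq_zero, eval_prod, Finset.prod_eq_zero_iff] at h2
    obtain ⟨j', _, hj'⟩ := h2.resolve_left hu
    refine ⟨j', ?_⟩
    simp only [eval_add, eval_mul, eval_C, eval_X, map_div₀, map_neg] at hj'
    have hσ0 : σ (α j) ≠ 0 := by simpa using hj
    field_simp at hj'
    linear_combination hj'

theorem ram_eq_one [IsGalois K L] {g : ℕ} (hg : 2 ≤ g) {F : K[X]} (hF : IsHyp g F)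
    (v : HeightOneSpectrum (𝓞 K)) (w : HeightOneSpectrum (𝓞 L)) [w.asIdeal.LiesOver v.asIdeal]
    (h2 : v.valuation K ((2 : ℕ) : K) = 1) (hv : minExp g F v = 0)
    {u : L} {α β : Fin (g + 1 + (g + 1)) → L} (hu : u ≠ 0)
    (hne : ∀ i j, i ≠ j → br α β i j ≠ 0)
    (hfac : F.map (algebraMap K L) = C u * ∏ i, (C (α i) * X + C (β i)))
    (hgen : ∀ σ : L ≃ₐ[K] L, (∀ i, σ (α i) * β i = σ (β i) * α i) → σ = 1) :
    v.asIdeal.ramificationIdx' w.asIdeal = 1 := by
  classical
  have hwm : w.asIdeal.IsMaximal := w.isMaximal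
  have hvm : v.asIdeal.IsMaximal := v.isMaximal
  have hwp : w.asIdeal.IsPrime := w.isPrime
  have hvp : v.asIdeal.IsPrime := v.isPrime
  obtain ⟨a, b, c, d, hdet, hpos, hfar⟩ := exists_far hg hF v w h2 hv hu hne hfac
  set φ := algebraMap K L with hφ
  set α' := fun i => α i * φ a + β i * φ c with hα'
  set β' := fun i => α i * φ b + β i * φ d with hβ'
  have hbot : ∀ σ ∈ w.asIdeal.inertia (L ≃ₐ[K] L), σ = 1 := by
    intro σ hσ
    have hσ' : ∀ x : 𝓞 L, w.valuation L (σ (x : L) - x) < 1 := by
      intro x
      have h1 : σ • x - x ∈ w.asIdeal := hσ x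
      rw [← HeightOneSpectrum.valuation_lt_one_iff_mem (K := L)] at h1
      exact h1
    have hdec := inertia_decG w hσ'
    have hiso : ∀ z, absW w (σ z) = absW w z := fun z => absW_congr w (hdec z)
    apply hgen
    intro i
    obtain ⟨j, hj⟩ := roots_perm hu hfac σ i
    by_cases hij : i = j
    · rw [← hij] at hj; exact hj
    exfalso
    have hσα : σ (α' i) = σ (α i) * φ a + σ (β i) * φ c := by
      simp only [hα', map_add, map_mul, hφ, AlgEquiv.commutes]
    have hσβ : σ (β' i) = σ (α i) * φ b + σ (β i) * φ d := by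
      simp only [hβ', map_add, map_mul, hφ, AlgEquiv.commutes]
    have hj' : σ (α' i) * β' j = σ (β' i) * α' j := by
      rw [hσα, hσβ]
      simp only [hα', hβ']
      linear_combination (φ a * φ d - φ b * φ c) * hj
    have hclose := inertia_close2 w hσ' (x := α' i) (y := β' i) (hpos i)
    have hfar' := hfar i j hij
    have hpi := hpos i
    have hpj := hpos j
    have hmi : mx (absW w) α' β' i = max (absW w (α' i)) (absW w (β' i)) := rfl
    have hmj : mx (absW w) α' β' j = max (absW w (α' j)) (absW w (β' j)) := rfl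
    have hlt : mx (absW w) α' β' i * absW w (br α' β' i j) <
        mx (absW w) α' β' i * (mx (absW w) α' β' i * mx (absW w) α' β' j) := by
      rcases le_total (absW w (α' i)) (absW w (β' i)) with h | h
      · have e1 : mx (absW w) α' β' i = absW w (σ (β' i)) := by
          rw [hmi, max_eq_right h, hiso]
        have e2 : σ (β' i) * br α' β' i j = β' j * (α' i * σ (β' i) - β' i * σ (α' i)) := by
          unfold br
          linear_combination (β' i) * hj'
        calc mx (absW w) α' β' i * absW w (br α' β' i j)
            = absW w (β' j) * absW w (α' i * σ (β' i) - β' i * σ (α' i)) := by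
              rw [e1, ← map_mul, e2, map_mul]
          _ ≤ mx (absW w) α' β' j * absW w (α' i * σ (β' i) - β' i * σ (α' i)) :=
              mul_le_mul_of_nonneg_right (le_max_right _ _) ((absW w).nonneg _)
          _ < mx (absW w) α' β' j * mx (absW w) α' β' i ^ 2 :=
              mul_lt_mul_of_pos_left hclose hpj
          _ = _ := by ring
      · have e1 : mx (absW w) α' β' i = absW w (σ (α' i)) := by
          rw [hmi, max_eq_left h, hiso]
        have e2 : σ (α' i) * br α' β' i j = α' j * (α' i * σ (β' i) - β' i * σ (α' i)) := by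
          unfold br
          linear_combination (α' i) * hj'
        calc mx (absW w) α' β' i * absW w (br α' β' i j)
            = absW w (α' j) * absW w (α' i * σ (β' i) - β' i * σ (α' i)) := by
              rw [e1, ← map_mul, e2, map_mul]
          _ ≤ mx (absW w) α' β' j * absW w (α' i * σ (β' i) - β' i * σ (α' i)) :=
              mul_le_mul_of_nonneg_right (le_max_left _ _) ((absW w).nonneg _)
          _ < mx (absW w) α' β' j * mx (absW w) α' β' i ^ 2 :=
              mul_lt_mul_of_pos_left hclose hpj
          _ = _ := by ring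
    rw [hfar'] at hlt
    exact lt_irrefl _ hlt
  have hcard : Nat.card (w.asIdeal.inertia (L ≃ₐ[K] L)) =
      Ideal.ramificationIdxIn v.asIdeal (𝓞 L) :=
    Ideal.card_inertia_eq_ramificationIdxIn v.asIdeal w.asIdeal
  have hone : Nat.card (w.asIdeal.inertia (L ≃ₐ[K] L)) = 1 := by
    have : w.asIdeal.inertia (L ≃ₐ[K] L) = ⊥ := by
      rw [eq_bot_iff]
      intro σ hσ
      rw [Subgroup.mem_bot]
      exact hbot σ hσ
    rw [this]
    exact Subgroup.card_bot
  rw [hone, Ideal.ramificationIdxIn_eq_ramificationIdx v.asIdeal w.asIdeal (L ≃ₐ[K] L)] at hcard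
  rw [Ideal.ramificationIdx'_eq_ramificationIdx v.asIdeal w.asIdeal v.ne_bot]
  exact hcard.symm

end

/-- The splitting field as a number field. -/
theorem exists_split {K : Type} [Field K] [NumberField K] {F : K[X]} (hF : Squarefree F) :
    ∃ (L : Type) (_ : Field L) (_ : NumberField L) (_ : Algebra K L) (_ : IsGalois K L),
      (F.map (algebraMap K L)).Splits ∧ Module.finrank K L ≤ (F.natDegree).factorial ∧
      ∀ σ : L ≃ₐ[K] L, (∀ r : L, aeval r F = 0 → σ r = r) → σ = 1 := by
  classical
  let L := F.SplittingField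
  have hsep : F.Separable := PerfectField.separable_iff_squarefree.mpr hF
  have : CharZero L := charZero_of_injective_algebraMap (algebraMap K L).injective
  have : FiniteDimensional K L := inferInstance
  have : FiniteDimensional ℚ L := by
    have : IsScalarTower ℚ K L := IsScalarTower.of_algebraMap_eq fun x => by simp
    exact FiniteDimensional.trans ℚ K L
  have : NumberField L := { }
  have hgal : IsGalois K L := IsGalois.of_separable_splitting_field (p := F) hsep
  refine ⟨L, inferInstance, inferInstance, inferInstance, hgal, SplittingField.splits F, ?_, ?_⟩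
  · have h1 : Nat.card F.Gal = Module.finrank K L := Polynomial.Gal.card_of_separable hsep
    have hs : Fact ((F.map (algebraMap K L)).Splits) := ⟨SplittingField.splits F⟩
    have h2 := Nat.card_le_card_of_injective _ (Polynomial.Gal.galActionHom_injective F L)
    rw [h1, Nat.card_perm] at h2
    refine h2.trans (Nat.factorial_le ?_)
    rw [Nat.card_eq_fintype_card]
    exact (card_rootSet_eq_natDegree hsep (SplittingField.splits F)).le
  · intro σ hσ
    have h1 : (σ : L →ₐ[K] L) = AlgHom.id K L := by
      apply AlgHom.ext_of_adjoin_eq_top (SplittingField.adjoin_rootSet F)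
      intro r hr
      rw [mem_rootSet] at hr
      exact hσ r hr.2
    ext x
    exact DFunLike.congr_fun h1 x

end Pool.Agent.TH919.HS
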