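import Pool.Agent.TH919.HS.Norms
import Pool.Agent.TH919.HS.CR

namespace Pool.Agent.TH919.HS

open Polynomial Finset NumberField IsDedekindDomain WithZero Pool.Agent.W318

/-- Quadruples of distinct indices. -/
def quads (n : ℕ) : Finset (Fin n × Fin n × Fin n × Fin n) :=
  univ.filter fun q => q.1 ≠ q.2.1 ∧ q.1 ≠ q.2.2.1 ∧ q.1 ≠ q.2.2.2 ∧ q.2.1 ≠ q.2.2.1 ∧
    q.2.1 ≠ q.2.2.2 ∧ q.2.2.1 ≠ q.2.2.2

/-- The cross ratio of a quadruple. -/
noncomputable def crq {M : Type*} [Field M] {n : ℕ} (α β : Fin n → M)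
    (q : Fin n × Fin n × Fin n × Fin n) : M := cr α β q.1 q.2.1 q.2.2.1 q.2.2.2

theorem crq_ne_zero {M : Type*} [Field M] {n : ℕ} {α β : Fin n → M}
    (hne : ∀ i j, i ≠ j → br α β i j ≠ 0) {q : Fin n × Fin n × Fin n × Fin n}
    (hq : q ∈ quads n) : crq α β q ≠ 0 := by
  rw [quads, mem_filter] at hq
  obtain ⟨_, h1, h2, h3, h4, h5, h6⟩ := hq
  unfold crq cr
  exact div_ne_zero (mul_ne_zero (hne _ _ h1) (hne _ _ h6)) (mul_ne_zero (hne _ _ h2) (hne _ _ h5))

theorem crq_ne_one {M : Type*} [Field M] {n : ℕ} {α β : Fin n → M}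
    (hne : ∀ i j, i ≠ j → br α β i j ≠ 0) {q : Fin n × Fin n × Fin n × Fin n}
    (hq : q ∈ quads n) : crq α β q ≠ 1 := by
  rw [quads, mem_filter] at hq
  obtain ⟨_, h1, h2, h3, h4, h5, h6⟩ := hq
  intro h
  have h7 := one_sub_cr (hne _ _ h2) (hne _ _ h5)
  unfold crq at h
  rw [h, sub_self] at h7
  exact div_ne_zero (mul_ne_zero (hne _ _ h3) (hne _ _ h4))
    (mul_ne_zero (hne _ _ h2) (hne _ _ h5)) h7.symm

variable {L : Type} [Field L] [NumberField L]

theorem val_two (w : HeightOneSpectrum (𝓞 L)) :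
    w.valuation L (2 : L) = exp (-(ordAbs w ((2 : ℕ) : L) : ℤ)) := by
  have := val_nat_exp w (n := 2) (by norm_num)
  rwa [Nat.cast_ofNat] at this ⊢

omit [NumberField L] in
/-- The moved points. -/
theorem exists_std (A : AbsoluteValue L ℝ) {n : ℕ} (hn : 3 ≤ n) {α β : Fin n → L}
    (hne : ∀ i j, i ≠ j → br α β i j ≠ 0) :
    ∃ a b c d : L, a * d - b * c ≠ 0 ∧ ∃ p : Fin 3 → Fin n, ∀ s t, s ≠ t →
      A (br (fun i => α i * a + β i * c) (fun i => α i * b + β i * d) (p s) (p t)) =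
        mx A (fun i => α i * a + β i * c) (fun i => α i * b + β i * d) (p s) *
          mx A (fun i => α i * a + β i * c) (fun i => α i * b + β i * d) (p t) := by
  set i0 : Fin n := ⟨0, by omega⟩ with hi0
  set i1 : Fin n := ⟨1, by omega⟩ with hi1
  set i2 : Fin n := ⟨2, by omega⟩ with hi2
  have h01 : i0 ≠ i1 := by simp [hi0, hi1]
  have h02 : i0 ≠ i2 := by simp [hi0, hi2]
  have h12 : i1 ≠ i2 := by simp [hi1, hi2]
  set x := br α β i0 i2 with hx
  set y := br α β i1 i2 with hy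
  set z := br α β i0 i1 with hz
  have hx0 : x ≠ 0 := hne _ _ h02
  have hy0 : y ≠ 0 := hne _ _ h12
  have hz0 : z ≠ 0 := hne _ _ h01
  have hdet : (-(β i1) * x) * (α i0 * y) - (-(β i0) * y) * (α i1 * x) = -(x * y * z) := by
    rw [hz]; unfold br; ring
  refine ⟨-(β i1) * x, -(β i0) * y, α i1 * x, α i0 * y, ?_, ![i0, i1, i2], ?_⟩
  · rw [hdet]
    exact neg_ne_zero.mpr (mul_ne_zero (mul_ne_zero hx0 hy0) hz0)
  set α' := fun i => α i * (-(β i1) * x) + β i * (α i1 * x) with hα'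
  set β' := fun i => α i * (-(β i0) * y) + β i * (α i0 * y) with hβ'
  have hAx : 0 < A x := A.pos hx0
  have hAy : 0 < A y := A.pos hy0
  have hAz : 0 < A z := A.pos hz0
  have m0 : mx A α' β' i0 = A x * A z := by
    have e1 : α' i0 = -(x * z) := by rw [hα', hz]; unfold br; ring
    have e2 : β' i0 = 0 := by rw [hβ']; ring
    rw [mx, e1, e2, map_neg_eq_map, map_mul, map_zero]
    exact max_eq_left (mul_pos hAx hAz).le
  have m1 : mx A α' β' i1 = A y * A z := by
    have e1 : α' i1 = 0 := by rw [hα']; ring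
    have e2 : β' i1 = y * z := by rw [hβ', hz]; unfold br; ring
    rw [mx, e1, e2, map_mul, map_zero]
    exact max_eq_right (mul_pos hAy hAz).le
  have m2 : mx A α' β' i2 = A x * A y := by
    have e1 : α' i2 = x * y := by rw [hα', hy]; unfold br; ring
    have e2 : β' i2 = x * y := by rw [hβ', hx]; unfold br; ring
    rw [mx, e1, e2, map_mul, max_self]
  have hb : ∀ i j, A (br α' β' i j) = A x * A y * A z * A (br α β i j) := by
    intro i j
    rw [hα', hβ', br_act, hdet, map_mul, map_neg_eq_map, map_mul, map_mul]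
  have hs : ∀ i j, A (br α' β' i j) = A (br α' β' j i) := by
    intro i j
    rw [br_comm, map_neg_eq_map]
  have e01 : A (br α' β' i0 i1) = mx A α' β' i0 * mx A α' β' i1 := by
    rw [hb, m0, m1, ← hz]; ring
  have e02 : A (br α' β' i0 i2) = mx A α' β' i0 * mx A α' β' i2 := by
    rw [hb, m0, m2, ← hx]; ring
  have e12 : A (br α' β' i1 i2) = mx A α' β' i1 * mx A α' β' i2 := by
    rw [hb, m1, m2, ← hy]; ring
  intro s t hst
  fin_cases s <;> fin_cases t <;> first | exact absurd rfl hst | skip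
  · exact e01
  · exact e02
  · exact (hs _ _).trans (e01.trans (mul_comm _ _))
  · exact e12
  · exact (hs _ _).trans (e02.trans (mul_comm _ _))
  · exact (hs _ _).trans (e12.trans (mul_comm _ _))

theorem local_upper {g : ℕ} (hg : 1 ≤ g) {F : L[X]} (hF : IsHyp g F) {u : L}
    {α β : Fin (g + 1 + (g + 1)) → L} (hu : u ≠ 0) (hne : ∀ i j, i ≠ j → br α β i j ≠ 0)
    (hfac : F = C u * ∏ i, (C (α i) * X + C (β i))) (w : HeightOneSpectrum (𝓞 L)) :
    minExp g F w ≤ 4 * g * ordAbs w ((2 : ℕ) : L) + (2 * (g + 1 + (g + 1) - 1) +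
      (g + 1 + (g + 1)) * (g + 1 + (g + 1) - 1) *
        ∑ q ∈ quads (g + 1 + (g + 1)), ordAbs w (crq α β q)) := by
  classical
  have hna := absW_na w
  obtain ⟨a, b, c, d, hdet, p, hp⟩ := exists_std (absW w) (by omega) hne
  set α' := fun i => α i * a + β i * c with hα'
  set β' := fun i => α i * b + β i * d with hβ'
  have hne' : ∀ i j, i ≠ j → br α' β' i j ≠ 0 := by
    intro i j hij
    rw [hα', hβ', br_act]
    exact mul_ne_zero hdet (hne i j hij)
  have hpos : ∀ i, 0 < mx (absW w) α' β' i := by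
    intro i
    obtain ⟨j, hj⟩ : ∃ j, i ≠ j := by
      have : Nontrivial (Fin (g + 1 + (g + 1))) := Fin.nontrivial_iff_two_le.mpr (by omega)
      obtain ⟨j, hj⟩ := exists_ne i
      exact ⟨j, hj.symm⟩
    exact mx_pos hna (hne' i j hj)
  set Sw := ∑ q ∈ quads (g + 1 + (g + 1)), ordAbs w (crq α β q) with hSw
  have hlow : ∀ i j, i ≠ j → mx (absW w) α' β' i * mx (absW w) α' β' j * (1 / 2 : ℝ) ^ Sw ≤
      absW w (br α' β' i j) := by
    intro i j hij
    have hmm : 0 ≤ mx (absW w) α' β' i * mx (absW w) α' β' j :=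
      mul_nonneg (mx_nonneg _) (mx_nonneg _)
    rcases exists_cr hna hpos p hp (i := i) (j := j) with h | ⟨s, t, h1, h2, h3, h4, h5, h⟩
    · rw [h]
      exact mul_le_of_le_one_right hmm (pow_le_one₀ (by norm_num) (by norm_num))
    · rw [h]
      refine mul_le_mul_of_nonneg_left ?_ hmm
      have hq : (i, j, s, t) ∈ quads (g + 1 + (g + 1)) := by
        rw [quads, mem_filter]
        exact ⟨mem_univ _, hij, h1, h2, h3, h4, h5⟩
      have e1 : cr α' β' i j s t = crq α β (i, j, s, t) := by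
        rw [hα', hβ', cr_act α β hdet]; rfl
      rw [e1]
      refine le_trans ?_ (absW_pow_ordAbs_le w (crq_ne_zero hne hq))
      apply pow_le_pow_of_le_one (by norm_num) (by norm_num)
      exact Finset.single_le_sum (f := fun q => ordAbs w (crq α β q)) (fun _ _ => Nat.zero_le _) hq
  -- normalisation
  set G : L[X] := C u * ∏ i, (C (α' i) * X + C (β' i)) with hG
  have hGn : G.gaussNorm (absW w) 1 = absW w u * ∏ i, mx (absW w) α' β' i := by
    rw [hG, gaussNorm_prod_lin hna]; rfl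
  have hXpos : 0 < absW w u * ∏ i, mx (absW w) α' β' i :=
    mul_pos ((absW w).pos hu) (Finset.prod_pos fun i _ => hpos i)
  obtain ⟨k, hk⟩ : ∃ k : ℤ, absW w u * ∏ i, mx (absW w) α' β' i = 2 ^ k := by
    obtain ⟨i, hi⟩ := exists_coeff_eq_gaussNorm (A := absW w) G
    have hc0 : G.coeff i ≠ 0 := by
      intro h0
      rw [h0, map_zero, hGn] at hi
      exact hXpos.ne' hi
    obtain ⟨k, hk⟩ := exists_exp w hc0
    exact ⟨k, by rw [← hGn, hi, absW_exp w hk]⟩
  obtain ⟨ϖ, hϖ⟩ := w.valuation_exists_uniformizer L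
  have hϖ0 : ϖ ≠ 0 := by
    rintro rfl
    rw [map_zero] at hϖ
    exact exp_ne_zero hϖ.symm
  set l := ϖ ^ ((k + 1) / 2) with hl
  have hl0 : l ≠ 0 := zpow_ne_zero _ hϖ0
  have hAl : absW w l = 2 ^ (-((k + 1) / 2)) := by
    rw [hl, map_zpow₀, absW_exp w hϖ, ← zpow_mul]
    congr 1
    ring
  have hnorm : absW w (l ^ 2 * u) * ∏ i, mx (absW w) α' β' i =
      2 ^ (k - 2 * ((k + 1) / 2)) := by
    rw [map_mul, map_pow, mul_assoc, hk, hAl, ← zpow_natCast, ← zpow_mul,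
      ← zpow_add₀ (by norm_num : (2 : ℝ) ≠ 0)]
    congr 1
    push_cast
    ring
  have hle1 : absW w (l ^ 2 * u) * ∏ i, mx (absW w) α' β' i ≤ 1 := by
    rw [hnorm]
    apply zpow_le_one_of_nonpos₀ (by norm_num)
    omega
  have hge : (1 / 2 : ℝ) ≤ absW w (l ^ 2 * u) * ∏ i, mx (absW w) α' β' i := by
    rw [hnorm]
    have : (1 / 2 : ℝ) = 2 ^ (-1 : ℤ) := by norm_num
    rw [this]
    apply zpow_le_zpow_right₀ (by norm_num)
    omega
  set F' := C (l ^ 2) * act (g + 1 + (g + 1)) a b c d F with hF'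
  have he : Eqv (g + 1) F F' := ⟨a, b, c, d, l, hdet, hl0, rfl⟩
  have hF'' : F' = C (l ^ 2 * u) * ∏ i, (C (α' i) * X + C (β' i)) := by
    rw [hF', hfac, sq_act_prod hdet]
  have hint : ∀ i, w.valuation L (F'.coeff i) ≤ 1 := by
    have h1 : F'.gaussNorm (absW w) 1 ≤ 1 := by
      rw [hF'', gaussNorm_prod_lin hna]
      exact hle1
    intro i
    rw [← absW_le_one_iff]
    exact (gaussNorm_le_one_iff _).mp h1 i
  obtain ⟨k', hk', _, hle⟩ := minExp_le hF w he hint (val_two w)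
  have hd := abs_discN_prod_lin (absW w) (mul_ne_zero (pow_ne_zero 2 hl0) hu) α' β'
    (fun i j hij => hne' i j hij) (by rw [Fintype.card_fin]; omega)
  rw [Fintype.card_fin, ← hF'', absW_exp w hk'] at hd
  have hd2 := disc_lower (A := absW w) (α := α') (β := β') (E := (1 / 2 : ℝ) ^ Sw)
    (by positivity) hlow
  have hd3 : (1 / 2 : ℝ) ^ (2 * (g + 1 + (g + 1) - 1) +
      (g + 1 + (g + 1)) * (g + 1 + (g + 1) - 1) * Sw) ≤ (2 : ℝ) ^ (-(k' : ℤ)) := by
    rw [hd]
    have hA0 : 0 ≤ absW w (l ^ 2 * u) ^ (2 * (g + 1 + (g + 1) - 1)) :=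
      pow_nonneg ((absW w).nonneg _) _
    refine le_trans ?_ (mul_le_mul_of_nonneg_left hd2 hA0)
    rw [← mul_assoc, ← mul_pow, pow_add]
    rw [show (1 / 2 : ℝ) ^ ((g + 1 + (g + 1)) * (g + 1 + (g + 1) - 1) * Sw) =
      ((1 / 2 : ℝ) ^ Sw) ^ ((g + 1 + (g + 1)) * (g + 1 + (g + 1) - 1)) by
        rw [← pow_mul, mul_comm Sw]]
    refine mul_le_mul_of_nonneg_right ?_ (by positivity)
    exact pow_le_pow_left₀ (by norm_num) hge _
  have hd4 : k' ≤ 2 * (g + 1 + (g + 1) - 1) +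
      (g + 1 + (g + 1)) * (g + 1 + (g + 1) - 1) * Sw := by
    generalize 2 * (g + 1 + (g + 1) - 1) + (g + 1 + (g + 1)) * (g + 1 + (g + 1) - 1) * Sw = N at hd3
    have e1 : (2 : ℝ) ^ (-(k' : ℤ)) = (1 / 2 : ℝ) ^ k' := by
      rw [zpow_neg, zpow_natCast, one_div, inv_pow]
    rw [e1] at hd3
    exact (pow_le_pow_iff_right_of_lt_one₀ (by norm_num) (by norm_num)).mp hd3
  omega

end Pool.Agent.TH919.HS
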